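import Pool.Agent.CycMC.Targets

/-!
# BAND1: a pair of arcs with many links contains a band
-/

set_option autoImplicit false

namespace Pool.Agent.CycMC

open Finset
open Pool.Agent.CycSp (Pt Cyc ZD)

theorem p_BAND1 : T_BAND1 := by
  intro P Q D θ hQP hD hθ h1 hinj hdg
  have hQne : Q.Nonempty := by
    rw [← Finset.card_pos]
    omega
  obtain ⟨p, hpQ, hp⟩ := Finset.exists_min_image Q (fun x => x.2) hQne
  set S := Q.filter (fun x => ¬ x.1 = p.1) with hS
  have hcard : Q.card ≤ D + S.card := by
    have h2 := Finset.card_filter_add_card_filter_not (s := Q) (fun x => x.1 = p.1)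
    have h3 : (Q.filter (fun x => x.1 = p.1)).card ≤ D := by
      refine le_trans ?_ (hdg p hpQ)
      exact Finset.card_le_card (Finset.filter_subset_filter _ hQP)
    rw [← hS] at h2
    omega
  have hSne : S.Nonempty := by
    rw [← Finset.card_pos]
    omega
  obtain ⟨q, hqS, hq⟩ := Finset.exists_max_image S (fun x => x.2) hSne
  have hqQ : q ∈ Q := (Finset.mem_filter.1 hqS).1
  have hqp : ¬ q.1 = p.1 := (Finset.mem_filter.1 hqS).2
  refine ⟨p, hpQ, q, hqQ, fun h => hqp h.symm, ?_⟩
  have hpS : p ∉ S := fun h => (Finset.mem_filter.1 h).2 rfl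
  have hle : (insert p S).card ≤ (Finset.Icc p.2 q.2).card := by
    refine Finset.card_le_card_of_injOn (fun x => x.2) ?_ ?_
    · intro x hx
      rw [Finset.coe_insert, Set.mem_insert_iff] at hx
      rw [Finset.coe_Icc, Set.mem_Icc]
      rcases hx with rfl | hx
      · exact ⟨le_refl _, hp q hqQ⟩
      · exact ⟨hp x (Finset.mem_filter.1 hx).1, hq x hx⟩
    · intro x hx y hy hxy
      have hsub : ∀ z ∈ ((insert p S : Finset Pt) : Set Pt), z ∈ P := by
        intro z hz
        rw [Finset.coe_insert, Set.mem_insert_iff] at hz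
        rcases hz with rfl | hz
        · exact hQP hpQ
        · exact hQP (Finset.mem_filter.1 hz).1
      exact hinj x (hsub x hx) y (hsub y hy) hxy
  rw [Finset.card_insert_of_notMem hpS, Int.card_Icc] at hle
  have hpq := hp q hqQ
  omega

end Pool.Agent.CycMC
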