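import Pool.Agent.CycMC.Targets

/-!
# BLK: blocks of a segment
-/

set_option autoImplicit false

namespace Pool.Agent.CycMC

open Finset

/-- A segment as a map of `List.range`. -/
theorem BLK_seg_eq {V : Type} (c : ℤ → V) (a b : ℤ) :
    seg c a b = (List.range (b + 1 - a).toNat).map (fun i : ℕ => c (a + i)) := by
  unfold seg
  rw [List.bind_eq_flatMap, List.map_flatMap]
  simp only [List.pure_def, List.map_cons, List.map_nil]
  rw [← List.map_eq_flatMap]

/-- A segment is the concatenation of two segments. -/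
theorem seg_append {V : Type} (c : ℤ → V) (a m b : ℤ) (h1 : a ≤ m + 1) (h2 : m ≤ b) :
    seg c a b = seg c a m ++ seg c (m + 1) b := by
  rw [BLK_seg_eq, BLK_seg_eq, BLK_seg_eq]
  have e : (b + 1 - a).toNat = (m + 1 - a).toNat + (b + 1 - (m + 1)).toNat := by omega
  rw [e, List.range_add, List.map_append, List.map_map]
  congr 1
  apply List.map_congr_left
  intro i _
  show c (a + ((m + 1 - a).toNat + i : ℕ)) = c (m + 1 + i)
  congr 1
  omega

theorem blk_aux {V : Type} (c : ℤ → V) : ∀ (n : ℕ) (a b : ℤ) (Is : List (ℤ × ℤ)),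
    Is.length ≤ n → (∀ I ∈ Is, a ≤ I.1 ∧ I.1 ≤ I.2 ∧ I.2 ≤ b) → Is.Pairwise Dis →
    ∃ w : List (List V), w.flatten = seg c a b ∧ ∀ I ∈ Is, seg c I.1 I.2 ∈ w := by
  classical
  intro n
  induction n with
  | zero =>
    intro a b Is hn _ _
    have h0 : Is = [] := List.length_eq_zero_iff.1 (by omega)
    subst h0
    exact ⟨[seg c a b], by simp, fun I hI => absurd hI (by simp)⟩
  | succ n ih =>
    intro a b Is hn h hp
    rcases Is with _ | ⟨I, Is⟩
    · exact ⟨[seg c a b], by simp, fun I hI => absurd hI (by simp)⟩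
    obtain ⟨ha, hI, hb⟩ := h I (by simp)
    rw [List.pairwise_cons] at hp
    obtain ⟨w1, e1, m1⟩ := ih a (I.1 - 1) (Is.filter fun J => J.2 < I.1)
      ((List.length_filter_le _ _).trans (by simpa using hn)) (by
        intro J hJ
        rw [List.mem_filter] at hJ
        obtain ⟨k1, k2, k3⟩ := h J (List.mem_cons_of_mem _ hJ.1)
        have := of_decide_eq_true hJ.2
        exact ⟨k1, k2, by omega⟩) (hp.2.filter _)
    obtain ⟨w2, e2, m2⟩ := ih (I.2 + 1) b (Is.filter fun J => I.2 < J.1)
      ((List.length_filter_le _ _).trans (by simpa using hn)) (by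
        intro J hJ
        rw [List.mem_filter] at hJ
        obtain ⟨k1, k2, k3⟩ := h J (List.mem_cons_of_mem _ hJ.1)
        have := of_decide_eq_true hJ.2
        exact ⟨by omega, k2, k3⟩) (hp.2.filter _)
    refine ⟨w1 ++ seg c I.1 I.2 :: w2, ?_, ?_⟩
    · rw [List.flatten_append, List.flatten_cons, e1, e2,
        seg_append c a (I.1 - 1) b (by omega) (by omega), sub_add_cancel,
        seg_append c I.1 I.2 b (by omega) (by omega)]
    · intro J hJ
      rcases List.mem_cons.1 hJ with hJ | hJ
      · rw [hJ]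
        simp
      · rcases hp.1 J hJ with hd | hd
        · have := m2 J (List.mem_filter.2 ⟨hJ, decide_eq_true hd⟩)
          exact List.mem_append_right _ (List.mem_cons_of_mem _ this)
        · have := m1 J (List.mem_filter.2 ⟨hJ, decide_eq_true hd⟩)
          exact List.mem_append_left _ this

theorem p_BLK : T_BLK := fun _ c a b Is h hp => blk_aux c Is.length a b Is le_rfl h hp

end Pool.Agent.CycMC
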