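import Pool.Agent.CycMC.Targets

/-!
# CGAP: few sets with bounded gaps in a long interval
-/

set_option autoImplicit false

namespace Pool.Agent.CycMC

open Finset Filter

/-- the numbers -/
theorem CGAP_num (C n : ℕ) (hn : 4 * C ^ 2 ≤ n) (hC : 1 ≤ C) :
    2 * n ≤ 4 * C ^ 2 * ((n / C - 1) / C) ∧ C * ((n / C - 1) / C) ≤ n ∧ 1 ≤ n / C := by
  have hC0 : 0 < C := hC
  have h1 : n < C * (n / C) + C := by
    have := Nat.lt_mul_div_succ n hC0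
    rwa [Nat.mul_add, Nat.mul_one] at this
  have h2 : n / C - 1 < C * ((n / C - 1) / C) + C := by
    have := Nat.lt_mul_div_succ (n / C - 1) hC0
    rwa [Nat.mul_add, Nat.mul_one] at this
  have h3 : C * ((n / C - 1) / C) ≤ n / C - 1 := Nat.mul_div_le _ _
  have h4 : n / C ≤ n := Nat.div_le_self _ _
  have h5 : 1 ≤ n / C := by
    rw [Nat.le_div_iff_mul_le hC0]
    nlinarith
  refine ⟨?_, by omega, h5⟩
  obtain ⟨k, hk⟩ : ∃ k, n / C = k + 1 := ⟨n / C - 1, by omega⟩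
  rw [hk] at h1 h2 ⊢
  simp only [Nat.add_sub_cancel] at h2 ⊢
  have h6 : k + 1 ≤ C * (k / C) + C := h2
  have h7 : C * (k + 1) ≤ C * (C * (k / C) + C) := Nat.mul_le_mul_left _ h6
  have h8 : C ≤ C ^ 2 := by nlinarith
  nlinarith

theorem p_CGAP (h1 : T_COUNT4) : T_CGAP := by
  intro C hC
  have hC0 : 0 < C := hC
  obtain ⟨ρ, hρ⟩ : ∃ ρ : ℝ, ρ = 1 - (1 / 2) ^ C := ⟨_, rfl⟩
  have hpow : (1 / 2 : ℝ) ^ C ≤ 1 / 2 := by
    calc (1 / 2 : ℝ) ^ C ≤ (1 / 2) ^ 1 :=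
          pow_le_pow_of_le_one (by norm_num) (by norm_num) hC
      _ = 1 / 2 := pow_one _
  have hpow0 : (0 : ℝ) < (1 / 2) ^ C := by positivity
  have hρ0 : 0 < ρ := by rw [hρ]; linarith
  have hρ1 : ρ < 1 := by rw [hρ]; linarith
  have h2C : ((2 : ℝ) ^ C - 1) = 2 ^ C * ρ := by
    rw [hρ, mul_sub, mul_one, ← mul_pow]
    norm_num
  have hk : 4 * C ^ 2 ≠ 0 := by positivity
  obtain ⟨b, hb⟩ : ∃ b : ℝ, b = ρ ^ (((4 * C ^ 2 : ℕ) : ℝ)⁻¹) := ⟨_, rfl⟩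
  have hb0 : 0 < b := by rw [hb]; exact Real.rpow_pos_of_pos hρ0 _
  have hb1 : b < 1 := by
    rw [hb]
    exact Real.rpow_lt_one hρ0.le hρ1 (by positivity)
  have hbp : b ^ (4 * C ^ 2) = ρ := by
    rw [hb]
    exact Real.rpow_inv_natCast_pow hρ0.le hk
  have hT : Tendsto (fun n : ℕ => 2 * ((n : ℝ) + 1) * b ^ n) atTop (nhds 0) := by
    have e1 := tendsto_self_mul_const_pow_of_lt_one hb0.le hb1
    have e2 := tendsto_pow_atTop_nhds_zero_of_lt_one hb0.le hb1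
    have e3 := (e1.add e2).const_mul 2
    simp only [add_zero, mul_zero] at e3
    refine e3.congr ?_
    intro n
    ring
  obtain ⟨n1, hn1⟩ := eventually_atTop.1 (hT.eventually_le_const (show (0 : ℝ) < 1 by norm_num))
  refine ⟨max n1 (4 * C ^ 2), -Real.logb 2 b, ?_, ?_⟩
  · have := Real.logb_neg (show (1 : ℝ) < 2 by norm_num) hb0 hb1
    linarith
  intro n hn
  have hna : n1 ≤ n := le_trans (le_max_left _ _) hn
  have hnb : 4 * C ^ 2 ≤ n := le_trans (le_max_right _ _) hn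
  obtain ⟨c1, c2, c3⟩ := CGAP_num C n hnb hC
  obtain ⟨q, hq⟩ : ∃ q, q = (n / C - 1) / C := ⟨_, rfl⟩
  rw [← hq] at c1 c2
  have hcount := h1 n C (n / C - 1) hC
  rw [← hq] at hcount
  have hsub : {A : Set ℕ | (∀ l ∈ A, l ≤ n) ∧ ∃ X : Finset ℕ, n ≤ C * X.card ∧
      (∀ x ∈ X, x ∈ A) ∧ Gap X 1 C} ⊆
      {A : Set ℕ | (∀ l ∈ A, l ≤ n) ∧ ∃ X : Finset ℕ, n / C - 1 < X.card ∧ (∀ x ∈ X, x ∈ A) ∧
        Gap X 1 C} := by
    rintro A ⟨hA, X, hX, hX2⟩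
    refine ⟨hA, X, ?_, hX2⟩
    have : n / C ≤ X.card := by
      calc n / C ≤ (C * X.card) / C := Nat.div_le_div_right hX
        _ = X.card := Nat.mul_div_cancel_left _ hC0
    omega
  have hfin : {A : Set ℕ | (∀ l ∈ A, l ≤ n) ∧ ∃ X : Finset ℕ, n / C - 1 < X.card ∧
      (∀ x ∈ X, x ∈ A) ∧ Gap X 1 C}.Finite := by
    refine (Set.finite_Iic n).finite_subsets.subset ?_
    rintro A ⟨hA, -⟩
    exact fun l hl => hA l hl
  have hle := (Set.ncard_le_ncard hsub hfin).trans hcount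
  have hle2 : (({A : Set ℕ | (∀ l ∈ A, l ≤ n) ∧ ∃ X : Finset ℕ, n ≤ C * X.card ∧
      (∀ x ∈ X, x ∈ A) ∧ Gap X 1 C}.ncard : ℕ) : ℝ) ≤
      ((n : ℝ) + 1) * (2 ^ C * ρ) ^ q * 2 ^ (n + 1 - C * q) := by
    refine le_trans (Nat.cast_le.2 hle) ?_
    have e : ((2 ^ C - 1 : ℕ) : ℝ) = 2 ^ C * ρ := by
      rw [← h2C, Nat.cast_sub Nat.one_le_two_pow]
      push_cast
      rfl
    push_cast
    rw [← e]
  refine hle2.trans ?_
  have e1 : ((n : ℝ) + 1) * (2 ^ C * ρ) ^ q * 2 ^ (n + 1 - C * q) =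
      2 ^ n * (2 * ((n : ℝ) + 1) * ρ ^ q) := by
    rw [mul_pow, ← pow_mul]
    have : (2 : ℝ) ^ (C * q) * 2 ^ (n + 1 - C * q) = 2 ^ n * 2 := by
      rw [← pow_add, ← pow_succ]
      congr 1
      omega
    linear_combination ((n : ℝ) + 1) * ρ ^ q * this
  have e2 : ρ ^ q ≤ b ^ n * b ^ n := by
    rw [← hbp, ← pow_mul, ← pow_add]
    exact pow_le_pow_of_le_one hb0.le hb1.le (by omega)
  have e3 : (2 : ℝ) ^ ((1 - -Real.logb 2 b) * n) = 2 ^ n * b ^ n := by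
    have : (1 - -Real.logb 2 b) * (n : ℝ) = (n : ℝ) + Real.logb 2 b * n := by ring
    rw [this, Real.rpow_add (by norm_num), Real.rpow_natCast, Real.rpow_mul (by norm_num),
      Real.rpow_logb (by norm_num) (by norm_num) hb0, Real.rpow_natCast]
  rw [e1, e3]
  refine mul_le_mul_of_nonneg_left ?_ (by positivity)
  have e4 := hn1 n hna
  calc 2 * ((n : ℝ) + 1) * ρ ^ q ≤ 2 * ((n : ℝ) + 1) * (b ^ n * b ^ n) :=
        mul_le_mul_of_nonneg_left e2 (by positivity)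
    _ = (2 * ((n : ℝ) + 1) * b ^ n) * b ^ n := by ring
    _ ≤ 1 * b ^ n := mul_le_mul_of_nonneg_right e4 (by positivity)
    _ = b ^ n := one_mul _

end Pool.Agent.CycMC
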