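import Pool.Agent.CycMC.Targets

/-!
# Cycle sets of graphs without a complete minor: CLOSEC (helper65)
-/

set_option autoImplicit false

namespace Pool.Agent.CycMC

open Finset
open Pool.Agent.HubG (cycleSet)

namespace CLOSEC_

variable {V : Type} {Gr : SimpleGraph V}

theorem close_edge {u v : V} (w : Gr.Walk u v) (hw : w.IsPath)
    (hl : 2 ≤ w.length) (h : Gr.Adj u v) : w.length + 1 ∈ cycleSet Gr := by
  refine ⟨v, SimpleGraph.Walk.cons h.symm w, ?_, by rw [SimpleGraph.Walk.length_cons]⟩
  rw [SimpleGraph.Walk.cons_isCycle_iff]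
  refine ⟨hw, fun hmem => ?_⟩
  cases w with
  | nil => simp at hl
  | cons h1 p =>
    rename_i z
    rw [SimpleGraph.Walk.cons_isPath_iff] at hw
    rw [SimpleGraph.Walk.edges_cons, List.mem_cons] at hmem
    rcases hmem with hmem | hmem
    · rw [Sym2.eq_iff] at hmem
      rcases hmem with ⟨h2, -⟩ | ⟨h2, -⟩
      · exact h.ne h2.symm
      · subst h2
        have h3 : p.length = 0 :=
          SimpleGraph.Walk.nil_iff_length_eq.1 (SimpleGraph.Walk.isPath_iff_nil.1 hw.1)
        rw [SimpleGraph.Walk.length_cons] at hl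
        omega
    · exact hw.2 (SimpleGraph.Walk.snd_mem_support_of_mem_edges p hmem)

/-- The walk along a list. -/
theorem toWalk : ∀ (l : List V) (a : V), (a :: l).IsChain Gr.Adj → ∀ b ∈ (a :: l).getLast?,
    ∃ w : Gr.Walk a b, w.support = a :: l
  | [], a, _, b, hb => by
    simp only [List.getLast?_singleton, Option.mem_some_iff] at hb
    subst hb
    exact ⟨SimpleGraph.Walk.nil, rfl⟩
  | c :: l, a, hc, b, hb => by
    rw [List.isChain_cons_cons] at hc
    rw [List.getLast?_cons_cons] at hb
    obtain ⟨w, hw⟩ := toWalk l c hc.2 b hb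
    exact ⟨SimpleGraph.Walk.cons hc.1 w, by rw [SimpleGraph.Walk.support_cons, hw]⟩

end CLOSEC_

theorem p_CLOSEC : T_CLOSEC := by
  intro V Gr l h3 hn hc hab
  cases l with
  | nil => simp at h3
  | cons a l =>
    obtain ⟨b, hb⟩ : ∃ b, b ∈ (a :: l).getLast? :=
      ⟨(a :: l).getLast (by simp), by simp [List.getLast?_eq_getLast_of_ne_nil]⟩
    obtain ⟨w, hw⟩ := CLOSEC_.toWalk l a hc b hb
    have hlen : w.length + 1 = (a :: l).length := by
      rw [← hw, SimpleGraph.Walk.length_support]
    have hp : w.IsPath := by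
      rw [SimpleGraph.Walk.isPath_def, hw]
      exact hn
    have hadj : Gr.Adj b a := hab b hb a (by simp)
    rw [← hlen]
    exact CLOSEC_.close_edge w hp (by omega) hadj.symm

end Pool.Agent.CycMC
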