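import Pool.Agent.CycMC.Targets

/-!
# CLS: closing the paths of a rich list
-/

set_option autoImplicit false

namespace Pool.Agent.CycMC

open Finset
open Pool.Agent.HubG (cycleSet CycSeq)

/-- The target `T_CLS`. -/
theorem p_CLS (h1 : T_CLOSEC) : T_CLS := by
  classical
  intro V Gr S l K m I g a0 σ hR hl hg
  obtain ⟨X, hm, hsep, -, hX⟩ := hR
  refine ⟨X.image (fun a : ℕ => (a : ℤ) + a0), ?_, ?_, ?_⟩
  · rw [card_image_of_injective]
    · exact hm
    · intro a b hab
      have : (a : ℤ) = b := by simpa using hab
      exact_mod_cast this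
  · intro a ha b hb hab
    rw [mem_image] at ha hb
    obtain ⟨a, ha, rfl⟩ := ha
    obtain ⟨b, hb, rfl⟩ := hb
    have h2 := hsep a ha b hb (by omega)
    push_cast
    omega
  · intro y hy i hi
    rw [mem_image] at hy
    obtain ⟨a, ha, rfl⟩ := hy
    obtain ⟨l', hl', rfl⟩ := hX a ha
    obtain ⟨g1, g2, g3, g4, g5, g6, g7⟩ := hg i hi
    have hne : l' ≠ [] := by
      rintro rfl
      have h3 := hl'.head
      rw [List.head?_nil, eq_comm, List.head?_eq_none_iff] at h3
      exact hl h3
    have hgne : g i ≠ [] := by
      intro h3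
      rw [h3, List.length_nil] at g1
      omega
    have hpos : 1 ≤ l'.length := List.length_pos_iff.2 hne
    refine ⟨(l' ++ g i).length, h1 V Gr (l' ++ g i) ?_ ?_ ?_ ?_, ?_⟩
    · rw [List.length_append]
      omega
    · rw [List.nodup_append]
      refine ⟨hl'.nodup, g3, ?_⟩
      intro u hu v hv huv
      subst huv
      rcases hl'.sub u hu with h3 | h3
      · exact (g4 u hv).1 h3
      · exact (g4 u hv).2 h3
    · rw [List.isChain_append]
      refine ⟨hl'.chain, g2, ?_⟩
      intro u hu v hv
      rw [hl'.last] at hu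
      exact g5 u hu v hv
    · intro u hu v hv
      rw [List.getLast?_append_of_ne_nil _ hgne] at hu
      rw [List.head?_append_of_ne_nil _ hne, hl'.head] at hv
      exact g6 u hu v hv
    · rw [List.length_append]
      push_cast
      rw [g7]
      ring

end Pool.Agent.CycMC
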