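import Pool.Agent.CycMC.Targets

/-!
# CMID: few sets with the middle structure
-/

set_option autoImplicit false

namespace Pool.Agent.CycMC

open Finset

theorem cmid_growth (M : ℕ) : ∃ q0 : ℕ, ∀ q : ℕ, q0 ≤ q → M * (q + 1) ≤ 2 ^ q := by
  refine ⟨2 * M + 4, fun q hq => ?_⟩
  induction q, hq using Nat.le_induction with
  | base =>
    have h1 : M < 2 ^ M := Nat.lt_two_pow_self
    have h2 : 2 * M + 4 + 1 ≤ 2 ^ (M + 4) := by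
      have : 2 ^ (M + 4) = 16 * 2 ^ M := by rw [pow_add]; ring
      omega
    calc M * (2 * M + 4 + 1) ≤ 2 ^ M * 2 ^ (M + 4) := Nat.mul_le_mul h1.le h2
      _ = 2 ^ (2 * M + 4) := by rw [← pow_add]; congr 1; ring
  | succ q hq ih =>
    have : 2 ^ (q + 1) = 2 * 2 ^ q := by rw [pow_succ]; ring
    rw [this]
    nlinarith

theorem cmid_ceil (x c : ℕ) (hc : 1 ≤ c) :
    ∃ a : ℕ, x ≤ c * a ∧ (∀ k : ℕ, x ≤ c * k → a ≤ k) ∧ c * a ≤ x + c := by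
  classical
  have hex : ∃ a, x ≤ c * a := ⟨x, Nat.le_mul_of_pos_left x hc⟩
  refine ⟨Nat.find hex, Nat.find_spec hex, fun k hk => Nat.find_min' hex hk, ?_⟩
  rcases Nat.eq_zero_or_pos (Nat.find hex) with h | h
  · rw [h]; omega
  · have h1 := Nat.find_min hex (m := Nat.find hex - 1) (by omega)
    have h2 : c * Nat.find hex = c * (Nat.find hex - 1) + c := by
      conv_lhs => rw [show Nat.find hex = (Nat.find hex - 1) + 1 by omega]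
      ring
    omega

/-- The bound for one value of `Lm`. -/
theorem cmid_one (h1 : T_COUNT3) (h2 : Pool.Agent.CycPl.T_CH) (R C n Lm q : ℕ) (hR : 1 ≤ R)
    (hC : 1 ≤ C) (hn : 1 ≤ n) (hL : 1 ≤ Lm) (hq : 2 ≤ q) (hq1 : 8 * C * q ≤ Lm)
    (hq2 : 16 * (C * R * Lm) ≤ 2 ^ q) (hLn : 4 * (C ^ 2 * R) * Lm ≤ n) :
    (({A : Set ℕ | (∀ l ∈ A, l ≤ n) ∧ ∃ (I : Finset ℕ) (Y : Finset ℤ) (σ : ℤ),
      (∀ i ∈ I, i < Lm) ∧ Lm ≤ C * I.card ∧ n ≤ C * R * Lm * Y.card ∧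
      (∀ y ∈ Y, ∀ z ∈ Y, y < z → y + Lm ≤ z) ∧ (σ = 1 ∨ σ = -1) ∧
      ∀ y ∈ Y, ∀ i ∈ I, ∃ N ∈ A, (N : ℤ) = y + σ * i}.ncard : ℕ) : ℝ) ≤
      2 ^ ((n : ℝ) + 2 - n / (2 * (C ^ 2 * R : ℕ))) := by
  obtain ⟨a, ha1, ha2, -⟩ := cmid_ceil Lm C hC
  have hKp : 1 ≤ C * R * Lm := Nat.mul_pos (Nat.mul_pos hC hR) hL
  obtain ⟨m, hm1, hm2, hm3⟩ := cmid_ceil n (C * R * Lm) hKp
  have haP : 1 ≤ a := by
    rcases Nat.eq_zero_or_pos a with h | h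
    · rw [h] at ha1; omega
    · exact h
  have hfin : {A : Set ℕ | (∀ l ∈ A, l ≤ n) ∧ ∃ I : Finset ℕ, (∀ i ∈ I, i < Lm) ∧ a ≤ I.card ∧
      ∃ Y : Finset ℤ, m ≤ Y.card ∧ (∀ y ∈ Y, ∀ z ∈ Y, y < z → y + Lm ≤ z) ∧
      ∃ σ : ℤ, (σ = 1 ∨ σ = -1) ∧ ∀ y ∈ Y, ∀ i ∈ I, ∃ N ∈ A, (N : ℤ) = y + σ * i}.Finite := by
    refine ((Set.finite_Iic n).powerset).subset ?_
    rintro A ⟨hA, -⟩ l hl
    exact hA l hl
  have hsub : {A : Set ℕ | (∀ l ∈ A, l ≤ n) ∧ ∃ (I : Finset ℕ) (Y : Finset ℤ) (σ : ℤ),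
      (∀ i ∈ I, i < Lm) ∧ Lm ≤ C * I.card ∧ n ≤ C * R * Lm * Y.card ∧
      (∀ y ∈ Y, ∀ z ∈ Y, y < z → y + Lm ≤ z) ∧ (σ = 1 ∨ σ = -1) ∧
      ∀ y ∈ Y, ∀ i ∈ I, ∃ N ∈ A, (N : ℤ) = y + σ * i} ⊆
      {A : Set ℕ | (∀ l ∈ A, l ≤ n) ∧ ∃ I : Finset ℕ, (∀ i ∈ I, i < Lm) ∧ a ≤ I.card ∧
      ∃ Y : Finset ℤ, m ≤ Y.card ∧ (∀ y ∈ Y, ∀ z ∈ Y, y < z → y + Lm ≤ z) ∧
      ∃ σ : ℤ, (σ = 1 ∨ σ = -1) ∧ ∀ y ∈ Y, ∀ i ∈ I, ∃ N ∈ A, (N : ℤ) = y + σ * i} := by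
    rintro A ⟨hA, I, Y, σ, c1, c2, c3, c4, c5, c6⟩
    exact ⟨hA, I, c1, ha2 _ c2, Y, hm2 _ c3, c4, σ, c5, c6⟩
  have hcard := (Set.ncard_le_ncard hsub hfin).trans (h1 n Lm a m haP)
  set X := {A : Set ℕ | (∀ l ∈ A, l ≤ n) ∧ ∃ (I : Finset ℕ) (Y : Finset ℤ) (σ : ℤ),
      (∀ i ∈ I, i < Lm) ∧ Lm ≤ C * I.card ∧ n ≤ C * R * Lm * Y.card ∧
      (∀ y ∈ Y, ∀ z ∈ Y, y < z → y + Lm ≤ z) ∧ (σ = 1 ∨ σ = -1) ∧
      ∀ y ∈ Y, ∀ i ∈ I, ∃ N ∈ A, (N : ℤ) = y + σ * i} with hX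
  clear_value X
  have hQ1 : 1 ≤ C ^ 2 * R := Nat.mul_pos (Nat.pow_pos hC) hR
  have hLn' : Lm ≤ n := by nlinarith
  have hKn : C * R * Lm ≤ n := by
    have : C * R ≤ 4 * (C ^ 2 * R) := by nlinarith [Nat.mul_le_mul_right (C * R) hC]
    nlinarith
  -- the binomial coefficient
  have hch : (n + 2 * Lm + 1).choose m ≤ 2 ^ (q * m) := by
    have hc := h2 (n + 2 * Lm + 1) m (q - 2) (by
      have e1 : 2 ^ q = 4 * 2 ^ (q - 2) := by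
        conv_lhs => rw [show q = (q - 2) + 2 by omega]
        rw [pow_add]; ring
      have e2 : 4 * (C * R * Lm) ≤ 2 ^ (q - 2) := by omega
      calc n + 2 * Lm + 1 ≤ 4 * n := by omega
        _ ≤ 4 * (C * R * Lm * m) := Nat.mul_le_mul_left _ hm1
        _ = 4 * (C * R * Lm) * m := by ring
        _ ≤ 2 ^ (q - 2) * m := Nat.mul_le_mul_right _ e2)
    rwa [show q - 2 + 2 = q by omega] at hc
  have hcard2 : X.ncard ≤ 2 ^ (1 + Lm + q * m + (n + 1 - a * m)) := by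
    refine hcard.trans ?_
    calc 2 * 2 ^ Lm * (n + 2 * Lm + 1).choose m * 2 ^ (n + 1 - a * m) ≤
        2 * 2 ^ Lm * 2 ^ (q * m) * 2 ^ (n + 1 - a * m) :=
          Nat.mul_le_mul_right _ (Nat.mul_le_mul_left _ hch)
      _ = 2 ^ (1 + Lm + q * m + (n + 1 - a * m)) := by
          rw [pow_add, pow_add, pow_add, pow_one]
  -- exponents
  have x1 : n ≤ (C ^ 2 * R) * (a * m) := by
    have : Lm * n ≤ Lm * ((C ^ 2 * R) * (a * m)) := by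
      calc Lm * n ≤ (C * a) * (C * R * Lm * m) := Nat.mul_le_mul ha1 hm1
        _ = Lm * ((C ^ 2 * R) * (a * m)) := by ring
    exact Nat.le_of_mul_le_mul_left this hL
  have x2 : 4 * (C ^ 2 * R) * (q * m) ≤ n := by
    have : 2 * (4 * (C ^ 2 * R) * (q * m)) ≤ 2 * n := by
      calc 2 * (4 * (C ^ 2 * R) * (q * m)) = (8 * C * q) * (C * R * m) := by ring
        _ ≤ Lm * (C * R * m) := Nat.mul_le_mul_right _ hq1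
        _ = C * R * Lm * m := by ring
        _ ≤ n + C * R * Lm := hm3
        _ ≤ 2 * n := by omega
    omega
  have hQR : (0 : ℝ) < ((C ^ 2 * R : ℕ) : ℝ) := by exact_mod_cast hQ1
  have y1 : (n : ℝ) / ((C ^ 2 * R : ℕ) : ℝ) ≤ ((a * m : ℕ) : ℝ) := by
    rw [div_le_iff₀ hQR]
    have : (n : ℝ) ≤ ((C ^ 2 * R : ℕ) : ℝ) * ((a * m : ℕ) : ℝ) := by exact_mod_cast x1
    linarith
  have y2 : ((q * m : ℕ) : ℝ) ≤ (n : ℝ) / (4 * ((C ^ 2 * R : ℕ) : ℝ)) := by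
    rw [le_div_iff₀ (by positivity)]
    have : (4 : ℝ) * ((C ^ 2 * R : ℕ) : ℝ) * ((q * m : ℕ) : ℝ) ≤ n := by exact_mod_cast x2
    linarith
  have y3 : (Lm : ℝ) ≤ (n : ℝ) / (4 * ((C ^ 2 * R : ℕ) : ℝ)) := by
    rw [le_div_iff₀ (by positivity)]
    have : (4 : ℝ) * ((C ^ 2 * R : ℕ) : ℝ) * (Lm : ℝ) ≤ n := by exact_mod_cast hLn
    linarith
  have y4 : ((n + 1 - a * m : ℕ) : ℝ) ≤ n + 1 - (n : ℝ) / ((C ^ 2 * R : ℕ) : ℝ) := by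
    rcases le_or_gt (a * m) (n + 1) with h | h
    · rw [Nat.cast_sub h]
      push_cast at y1 ⊢
      linarith
    · rw [Nat.sub_eq_zero_of_le h.le]
      have : (n : ℝ) / ((C ^ 2 * R : ℕ) : ℝ) ≤ n :=
        div_le_self (Nat.cast_nonneg n) (by exact_mod_cast hQ1)
      push_cast at this ⊢
      linarith
  have y5 : (n : ℝ) / (2 * ((C ^ 2 * R : ℕ) : ℝ)) =
      2 * ((n : ℝ) / (4 * ((C ^ 2 * R : ℕ) : ℝ))) := by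
    field_simp
    ring
  have y6 : (n : ℝ) / ((C ^ 2 * R : ℕ) : ℝ) =
      4 * ((n : ℝ) / (4 * ((C ^ 2 * R : ℕ) : ℝ))) := by
    field_simp
  calc (X.ncard : ℝ) ≤ ((2 ^ (1 + Lm + q * m + (n + 1 - a * m)) : ℕ) : ℝ) := by
        exact_mod_cast hcard2
    _ = (2 : ℝ) ^ ((1 + Lm + q * m + (n + 1 - a * m) : ℕ) : ℝ) := by
        rw [Real.rpow_natCast]; push_cast; rfl
    _ ≤ (2 : ℝ) ^ ((n : ℝ) + 2 - n / (2 * (C ^ 2 * R : ℕ))) := by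
        refine Real.rpow_le_rpow_of_exponent_le (by norm_num) ?_
        have e : ((1 + Lm + q * m + (n + 1 - a * m) : ℕ) : ℝ) =
            1 + Lm + ((q * m : ℕ) : ℝ) + ((n + 1 - a * m : ℕ) : ℝ) := by
          push_cast; ring
        rw [e, y5]
        rw [y6] at y4
        linarith

/-- CMID: few sets with the middle structure. -/
theorem p_CMID (h1 : T_COUNT3) (h2 : Pool.Agent.CycPl.T_CH) : T_CMID := by
  intro R C hR hC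
  have hQ1 : 1 ≤ C ^ 2 * R := Nat.mul_pos (Nat.pow_pos hC) hR
  obtain ⟨q1, hq1⟩ := cmid_growth (128 * (C ^ 2 * R))
  obtain ⟨q2, hq2⟩ := cmid_growth (16 * (C ^ 2 * R))
  have hQR : (0 : ℝ) < ((C ^ 2 * R : ℕ) : ℝ) := by exact_mod_cast hQ1
  refine ⟨8 * C * (q1 + 2), 4 * (C ^ 2 * R), 4 * (C ^ 2 * R) * (q2 + 1),
    1 / (4 * ((C ^ 2 * R : ℕ) : ℝ)), by positivity, fun n hn => ?_⟩
  have hn1 : 1 ≤ n := le_trans (Nat.mul_pos (Nat.mul_pos (by norm_num) hQ1) (by omega)) hn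
  set U : ℕ → Set (Set ℕ) := fun Lm =>
    {A : Set ℕ | (∀ l ∈ A, l ≤ n) ∧ ∃ (I : Finset ℕ) (Y : Finset ℤ) (σ : ℤ),
      (∀ i ∈ I, i < Lm) ∧ Lm ≤ C * I.card ∧ n ≤ C * R * Lm * Y.card ∧
      (∀ y ∈ Y, ∀ z ∈ Y, y < z → y + Lm ≤ z) ∧ (σ = 1 ∨ σ = -1) ∧
      ∀ y ∈ Y, ∀ i ∈ I, ∃ N ∈ A, (N : ℤ) = y + σ * i} with hU
  set F : Finset ℕ := (range (n + 1)).filter fun Lm =>
    8 * C * (q1 + 2) ≤ Lm ∧ 4 * (C ^ 2 * R) * Lm ≤ n with hF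
  have hsub : {A : Set ℕ | (∀ l ∈ A, l ≤ n) ∧
      ∃ (Lm : ℕ) (I : Finset ℕ) (Y : Finset ℤ) (σ : ℤ),
      8 * C * (q1 + 2) ≤ Lm ∧ 4 * (C ^ 2 * R) * Lm ≤ n ∧ (∀ i ∈ I, i < Lm) ∧
      Lm ≤ C * I.card ∧ n ≤ C * R * Lm * Y.card ∧
      (∀ y ∈ Y, ∀ z ∈ Y, y < z → y + Lm ≤ z) ∧ (σ = 1 ∨ σ = -1) ∧
      ∀ y ∈ Y, ∀ i ∈ I, ∃ N ∈ A, (N : ℤ) = y + σ * i} ⊆ ⋃ Lm ∈ F, U Lm := by
    rintro A ⟨hA, Lm, I, Y, σ, c1, c2, c3⟩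
    have hLn : Lm ≤ n := by nlinarith
    refine Set.mem_iUnion₂.2 ⟨Lm, ?_, hA, I, Y, σ, c3⟩
    rw [hF, mem_filter, mem_range]
    exact ⟨by omega, c1, c2⟩
  have hfin : (⋃ Lm ∈ F, U Lm).Finite := by
    refine ((Set.finite_Iic n).powerset).subset ?_
    intro A hA l hl
    obtain ⟨Lm, -, hA'⟩ := Set.mem_iUnion₂.1 hA
    exact hA'.1 l hl
  have hone : ∀ Lm ∈ F, ((U Lm).ncard : ℝ) ≤ 2 ^ ((n : ℝ) + 2 - n / (2 * (C ^ 2 * R : ℕ))) := by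
    intro Lm hLm
    rw [hF, mem_filter] at hLm
    obtain ⟨-, g1, g2⟩ := hLm
    have hC8 : 0 < 8 * C := by omega
    have g3 : q1 + 2 ≤ Lm / (8 * C) := by
      rw [Nat.le_div_iff_mul_le hC8]
      calc (q1 + 2) * (8 * C) = 8 * C * (q1 + 2) := by ring
        _ ≤ Lm := g1
    have hL1 : 1 ≤ Lm := le_trans (Nat.mul_pos hC8 (by omega)) g1
    refine cmid_one h1 h2 R C n Lm (Lm / (8 * C)) hR hC hn1 hL1 (by omega)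
      (Nat.mul_div_le Lm (8 * C)) ?_ g2
    refine le_trans ?_ (hq1 _ (by omega))
    have g4 : Lm ≤ 8 * C * (Lm / (8 * C) + 1) := (Nat.lt_mul_div_succ Lm hC8).le
    generalize Lm / (8 * C) = t at g4
    calc 16 * (C * R * Lm) ≤ 16 * (C * R * (8 * C * (t + 1))) :=
          Nat.mul_le_mul_left _ (Nat.mul_le_mul_left _ g4)
      _ = 128 * (C ^ 2 * R) * (t + 1) := by ring
  have hFc : F.card ≤ n + 1 := by
    rw [hF]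
    exact (card_filter_le _ _).trans (by rw [card_range])
  have hsum : ((∑ Lm ∈ F, (U Lm).ncard : ℕ) : ℝ) ≤
      (n + 1) * 2 ^ ((n : ℝ) + 2 - n / (2 * (C ^ 2 * R : ℕ))) := by
    rw [Nat.cast_sum]
    calc ∑ Lm ∈ F, ((U Lm).ncard : ℝ) ≤
        ∑ _Lm ∈ F, (2 : ℝ) ^ ((n : ℝ) + 2 - n / (2 * (C ^ 2 * R : ℕ))) := sum_le_sum hone
      _ = F.card * 2 ^ ((n : ℝ) + 2 - n / (2 * (C ^ 2 * R : ℕ))) := by
          rw [sum_const, nsmul_eq_mul]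
      _ ≤ (n + 1) * 2 ^ ((n : ℝ) + 2 - n / (2 * (C ^ 2 * R : ℕ))) := by
          refine mul_le_mul_of_nonneg_right ?_ (Real.rpow_nonneg (by norm_num) _)
          exact_mod_cast hFc
  -- the polynomial factor
  have hpoly : ((n : ℝ) + 1) * 4 ≤ 2 ^ ((n : ℝ) / (4 * ((C ^ 2 * R : ℕ) : ℝ))) := by
    have hQ4 : 0 < 4 * (C ^ 2 * R) := by omega
    have k1 : q2 ≤ n / (4 * (C ^ 2 * R)) := by
      rw [Nat.le_div_iff_mul_le hQ4]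
      refine le_trans ?_ hn
      nlinarith
    have k2 : n + 1 ≤ 4 * (C ^ 2 * R) * (n / (4 * (C ^ 2 * R)) + 1) :=
      Nat.lt_mul_div_succ n hQ4
    have k3 : (n + 1) * 4 ≤ 2 ^ (n / (4 * (C ^ 2 * R))) := by
      refine le_trans ?_ (hq2 _ k1)
      generalize n / (4 * (C ^ 2 * R)) = t at k2
      calc (n + 1) * 4 ≤ 4 * (C ^ 2 * R) * (t + 1) * 4 := Nat.mul_le_mul_right _ k2
        _ = 16 * (C ^ 2 * R) * (t + 1) := by ring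
    have k4 : ((n / (4 * (C ^ 2 * R)) : ℕ) : ℝ) ≤ (n : ℝ) / (4 * ((C ^ 2 * R : ℕ) : ℝ)) := by
      rw [le_div_iff₀ (by positivity)]
      have := Nat.div_mul_le_self n (4 * (C ^ 2 * R))
      exact_mod_cast this
    calc ((n : ℝ) + 1) * 4 ≤ ((2 ^ (n / (4 * (C ^ 2 * R))) : ℕ) : ℝ) := by exact_mod_cast k3
      _ = (2 : ℝ) ^ ((n / (4 * (C ^ 2 * R)) : ℕ) : ℝ) := by
          rw [Real.rpow_natCast]; push_cast; rfl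
      _ ≤ _ := Real.rpow_le_rpow_of_exponent_le (by norm_num) k4
  have hcard : (({A : Set ℕ | (∀ l ∈ A, l ≤ n) ∧
      ∃ (Lm : ℕ) (I : Finset ℕ) (Y : Finset ℤ) (σ : ℤ),
      8 * C * (q1 + 2) ≤ Lm ∧ 4 * (C ^ 2 * R) * Lm ≤ n ∧ (∀ i ∈ I, i < Lm) ∧
      Lm ≤ C * I.card ∧ n ≤ C * R * Lm * Y.card ∧
      (∀ y ∈ Y, ∀ z ∈ Y, y < z → y + Lm ≤ z) ∧ (σ = 1 ∨ σ = -1) ∧
      ∀ y ∈ Y, ∀ i ∈ I, ∃ N ∈ A, (N : ℤ) = y + σ * i}.ncard : ℕ) : ℝ) ≤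
      ((∑ Lm ∈ F, (U Lm).ncard : ℕ) : ℝ) := by
    have := (Set.ncard_le_ncard hsub hfin).trans (Finset.set_ncard_biUnion_le F U)
    exact_mod_cast this
  refine hcard.trans (hsum.trans ?_)
  have e1 : (2 : ℝ) ^ ((n : ℝ) + 2 - n / (2 * (C ^ 2 * R : ℕ))) =
      4 * 2 ^ ((n : ℝ) - n / (2 * (C ^ 2 * R : ℕ))) := by
    rw [show (n : ℝ) + 2 - n / (2 * (C ^ 2 * R : ℕ)) =
      2 + ((n : ℝ) - n / (2 * (C ^ 2 * R : ℕ))) by ring, Real.rpow_add (by norm_num)]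
    norm_num
  have e2 : (1 - 1 / (4 * ((C ^ 2 * R : ℕ) : ℝ))) * n =
      (n : ℝ) / (4 * ((C ^ 2 * R : ℕ) : ℝ)) + ((n : ℝ) - n / (2 * (C ^ 2 * R : ℕ))) := by
    field_simp
    ring
  rw [e1, e2, Real.rpow_add (by norm_num), ← mul_assoc]
  exact mul_le_mul_of_nonneg_right hpoly (Real.rpow_nonneg (by norm_num) _)

end Pool.Agent.CycMC
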