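import Pool.Agent.CycMC.Targets

/-!
# Cycle sets of graphs without a complete minor: CORE
-/

set_option autoImplicit false

namespace Pool.Agent.CycMC

open Finset

namespace CORE_

variable {V : Type} {Gr : SimpleGraph V}

theorem rep_self {S : Set V} {l : List V} (hc : l.IsChain Gr.Adj) (hn : l.Nodup) :
    Rep Gr S l l := ⟨hc, hn, rfl, rfl, fun _ hv => Or.inl hv⟩

theorem rep_trans {S S' : Set V} {l l' l'' : List V} (h : Rep Gr S l l') (hS : S' ⊆ S)
    (h' : Rep Gr S' l' l'') : Rep Gr S l l'' := by
  refine ⟨h'.chain, h'.nodup, h'.head.trans h.head, h'.last.trans h.last, fun v hv => ?_⟩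
  rcases h'.sub v hv with h1 | h1
  · exact h.sub v h1
  · exact Or.inr (hS h1)

theorem core (h1 : T_STEP) (h2 : T_LAMI) (Gr : SimpleGraph V) (lam K W : ℕ) (hK : 1 ≤ K) :
    ∀ (n : ℕ) (w : List (List V)) (B : List (Band V)), B.length = n → PSt Gr lam K W w B →
      Rich Gr (kap B) w.flatten K ((B.length + 2) / 2) := by
  intro n
  induction n using Nat.strong_induction_on with
  | _ n ih =>
    intro w B hn hw
    rcases h1 V Gr lam K W w B hw with ⟨B', hw', hl, hk, hL⟩ |
      ⟨w', B', hw', hlt, hle, hk, hrep, hlen, _, _⟩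
    · obtain ⟨X, hX1, hX2, hX3, hX4⟩ := h2 V Gr lam K W w B' hK hw' hL
      rw [hk] at hX4
      exact ⟨X, by omega, hX2, hX3, hX4⟩
    · obtain ⟨X, hX1, hX2, hX3, hX4⟩ := ih B'.length (by omega) w' B' rfl hw'
      have hnot : w.flatten.length ∉ X := fun h => by
        have := hX3 _ h
        omega
      refine ⟨insert w.flatten.length X, ?_, ?_, ?_, ?_⟩
      · rw [card_insert_of_notMem hnot]
        omega
      · intro a ha b hb hab
        rcases mem_insert.1 ha with ha | ha <;> rcases mem_insert.1 hb with hb | hb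
        · omega
        · have := hX3 b hb
          omega
        · have := hX3 a ha
          omega
        · exact hX2 a ha b hb hab
      · intro a ha
        rcases mem_insert.1 ha with ha | ha
        · omega
        · have := hX3 a ha
          omega
      · intro a ha
        rcases mem_insert.1 ha with ha | ha
        · exact ⟨w.flatten, rep_self hw.chain hw.nodup, ha.symm⟩
        · obtain ⟨l', hl', hla⟩ := hX4 a ha
          exact ⟨l', rep_trans hrep hk hl', hla⟩

end CORE_

theorem p_CORE (h1 : T_STEP) (h2 : T_LAMI) : T_CORE :=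
  fun _ Gr lam K W w B hK hw => CORE_.core h1 h2 Gr lam K W hK B.length w B rfl hw

end Pool.Agent.CycMC
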