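import Pool.Agent.CycMC.Targets

/-!
# Counting the sets which contain `Y ± I`
-/

set_option autoImplicit false

namespace Pool.Agent.CycMC

open Finset

namespace COUNT3

/-- The set `Y + σ I`. -/
def T (t : ℤ × Finset ℕ × Finset ℤ) : Finset ℕ :=
  (t.2.2 ×ˢ t.2.1).image (fun p => (p.1 + t.1 * p.2).toNat)

/-- The good descriptions. -/
noncomputable def J (n Lm a m : ℕ) : Finset (ℤ × Finset ℕ × Finset ℤ) :=
  (({1, -1} : Finset ℤ) ×ˢ (range Lm).powerset ×ˢ
    powersetCard m (Finset.Icc (-(Lm : ℤ)) (n + Lm))).filter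
      (fun t => T t ⊆ range (n + 1) ∧ (T t).card = a * m)

lemma card_J (n Lm a m : ℕ) : (J n Lm a m).card ≤ 2 * 2 ^ Lm * (n + 2 * Lm + 1).choose m := by
  refine (card_filter_le _ _).trans ?_
  rw [card_product, card_product, card_powerset, card_range, card_powersetCard, Int.card_Icc,
    ← mul_assoc]
  have h1 : (({1, -1} : Finset ℤ)).card = 2 := by decide
  have h2 : ((n : ℤ) + Lm + 1 - -(Lm : ℤ)).toNat = n + 2 * Lm + 1 := by omega
  rw [h1, h2]

/-- The family of sets. -/
noncomputable def F (n Lm a m : ℕ) : Finset (Finset ℕ) :=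
  (J n Lm a m).biUnion (fun t => Finset.Icc (T t) (range (n + 1)))

lemma card_F (n Lm a m : ℕ) : (F n Lm a m).card ≤
    2 * 2 ^ Lm * (n + 2 * Lm + 1).choose m * 2 ^ (n + 1 - a * m) := by
  refine card_biUnion_le.trans ?_
  have h1 : ∀ t ∈ J n Lm a m, (Finset.Icc (T t) (range (n + 1))).card = 2 ^ (n + 1 - a * m) := by
    intro t ht
    rw [J, mem_filter] at ht
    rw [card_Icc_finset ht.2.1, card_range, ht.2.2]
  rw [sum_congr rfl h1, sum_const, smul_eq_mul]
  exact Nat.mul_le_mul_right _ (card_J n Lm a m)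

end COUNT3

open COUNT3 in
theorem p_COUNT3 : T_COUNT3 := by
  classical
  intro n Lm a m ha
  refine le_trans ?_ (card_F n Lm a m)
  have hsub : {A : Set ℕ | (∀ l ∈ A, l ≤ n) ∧ ∃ I : Finset ℕ, (∀ i ∈ I, i < Lm) ∧ a ≤ I.card ∧
      ∃ Y : Finset ℤ, m ≤ Y.card ∧ (∀ y ∈ Y, ∀ z ∈ Y, y < z → y + Lm ≤ z) ∧
      ∃ σ : ℤ, (σ = 1 ∨ σ = -1) ∧ ∀ y ∈ Y, ∀ i ∈ I, ∃ N ∈ A, (N : ℤ) = y + σ * i} ⊆
      ((F n Lm a m).image (fun B : Finset ℕ => (B : Set ℕ)) : Finset (Set ℕ)) := by
    rintro A ⟨hA, I, hI, haI, Y, hmY, hY, σ, hσ, hN⟩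
    obtain ⟨I₀, hI₀, hcI⟩ := exists_subset_card_eq haI
    obtain ⟨Y₀, hY₀, hcY⟩ := exists_subset_card_eq hmY
    rw [mem_coe, mem_image]
    refine ⟨(range (n + 1)).filter (· ∈ A), ?_, ?_⟩
    · rw [F, mem_biUnion]
      have hT : T (σ, I₀, Y₀) ⊆ (range (n + 1)).filter (· ∈ A) := by
        intro x hx
        rw [T, mem_image] at hx
        obtain ⟨⟨y, i⟩, hyi, rfl⟩ := hx
        rw [mem_product] at hyi
        obtain ⟨N, hNA, hNe⟩ := hN y (hY₀ hyi.1) i (hI₀ hyi.2)
        dsimp only
        rw [← hNe, Int.toNat_natCast, mem_filter, mem_range]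
        exact ⟨Nat.lt_succ_of_le (hA N hNA), hNA⟩
      have hcard : (T (σ, I₀, Y₀)).card = a * m := by
        rw [T, card_image_of_injOn, card_product]
        · dsimp only
          rw [hcI, hcY, mul_comm]
        · rintro ⟨y, i⟩ hp ⟨y', i'⟩ hp' he
          rw [mem_coe, mem_product] at hp hp'
          dsimp only at hp hp' he
          obtain ⟨N, -, hNe⟩ := hN y (hY₀ hp.1) i (hI₀ hp.2)
          obtain ⟨N', -, hNe'⟩ := hN y' (hY₀ hp'.1) i' (hI₀ hp'.2)
          rw [← hNe, ← hNe', Int.toNat_natCast, Int.toNat_natCast] at he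
          subst he
          have h1 := hI i (hI₀ hp.2)
          have h2 := hI i' (hI₀ hp'.2)
          have h3 := hY y (hY₀ hp.1) y' (hY₀ hp'.1)
          have h4 := hY y' (hY₀ hp'.1) y (hY₀ hp.1)
          have h5 : y = y' ∧ i = i' := by
            rcases hσ with rfl | rfl <;> rcases lt_trichotomy y y' with h | h | h
            · have := h3 h; omega
            · omega
            · have := h4 h; omega
            · have := h3 h; omega
            · omega
            · have := h4 h; omega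
          rw [h5.1, h5.2]
      refine ⟨(σ, I₀, Y₀), ?_, ?_⟩
      · rw [J, mem_filter]
        refine ⟨?_, hT.trans (filter_subset _ _), hcard⟩
        rw [mem_product, mem_product]
        refine ⟨?_, ?_, ?_⟩
        · rcases hσ with rfl | rfl <;> simp
        · rw [mem_powerset]
          intro i hi
          exact mem_range.2 (hI i (hI₀ hi))
        · rw [mem_powersetCard]
          refine ⟨fun y hy => ?_, hcY⟩
          obtain ⟨i, hi⟩ : I₀.Nonempty := by
            rw [← card_pos, hcI]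
            exact ha
          obtain ⟨N, hNA, hNe⟩ := hN y (hY₀ hy) i (hI₀ hi)
          have h1 := hI i (hI₀ hi)
          have h2 := hA N hNA
          rw [mem_Icc]
          rcases hσ with rfl | rfl <;> constructor <;> omega
      · rw [mem_Icc]
        exact ⟨hT, filter_subset _ _⟩
    · ext x
      rw [mem_coe, mem_filter, mem_range]
      constructor
      · exact fun h => h.2
      · exact fun h => ⟨Nat.lt_succ_of_le (hA x h), h⟩
  calc _ ≤ (((F n Lm a m).image (fun B : Finset ℕ => (B : Set ℕ)) : Finset (Set ℕ)) :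
        Set (Set ℕ)).ncard := Set.ncard_le_ncard hsub (Finset.finite_toSet _)
    _ = ((F n Lm a m).image (fun B : Finset ℕ => (B : Set ℕ))).card := Set.ncard_coe_finset _
    _ ≤ (F n Lm a m).card := card_image_le

end Pool.Agent.CycMC
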