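import Pool.Agent.CycMC.Targets

/-!
# Counting the sets which contain a long sequence with bounded gaps
-/

set_option autoImplicit false

namespace Pool.Agent.CycMC

open Finset

namespace COUNT4

/-- The sets which meet all windows of length `W` after `μ`. -/
def F (n W q μ : ℕ) : Finset (Finset ℕ) :=
  (range (n + 1)).powerset.filter
    (fun B => ∀ i < q, ∃ x ∈ B, μ + i * W ≤ x ∧ x < μ + i * W + W)

lemma card_F (n W q μ : ℕ) (hW : 1 ≤ W) (h : μ + W * q ≤ n + 1) :
    (F n W q μ).card ≤ (2 ^ W - 1) ^ q * 2 ^ (n + 1 - W * q) := by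
  classical
  set P : Finset (Fin q → Finset ℕ) :=
    Fintype.piFinset (fun _ : Fin q => (range W).powerset.erase ∅) with hP
  set R : Finset (Finset ℕ) := (range (n + 1) \ Finset.Ico μ (μ + W * q)).powerset with hR
  have hPc : P.card = (2 ^ W - 1) ^ q := by
    rw [hP, Fintype.card_piFinset, prod_const, card_univ, Fintype.card_fin,
      card_erase_of_mem (by simp), card_powerset, card_range]
  have hRc : R.card = 2 ^ (n + 1 - W * q) := by
    rw [hR, card_powerset, card_sdiff_of_subset, card_range, Nat.card_Ico, Nat.add_sub_cancel_left]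
    intro x hx
    rw [mem_Ico] at hx
    rw [mem_range]
    omega
  rw [← hPc, ← hRc, ← card_product]
  refine card_le_card_of_injOn
    (fun B => (fun i : Fin q => (range W).filter (fun x => μ + (i : ℕ) * W + x ∈ B),
      B \ Finset.Ico μ (μ + W * q))) ?_ ?_
  · intro B hB
    rw [mem_coe, F, mem_filter, mem_powerset] at hB
    rw [mem_coe, mem_product]
    refine ⟨?_, ?_⟩
    · rw [hP, Fintype.mem_piFinset]
      intro i
      rw [mem_erase, mem_powerset]
      refine ⟨?_, filter_subset _ _⟩
      obtain ⟨x, hx, h1, h2⟩ := hB.2 i i.2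
      refine Finset.Nonempty.ne_empty ⟨x - (μ + (i : ℕ) * W), ?_⟩
      rw [mem_filter, mem_range, Nat.add_sub_cancel' h1]
      exact ⟨by omega, hx⟩
    · rw [hR, mem_powerset]
      exact sdiff_subset_sdiff hB.1 (Subset.refl _)
  · intro B hB B' hB' he
    simp only [Prod.mk.injEq] at he
    obtain ⟨h1, h2⟩ := he
    ext x
    by_cases hx : x ∈ Finset.Ico μ (μ + W * q)
    · rw [mem_Ico] at hx
      have h3 : (x - μ) / W < q := by
        rw [Nat.div_lt_iff_lt_mul hW, mul_comm]
        omega
      have h4 := congrFun h1 ⟨(x - μ) / W, h3⟩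
      have h5 : (x - μ) % W < W := Nat.mod_lt _ hW
      have h6 : μ + (x - μ) / W * W + (x - μ) % W = x := by
        have := Nat.div_add_mod' (x - μ) W
        omega
      have h7 := Finset.ext_iff.1 h4 ((x - μ) % W)
      simp only [mem_filter, mem_range, h5, true_and, h6] at h7
      exact h7
    · have h3 := Finset.ext_iff.1 h2 x
      simp only [mem_sdiff, hx, not_false_eq_true, and_true] at h3
      exact h3

/-- Long sequences with bounded gaps meet all windows. -/
lemma gap_window {X : Finset ℕ} {W m : ℕ} (hW : 1 ≤ W) (hm : m < X.card) (hX : Gap X 1 W) :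
    ∃ μ ∈ X, (∃ M ∈ X, μ + m ≤ M) ∧
      ∀ i < m / W, ∃ x ∈ X, μ + i * W ≤ x ∧ x < μ + i * W + W := by
  classical
  have hne : X.Nonempty := card_pos.1 (by omega)
  have hμX := X.min'_mem hne
  have hMX := X.max'_mem hne
  set μ := X.min' hne with hμ
  set M := X.max' hne with hM
  have hle : μ + m ≤ M := by
    have h1 : X ⊆ Finset.Icc μ M := fun x hx => by
      rw [mem_Icc]
      exact ⟨X.min'_le x hx, X.le_max' x hx⟩
    have h2 := card_le_card h1
    rw [Nat.card_Icc] at h2
    omega
  refine ⟨μ, hμX, ⟨M, hMX, hle⟩, ?_⟩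
  intro i hi
  have h3 : (i + 1) * W ≤ m := by
    calc (i + 1) * W ≤ (m / W) * W := Nat.mul_le_mul_right _ hi
      _ ≤ m := Nat.div_mul_le_self _ _
  rw [add_mul, one_mul] at h3
  set e := μ + i * W + W with he
  have hY : (X.filter (fun y => e ≤ y)).Nonempty := by
    refine ⟨M, ?_⟩
    rw [mem_filter]
    exact ⟨hMX, by omega⟩
  have hy := (X.filter (fun y => e ≤ y)).min'_mem hY
  set y := (X.filter (fun y => e ≤ y)).min' hY with hydef
  rw [mem_filter] at hy
  rcases hX y hy.1 with h | ⟨y', hy', h4, h5⟩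
  · exfalso
    have := h μ hμX
    have h6 : μ + 1 ≤ e := by
      rw [he]
      have : 0 ≤ i * W := Nat.zero_le _
      omega
    omega
  · refine ⟨y', hy', ?_, ?_⟩
    · omega
    · by_contra hcon
      have h6 : y ≤ y' := by
        apply Finset.min'_le
        rw [mem_filter]
        exact ⟨hy', by omega⟩
      omega

end COUNT4

open COUNT4 in
/-- COUNT4. -/
theorem p_COUNT4 : T_COUNT4 := by
  classical
  intro n W m hW
  set q := m / W with hq
  set S : Finset (Finset ℕ) :=
    ((range (n + 1)).filter (fun μ => μ + W * q ≤ n + 1)).biUnion (fun μ => F n W q μ) with hS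
  have hcard : S.card ≤ (n + 1) * (2 ^ W - 1) ^ q * 2 ^ (n + 1 - W * q) := by
    refine card_biUnion_le.trans ?_
    refine (sum_le_card_nsmul _ _ ((2 ^ W - 1) ^ q * 2 ^ (n + 1 - W * q)) ?_).trans ?_
    · intro μ hμ
      rw [mem_filter] at hμ
      exact card_F n W q μ hW hμ.2
    · rw [smul_eq_mul, mul_assoc]
      refine Nat.mul_le_mul_right _ ?_
      refine (card_filter_le _ _).trans ?_
      rw [card_range]
  have hsub : {A : Set ℕ | (∀ l ∈ A, l ≤ n) ∧ ∃ X : Finset ℕ, m < X.card ∧
      (∀ x ∈ X, x ∈ A) ∧ Gap X 1 W} ⊆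
      (S.image (fun B : Finset ℕ => (B : Set ℕ)) : Finset (Set ℕ)) := by
    rintro A ⟨hA, X, hmX, hXA, hG⟩
    obtain ⟨μ, hμX, ⟨M, hMX, hM⟩, hw⟩ := gap_window hW hmX hG
    have hMn : M ≤ n := hA M (hXA M hMX)
    have hμn : μ ≤ n := hA μ (hXA μ hμX)
    have hqm : W * q ≤ m := Nat.mul_div_le m W
    rw [mem_coe, mem_image]
    refine ⟨(range (n + 1)).filter (· ∈ A), ?_, ?_⟩
    · rw [hS, mem_biUnion]
      refine ⟨μ, ?_, ?_⟩
      · rw [mem_filter, mem_range]
        constructor <;> omega
      · rw [F, mem_filter, mem_powerset]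
        refine ⟨filter_subset _ _, ?_⟩
        intro i hi
        obtain ⟨x, hx, h1, h2⟩ := hw i hi
        refine ⟨x, ?_, h1, h2⟩
        rw [mem_filter, mem_range]
        exact ⟨Nat.lt_succ_of_le (hA x (hXA x hx)), hXA x hx⟩
    · ext x
      rw [mem_coe, mem_filter, mem_range]
      constructor
      · exact fun h => h.2
      · exact fun h => ⟨Nat.lt_succ_of_le (hA x h), h⟩
  calc _ ≤ ((S.image (fun B : Finset ℕ => (B : Set ℕ)) : Finset (Set ℕ)) :
        Set (Set ℕ)).ncard := Set.ncard_le_ncard hsub (Finset.finite_toSet _)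
    _ = (S.image (fun B : Finset ℕ => (B : Set ℕ))).card := Set.ncard_coe_finset _
    _ ≤ S.card := card_image_le
    _ ≤ _ := hcard

end Pool.Agent.CycMC
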