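import Pool.Agent.CycMC.Targets

/-!
# Cycle sets of graphs without a complete minor: the blocks CZD and CSM
-/

set_option autoImplicit false

namespace Pool.Agent.CycMC

open Finset

namespace CZD_

theorem poly (Q s : ℕ) : ∃ Z1 : ℕ, ∀ z : ℕ, Z1 ≤ z → (2 * Q * z) ^ s ≤ 2 ^ z := by
  have h := tendsto_pow_const_div_const_pow_of_one_lt s (r := (2 : ℝ)) (by norm_num)
  have h2 := h.const_mul ((2 * Q : ℝ) ^ s)
  rw [mul_zero] at h2
  obtain ⟨Z1, hZ⟩ := Filter.eventually_atTop.1 (h2.eventually_lt_const zero_lt_one)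
  refine ⟨Z1, fun z hz => ?_⟩
  have h3 := hZ z hz
  have h4 : (0 : ℝ) < 2 ^ z := by positivity
  rw [← mul_div_assoc, div_lt_one h4] at h3
  have h5 : (((2 * Q * z) ^ s : ℕ) : ℝ) ≤ ((2 ^ z : ℕ) : ℝ) := by
    push_cast
    rw [mul_pow]
    exact h3.le
  exact_mod_cast h5

theorem lin (A B : ℕ) : ∃ z1 : ℕ, ∀ z : ℕ, z1 ≤ z → A * z + B ≤ 2 ^ z := by
  obtain ⟨Z1, hZ⟩ := poly (A + B) 1
  refine ⟨Z1 + 1, fun z hz => ?_⟩
  have h1 := hZ z (by omega)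
  rw [pow_one] at h1
  refine le_trans ?_ h1
  have hz1 : 1 ≤ z := by omega
  have h2 : B * 1 ≤ B * z := Nat.mul_le_mul_left B hz1
  have h3 : 2 * (A + B) * z = A * z + B * z + (A * z + B * z) := by ring
  omega

/-- from a natural exponent to a real one -/
theorem toReal {X e n : ℕ} {δ : ℝ} (h : X ≤ 2 ^ e) (h2 : (e : ℝ) ≤ (1 - δ) * n) :
    (X : ℝ) ≤ 2 ^ ((1 - δ) * n) := by
  have h3 : (X : ℝ) ≤ 2 ^ e := by exact_mod_cast h
  refine h3.trans ?_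
  rw [← Real.rpow_natCast]
  exact Real.rpow_le_rpow_of_exponent_le (by norm_num) h2

end CZD_

open CZD_

theorem p_CZD (h1 : Pool.Agent.CycPl.T_COUNT2) (h2 : Pool.Agent.CycPl.T_CH) : T_CZD := by
  intro C hC
  obtain ⟨z1, hz1⟩ := lin 2 (C + 6)
  obtain ⟨s, hs⟩ : ∃ s, s = 2 ^ z1 := ⟨_, rfl⟩
  have hs0 : 1 ≤ s := by rw [hs]; exact Nat.one_le_two_pow
  obtain ⟨Q, hQ⟩ : ∃ Q, Q = C * s ^ 2 := ⟨_, rfl⟩
  have hQ0 : 1 ≤ Q := by rw [hQ]; exact Nat.succ_le_of_lt (by positivity)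
  obtain ⟨Z1, hZ1⟩ := poly Q s
  obtain ⟨a, ha⟩ : ∃ a, a = C + 2 * z1 + 1 := ⟨_, rfl⟩
  have has : a + 5 ≤ s := by
    have := hz1 z1 le_rfl
    rw [hs, ha]
    omega
  have haQ : 2 * Q ≤ 2 ^ a := by
    have e1 : C ≤ 2 ^ C := Nat.lt_two_pow_self.le
    calc 2 * Q = 2 * (C * s ^ 2) := by rw [hQ]
      _ ≤ 2 * (2 ^ C * s ^ 2) := by gcongr
      _ = 2 ^ a := by
          rw [hs, ha, pow_add, pow_add, pow_mul', pow_one]
          ring
  refine ⟨s, (Z1 + 1) * Q, 1 / (2 * Q), hs0, by positivity, fun n hn => ?_⟩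
  obtain ⟨z0, hz0⟩ : ∃ z0, z0 = n / Q := ⟨_, rfl⟩
  have hzQ : z0 * Q ≤ n := by
    rw [hz0]
    exact Nat.div_mul_le_self _ _
  have hz2 : Z1 + 1 ≤ z0 := by
    rw [hz0, Nat.le_div_iff_mul_le (by omega)]
    exact hn
  have hz3 : n + 1 ≤ 2 * Q * z0 := by
    have e1 : n < Q * (z0 + 1) := by
      rw [hz0]
      exact Nat.lt_mul_div_succ _ (by omega)
    have e3 : Q * 1 ≤ Q * z0 := Nat.mul_le_mul_left Q (by omega)
    have e4 : Q * (z0 + 1) = Q * z0 + Q * 1 := by ring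
    have e5 : 2 * Q * z0 = Q * z0 + Q * z0 := by ring
    omega
  have hsz : s * z0 ≤ n := by
    refine le_trans ?_ hzQ
    rw [mul_comm]
    refine Nat.mul_le_mul_left _ ?_
    rw [hQ]
    calc s = 1 * s * 1 := by ring
      _ ≤ C * s * s := by gcongr
      _ = C * s ^ 2 := by ring
  have hsub : {A : Set ℕ | (∀ l ∈ A, l ≤ n) ∧ ∃ Z D : Finset ℤ, D.card = s ∧ n ≤ C * Z.card ∧
      ∀ z ∈ Z, ∀ d ∈ D, ∃ N ∈ A, (N : ℤ) = z - d} ⊆
      {A : Set ℕ | (∀ l ∈ A, l ≤ n) ∧ ∃ Z D : Finset ℤ, D.card = s ∧ s ^ 2 * z0 ≤ Z.card ∧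
      ∀ z ∈ Z, ∀ d ∈ D, ∃ N ∈ A, (N : ℤ) = z - d} := by
    rintro A ⟨hA, Z, D, hD, hZ, hZD⟩
    refine ⟨hA, Z, D, hD, ?_, hZD⟩
    have e1 : C * (s ^ 2 * z0) ≤ C * Z.card := by
      refine le_trans ?_ hZ
      refine le_trans (le_of_eq ?_) hzQ
      rw [hQ]
      ring
    exact Nat.le_of_mul_le_mul_left e1 (by omega)
  have hfin : {A : Set ℕ | (∀ l ∈ A, l ≤ n) ∧ ∃ Z D : Finset ℤ, D.card = s ∧
      s ^ 2 * z0 ≤ Z.card ∧ ∀ z ∈ Z, ∀ d ∈ D, ∃ N ∈ A, (N : ℤ) = z - d}.Finite := by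
    refine (Set.finite_Iic n).powerset.subset ?_
    rintro A ⟨hA, -⟩ l hl
    exact hA l hl
  have hcount := (Set.ncard_le_ncard hsub hfin).trans (h1 n s z0 hs0)
  have hch := h2 (n + 1) z0 a (hz3.trans (Nat.mul_le_mul_right _ haQ))
  have hpoly : (n + 1) ^ s ≤ 2 ^ z0 := (Nat.pow_le_pow_left hz3 s).trans (hZ1 z0 (by omega))
  have hexp : z0 + (a + 2) * z0 + (n + 1 - s * z0) ≤ n - z0 := by
    have e1 : (a + 5) * z0 ≤ s * z0 := Nat.mul_le_mul_right _ has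
    have e2 : (a + 5) * z0 = z0 + (a + 2) * z0 + 2 * z0 := by ring
    omega
  refine toReal (e := n - z0) ?_ ?_
  · refine hcount.trans ?_
    calc (n + 1) ^ s * (n + 1).choose z0 * 2 ^ (n + 1 - s * z0)
        ≤ 2 ^ z0 * 2 ^ ((a + 2) * z0) * 2 ^ (n + 1 - s * z0) := by gcongr
      _ = 2 ^ (z0 + (a + 2) * z0 + (n + 1 - s * z0)) := by rw [← pow_add, ← pow_add]
      _ ≤ 2 ^ (n - z0) := Nat.pow_le_pow_right (by norm_num) hexp
  · have hzn : z0 ≤ n := by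
      have : 1 * z0 ≤ s * z0 := Nat.mul_le_mul_right _ hs0
      omega
    rw [Nat.cast_sub hzn]
    have hQr : (0 : ℝ) < 2 * Q := by positivity
    have e1 : (n : ℝ) ≤ 2 * Q * z0 := by
      have : n ≤ 2 * Q * z0 := by omega
      exact_mod_cast this
    have e2 : (1 / (2 * Q) : ℝ) * n ≤ z0 := by
      rw [one_div, inv_mul_le_iff₀ hQr]
      exact e1
    linarith

theorem p_CSM (h1 : Pool.Agent.CycPl.T_CH) : T_CSM := by
  intro K hK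
  obtain ⟨z1, hz1⟩ := lin (4 * K) (16 * K)
  refine ⟨2 ^ z1, fun R hR => ⟨R, 1 / 2, by norm_num, fun n hn => ?_⟩⟩
  have hR0 : 0 < R := lt_of_lt_of_le (by positivity) hR
  obtain ⟨ρ, hρ⟩ : ∃ ρ, ρ = Nat.log 2 R := ⟨_, rfl⟩
  have hρ1 : 2 ^ ρ ≤ R := by rw [hρ]; exact Nat.pow_log_le_self 2 (by omega)
  have hρ2 : R < 2 ^ (ρ + 1) := by rw [hρ]; exact Nat.lt_pow_succ_log_self (by norm_num) R
  have hρ3 : z1 ≤ ρ := by
    rw [hρ]
    exact Nat.le_log_of_pow_le (by norm_num) hR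
  have hKR : 4 * K * ρ + 16 * K ≤ R := (hz1 ρ hρ3).trans hρ1
  obtain ⟨e, he⟩ : ∃ e, e = n / R + 1 := ⟨_, rfl⟩
  rw [← he]
  have hne : n ≤ R * e := by
    rw [he]
    exact (Nat.lt_mul_div_succ _ hR0).le
  have heR : e * R ≤ 2 * n := by
    rw [he, add_mul, one_mul]
    have := Nat.div_mul_le_self n R
    omega
  have hN : n + K * e ≤ 2 ^ (ρ + 1) * (K * e) := by
    calc n + K * e ≤ R * (1 * e) + K * e := by rw [one_mul]; omega
      _ ≤ R * (K * e) + K * e := by gcongr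
      _ = (R + 1) * (K * e) := by ring
      _ ≤ 2 ^ (ρ + 1) * (K * e) := by gcongr; omega
  have hch := h1 (n + K * e) (K * e) (ρ + 1) hN
  have hKe : K ^ e ≤ 2 ^ (K * e) := by
    rw [pow_mul]
    exact Nat.pow_le_pow_left Nat.lt_two_pow_self.le e
  refine toReal (e := K * e + (ρ + 1 + 2) * (K * e)) ?_ ?_
  · calc K ^ e * (n + K * e).choose (K * e)
        ≤ 2 ^ (K * e) * 2 ^ ((ρ + 1 + 2) * (K * e)) := by gcongr
      _ = 2 ^ (K * e + (ρ + 1 + 2) * (K * e)) := by rw [← pow_add]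
  · have e1 : 4 * (K * e + (ρ + 1 + 2) * (K * e)) ≤ 2 * n := by
      refine le_trans ?_ heR
      calc 4 * (K * e + (ρ + 1 + 2) * (K * e)) = e * (4 * K * ρ + 16 * K) := by ring
        _ ≤ e * R := Nat.mul_le_mul_left _ hKR
    have e2 : (4 : ℝ) * ((K * e + (ρ + 1 + 2) * (K * e) : ℕ) : ℝ) ≤ 2 * n := by
      exact_mod_cast e1
    linarith

end Pool.Agent.CycMC
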