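import Pool.Agent.CycMC.Targets

/-!
# DB: switching two interlaced untwisted bands
-/

set_option autoImplicit false

namespace Pool.Agent.CycMC

namespace DB_

variable {V : Type}

/-- Inserting a link between two lists. -/
lemma glue {R : V → V → Prop} {L M k : List V} {a b : V} (h1 : (L ++ [a]).IsChain R)
    (h2 : (a :: (k ++ [b])).IsChain R) (h3 : (b :: M).IsChain R) :
    (L ++ (a :: (k ++ (b :: M)))).IsChain R := by
  have h12 : (L ++ [a] ++ (k ++ [b])).IsChain R :=
    List.IsChain.append_overlap h1 (by simpa using h2) (by simp)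
  have h12' : ((L ++ [a] ++ k) ++ [b]).IsChain R := by simpa using h12
  have h : ((L ++ [a] ++ k) ++ [b] ++ M).IsChain R :=
    List.IsChain.append_overlap h12' (by simpa using h3) (by simp)
  simpa using h

/-- A consecutive part of a chain. -/
lemma piece {R : V → V → Prop} {P M T : List V} (h : (P ++ M ++ T).IsChain R) :
    M.IsChain R :=
  (List.isChain_append.1 (List.isChain_append.1 h).1).2.1

lemma revChain {R : V → V → Prop} (hR : ∀ a b, R a b → R b a) {k : List V} {a b : V}
    (h : (a :: (k ++ [b])).IsChain R) : (b :: (k.reverse ++ [a])).IsChain R := by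
  have h1 : (b :: (k.reverse ++ [a])) = (a :: (k ++ [b])).reverse := by simp
  rw [h1, List.isChain_reverse]
  exact h.imp fun x y hxy => hR x y hxy

/-- The old path. -/
def W0 (U Vv X Y Z A B C D : List V) (p p' q q' s s' t t' : V) : List V :=
  U ++ (p :: (A ++ (p' :: (Vv ++ (s :: (C ++ (s' :: (X ++ (q' :: (B ++ (q :: (Y ++
    (t' :: (D ++ (t :: Z)))))))))))))))

/-- The new path. -/
def W1 (U Vv X Y Z k k' r r' : List V) (p p' q q' s s' t t' : V) : List V :=
  U ++ (p :: (k ++ (q :: (Y ++ (t' :: (r' ++ (s' :: (X ++ (q' :: (k' ++ (p' :: (Vv ++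
    (s :: (r ++ (t :: Z)))))))))))))))

lemma chainW {R : V → V → Prop} {U Vv X Y Z A B C D k k' r r' : List V}
    {p p' q q' s s' t t' : V} (h : (W0 U Vv X Y Z A B C D p p' q q' s s' t t').IsChain R)
    (hk : (p :: (k ++ [q])).IsChain R) (hr' : (t' :: (r' ++ [s'])).IsChain R)
    (hk' : (q' :: (k' ++ [p'])).IsChain R) (hr : (s :: (r ++ [t])).IsChain R) :
    (W1 U Vv X Y Z k k' r r' p p' q q' s s' t t').IsChain R := by
  have e1 : (U ++ [p]).IsChain R := piece (P := []) (T := A ++ [p'] ++ Vv ++ [s] ++ C ++ [s'] ++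
    X ++ [q'] ++ B ++ [q] ++ Y ++ [t'] ++ D ++ [t] ++ Z) (by simpa [W0] using h)
  have e2 : (p' :: (Vv ++ [s])).IsChain R := piece (P := U ++ [p] ++ A) (T := C ++ [s'] ++ X ++
    [q'] ++ B ++ [q] ++ Y ++ [t'] ++ D ++ [t] ++ Z) (by simpa [W0] using h)
  have e3 : (s' :: (X ++ [q'])).IsChain R := piece (P := U ++ [p] ++ A ++ [p'] ++ Vv ++ [s] ++ C)
    (T := B ++ [q] ++ Y ++ [t'] ++ D ++ [t] ++ Z) (by simpa [W0] using h)
  have e4 : (q :: (Y ++ [t'])).IsChain R := piece (P := U ++ [p] ++ A ++ [p'] ++ Vv ++ [s] ++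
    C ++ [s'] ++ X ++ [q'] ++ B) (T := D ++ [t] ++ Z) (by simpa [W0] using h)
  have e5 : (t :: Z).IsChain R := piece (P := U ++ [p] ++ A ++ [p'] ++ Vv ++ [s] ++ C ++
    [s'] ++ X ++ [q'] ++ B ++ [q] ++ Y ++ [t'] ++ D) (T := []) (by simpa [W0] using h)
  have c1 := glue e1 hk e4
  have c2 := glue (L := U ++ [p] ++ k ++ [q] ++ Y) (by simpa using c1) hr' e3
  have c3 := glue (L := U ++ [p] ++ k ++ [q] ++ Y ++ [t'] ++ r' ++ [s'] ++ X) (by
    simpa using c2) hk' e2
  have c4 := glue (L := U ++ [p] ++ k ++ [q] ++ Y ++ [t'] ++ r' ++ [s'] ++ X ++ [q'] ++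
    k' ++ [p'] ++ Vv) (by simpa using c3) hr e5
  simpa [W1] using c4

open Classical in
lemma permW {U Vv X Y Z k k' r r' : List V} {p p' q q' s s' t t' : V} :
    (W1 U Vv X Y Z k k' r r' p p' q q' s s' t t').Perm
      (W0 U Vv X Y Z [] [] [] [] p p' q q' s s' t t' ++ (k ++ k' ++ (r ++ r'))) := by
  rw [List.perm_iff_count]
  intro a
  simp only [W0, W1, List.count_append, List.count_cons, List.count_nil]
  ring

lemma subW {U Vv X Y Z A B C D : List V} {p p' q q' s s' t t' : V} :
    (W0 U Vv X Y Z [] [] [] [] p p' q q' s s' t t').Sublist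
      (W0 U Vv X Y Z A B C D p p' q q' s s' t t') := by
  unfold W0
  refine (List.Sublist.refl U).append (List.Sublist.cons_cons _ ?_)
  refine (List.nil_sublist A).append (List.Sublist.cons_cons _ ?_)
  refine (List.Sublist.refl Vv).append (List.Sublist.cons_cons _ ?_)
  refine (List.nil_sublist C).append (List.Sublist.cons_cons _ ?_)
  refine (List.Sublist.refl X).append (List.Sublist.cons_cons _ ?_)
  refine (List.nil_sublist B).append (List.Sublist.cons_cons _ ?_)
  refine (List.Sublist.refl Y).append (List.Sublist.cons_cons _ ?_)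
  exact (List.nil_sublist D).append (List.Sublist.refl _)

end DB_

open DB_ in
theorem p_DB : T_DB := by
  intro V Gr lam K W b c B u v x y z h
  obtain ⟨p, p', q, q', A, Bb, k, k'⟩ := b
  obtain ⟨s, s', t, t', C, D, r, r'⟩ := c
  set b : Band V := ⟨p, p', q, q', A, Bb, k, k'⟩ with hb
  set c : Band V := ⟨s, s', t, t', C, D, r, r'⟩ with hc
  set w := u ++ b.l1 :: (v ++ c.l1 :: (x ++ b.l2.reverse :: (y ++ c.l2.reverse :: z))) with hw
  have hwf : w.flatten = W0 u.flatten v.flatten x.flatten y.flatten z.flatten A Bb.reverse C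
      D.reverse p p' q q' s s' t t' := by
    simp [hw, hb, hc, W0, Band.l1, Band.l2]
  let w' : List (List V) := u ++ (p :: (k ++ [q])) :: (y ++ (t' :: (r'.reverse ++ [s'])) ::
    (x ++ (q' :: (k'.reverse ++ [p'])) :: (v ++ (s :: (r ++ [t])) :: z)))
  have hwf' : w'.flatten = W1 u.flatten v.flatten x.flatten y.flatten z.flatten k k'.reverse r
      r'.reverse p p' q q' s s' t t' := by
    simp [w', W1]
  have hadj : ∀ a d, Gr.Adj a d → Gr.Adj d a := fun _ _ hh => hh.symm
  obtain ⟨lb1, lb2⟩ := h.link b (by simp)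
  obtain ⟨lc1, lc2⟩ := h.link c (by simp)
  have hchain : w'.flatten.IsChain Gr.Adj := by
    rw [hwf']
    refine chainW (A := A) (B := Bb.reverse) (C := C) (D := D.reverse) ?_ lb1
      (revChain hadj lc2) (revChain hadj lb2) lc1
    rw [← hwf]
    exact h.chain
  have hnd0 : (W0 u.flatten v.flatten x.flatten y.flatten z.flatten [] [] [] []
      p p' q q' s s' t t').Nodup := by
    have h1 := h.nodup
    rw [hwf] at h1
    exact h1.sublist subW
  have hkn := h.kn
  have hkn2 : ((k ++ k' ++ (r ++ r')) ++ B.flatMap (fun b => b.k ++ b.k')).Nodup := by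
    simpa [List.flatMap_cons, hb, hc, List.append_assoc] using hkn
  have hmem0 : ∀ a, a ∈ W0 u.flatten v.flatten x.flatten y.flatten z.flatten [] [] [] []
      p p' q q' s s' t t' → a ∈ w.flatten := by
    intro a ha
    rw [hwf]
    exact subW.subset ha
  have hkap : ∀ a, a ∈ k ++ k' ++ (r ++ r') → a ∈ kap [b, c] := by
    intro a ha
    simp only [List.mem_append] at ha
    rcases ha with (ha | ha) | (ha | ha)
    · exact ⟨b, by simp, Or.inl ha⟩
    · exact ⟨b, by simp, Or.inr ha⟩
    · exact ⟨c, by simp, Or.inl ha⟩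
    · exact ⟨c, by simp, Or.inr ha⟩
  have hkapsub : ∀ a, a ∈ kap [b, c] → a ∈ kap (b :: c :: B) := by
    rintro a ⟨e, he, ha⟩
    refine ⟨e, ?_, ha⟩
    simp only [List.mem_cons, List.not_mem_nil, or_false] at he ⊢
    tauto
  have hperm : w'.flatten.Perm (W0 u.flatten v.flatten x.flatten y.flatten z.flatten [] [] [] []
      p p' q q' s s' t t' ++ (k ++ k' ++ (r ++ r'))) := by
    rw [hwf']
    refine permW.trans ?_
    refine List.Perm.append_left _ ?_
    exact ((List.Perm.refl k).append (List.reverse_perm k')).append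
      ((List.Perm.refl r).append (List.reverse_perm r'))
  have hmem' : ∀ a, a ∈ w'.flatten → a ∈ w.flatten ∨ a ∈ k ++ k' ++ (r ++ r') := by
    intro a ha
    rw [hperm.mem_iff, List.mem_append] at ha
    rcases ha with ha | ha
    · exact Or.inl (hmem0 a ha)
    · exact Or.inr ha
  have hnodup : w'.flatten.Nodup := by
    rw [hperm.nodup_iff, List.nodup_append]
    refine ⟨hnd0, (List.nodup_append.1 hkn2).1, ?_⟩
    intro a ha d hd had
    subst had
    exact h.kout a (hkapsub a (hkap a hd)) (hmem0 a ha)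
  have hdisj := h.disj
  rw [List.flatMap_cons, List.flatMap_cons] at hdisj
  have hBsub : ∀ e ∈ B, e ∈ b :: c :: B := fun e he => by simp [he]
  -- blocks of the other bands
  have hblock : ∀ e ∈ B, ∀ l : List V, l ≠ [] → (∀ a ∈ l, a ∈ e.l1 ++ e.l2) → l ∈ w → l ∈ w' := by
    intro e he l hne hl hlw
    obtain ⟨a, ha⟩ := List.exists_mem_of_ne_nil l hne
    have hae : a ∈ B.flatMap (fun b => b.l1 ++ b.l2) :=
      List.mem_flatMap.2 ⟨e, he, hl a ha⟩
    have hnb : a ∉ b.l1 ++ b.l2 := fun hh =>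
      (List.nodup_append.1 hdisj).2.2 a hh a (List.mem_append_right _ hae) rfl
    have hnc : a ∉ c.l1 ++ c.l2 := fun hh =>
      (List.nodup_append.1 (List.nodup_append.1 hdisj).2.1).2.2 a hh a hae rfl
    simp only [List.mem_append, not_or] at hnb hnc
    have hne1 : l ≠ b.l1 := fun hh => hnb.1 (hh ▸ ha)
    have hne2 : l ≠ b.l2.reverse := fun hh => hnb.2 (List.mem_reverse.1 (hh ▸ ha))
    have hne3 : l ≠ c.l1 := fun hh => hnc.1 (hh ▸ ha)
    have hne4 : l ≠ c.l2.reverse := fun hh => hnc.2 (List.mem_reverse.1 (hh ▸ ha))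
    simp only [hw, List.mem_append, List.mem_cons, hne1, hne2, hne3, hne4, false_or] at hlw
    simp only [w', List.mem_append, List.mem_cons]
    tauto
  refine ⟨w', ⟨hchain, hnodup, ?_, ?_, ?_, ?_, ?_, ?_, ?_, ?_⟩, ⟨hchain, hnodup, ?_, ?_, ?_⟩, ?_⟩
  · exact (List.nodup_append.1 (List.nodup_append.1 hdisj).2.1).2.1
  · exact (List.nodup_append.1 hkn2).2.1
  · rintro a ⟨e, he, ha⟩ haw
    rcases hmem' a haw with h1 | h1
    · exact h.kout a ⟨e, hBsub e he, ha⟩ h1
    · refine (List.nodup_append.1 hkn2).2.2 a h1 a ?_ rfl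
      refine List.mem_flatMap.2 ⟨e, he, ?_⟩
      rw [List.mem_append]
      exact ha
  · intro e he
    obtain ⟨h1, h2⟩ := h.legs e (hBsub e he)
    have n1 : e.l1 ≠ [] := by simp [Band.l1]
    have n2 : e.l2 ≠ [] := by simp [Band.l2]
    have n1' : e.l1.reverse ≠ [] := by simp [Band.l1]
    have n2' : e.l2.reverse ≠ [] := by simp [Band.l2]
    refine ⟨h1.imp (hblock e he _ n1 fun a ha => List.mem_append_left _ ha)
      (hblock e he _ n1' fun a ha => List.mem_append_left _ (List.mem_reverse.1 ha)),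
      h2.imp (hblock e he _ n2 fun a ha => List.mem_append_right _ ha)
      (hblock e he _ n2' fun a ha => List.mem_append_right _ (List.mem_reverse.1 ha))⟩
  · exact fun e he => h.link e (hBsub e he)
  · exact fun e he => h.kl e (hBsub e he)
  · exact fun e he => h.big e (hBsub e he)
  · exact fun e he => h.small e (hBsub e he)
  · rw [hwf', hwf]
    unfold W0 W1
    cases u.flatten <;> simp
  · rw [hwf', hwf]
    have g1 : ∀ (L : List V), (L ++ (t :: z.flatten)).getLast? = (t :: z.flatten).getLast? := by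
      intro L
      rw [List.getLast?_append_of_ne_nil _ (by simp)]
    have i1 : W0 u.flatten v.flatten x.flatten y.flatten z.flatten A Bb.reverse C
      D.reverse p p' q q' s s' t t' = (u.flatten ++ [p] ++ A ++ [p'] ++ v.flatten ++ [s] ++ C ++
      [s'] ++ x.flatten ++ [q'] ++ Bb.reverse ++ [q] ++ y.flatten ++ [t'] ++ D.reverse)
      ++ (t :: z.flatten) := by simp [W0]
    have i2 : W1 u.flatten v.flatten x.flatten y.flatten z.flatten k k'.reverse r
      r'.reverse p p' q q' s s' t t' = (u.flatten ++ [p] ++ k ++ [q] ++ y.flatten ++ [t'] ++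
      r'.reverse ++ [s'] ++ x.flatten ++ [q'] ++ k'.reverse ++ [p'] ++ v.flatten ++
      [s] ++ r) ++ (t :: z.flatten) := by simp [W1]
    rw [i1, i2, g1, g1]
  · intro a ha
    rcases hmem' a ha with h1 | h1
    · exact Or.inl h1
    · exact Or.inr (hkap a h1)
  · obtain ⟨kb1, kb2⟩ := h.kl b (by simp)
    obtain ⟨kc1, kc2⟩ := h.kl c (by simp)
    rw [hwf', hwf]
    simp only [W0, W1, hb, hc, Band.l1, Band.l2, List.length_append, List.length_cons,
      List.length_reverse, List.length_nil] at kb1 kb2 kc1 kc2 ⊢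
    omega

end Pool.Agent.CycMC
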