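import Pool.Agent.CycMC.HVY

set_option autoImplicit false

/-!
# CycMC-DENSE: a hub with many links to one arc
-/

namespace Pool.Agent.CycMC

open Finset
open Pool.Agent.CycSp (Pt Cyc)
open Pool.Agent.Pend (Minor)
open HVY_

/-- Few hubs of large degree in one arc. -/
theorem DENSE_hubs {P : Finset Pt} {L : ℤ} {Lm : ℕ} {τ : ℤ → ℕ} (h : Arc P L Lm τ) (D k : ℕ)
    (X : Finset ℤ) (hX : ∀ x ∈ X, 0 ≤ x ∧ τ x = k ∧ D ≤ dg P x) :
    D * X.card ≤ Lm + D := by
  classical
  rcases X.eq_empty_or_nonempty with h0 | hne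
  · rw [h0]; simp
  obtain ⟨a, ha, hmin⟩ := Finset.exists_min_image X id hne
  obtain ⟨b, hb, hmax⟩ := Finset.exists_max_image X id hne
  have hab : a ≤ b := hmin b hb
  have h1 := h.len a b (hX a ha).1 hab (by rw [(hX a ha).2.1, (hX b hb).2.1])
  set F := P.filter (fun p => a ≤ p.1 ∧ p.1 < b) with hF
  have h2 : D * (X.erase b).card ≤ F.card := by
    refine le_trans ?_ (Finset.card_le_card (Finset.filter_subset (fun p => p.1 ∈ X.erase b) F))
    refine Finset.mul_card_image_le_card_of_maps_to (f := fun p : Pt => p.1) ?_ D ?_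
    · intro p hp
      exact (Finset.mem_filter.mp hp).2
    · intro x hx
      have hxX := Finset.mem_of_mem_erase hx
      refine le_trans (hX x hxX).2.2 (Finset.card_le_card ?_)
      intro p hp
      rw [Finset.mem_filter] at hp
      rw [Finset.mem_filter, Finset.mem_filter, hF, Finset.mem_filter]
      have h3 : a ≤ x := hmin x hxX
      have h4 : x ≤ b := hmax x hxX
      have h5 : x ≠ b := Finset.ne_of_mem_erase hx
      refine ⟨⟨⟨hp.1, ?_, ?_⟩, ?_⟩, hp.2⟩
      · rw [hp.2]; exact h3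
      · rw [hp.2]; exact lt_of_le_of_ne h4 h5
      · rw [hp.2]; exact hx
  rw [Finset.card_erase_of_mem hb] at h2
  have h4 : 1 ≤ X.card := Finset.card_pos.mpr ⟨b, hb⟩
  have h5 : D * X.card = D * (X.card - 1) + D := by
    obtain ⟨m, hm⟩ := Nat.exists_eq_add_of_le h4
    rw [hm, Nat.add_sub_cancel_left]
    ring
  omega

theorem p_DENSE (hQ : T_QUOT) (hT : T_TAU) : T_DENSE := by
  classical
  intro t R hR
  have hMMpos : 1 ≤ MM t R := by
    unfold MM
    exact Nat.one_le_iff_ne_zero.mpr (by positivity)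
  refine ⟨8 * MM t R + 1, by omega, ?_⟩
  intro V Gr L c v P lam D θ hC hM hLR hD hθD hθ hLm hbig
  set Lm := MM t R * θ with hLmd
  have hLm1 : 1 ≤ Lm := Nat.one_le_iff_ne_zero.mpr (Nat.mul_ne_zero (by omega) (by omega))
  have hA := arc_of hT hC Lm hLm1
  have hL0 : 0 ≤ L := le_trans (by norm_num) hC.three
  have hL3 := hC.three
  obtain ⟨r, hr, hr3⟩ := arcs hA hLm1 hL0 hLm
  set τ := tau P Lm with hτ
  have hpairs := hQ V Gr L c v P lam t r τ hC hM (fun i j _ hij _ => hA.mono i j hij) hr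
  set S := P.filter (fun p => D ≤ dg P p.1) with hS
  set f : Pt → ℕ × ℕ := fun p => (τ p.1, τ p.2) with hf
  set A := P.image f with hAd
  have hAc : A.card ≤ (2 ^ t + 1) * r := by
    have h1 : A ⊆ (A.filter (fun a => a.1 = a.2)) ∪ (A.filter (fun a => a.1 ≠ a.2)) := by
      intro a ha
      rw [Finset.mem_union, Finset.mem_filter, Finset.mem_filter]
      by_cases h2 : a.1 = a.2
      · exact Or.inl ⟨ha, h2⟩
      · exact Or.inr ⟨ha, h2⟩
    have h2 : (A.filter (fun a => a.1 = a.2)).card ≤ r := by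
      have h3 : ((A.filter (fun a => a.1 = a.2)).image Prod.fst).card =
          (A.filter (fun a => a.1 = a.2)).card := by
        refine Finset.card_image_of_injOn ?_
        intro a ha b hb hab
        rw [Finset.mem_coe, Finset.mem_filter] at ha hb
        exact Prod.ext hab (by rw [← ha.2, ← hb.2]; exact hab)
      rw [← h3]
      have h4 : (A.filter (fun a => a.1 = a.2)).image Prod.fst ⊆ Finset.range r := by
        intro k hk
        rw [Finset.mem_image] at hk
        obtain ⟨a, ha, rfl⟩ := hk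
        rw [Finset.mem_filter, hAd, Finset.mem_image] at ha
        obtain ⟨⟨p, hp, rfl⟩, _⟩ := ha
        have h3 := hA.mem p hp
        rw [Finset.mem_range]
        exact hr p.1 h3.1 (by omega)
      exact le_trans (Finset.card_le_card h4) (le_of_eq (Finset.card_range r))
    calc A.card ≤ _ := Finset.card_le_card h1
      _ ≤ _ := Finset.card_union_le _ _
      _ ≤ r + 2 ^ t * r := add_le_add h2 hpairs
      _ = (2 ^ t + 1) * r := by ring
  obtain ⟨n, rfl⟩ := Int.eq_ofNat_of_zero_le hL0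
  have hn3 : 3 ≤ n := by exact_mod_cast hL3
  have hr3' : Lm * r ≤ 3 * n := by exact_mod_cast hr3
  have hLR' : n ≤ R * P.card := by exact_mod_cast hLR
  have e1 : Lm * r = 12 * ((2 ^ t + 1) * R * θ * r) := by
    rw [hLmd]; unfold MM; ring
  have e2 : 4 * ((2 ^ t + 1) * R * θ * r) ≤ n := by omega
  have e5 : 2 * n ≤ 4 * R * S.card := by
    calc 2 * n ≤ 2 * (R * P.card) := Nat.mul_le_mul_left _ hLR'
      _ ≤ 2 * (R * (2 * S.card)) := by gcongr
      _ = 4 * R * S.card := by ring
  have e7 : A.card * (2 * θ) ≤ S.card := by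
    have h1 : 4 * R * (A.card * (2 * θ)) ≤ 4 * R * S.card := by
      calc 4 * R * (A.card * (2 * θ)) ≤ 4 * R * (((2 ^ t + 1) * r) * (2 * θ)) := by gcongr
        _ = 2 * (4 * ((2 ^ t + 1) * R * θ * r)) := by ring
        _ ≤ 2 * n := Nat.mul_le_mul_left _ e2
        _ ≤ _ := e5
    exact Nat.le_of_mul_le_mul_left h1 (by positivity)
  have hmaps : ∀ p ∈ S, f p ∈ A := fun p hp =>
    Finset.mem_image_of_mem _ (Finset.mem_filter.mp hp).1
  have hSne : S.Nonempty := by
    rw [← Finset.card_pos]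
    by_contra h0
    have h1 : S.card = 0 := by omega
    rw [h1] at e5
    omega
  have hAne : A.Nonempty := by
    obtain ⟨p, hp⟩ := hSne
    exact ⟨f p, hmaps p hp⟩
  obtain ⟨a, haA, ha⟩ := Finset.exists_le_card_fiber_of_mul_le_card_of_maps_to hmaps hAne e7
  set Tt := S.filter (fun p => f p = a) with hTt
  set X := Tt.image (fun p : Pt => p.1) with hX
  have hXc := DENSE_hubs hA D a.1 X (by
    intro x hx
    rw [hX, Finset.mem_image] at hx
    obtain ⟨p, hp, rfl⟩ := hx
    rw [hTt, Finset.mem_filter, hS, Finset.mem_filter] at hp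
    exact ⟨(hA.mem p hp.1.1).1, congrArg Prod.fst hp.2, hp.1.2⟩)
  have hXc' : X.card ≤ 8 * MM t R + 1 := by
    have h1 : D * X.card ≤ D * (8 * MM t R + 1) := by
      calc D * X.card ≤ Lm + D := hXc
        _ = MM t R * θ + D := by rw [hLmd]
        _ ≤ MM t R * (8 * D) + D := by gcongr
        _ = D * (8 * MM t R + 1) := by ring
    exact Nat.le_of_mul_le_mul_left h1 (by omega)
  by_contra hcon
  have hno : ∀ x ∈ X, (8 * MM t R + 1) * (Tt.filter (fun p : Pt => p.1 = x)).card ≤ θ := by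
    intro x _
    by_contra h1
    apply hcon
    refine ⟨x, a.2, ?_⟩
    refine le_trans (not_le.mp h1).le (Nat.mul_le_mul_left _ (Finset.card_le_card ?_))
    intro p hp
    rw [Finset.mem_filter, hTt, Finset.mem_filter, hS, Finset.mem_filter] at hp
    rw [Finset.mem_filter]
    exact ⟨hp.1.1.1, hp.2, congrArg Prod.snd hp.1.2⟩
  have hsum : Tt.card = ∑ x ∈ X, (Tt.filter (fun p : Pt => p.1 = x)).card :=
    Finset.card_eq_sum_card_image _ _
  have hle : (8 * MM t R + 1) * Tt.card ≤ (8 * MM t R + 1) * θ := by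
    calc (8 * MM t R + 1) * Tt.card
        = ∑ x ∈ X, (8 * MM t R + 1) * (Tt.filter (fun p : Pt => p.1 = x)).card := by
          rw [hsum, Finset.mul_sum]
      _ ≤ ∑ _x ∈ X, θ := Finset.sum_le_sum hno
      _ = X.card * θ := by rw [Finset.sum_const, smul_eq_mul]
      _ ≤ (8 * MM t R + 1) * θ := Nat.mul_le_mul_right _ hXc'
  have := Nat.le_of_mul_le_mul_left hle (by omega)
  omega

end Pool.Agent.CycMC
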