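import Pool.Agent.CycPl.Targets

/-!
# Cycle sets of graphs without a complete minor: definitions

See `Blueprint.lean.txt`.
-/

set_option autoImplicit false

namespace Pool.Agent.CycMC

open Finset
open Pool.Agent.HubG (cycleSet)
open Pool.Agent.CycSp (Pt Cyc ZD)

/-! ## Paths and bands (lists of vertices) -/

/-- A band: the legs `p A p'` and `q B q'` and the links `p k q` and `p' k' q'`. -/
structure Band (V : Type) where
  /-- first end of the first leg -/
  p : V
  /-- last end of the first leg -/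
  p' : V
  /-- first end of the second leg -/
  q : V
  /-- last end of the second leg -/
  q' : V
  /-- interior of the first leg -/
  A : List V
  /-- interior of the second leg -/
  B : List V
  /-- interior of the link from `p` to `q` -/
  k : List V
  /-- interior of the link from `p'` to `q'` -/
  k' : List V

/-- The first leg. -/
def Band.l1 {V : Type} (b : Band V) : List V := b.p :: (b.A ++ [b.p'])

/-- The second leg. -/
def Band.l2 {V : Type} (b : Band V) : List V := b.q :: (b.B ++ [b.q'])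

/-- Both legs reversed. -/
def Band.flip {V : Type} (b : Band V) : Band V :=
  ⟨b.p', b.p, b.q', b.q, b.A.reverse, b.B.reverse, b.k', b.k⟩

/-- The legs exchanged. -/
def Band.swap {V : Type} (b : Band V) : Band V :=
  ⟨b.q, b.q', b.p, b.p', b.B, b.A, b.k.reverse, b.k'.reverse⟩

/-- The inner vertices of the links. -/
def kap {V : Type} (B : List (Band V)) : Set V := {v | ∃ b ∈ B, v ∈ b.k ∨ v ∈ b.k'}

/-- `w` is a list of blocks, `w.flatten` is a path, the legs of the bands `B` are blocks of the path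
(up to reversal), legs of different bands are disjoint, the links have length `lam` and private
inner vertices outside of the path. -/
structure PSt {V : Type} (Gr : SimpleGraph V) (lam K W : ℕ) (w : List (List V))
    (B : List (Band V)) : Prop where
  chain : w.flatten.IsChain Gr.Adj
  nodup : w.flatten.Nodup
  disj : (B.flatMap (fun b => b.l1 ++ b.l2)).Nodup
  kn : (B.flatMap (fun b => b.k ++ b.k')).Nodup
  kout : ∀ v ∈ kap B, v ∉ w.flatten
  legs : ∀ b ∈ B, (b.l1 ∈ w ∨ b.l1.reverse ∈ w) ∧ (b.l2 ∈ w ∨ b.l2.reverse ∈ w)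
  link : ∀ b ∈ B, (b.p :: (b.k ++ [b.q])).IsChain Gr.Adj ∧
    (b.p' :: (b.k' ++ [b.q'])).IsChain Gr.Adj
  kl : ∀ b ∈ B, b.k.length + 1 = lam ∧ b.k'.length + 1 = lam
  big : ∀ b ∈ B, K + 2 * lam + 2 ≤ b.l1.length + b.l2.length
  small : ∀ b ∈ B, b.l1.length + b.l2.length ≤ W

/-- `b` is twisted in `w`. -/
def Tw {V : Type} (w : List (List V)) (b : Band V) : Prop :=
  ∃ i j : ℕ, i < j ∧ w[i]? = some b.l1 ∧ w[j]? = some b.l2

/-- `b` is untwisted in `w`. -/
def Un {V : Type} (w : List (List V)) (b : Band V) : Prop :=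
  ∃ i j : ℕ, i < j ∧ w[i]? = some b.l1 ∧ w[j]? = some b.l2.reverse

/-- The untwisted bands `b` and `c` are interlaced, `b` is the left one. -/
def Xing {V : Type} (w : List (List V)) (b c : Band V) : Prop :=
  ∃ i j k l : ℕ, i < j ∧ j < k ∧ k < l ∧ w[i]? = some b.l1 ∧ w[j]? = some c.l1 ∧
    w[k]? = some b.l2.reverse ∧ w[l]? = some c.l2.reverse

/-- The bands are untwisted and not interlaced. -/
def Lam {V : Type} (w : List (List V)) (B : List (Band V)) : Prop :=
  (∀ b ∈ B, Un w b) ∧ ∀ b ∈ B, ∀ c ∈ B, ¬ Xing w b c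

/-- `l'` is a path with the same ends as `l`, its vertices are in `l` or `S`. -/
structure Rep {V : Type} (Gr : SimpleGraph V) (S : Set V) (l l' : List V) : Prop where
  chain : l'.IsChain Gr.Adj
  nodup : l'.Nodup
  head : l'.head? = l.head?
  last : l'.getLast? = l.getLast?
  sub : ∀ v ∈ l', v ∈ l ∨ v ∈ S

/-- There are at least `m` lengths of paths which replace `l`, pairwise at distance at least `K`. -/
def Rich {V : Type} (Gr : SimpleGraph V) (S : Set V) (l : List V) (K m : ℕ) : Prop :=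
  ∃ X : Finset ℕ, m ≤ X.card ∧ (∀ a ∈ X, ∀ b ∈ X, a < b → a + K ≤ b) ∧
    (∀ a ∈ X, a ≤ l.length) ∧ ∀ a ∈ X, ∃ l', Rep Gr S l l' ∧ l'.length = a

/-- Every element of `X` except the smallest one has a smaller neighbour at distance between `K`
and `W`. -/
def Gap (X : Finset ℕ) (K W : ℕ) : Prop :=
  ∀ n ∈ X, (∀ n' ∈ X, n ≤ n') ∨ ∃ n' ∈ X, n' + K ≤ n ∧ n ≤ n' + W

/-- Many cycle lengths `y ± i`. -/
def YX {V : Type} (Gr : SimpleGraph V) (K m : ℕ) (I : Finset ℕ) (σ : ℤ) : Prop :=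
  ∃ Y : Finset ℤ, m ≤ Y.card ∧ (∀ a ∈ Y, ∀ b ∈ Y, a < b → a + K ≤ b) ∧
    ∀ y ∈ Y, ∀ i ∈ I, ∃ N ∈ cycleSet Gr, (N : ℤ) = y + σ * i

/-- Difference structures of size `m / 16` for all `s`. -/
def ZDm {V : Type} (Gr : SimpleGraph V) (m : ℕ) : Prop :=
  ∀ s : ℕ, 1 ≤ s → 32 * s ≤ m → ∃ b : ℕ, m ≤ 16 * b ∧ ZD Gr s b

/-! ## Positions on the cycle -/

/-- The list `c a, c (a + 1), …, c b`. -/
def seg {V : Type} (c : ℤ → V) (a b : ℤ) : List V :=
  (List.range (b + 1 - a).toNat).map (fun i => c (a + i))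

/-- The interior of a link at `x`. -/
def kp {V : Type} (v : ℤ → V) (lam : ℕ) (x : ℤ) : List V := if lam = 2 then [v x] else []

/-- The band of the two links `e.1` and `e.2`. -/
def toBand {V : Type} (c v : ℤ → V) (lam : ℕ) (e : Pt × Pt) : Band V :=
  if e.1.1 < e.2.1 then
    ⟨c e.1.1, c e.2.1, c e.1.2, c e.2.2, seg c (e.1.1 + 1) (e.2.1 - 1),
      seg c (e.1.2 + 1) (e.2.2 - 1), kp v lam e.1.1, kp v lam e.2.1⟩
  else
    ⟨c e.1.1, c e.2.1, c e.1.2, c e.2.2, (seg c (e.2.1 + 1) (e.1.1 - 1)).reverse,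
      seg c (e.1.2 + 1) (e.2.2 - 1), kp v lam e.1.1, kp v lam e.2.1⟩

/-- The two legs of `e` as intervals. -/
def ivs (e : Pt × Pt) : List (ℤ × ℤ) :=
  [(min e.1.1 e.2.1, max e.1.1 e.2.1), (e.1.2, e.2.2)]

/-- Disjoint intervals. -/
def Dis (I J : ℤ × ℤ) : Prop := I.2 < J.1 ∨ J.2 < I.1

/-- A list of pairs of links of `P` with disjoint legs. -/
structure PB (P : Finset Pt) (K W : ℕ) (Bs : List (Pt × Pt)) : Prop where
  mem : ∀ e ∈ Bs, e.1 ∈ P ∧ e.2 ∈ P ∧ e.1.1 ≠ e.2.1 ∧ e.1.2 < e.2.2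
  dis : (Bs.flatMap ivs).Pairwise Dis
  lo : ∀ e ∈ Bs, (K : ℤ) + 3 ≤ e.2.2 - e.1.2
  hi : ∀ e ∈ Bs, |e.2.1 - e.1.1| + (e.2.2 - e.1.2) + 2 ≤ W

/-- The number of links at `x`. -/
def dg (P : Finset Pt) (x : ℤ) : ℕ := (P.filter (fun p => p.1 = x)).card

/-- The index of the arc of the position `i`. -/
def tau (P : Finset Pt) (Lm : ℕ) (i : ℤ) : ℕ :=
  (i.toNat + (P.filter (fun p => p.1 < i)).card) / Lm

end Pool.Agent.CycMC
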