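import Pool.Agent.CycMC.HVY

set_option autoImplicit false

/-!
# CycMC-EXTR: many disjoint bands, or many arcs with many links
-/

namespace Pool.Agent.CycMC

open Finset
open Pool.Agent.CycSp (Pt Cyc)
open Pool.Agent.Pend (Minor)
open HVY_

theorem EXTR_len {P : Finset Pt} {L : ℤ} {Lm : ℕ} {τ : ℤ → ℕ} (h : Arc P L Lm τ) (x y : ℤ)
    (hx : 0 ≤ x) (hy : 0 ≤ y) (hxy : τ x = τ y) : |y - x| + 1 ≤ Lm := by
  have key : ∀ a b : ℤ, 0 ≤ a → a ≤ b → τ a = τ b → b - a + 1 ≤ Lm := by
    intro a b ha hab ht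
    have h1 := h.len a b ha hab ht
    have h2 : (0 : ℤ) ≤ ((P.filter (fun p => a ≤ p.1 ∧ p.1 < b)).card : ℤ) :=
      Int.natCast_nonneg _
    omega
  rcases le_total x y with h1 | h1
  · rw [abs_of_nonneg (by omega)]
    exact key x y hx h1 hxy
  · rw [abs_of_nonpos (by omega)]
    have := key y x hy h1 hxy.symm
    omega

theorem p_EXTR (hT : T_TAU) (hI : T_IND) (hH : T_HVY) (hB : T_BAND1) : T_EXTR := by
  classical
  intro t R hR
  have hMMpos : 1 ≤ MM t R := by
    unfold MM
    exact Nat.one_le_iff_ne_zero.mpr (by positivity)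
  set M := MM t R with hMd
  refine ⟨8 * R * M * (4 * (M + 1)), Nat.one_le_iff_ne_zero.mpr (by positivity), ?_⟩
  intro V Gr L c v P lam D θ hC hMin hLR hθ hD hLm hsm
  have hθ1 : 1 ≤ θ := by omega
  have hLm1 : 1 ≤ M * θ := Nat.one_le_iff_ne_zero.mpr (Nat.mul_ne_zero (by omega) (by omega))
  have hA := arc_of hT hC (M * θ) hLm1
  have hL0 : 0 ≤ L := le_trans (by norm_num) hC.three
  obtain ⟨n, rfl⟩ := Int.eq_ofNat_of_zero_le hL0
  set τ := tau P (M * θ) with hτ
  rcases hH t R hR V Gr n c v P lam D θ hC hMin hLR hθ1 hD hLm hsm with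
    ⟨Ks, hK1, hK2⟩ | ⟨E, hE1, hE2⟩
  · left
    refine ⟨Ks, ?_, hK2⟩
    have h1 : n ≤ 8 * R * (M * θ) * Ks.card := by exact_mod_cast hK1
    have h2 : n ≤ 8 * R * M * (4 * (M + 1)) * θ * Ks.card := by
      calc n ≤ 8 * R * (M * θ) * Ks.card := h1
        _ = 8 * R * M * 1 * θ * Ks.card := by ring
        _ ≤ 8 * R * M * (4 * (M + 1)) * θ * Ks.card := by gcongr; omega
    exact_mod_cast h2
  · right
    set f : Pt → ℕ × ℕ := fun p => (τ p.1, τ p.2) with hf
    set Q : ℕ × ℕ → Finset Pt := fun e =>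
      P.filter (fun p => dg P p.1 ≤ D ∧ τ p.1 = e.1 ∧ τ p.2 = e.2) with hQ
    have hE2' : ∀ e ∈ E, e.1 ≠ e.2 ∧ θ ≤ (Q e).card := hE2
    -- degrees
    have hdeg : ∀ (E' : Finset (ℕ × ℕ)), E' ⊆ E → ∀ S : Finset Pt, (∀ e ∈ E', Q e ⊆ S) →
        θ * E'.card ≤ S.card := by
      intro E' hE' S hS
      refine le_trans ?_ (Finset.card_le_card (Finset.filter_subset (fun p => f p ∈ E') S))
      refine Finset.mul_card_image_le_card_of_maps_to (f := f) ?_ θ ?_
      · intro p hp
        exact (Finset.mem_filter.mp hp).2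
      · intro e he
        refine le_trans (hE2' e (hE' he)).2 (Finset.card_le_card ?_)
        intro p hp
        have hpS := hS e he hp
        rw [hQ, Finset.mem_filter] at hp
        have h1 : f p = e := Prod.ext hp.2.2.1 hp.2.2.2
        rw [Finset.mem_filter, Finset.mem_filter]
        exact ⟨⟨hpS, by rw [h1]; exact he⟩, h1⟩
    have hd1 : ∀ k, (E.filter (fun e => e.1 = k)).card ≤ M + 1 := by
      intro k
      have h1 := hdeg (E.filter (fun e => e.1 = k)) (Finset.filter_subset _ _)
        (P.filter (fun p => dg P p.1 ≤ D ∧ τ p.1 = k)) (by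
          intro e he p hp
          rw [Finset.mem_filter] at he
          rw [hQ, Finset.mem_filter] at hp
          rw [Finset.mem_filter]
          exact ⟨hp.1, hp.2.1, by rw [hp.2.2.1, he.2]⟩)
      have h2 := hub_card hA D k
      have h3 : θ * (E.filter (fun e => e.1 = k)).card ≤ θ * (M + 1) := by
        calc θ * (E.filter (fun e => e.1 = k)).card ≤ M * θ + D := le_trans h1 h2
          _ ≤ θ * (M + 1) := by rw [mul_add, mul_one, mul_comm M θ]; omega
      exact Nat.le_of_mul_le_mul_left h3 (by omega)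
    have hd2 : ∀ k, (E.filter (fun e => e.2 = k)).card ≤ M + 1 := by
      intro k
      have h1 := hdeg (E.filter (fun e => e.2 = k)) (Finset.filter_subset _ _)
        (P.filter (fun p => τ p.2 = k)) (by
          intro e he p hp
          rw [Finset.mem_filter] at he
          rw [hQ, Finset.mem_filter] at hp
          rw [Finset.mem_filter]
          exact ⟨hp.1, by rw [hp.2.2.2, he.2]⟩)
      have h2 := arc_card hA k
      have h3 : θ * (E.filter (fun e => e.2 = k)).card ≤ θ * (M + 1) := by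
        calc θ * (E.filter (fun e => e.2 = k)).card ≤ M * θ := le_trans h1 h2
          _ ≤ θ * (M + 1) := by rw [mul_add, mul_one, mul_comm M θ]; omega
      exact Nat.le_of_mul_le_mul_left h3 (by omega)
    obtain ⟨Es, hEs1, hEs2, hEs3⟩ := hI E (M + 1) (fun e he => (hE2' e he).1) hd1 hd2
    -- the bands
    have hex : ∀ e ∈ E, ∃ pq : Pt × Pt, pq.1 ∈ Q e ∧ pq.2 ∈ Q e ∧ pq.1.1 ≠ pq.2.1 ∧
        (3 * θ : ℤ) ≤ 4 * (pq.2.2 - pq.1.2) := by
      intro e he
      obtain ⟨p, hp, q, hq, h1, h2⟩ := hB P (Q e) D θ (Finset.filter_subset _ _) hD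
        (hE2' e he).2 hθ1 hA.disty (by
          intro p hp
          rw [hQ, Finset.mem_filter] at hp
          exact hp.2.1)
      exact ⟨(p, q), hp, hq, h1, h2⟩
    choose! g hg using hex
    have hgE : ∀ e ∈ Es, (g e).1 ∈ Q e ∧ (g e).2 ∈ Q e ∧ (g e).1.1 ≠ (g e).2.1 ∧
        (3 * θ : ℤ) ≤ 4 * ((g e).2.2 - (g e).1.2) := fun e he => hg e (hEs1 e he)
    have hmemQ : ∀ e p, p ∈ Q e → p ∈ P ∧ τ p.1 = e.1 ∧ τ p.2 = e.2 := by
      intro e p hp
      rw [hQ, Finset.mem_filter] at hp
      exact ⟨hp.1, hp.2.2⟩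
    have hflat : ∀ (F : Pt × Pt → List ℕ) (l : List (ℕ × ℕ)),
        (∀ e ∈ l, F (g e) = [e.1, e.2]) →
        (l.map g).flatMap F = l.flatMap (fun e => [e.1, e.2]) := by
      intro F l
      induction l with
      | nil => intro _; rfl
      | cons a l ih =>
          intro h
          rw [List.map_cons, List.flatMap_cons, List.flatMap_cons,
            h a (List.mem_cons_self), ih fun e he => h e (List.mem_cons_of_mem _ he)]
    refine ⟨Es.map g, ?_, ⟨?_, ?_, ?_, ?_⟩, ?_, ?_⟩
    · rw [List.length_map]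
      have h1 : n ≤ 8 * R * (M * θ) * E.card := by exact_mod_cast hE1
      have h2 : n ≤ 8 * R * M * (4 * (M + 1)) * θ * Es.length := by
        calc n ≤ 8 * R * (M * θ) * E.card := h1
          _ ≤ 8 * R * (M * θ) * (4 * (M + 1) * Es.length) := by gcongr
          _ = 8 * R * M * (4 * (M + 1)) * θ * Es.length := by ring
      exact_mod_cast h2
    · intro b hb
      rw [List.mem_map] at hb
      obtain ⟨e, he, rfl⟩ := hb
      obtain ⟨h1, h2, h3, h4⟩ := hgE e he
      exact ⟨(hmemQ e _ h1).1, (hmemQ e _ h2).1, h3, by omega⟩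
    · -- disjoint legs
      have hI1 : ∀ I ∈ (Es.map g).flatMap ivs, τ I.1 = τ I.2 := by
        intro I hI'
        rw [List.mem_flatMap] at hI'
        obtain ⟨b, hb, hIb⟩ := hI'
        rw [List.mem_map] at hb
        obtain ⟨e, he, rfl⟩ := hb
        obtain ⟨h1, h2, h3, h4⟩ := hgE e he
        have k1 := hmemQ e _ h1
        have k2 := hmemQ e _ h2
        unfold ivs at hIb
        rw [List.mem_cons, List.mem_singleton] at hIb
        rcases hIb with rfl | rfl
        · show τ (min (g e).1.1 (g e).2.1) = τ (max (g e).1.1 (g e).2.1)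
          rcases le_total (g e).1.1 (g e).2.1 with h5 | h5
          · rw [min_eq_left h5, max_eq_right h5, k1.2.1, k2.2.1]
          · rw [min_eq_right h5, max_eq_left h5, k1.2.1, k2.2.1]
        · show τ (g e).1.2 = τ (g e).2.2
          rw [k1.2.2, k2.2.2]
      have hI2 : ((Es.map g).flatMap ivs).map (fun I => τ I.1) =
          Es.flatMap (fun e => [e.1, e.2]) := by
        rw [List.map_flatMap]
        refine hflat _ Es ?_
        intro e he
        obtain ⟨h1, h2, h3, h4⟩ := hgE e he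
        have k1 := hmemQ e _ h1
        have k2 := hmemQ e _ h2
        unfold ivs
        rw [List.map_cons, List.map_cons, List.map_nil]
        show [τ (min (g e).1.1 (g e).2.1), τ (g e).1.2] = [e.1, e.2]
        rw [k1.2.2]
        rcases le_total (g e).1.1 (g e).2.1 with h5 | h5
        · rw [min_eq_left h5, k1.2.1]
        · rw [min_eq_right h5, k2.2.1]
      have hI3 : ((Es.map g).flatMap ivs).Pairwise (fun I J => τ I.1 ≠ τ J.1) := by
        rw [← hI2] at hEs2
        exact List.pairwise_map.mp hEs2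
      refine List.Pairwise.imp_of_mem ?_ hI3
      intro I J hIm hJm hne
      have kI := hI1 I hIm
      have kJ := hI1 J hJm
      unfold Dis
      rcases lt_or_gt_of_ne hne with h5 | h5
      · left
        by_contra h6
        have := hA.mono J.1 I.2 (not_lt.mp h6)
        omega
      · right
        by_contra h6
        have := hA.mono I.1 J.2 (not_lt.mp h6)
        omega
    · intro b hb
      rw [List.mem_map] at hb
      obtain ⟨e, he, rfl⟩ := hb
      obtain ⟨h1, h2, h3, h4⟩ := hgE e he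
      push_cast
      omega
    · intro b hb
      rw [List.mem_map] at hb
      obtain ⟨e, he, rfl⟩ := hb
      obtain ⟨h1, h2, h3, h4⟩ := hgE e he
      have k1 := hmemQ e _ h1
      have k2 := hmemQ e _ h2
      have m1 := hA.mem _ k1.1
      have m2 := hA.mem _ k2.1
      have l1 := EXTR_len hA (g e).1.1 (g e).2.1 m1.1 m2.1 (by rw [k1.2.1, k2.2.1])
      have l2 := EXTR_len hA (g e).1.2 (g e).2.2 (by omega) (by omega) (by rw [k1.2.2, k2.2.2])
      have l3 := le_abs_self ((g e).2.2 - (g e).1.2)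
      push_cast at l1 l2 ⊢
      have l4 : (0 : ℤ) ≤ (M : ℤ) * θ := by positivity
      linarith
    · intro b hb
      rw [List.mem_map] at hb
      obtain ⟨e, he, rfl⟩ := hb
      obtain ⟨h1, h2, h3, h4⟩ := hgE e he
      have k1 := hmemQ e _ h1
      have k2 := hmemQ e _ h2
      exact ⟨by rw [k1.2.1, k2.2.1], by rw [k1.2.2, k2.2.2]⟩
    · rw [hflat _ Es ?_]
      · exact hEs2
      · intro e he
        obtain ⟨h1, h2, h3, h4⟩ := hgE e he
        have k1 := hmemQ e _ h1
        show [τ (g e).1.1, τ (g e).1.2] = [e.1, e.2]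
        rw [k1.2.1, k1.2.2]

end Pool.Agent.CycMC
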