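import Pool.Agent.CycMC.Targets
import Pool.Agent.CycSp.FINAL

/-!
# Cycle sets of graphs without a complete minor: the final count
-/

set_option autoImplicit false

namespace Pool.Agent.CycMC

open Finset
open Pool.Agent.HubG (cycleSet CycSeq cycleSet_bounds exists_cycSeq)
open Pool.Agent.CycSp (Pt Cyc offE ZD SparseP fin_small)
open Pool.Agent.Pend (Minor)

namespace FIN2_

theorem sparse_mono {n d d' : ℕ} (h : d ≤ d') (G : SimpleGraph (Fin n)) (hG : SparseP d G) :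
    SparseP d' G := by
  intro S
  refine (hG S).trans ?_
  gcongr

theorem fin_triv (t n : ℕ) : numCycleSets t n ≤ 2 ^ (n - 2) := by
  have h1 : {A : Set ℕ | ∃ G : SimpleGraph (Fin n), ¬ Minor (⊤ : SimpleGraph (Fin t)) G ∧
      A = cycleSet G} ⊆ 𝒫 ((Finset.Icc 3 n : Finset ℕ) : Set ℕ) := by
    rintro A ⟨G, _, rfl⟩ l hl
    have := cycleSet_bounds G l hl
    rw [Finset.mem_coe, Finset.mem_Icc]
    exact this
  calc numCycleSets t n ≤ _ := Set.ncard_le_ncard h1 (Finset.finite_toSet _).powerset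
    _ = 2 ^ (n - 2) := by
      rw [Set.ncard_powerset _ (Finset.finite_toSet _), Set.ncard_coe_finset, Nat.card_Icc]
      congr 1

/-- from a bound for large `n` to a bound for all `n` -/
theorem num (f : ℕ → ℕ) (hf : ∀ n, f n ≤ 2 ^ (n - 2)) (δ : ℝ) (hδ : 0 < δ) (n0 : ℕ)
    (h : ∀ n, n0 ≤ n → (f n : ℝ) ≤ 5 * 2 ^ ((1 - δ) * n)) :
    ∃ c : ℝ, 0 < c ∧ ∀ n : ℕ, (f n : ℝ) ≤ 2 ^ ((1 - c) * n) := by
  obtain ⟨N1, hN1⟩ := exists_nat_gt (6 / δ)
  obtain ⟨N0, hN0⟩ : ∃ N0, N0 = n0 + N1 + 1 := ⟨_, rfl⟩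
  have hN0pos : 0 < N0 := by omega
  have hN0R : (0 : ℝ) < N0 := by exact_mod_cast hN0pos
  have hN01 : (1 : ℝ) ≤ N0 := by exact_mod_cast hN0pos
  obtain ⟨c, hc⟩ : ∃ c, c = min (δ / 2) (1 / (N0 : ℝ)) := ⟨_, rfl⟩
  have hc0 : 0 < c := by
    rw [hc]
    exact lt_min (by positivity) (by positivity)
  have hc1 : c ≤ δ / 2 := by
    rw [hc]
    exact min_le_left _ _
  have hc2 : c ≤ 1 / (N0 : ℝ) := by
    rw [hc]
    exact min_le_right _ _
  refine ⟨c, hc0, fun n => ?_⟩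
  have hnR : (0 : ℝ) ≤ n := Nat.cast_nonneg n
  by_cases hbig : n < N0
  · have e0 : c * N0 ≤ 1 := by
      have := mul_le_mul_of_nonneg_right hc2 hN0R.le
      rwa [one_div, inv_mul_cancel₀ hN0R.ne'] at this
    have e1 : c * n ≤ 1 := by
      have h1 : (n : ℝ) ≤ N0 := by exact_mod_cast hbig.le
      have := mul_le_mul_of_nonneg_left h1 hc0.le
      linarith
    have hcle : c ≤ 1 := by
      have := mul_le_mul_of_nonneg_left hN01 hc0.le
      linarith
    have e2 : ((n - 2 : ℕ) : ℝ) ≤ (1 - c) * n := by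
      by_cases hn2 : 2 ≤ n
      · rw [Nat.cast_sub hn2]
        push_cast
        linarith
      · have : n - 2 = 0 := by omega
        rw [this, Nat.cast_zero]
        exact mul_nonneg (by linarith) hnR
    calc (f n : ℝ) ≤ ((2 ^ (n - 2) : ℕ) : ℝ) := by exact_mod_cast hf n
      _ = (2 : ℝ) ^ ((n - 2 : ℕ) : ℝ) := by
          rw [Real.rpow_natCast]
          push_cast
          rfl
      _ ≤ 2 ^ ((1 - c) * n) := Real.rpow_le_rpow_of_exponent_le (by norm_num) e2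
  · push Not at hbig
    have h1 := h n (by omega)
    have h2 : (N1 : ℝ) ≤ n := by
      have : N1 ≤ n := by omega
      exact_mod_cast this
    have h3 : 6 / δ < n := lt_of_lt_of_le hN1 h2
    have h4 : 6 < n * δ := by
      rwa [div_lt_iff₀ hδ] at h3
    have h5 : (1 - δ) * n + 3 ≤ (1 - c) * n := by
      have h6 := mul_le_mul_of_nonneg_right hc1 hnR
      have e1 : (1 - δ) * n = n - n * δ := by ring
      have e2 : (1 - c) * n = n - c * n := by ring
      rw [e1, e2]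
      linarith
    calc (f n : ℝ) ≤ 5 * 2 ^ ((1 - δ) * n) := h1
      _ ≤ 2 ^ ((1 - δ) * n) * 2 ^ (3 : ℝ) := by
          have g1 : (2 : ℝ) ^ (3 : ℝ) = 8 := by
            rw [show (3 : ℝ) = ((3 : ℕ) : ℝ) by norm_num, Real.rpow_natCast]
            norm_num
          have g2 : (0 : ℝ) ≤ 2 ^ ((1 - δ) * n) := by positivity
          rw [g1]
          linarith
      _ = 2 ^ ((1 - δ) * n + 3) := by rw [← Real.rpow_add (by norm_num)]
      _ ≤ 2 ^ ((1 - c) * n) := Real.rpow_le_rpow_of_exponent_le (by norm_num) h5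

theorem mono_exp {δ δ' : ℝ} (h : δ ≤ δ') (n : ℕ) :
    (2 : ℝ) ^ ((1 - δ') * n) ≤ 2 ^ ((1 - δ) * n) := by
  apply Real.rpow_le_rpow_of_exponent_le (by norm_num)
  have hnR : (0 : ℝ) ≤ n := Nat.cast_nonneg n
  exact mul_le_mul_of_nonneg_right (by linarith) hnR

/-- the sets without long cycles -/
theorem small0 (q : ℕ) (hq : 2 ≤ q) : ∀ n : ℕ, 2 * q ≤ n →
    (({A : Set ℕ | ∀ l ∈ A, l ≤ n - n / q - 1}.ncard : ℕ) : ℝ) ≤
      2 ^ ((1 - 1 / (2 * q : ℝ)) * n) := by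
  intro n hn
  rw [(fin_small _).2]
  have hq0 : 0 < q := by omega
  have hqR : (0 : ℝ) < q := by exact_mod_cast hq0
  have hle : n / q ≤ n / 2 := Nat.div_le_div_left hq (by norm_num)
  have e1 : n - n / q - 1 + 1 = n - n / q := by omega
  rw [e1]
  have e2 : (((2 : ℕ) ^ (n - n / q) : ℕ) : ℝ) = (2 : ℝ) ^ ((n - n / q : ℕ) : ℝ) := by
    rw [Real.rpow_natCast]
    push_cast
    rfl
  rw [e2]
  apply Real.rpow_le_rpow_of_exponent_le (by norm_num)
  have e3 : ((n - n / q : ℕ) : ℝ) = (n : ℝ) - ((n / q : ℕ) : ℝ) := by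
    rw [Nat.cast_sub (Nat.div_le_self _ _)]
  rw [e3]
  have f1 : n < (n / q + 1) * q := by
    rw [mul_comm]
    exact Nat.lt_mul_div_succ _ hq0
  have f2 : (n : ℝ) < (((n / q : ℕ) : ℝ) + 1) * q := by exact_mod_cast f1
  have f3 : (n : ℝ) / q < ((n / q : ℕ) : ℝ) + 1 := by
    rw [div_lt_iff₀ hqR]
    exact f2
  have f4 : 2 ≤ (n : ℝ) / q := by
    rw [le_div_iff₀ hqR]
    exact_mod_cast hn
  have f5 : (1 - 1 / (2 * q : ℝ)) * n = n - (n : ℝ) / q / 2 := by
    field_simp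
  rw [f5]
  linarith

theorem card_le {V : Type} {Gr : SimpleGraph V} {L : ℕ} {c v : ℤ → V} {P : Finset Pt}
    {lam : ℕ} (h : Cyc Gr L c v P lam) : P.card ≤ L := by
  have h1 : (Finset.Ico (0 : ℤ) L).card = L := by
    rw [Int.card_Ico]
    omega
  rw [← h1]
  refine Finset.card_le_card_of_injOn (fun p => p.2) ?_ ?_
  · intro p hp
    have := h.mem p hp
    simp only [Finset.coe_Ico, Set.mem_Ico]
    omega
  · intro p hp q hq hpq
    exact h.disty p hp q hq hpq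

theorem gap_mono {X : Finset ℕ} {W W' : ℕ} (h : Gap X 1 W) (hW : W ≤ W') : Gap X 1 W' := by
  intro n hn
  rcases h n hn with h1 | ⟨n', h1, h2, h3⟩
  · exact Or.inl h1
  · exact Or.inr ⟨n', h1, h2, by omega⟩

end FIN2_

open FIN2_

theorem p_FINAL2 (h1 : T_MAIN3) (h2 : T_CMID) (h3 : T_CGAP) (h4 : T_CZD) (h5 : T_CSM)
    (h6 : Pool.Agent.CycPl.T_SPM) (h7 : Pool.Agent.CycPl.T_SMALLX)
    (h8 : Pool.Agent.CycSp.T_PREP) : T_FINAL2 := by
  classical
  intro t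
  obtain ⟨K, hK, h7⟩ := h7 t
  obtain ⟨R0, h5⟩ := h5 K hK
  obtain ⟨r0, h8⟩ := h8
  obtain ⟨T, hT⟩ : ∃ T, T = 2 ^ t := ⟨_, rfl⟩
  obtain ⟨R, hR⟩ : ∃ R, R = r0 + T + R0 + 2 := ⟨_, rfl⟩
  have hTR : 2 ^ t ≤ R := by
    rw [← hT]
    omega
  obtain ⟨nS, δS, hδS, hS⟩ := h5 R (by omega)
  have hR2 : 2 ≤ R := by omega
  have hR0 : 0 < R := by omega
  have hR6 : 0 < R ^ 6 := by positivity
  have hR10 : 0 < R ^ 10 := by positivity
  obtain ⟨C, hC, h1⟩ := h1 t (R ^ 6) hR6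
  obtain ⟨D0, e, nM, δM, hδM, hM⟩ := h2 (R ^ 6) C hR6 hC
  obtain ⟨C1, hC1, h1⟩ := h1 D0 e
  have hRC : 0 < R ^ 6 * C1 := Nat.mul_pos hR6 hC1
  obtain ⟨nG, δG, hδG, hG⟩ := h3 (R ^ 6 * C1) hRC
  obtain ⟨s, nZ, δZ, hs, hδZ, hZ⟩ := h4 (16 * (R ^ 6 * C1)) (by omega)
  obtain ⟨δ0, hδ0⟩ : ∃ δ0 : ℝ, δ0 = 1 / (2 * ((R ^ 10 : ℕ) : ℝ)) := ⟨_, rfl⟩
  have hδ0p : 0 < δ0 := by
    rw [hδ0]
    have : (0 : ℝ) < ((R ^ 10 : ℕ) : ℝ) := by exact_mod_cast hR10
    positivity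
  obtain ⟨δ, hδ⟩ : ∃ δ, δ = min (min δS δM) (min δG (min δZ δ0)) := ⟨_, rfl⟩
  have hδp : 0 < δ := by
    rw [hδ]
    exact lt_min (lt_min hδS hδM) (lt_min hδG (lt_min hδZ hδ0p))
  have dS : δ ≤ δS := by
    rw [hδ]
    exact (min_le_left _ _).trans (min_le_left _ _)
  have dM : δ ≤ δM := by
    rw [hδ]
    exact (min_le_left _ _).trans (min_le_right _ _)
  have dG : δ ≤ δG := by
    rw [hδ]
    exact (min_le_right _ _).trans (min_le_left _ _)
  have dZ : δ ≤ δZ := by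
    rw [hδ]
    exact (min_le_right _ _).trans ((min_le_right _ _).trans (min_le_left _ _))
  have d0 : δ ≤ δ0 := by
    rw [hδ]
    exact (min_le_right _ _).trans ((min_le_right _ _).trans (min_le_right _ _))
  refine num (numCycleSets t) (fin_triv t) δ hδp
    (nS + nM + nG + nZ + 2 * R ^ 10 + R ^ 6 * C1 * (32 * s + 1)) fun n hn => ?_
  have hnC : R ^ 6 * C1 ≤ n := by
    have : R ^ 6 * C1 * 1 ≤ R ^ 6 * C1 * (32 * s + 1) := Nat.mul_le_mul_left _ (by omega)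
    omega
  have hn32 : R ^ 6 * C1 * (32 * s) ≤ n := by
    have : R ^ 6 * C1 * (32 * s) ≤ R ^ 6 * C1 * (32 * s + 1) :=
      Nat.mul_le_mul_left _ (by omega)
    omega
  -- the five classes
  obtain ⟨S0, hS0⟩ : ∃ S : Set (Set ℕ), S = {A : Set ℕ | ∀ l ∈ A, l ≤ n - n / R ^ 10 - 1} :=
    ⟨_, rfl⟩
  obtain ⟨S1, hS1⟩ : ∃ S : Set (Set ℕ), S = {A : Set ℕ |
      ∃ (G : SimpleGraph (Fin n)) (L : ℕ) (W : ℕ → Fin n),
      ¬ Minor (⊤ : SimpleGraph (Fin t)) G ∧ CycSeq G L W ∧ (offE G L W).card ≤ n / R ∧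
      n - L ≤ n / R ∧ A = cycleSet G} := ⟨_, rfl⟩
  obtain ⟨S2, hS2⟩ : ∃ S : Set (Set ℕ), S = {A : Set ℕ | (∀ l ∈ A, l ≤ n) ∧
      ∃ (Lm : ℕ) (I : Finset ℕ) (Y : Finset ℤ) (σ : ℤ),
      D0 ≤ Lm ∧ e * Lm ≤ n ∧ (∀ i ∈ I, i < Lm) ∧ Lm ≤ C * I.card ∧
      n ≤ C * (R ^ 6) * Lm * Y.card ∧ (∀ y ∈ Y, ∀ z ∈ Y, y < z → y + Lm ≤ z) ∧
      (σ = 1 ∨ σ = -1) ∧ ∀ y ∈ Y, ∀ i ∈ I, ∃ N ∈ A, (N : ℤ) = y + σ * i} := ⟨_, rfl⟩
  obtain ⟨S3, hS3⟩ : ∃ S : Set (Set ℕ), S = {A : Set ℕ | (∀ l ∈ A, l ≤ n) ∧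
      ∃ X : Finset ℕ, n ≤ R ^ 6 * C1 * X.card ∧ (∀ x ∈ X, x ∈ A) ∧
      Gap X 1 (R ^ 6 * C1)} := ⟨_, rfl⟩
  obtain ⟨S4, hS4⟩ : ∃ S : Set (Set ℕ), S = {A : Set ℕ | (∀ l ∈ A, l ≤ n) ∧
      ∃ Z D : Finset ℤ, D.card = s ∧ n ≤ 16 * (R ^ 6 * C1) * Z.card ∧
      ∀ z ∈ Z, ∀ d ∈ D, ∃ N ∈ A, (N : ℤ) = z - d} := ⟨_, rfl⟩
  have b0 : ((S0.ncard : ℕ) : ℝ) ≤ 2 ^ ((1 - δ) * n) := by
    rw [hS0]
    refine (small0 (R ^ 10) ?_ n (by omega)).trans ?_
    · calc 2 ≤ R := hR2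
        _ = R ^ 1 := (pow_one R).symm
        _ ≤ R ^ 10 := Nat.pow_le_pow_right hR0 (by norm_num)
    · rw [← hδ0]
      exact mono_exp d0 n
  have b1 : ((S1.ncard : ℕ) : ℝ) ≤ 2 ^ ((1 - δ) * n) := by
    rw [hS1]
    refine le_trans ?_ ((hS n (by omega)).trans (mono_exp dS n))
    exact_mod_cast h7 n (n / R)
  have b2 : ((S2.ncard : ℕ) : ℝ) ≤ 2 ^ ((1 - δ) * n) := by
    rw [hS2]
    exact (hM n (by omega)).trans (mono_exp dM n)
  have b3 : ((S3.ncard : ℕ) : ℝ) ≤ 2 ^ ((1 - δ) * n) := by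
    rw [hS3]
    exact (hG n (by omega)).trans (mono_exp dG n)
  have b4 : ((S4.ncard : ℕ) : ℝ) ≤ 2 ^ ((1 - δ) * n) := by
    rw [hS4]
    exact (hZ n (by omega)).trans (mono_exp dZ n)
  have f0 : S0.Finite := by
    rw [hS0]
    exact (fin_small _).1
  have f1 : S1.Finite := by
    rw [hS1]
    apply (fin_small n).1.subset
    rintro A ⟨G, _, _, _, _, _, _, rfl⟩ l hl
    exact (cycleSet_bounds G l hl).2
  have f2 : S2.Finite := by
    rw [hS2]
    exact (fin_small n).1.subset (fun A hA => hA.1)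
  have f3 : S3.Finite := by
    rw [hS3]
    exact (fin_small n).1.subset (fun A hA => hA.1)
  have f4 : S4.Finite := by
    rw [hS4]
    exact (fin_small n).1.subset (fun A hA => hA.1)
  have hsub : {A : Set ℕ | ∃ G : SimpleGraph (Fin n), ¬ Minor (⊤ : SimpleGraph (Fin t)) G ∧
      A = cycleSet G} ⊆ S0 ∪ (S1 ∪ (S2 ∪ (S3 ∪ S4))) := by
    rintro A ⟨G, hGm, rfl⟩
    by_cases hA : (cycleSet G).Nonempty
    · have hbdd : BddAbove (cycleSet G) := ⟨n, fun l hl => (cycleSet_bounds G l hl).2⟩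
      have hL := Nat.sSup_mem hA hbdd
      have hmax : ∀ l ∈ cycleSet G, l ≤ sSup (cycleSet G) := fun l hl => le_csSup hbdd hl
      generalize sSup (cycleSet G) = L at hL hmax
      obtain ⟨W, hW⟩ := exists_cycSeq G _ hL
      have hLn : L ≤ n := (cycleSet_bounds G L hL).2
      have hbd : ∀ l ∈ cycleSet G, l ≤ n := fun l hl => (cycleSet_bounds G l hl).2
      by_cases c1 : (n - L) * R ^ 10 ≤ n
      · by_cases c2 : n ≤ R * (offE G L W).card
        · have hsp : SparseP R G := sparse_mono hTR G (h6 t n G hGm)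
          obtain ⟨c, v, P, lam, hcyc, hP⟩ := h8 n R (by omega) G L W hsp hW c1 c2
          have hPL : P.card ≤ L := card_le hcyc
          have hnL : n ≤ R ^ 6 * L := hP.trans (Nat.mul_le_mul_left _ hPL)
          have hC1L : C1 ≤ L := by
            have : R ^ 6 * C1 ≤ R ^ 6 * L := hnC.trans hnL
            exact Nat.le_of_mul_le_mul_left this hR6
          have hLP : (L : ℤ) ≤ ((R ^ 6 : ℕ) : ℤ) * P.card := by
            have : L ≤ R ^ 6 * P.card := hLn.trans hP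
            exact_mod_cast this
          rcases h1 (Fin n) G L c v P lam hcyc hGm hLP (by exact_mod_cast hC1L) with
            ⟨Lm, g1, g2, I, m, σ, g3, g4, g5, g6, Y, g7, g8, g9⟩ | ⟨X, g1, g2, g3⟩ | ⟨m, g1, g2⟩
          · right; right; left
            rw [hS2]
            have g2' : e * Lm ≤ L := by exact_mod_cast g2
            have g5' : L ≤ C * Lm * m := by exact_mod_cast g5
            refine ⟨hbd, Lm, I, Y, σ, g1, g2'.trans hLn, g3, g4, ?_, g8, g6, g9⟩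
            calc n ≤ R ^ 6 * L := hnL
              _ ≤ R ^ 6 * (C * Lm * m) := Nat.mul_le_mul_left _ g5'
              _ ≤ R ^ 6 * (C * Lm * Y.card) :=
                  Nat.mul_le_mul_left _ (Nat.mul_le_mul_left _ g7)
              _ = C * R ^ 6 * Lm * Y.card := by ring
          · right; right; right; left
            rw [hS3]
            have g1' : L ≤ C1 * X.card := by exact_mod_cast g1
            refine ⟨hbd, X, ?_, g2, gap_mono g3 (Nat.le_mul_of_pos_left _ hR6)⟩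
            calc n ≤ R ^ 6 * L := hnL
              _ ≤ R ^ 6 * (C1 * X.card) := Nat.mul_le_mul_left _ g1'
              _ = R ^ 6 * C1 * X.card := by ring
          · right; right; right; right
            rw [hS4]
            have g1' : L ≤ C1 * m := by exact_mod_cast g1
            have hnm : n ≤ R ^ 6 * C1 * m := by
              calc n ≤ R ^ 6 * L := hnL
                _ ≤ R ^ 6 * (C1 * m) := Nat.mul_le_mul_left _ g1'
                _ = R ^ 6 * C1 * m := by ring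
            have h32 : 32 * s ≤ m := Nat.le_of_mul_le_mul_left (hn32.trans hnm) hRC
            obtain ⟨b, hb, Z, D, hD, hZb, hZD⟩ := g2 s hs h32
            refine ⟨hbd, Z, D, hD, ?_, hZD⟩
            calc n ≤ R ^ 6 * C1 * m := hnm
              _ ≤ R ^ 6 * C1 * (16 * b) := Nat.mul_le_mul_left _ hb
              _ ≤ R ^ 6 * C1 * (16 * Z.card) :=
                  Nat.mul_le_mul_left _ (Nat.mul_le_mul_left _ hZb)
              _ = 16 * (R ^ 6 * C1) * Z.card := by ring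
        · right; left
          rw [hS1]
          refine ⟨G, L, W, hGm, hW, ?_, ?_, rfl⟩
          · rw [Nat.le_div_iff_mul_le hR0]
            push Not at c2
            rw [mul_comm]
            exact c2.le
          · rw [Nat.le_div_iff_mul_le hR0]
            refine le_trans (Nat.mul_le_mul_left _ ?_) c1
            calc R = R ^ 1 := (pow_one R).symm
              _ ≤ R ^ 10 := Nat.pow_le_pow_right hR0 (by norm_num)
      · left
        rw [hS0]
        intro l hl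
        refine (hmax l hl).trans ?_
        push Not at c1
        have : n / R ^ 10 < n - L := by
          rw [Nat.div_lt_iff_lt_mul hR10]
          exact c1
        omega
    · left
      rw [hS0]
      intro l hl
      exact absurd ⟨l, hl⟩ hA
  have hcard : numCycleSets t n ≤ S0.ncard + (S1.ncard + (S2.ncard + (S3.ncard + S4.ncard))) := by
    refine (Set.ncard_le_ncard hsub (f0.union (f1.union (f2.union (f3.union f4))))).trans ?_
    refine (Set.ncard_union_le _ _).trans (Nat.add_le_add_left ?_ _)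
    refine (Set.ncard_union_le _ _).trans (Nat.add_le_add_left ?_ _)
    refine (Set.ncard_union_le _ _).trans (Nat.add_le_add_left ?_ _)
    exact Set.ncard_union_le _ _
  have hcardR : (numCycleSets t n : ℝ) ≤ (S0.ncard : ℝ) + ((S1.ncard : ℝ) + ((S2.ncard : ℝ) +
      ((S3.ncard : ℝ) + (S4.ncard : ℝ)))) := by exact_mod_cast hcard
  linarith

end Pool.Agent.CycMC
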