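import Pool.Agent.CycMC.Targets

/-!
# CycMC: GREEDY
-/

set_option autoImplicit false

namespace Pool.Agent.CycMC

open Finset
open Pool.Agent.HubG (cycleSet)
open Pool.Agent.CycSp (Pt Cyc ZD)

namespace GREEDY_

variable {V : Type}

lemma rep_refl {Gr : SimpleGraph V} (S : Set V) {l : List V} (h1 : l.IsChain Gr.Adj)
    (h2 : l.Nodup) : Rep Gr S l l := ⟨h1, h2, rfl, rfl, fun _ hv => Or.inl hv⟩

lemma rep_trans {Gr : SimpleGraph V} {S S' : Set V} (hS : S' ⊆ S) {l l' l'' : List V}
    (h1 : Rep Gr S l l') (h2 : Rep Gr S' l' l'') : Rep Gr S l l'' :=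
  ⟨h2.chain, h2.nodup, h2.head.trans h1.head, h2.last.trans h1.last, fun v hv => by
    rcases h2.sub v hv with h | h
    · exact h1.sub v h
    · exact Or.inr (hS h)⟩

lemma main (hS : T_STEP) (Gr : SimpleGraph V) (lam K W : ℕ) (hK : 1 ≤ K) (n : ℕ) :
    ∀ (w : List (List V)) (B : List (Band V)), B.length ≤ n → PSt Gr lam K W w B →
    ∃ (w' : List (List V)) (B' : List (Band V)) (X : Finset ℕ), PSt Gr lam K W w' B' ∧
      Lam w' B' ∧ Rep Gr (kap B) w.flatten w'.flatten ∧ B.length ≤ B'.length + 2 * X.card ∧
      Gap X 1 (2 * W) ∧ (∀ a ∈ X, (a = w.flatten.length ∨ 4 ≤ a) ∧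
        ∃ l', Rep Gr (kap B) w.flatten l' ∧ l'.length = a) ∧
      (X = ∅ ∨ w.flatten.length ∈ X) ∧ ∀ a ∈ X, a ≤ w.flatten.length := by
  induction n with
  | zero =>
    intro w B hn hB
    have h0 : B.length = 0 := by omega
    rcases hS V Gr lam K W w B hB with ⟨B', h1, h2, h3, h4⟩ | ⟨w', B', h1, h2, -⟩
    · refine ⟨w, B', ∅, h1, h4, rep_refl _ hB.chain hB.nodup, by omega, ?_, ?_, Or.inl rfl, ?_⟩
      · intro a ha
        exact absurd ha (notMem_empty a)
      · intro a ha
        exact absurd ha (notMem_empty a)
      · intro a ha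
        exact absurd ha (notMem_empty a)
    · omega
  | succ n ih =>
    intro w B hn hB
    rcases hS V Gr lam K W w B hB with ⟨B', h1, h2, h3, h4⟩ |
      ⟨w1, B1, h1, h2, h3, h4, h5, h6, h7, h8⟩
    · refine ⟨w, B', ∅, h1, h4, rep_refl _ hB.chain hB.nodup, by omega, ?_, ?_, Or.inl rfl, ?_⟩
      · intro a ha
        exact absurd ha (notMem_empty a)
      · intro a ha
        exact absurd ha (notMem_empty a)
      · intro a ha
        exact absurd ha (notMem_empty a)
    · obtain ⟨w', B', X, g1, g2, g3, g4, g5, g6, g7, g8⟩ := ih w1 B1 (by omega) h1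
      have hnot : w.flatten.length ∉ X := by
        intro h
        have := g8 _ h
        omega
      refine ⟨w', B', insert w.flatten.length X, g1, g2, rep_trans h4 h5 g3, ?_, ?_, ?_,
        Or.inr (mem_insert_self _ _), ?_⟩
      · rw [card_insert_of_notMem hnot]
        omega
      · intro a ha
        rcases mem_insert.1 ha with rfl | ha
        · rcases g7 with h | h
          · left
            intro b hb
            rw [h] at hb
            rw [mem_insert] at hb
            rcases hb with rfl | hb
            · exact le_rfl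
            · exact absurd hb (notMem_empty b)
          · right
            exact ⟨w1.flatten.length, mem_insert_of_mem h, by omega, by omega⟩
        · rcases g5 a ha with h | ⟨b, hb, hb1, hb2⟩
          · left
            intro b hb
            rcases mem_insert.1 hb with rfl | hb
            · have := g8 a ha
              omega
            · exact h b hb
          · exact Or.inr ⟨b, mem_insert_of_mem hb, hb1, hb2⟩
      · intro a ha
        rcases mem_insert.1 ha with rfl | ha
        · exact ⟨Or.inl rfl, w.flatten, rep_refl _ hB.chain hB.nodup, rfl⟩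
        · obtain ⟨h9, l', h10, h11⟩ := g6 a ha
          refine ⟨Or.inr ?_, l', rep_trans h4 h5 h10, h11⟩
          rcases h9 with h9 | h9
          · omega
          · exact h9
      · intro a ha
        rcases mem_insert.1 ha with rfl | ha
        · exact le_rfl
        · have := g8 a ha
          omega

end GREEDY_

theorem p_GREEDY (h1 : T_STEP) : T_GREEDY := by
  intro V Gr lam K W w B hK hB
  obtain ⟨w', B', X, g1, g2, g3, g4, g5, g6, -, -⟩ :=
    GREEDY_.main h1 Gr lam K W hK B.length w B le_rfl hB
  exact ⟨w', B', X, g1, g2, g3, g4, g5, g6⟩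

end Pool.Agent.CycMC
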