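import Pool.Agent.CycMC.Targets

set_option autoImplicit false

/-!
# CycMC-HVY: heavy arcs and heavy pairs of arcs
-/

namespace Pool.Agent.CycMC

open Finset
open Pool.Agent.CycSp (Pt Cyc)
open Pool.Agent.Pend (Minor)

namespace HVY_

/-- The facts on the arcs. -/
structure Arc (P : Finset Pt) (L : ℤ) (Lm : ℕ) (τ : ℤ → ℕ) : Prop where
  mono : ∀ i j, i ≤ j → τ i ≤ τ j
  top : ∀ i, 0 ≤ i → i < L → (τ i : ℤ) * Lm < 2 * L
  len : ∀ i j, 0 ≤ i → i ≤ j → τ i = τ j →
    (j - i) + ((P.filter (fun p => i ≤ p.1 ∧ p.1 < j)).card : ℤ) < Lm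
  mem : ∀ p ∈ P, 0 ≤ p.1 ∧ p.1 < p.2 ∧ p.2 < L
  disty : ∀ p ∈ P, ∀ q ∈ P, p.2 = q.2 → p = q

theorem arc_of {V : Type} {Gr : SimpleGraph V} {L : ℤ} {c v : ℤ → V} {P : Finset Pt} {lam : ℕ}
    (hT : T_TAU) (hC : Cyc Gr L c v P lam) (Lm : ℕ) (hLm : 1 ≤ Lm) : Arc P L Lm (tau P Lm) := by
  have hm : ∀ p ∈ P, 0 ≤ p.1 ∧ p.1 < p.2 ∧ p.2 < L := by
    intro p hp
    obtain ⟨h1, h2, h3⟩ := hC.mem p hp
    exact ⟨h1, by omega, h3⟩
  obtain ⟨h1, h2, h3⟩ := hT P L Lm hLm hm hC.disty
  exact ⟨h1, h2, h3, hm, hC.disty⟩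

variable {P : Finset Pt} {L : ℤ} {Lm : ℕ} {τ : ℤ → ℕ}

/-- At most `Lm` links end in one arc. -/
theorem arc_card (h : Arc P L Lm τ) (k : ℕ) : (P.filter (fun p => τ p.2 = k)).card ≤ Lm := by
  set S := P.filter (fun p => τ p.2 = k) with hS
  rcases S.eq_empty_or_nonempty with h0 | hne
  · rw [h0]; simp
  obtain ⟨p, hp, hmin⟩ := Finset.exists_min_image S (fun p => p.2) hne
  rw [hS, Finset.mem_filter] at hp
  have h1 : (S.image (fun p => p.2)).card = S.card := by
    refine Finset.card_image_of_injOn ?_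
    intro a ha b hb hab
    rw [Finset.mem_coe, hS, Finset.mem_filter] at ha hb
    exact h.disty a ha.1 b hb.1 hab
  rw [← h1]
  have h2 : S.image (fun p => p.2) ⊆ Finset.Ico p.2 (p.2 + Lm) := by
    intro y hy
    rw [Finset.mem_image] at hy
    obtain ⟨q, hq, rfl⟩ := hy
    have hle := hmin q hq
    rw [hS, Finset.mem_filter] at hq
    have hm := h.mem p hp.1
    have h3 := h.len p.2 q.2 (by omega) hle (by rw [hp.2, hq.2])
    rw [Finset.mem_Ico]
    have h4 : (0 : ℤ) ≤ ((P.filter (fun r => p.2 ≤ r.1 ∧ r.1 < q.2)).card : ℤ) :=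
      Int.natCast_nonneg _
    exact ⟨hle, by omega⟩
  refine le_trans (Finset.card_le_card h2) ?_
  rw [Int.card_Ico]
  omega

/-- At most `Lm + D` links with small hubs start in one arc. -/
theorem hub_card (h : Arc P L Lm τ) (D k : ℕ) :
    (P.filter (fun p => dg P p.1 ≤ D ∧ τ p.1 = k)).card ≤ Lm + D := by
  set S := P.filter (fun p => dg P p.1 ≤ D ∧ τ p.1 = k) with hS
  rcases S.eq_empty_or_nonempty with h0 | hne
  · rw [h0]; simp
  obtain ⟨p, hp, hmin⟩ := Finset.exists_min_image S (fun p => p.1) hne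
  obtain ⟨q, hq, hmax⟩ := Finset.exists_max_image S (fun p => p.1) hne
  have hpq := hmin q hq
  rw [hS, Finset.mem_filter] at hp hq
  have h1 : S ⊆ (P.filter (fun r => p.1 ≤ r.1 ∧ r.1 < q.1)) ∪ (P.filter (fun r => r.1 = q.1)) := by
    intro r hr
    have h2 := hmin r hr
    have h3 := hmax r hr
    rw [hS, Finset.mem_filter] at hr
    rw [Finset.mem_union, Finset.mem_filter, Finset.mem_filter]
    rcases lt_or_eq_of_le h3 with h4 | h4
    · exact Or.inl ⟨hr.1, h2, h4⟩
    · exact Or.inr ⟨hr.1, h4⟩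
  have hm := h.mem p hp.1
  have h3 := h.len p.1 q.1 hm.1 hpq (by rw [hp.2.2, hq.2.2])
  have h4 : (P.filter (fun r => r.1 = q.1)).card ≤ D := hq.2.1
  refine le_trans (Finset.card_le_card h1) (le_trans (Finset.card_union_le _ _) ?_)
  omega

/-- Fibres. -/
theorem fib (S : Finset Pt) (f : Pt → ℕ × ℕ) (A : Finset (ℕ × ℕ)) (N : ℕ)
    (h : ∀ a ∈ A, (S.filter (fun p => f p = a)).card ≤ N) :
    (S.filter (fun p => f p ∈ A)).card ≤ N * A.card := by
  refine Finset.card_le_mul_card_image_of_maps_to (f := f) (t := A) ?_ N ?_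
  · intro p hp
    exact (Finset.mem_filter.mp hp).2
  · intro a ha
    refine le_trans (Finset.card_le_card ?_) (h a ha)
    intro p hp
    rw [Finset.mem_filter, Finset.mem_filter] at hp
    rw [Finset.mem_filter]
    exact ⟨hp.1.1, hp.2⟩

/-- The number of arcs. -/
theorem arcs (h : Arc P L Lm τ) (hLm : 1 ≤ Lm) (hL : 0 ≤ L) (hLL : (Lm : ℤ) ≤ L) :
    ∃ r : ℕ, (∀ i, 0 ≤ i → i < L → τ i < r) ∧ ((Lm * r : ℕ) : ℤ) ≤ 3 * L := by
  obtain ⟨n, rfl⟩ := Int.eq_ofNat_of_zero_le hL
  refine ⟨2 * n / Lm + 1, ?_, ?_⟩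
  · intro i h0 h1
    have h2 := h.top i h0 h1
    have h3 : τ i * Lm < 2 * n := by exact_mod_cast h2
    exact Nat.lt_succ_of_le ((Nat.le_div_iff_mul_le (by omega)).mpr h3.le)
  · have h4 : Lm * (2 * n / Lm) ≤ 2 * n := Nat.mul_div_le _ _
    have h5 : Lm ≤ n := by exact_mod_cast hLL
    have h6 : Lm * (2 * n / Lm + 1) ≤ 3 * n := by
      rw [mul_add, mul_one]; omega
    exact_mod_cast h6

end HVY_

open HVY_

theorem p_HVY (hQ : T_QUOT) (hT : T_TAU) : T_HVY := by
  classical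
  intro t R hR V Gr L c v P lam D θ hC hM hLR hθ hD hLm hsm
  have hMMpos : 1 ≤ MM t R := by
    unfold MM
    exact Nat.one_le_iff_ne_zero.mpr (by positivity)
  set Lm := MM t R * θ with hLmd
  have hLm1 : 1 ≤ Lm := Nat.one_le_iff_ne_zero.mpr (Nat.mul_ne_zero (by omega) (by omega))
  have hA := arc_of hT hC Lm hLm1
  have hL0 : 0 ≤ L := le_trans (by norm_num) hC.three
  obtain ⟨r, hr, hr3⟩ := arcs hA hLm1 hL0 hLm
  set τ := tau P Lm with hτ
  have hpairs := hQ V Gr L c v P lam t r τ hC hM (fun i j _ hij _ => hA.mono i j hij) hr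
  set S := P.filter (fun p => dg P p.1 ≤ D) with hS
  set f : Pt → ℕ × ℕ := fun p => (τ p.1, τ p.2) with hf
  set cD : ℕ → ℕ := fun k => (P.filter (fun p => τ p.1 = k ∧ τ p.2 = k)).card with hcD
  set cO : ℕ × ℕ → ℕ := fun e =>
    (P.filter (fun p => dg P p.1 ≤ D ∧ τ p.1 = e.1 ∧ τ p.2 = e.2)).card with hcO
  set A := P.image f with hAd
  set LD := A.filter (fun a => a.1 = a.2 ∧ cD a.1 < θ) with hLD
  set LO := A.filter (fun a => a.1 ≠ a.2 ∧ cO a < θ) with hLO
  set HD := A.filter (fun a => a.1 = a.2 ∧ θ ≤ cD a.1) with hHD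
  set HO := A.filter (fun a => a.1 ≠ a.2 ∧ θ ≤ cO a) with hHO
  -- fibres
  have hfibD : ∀ a : ℕ × ℕ, a.1 = a.2 → (S.filter (fun p => f p = a)).card ≤ cD a.1 := by
    intro a ha
    refine Finset.card_le_card ?_
    intro p hp
    rw [Finset.mem_filter, hS, Finset.mem_filter] at hp
    rw [Finset.mem_filter]
    have h1 : τ p.1 = a.1 := congrArg Prod.fst hp.2
    have h2 : τ p.2 = a.2 := congrArg Prod.snd hp.2
    exact ⟨hp.1.1, h1, by rw [h2, ha]⟩
  have hfibO : ∀ a : ℕ × ℕ, (S.filter (fun p => f p = a)).card ≤ cO a := by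
    intro a
    refine Finset.card_le_card ?_
    intro p hp
    rw [Finset.mem_filter, hS, Finset.mem_filter] at hp
    rw [Finset.mem_filter]
    exact ⟨hp.1.1, hp.1.2, congrArg Prod.fst hp.2, congrArg Prod.snd hp.2⟩
  have hfibL : ∀ a : ℕ × ℕ, (S.filter (fun p => f p = a)).card ≤ Lm := by
    intro a
    refine le_trans (Finset.card_le_card ?_) (arc_card hA a.2)
    intro p hp
    rw [Finset.mem_filter, hS, Finset.mem_filter] at hp
    rw [Finset.mem_filter]
    exact ⟨hp.1.1, congrArg Prod.snd hp.2⟩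
  have c1 : (S.filter (fun p => f p ∈ LD)).card ≤ θ * LD.card := fib S f LD θ fun a ha => by
    rw [hLD, Finset.mem_filter] at ha
    exact le_trans (hfibD a ha.2.1) ha.2.2.le
  have c2 : (S.filter (fun p => f p ∈ LO)).card ≤ θ * LO.card := fib S f LO θ fun a ha => by
    rw [hLO, Finset.mem_filter] at ha
    exact le_trans (hfibO a) ha.2.2.le
  have c3 : (S.filter (fun p => f p ∈ HD)).card ≤ Lm * HD.card :=
    fib S f HD Lm fun a _ => hfibL a
  have c4 : (S.filter (fun p => f p ∈ HO)).card ≤ Lm * HO.card :=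
    fib S f HO Lm fun a _ => hfibL a
  have cS : S.card ≤ (S.filter (fun p => f p ∈ LD)).card + (S.filter (fun p => f p ∈ LO)).card +
      (S.filter (fun p => f p ∈ HD)).card + (S.filter (fun p => f p ∈ HO)).card := by
    have h1 : S ⊆ ((S.filter (fun p => f p ∈ LD) ∪ S.filter (fun p => f p ∈ LO)) ∪
        S.filter (fun p => f p ∈ HD)) ∪ S.filter (fun p => f p ∈ HO) := by
      intro p hp
      have hpP : p ∈ P := (Finset.mem_filter.mp hp).1
      have hpA : f p ∈ A := Finset.mem_image_of_mem _ hpP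
      simp only [Finset.mem_union, Finset.mem_filter, hLD, hLO, hHD, hHO]
      by_cases h2 : (f p).1 = (f p).2
      · by_cases h3 : cD (f p).1 < θ
        · exact Or.inl (Or.inl (Or.inl ⟨hp, hpA, h2, h3⟩))
        · exact Or.inl (Or.inr ⟨hp, hpA, h2, not_lt.mp h3⟩)
      · by_cases h3 : cO (f p) < θ
        · exact Or.inl (Or.inl (Or.inr ⟨hp, hpA, h2, h3⟩))
        · exact Or.inr ⟨hp, hpA, h2, not_lt.mp h3⟩
    refine le_trans (Finset.card_le_card h1) ?_
    refine le_trans (Finset.card_union_le _ _) (Nat.add_le_add_right ?_ _)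
    refine le_trans (Finset.card_union_le _ _) (Nat.add_le_add_right ?_ _)
    exact Finset.card_union_le _ _
  have hLDc : LD.card ≤ r := by
    have h1 : (LD.image Prod.fst).card = LD.card := by
      refine Finset.card_image_of_injOn ?_
      intro a ha b hb hab
      rw [Finset.mem_coe, hLD, Finset.mem_filter] at ha hb
      exact Prod.ext hab (by rw [← ha.2.1, ← hb.2.1]; exact hab)
    rw [← h1]
    have h2 : LD.image Prod.fst ⊆ Finset.range r := by
      intro k hk
      rw [Finset.mem_image] at hk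
      obtain ⟨a, ha, rfl⟩ := hk
      rw [hLD, Finset.mem_filter, hAd, Finset.mem_image] at ha
      obtain ⟨⟨p, hp, rfl⟩, _⟩ := ha
      have h3 := hA.mem p hp
      rw [Finset.mem_range]
      exact hr p.1 h3.1 (by omega)
    exact le_trans (Finset.card_le_card h2) (le_of_eq (Finset.card_range r))
  have hLOc : LO.card ≤ 2 ^ t * r := by
    refine le_trans (Finset.card_le_card ?_) hpairs
    intro a ha
    rw [hLO, Finset.mem_filter] at ha
    rw [Finset.mem_filter]
    exact ⟨ha.1, ha.2.1⟩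
  obtain ⟨n, rfl⟩ := Int.eq_ofNat_of_zero_le hL0
  have hr3' : Lm * r ≤ 3 * n := by exact_mod_cast hr3
  have hLR' : n ≤ R * P.card := by exact_mod_cast hLR
  have e1 : Lm * r = 12 * ((2 ^ t + 1) * R * θ * r) := by
    rw [hLmd]; unfold MM; ring
  have e2 : 4 * ((2 ^ t + 1) * R * θ * r) ≤ n := by omega
  have e3 : (S.filter (fun p => f p ∈ LD)).card + (S.filter (fun p => f p ∈ LO)).card ≤
      (2 ^ t + 1) * θ * r := by
    calc (S.filter (fun p => f p ∈ LD)).card + (S.filter (fun p => f p ∈ LO)).card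
        ≤ θ * r + θ * (2 ^ t * r) :=
          add_le_add (le_trans c1 (Nat.mul_le_mul_left _ hLDc))
            (le_trans c2 (Nat.mul_le_mul_left _ hLOc))
      _ = (2 ^ t + 1) * θ * r := by ring
  have e4 : 4 * R * ((2 ^ t + 1) * θ * r) ≤ n := by
    calc 4 * R * ((2 ^ t + 1) * θ * r) = 4 * ((2 ^ t + 1) * R * θ * r) := by ring
      _ ≤ n := e2
  have e5 : 2 * n ≤ 4 * R * S.card := by
    calc 2 * n ≤ 2 * (R * P.card) := Nat.mul_le_mul_left _ hLR'
      _ ≤ 2 * (R * (2 * S.card)) := by gcongr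
      _ = 4 * R * S.card := by ring
  have e6 : n ≤ 4 * R * (Lm * HD.card + Lm * HO.card) := by
    have h1 : S.card ≤ (2 ^ t + 1) * θ * r + (Lm * HD.card + Lm * HO.card) := by omega
    have h2 : 4 * R * S.card ≤ 4 * R * ((2 ^ t + 1) * θ * r) +
        4 * R * (Lm * HD.card + Lm * HO.card) := by
      calc 4 * R * S.card ≤ 4 * R * ((2 ^ t + 1) * θ * r + (Lm * HD.card + Lm * HO.card)) :=
            Nat.mul_le_mul_left _ h1
        _ = _ := by ring
    omega
  rcases le_total HO.card HD.card with hc | hc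
  · left
    refine ⟨HD.image Prod.fst, ?_, ?_⟩
    · have h1 : (HD.image Prod.fst).card = HD.card := by
        refine Finset.card_image_of_injOn ?_
        intro a ha b hb hab
        rw [Finset.mem_coe, hHD, Finset.mem_filter] at ha hb
        exact Prod.ext hab (by rw [← ha.2.1, ← hb.2.1]; exact hab)
      rw [h1]
      have h2 : n ≤ 8 * R * Lm * HD.card := by
        calc n ≤ 4 * R * (Lm * HD.card + Lm * HO.card) := e6
          _ ≤ 4 * R * (Lm * HD.card + Lm * HD.card) := by gcongr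
          _ = 8 * R * Lm * HD.card := by ring
      exact_mod_cast h2
    · intro k hk
      rw [Finset.mem_image] at hk
      obtain ⟨a, ha, rfl⟩ := hk
      rw [hHD, Finset.mem_filter] at ha
      exact ha.2.2
  · right
    refine ⟨HO, ?_, ?_⟩
    · have h2 : n ≤ 8 * R * Lm * HO.card := by
        calc n ≤ 4 * R * (Lm * HD.card + Lm * HO.card) := e6
          _ ≤ 4 * R * (Lm * HO.card + Lm * HO.card) := by gcongr
          _ = 8 * R * Lm * HO.card := by ring
      exact_mod_cast h2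
    · intro e he
      rw [hHO, Finset.mem_filter] at he
      exact ⟨he.2.1, he.2.2⟩

end Pool.Agent.CycMC
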