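import Pool.Agent.CycMC.Targets

/-!
# IND: vertex disjoint pairs
-/

set_option autoImplicit false

namespace Pool.Agent.CycMC

open Finset

theorem IND_aux (a n : ℕ) : ∀ E : Finset (ℕ × ℕ), E.card ≤ n → (∀ e ∈ E, e.1 ≠ e.2) →
    (∀ k, (E.filter (fun e => e.1 = k)).card ≤ a) →
    (∀ k, (E.filter (fun e => e.2 = k)).card ≤ a) →
    ∃ Es : List (ℕ × ℕ), (∀ e ∈ Es, e ∈ E) ∧ (Es.flatMap (fun e => [e.1, e.2])).Nodup ∧
      E.card ≤ 4 * a * Es.length := by
  induction n with
  | zero =>
    intro E hE _ _ _
    exact ⟨[], by simp, by simp, by simpa using hE⟩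
  | succ n ih =>
    intro E hE hne h1 h2
    rcases E.eq_empty_or_nonempty with h0 | ⟨e, he⟩
    · exact ⟨[], by simp, by simp, by simp [h0]⟩
    · set E' := E.filter fun f => f.1 ≠ e.1 ∧ f.1 ≠ e.2 ∧ f.2 ≠ e.1 ∧ f.2 ≠ e.2 with hE'
      have hsub : E' ⊆ E := filter_subset _ _
      have hlt : E'.card < E.card := by
        refine card_lt_card ⟨hsub, fun h => ?_⟩
        have h3 := h he
        rw [hE', mem_filter] at h3
        exact h3.2.1 rfl
      obtain ⟨Es, hs1, hs2, hs3⟩ := ih E' (by omega) (fun f hf => hne f (hsub hf))
        (fun k => (card_le_card (filter_subset_filter _ hsub)).trans (h1 k))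
        (fun k => (card_le_card (filter_subset_filter _ hsub)).trans (h2 k))
      have hcard : E.card ≤ E'.card + 4 * a := by
        have h3 : E ⊆ E' ∪ (E.filter (fun f => f.1 = e.1) ∪ (E.filter (fun f => f.1 = e.2) ∪
            (E.filter (fun f => f.2 = e.1) ∪ E.filter (fun f => f.2 = e.2)))) := by
          intro f hf
          simp only [mem_union, mem_filter, hE', hf, true_and]
          tauto
        have h4 := card_le_card h3
        have h5 := card_union_le E' (E.filter (fun f => f.1 = e.1) ∪
          (E.filter (fun f => f.1 = e.2) ∪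
            (E.filter (fun f => f.2 = e.1) ∪ E.filter (fun f => f.2 = e.2))))
        have h6 := card_union_le (E.filter (fun f => f.1 = e.1))
          (E.filter (fun f => f.1 = e.2) ∪
            (E.filter (fun f => f.2 = e.1) ∪ E.filter (fun f => f.2 = e.2)))
        have h7 := card_union_le (E.filter (fun f => f.1 = e.2))
            (E.filter (fun f => f.2 = e.1) ∪ E.filter (fun f => f.2 = e.2))
        have h8 := card_union_le (E.filter (fun f => f.2 = e.1)) (E.filter (fun f => f.2 = e.2))
        have h9 := h1 e.1
        have h10 := h1 e.2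
        have h11 := h2 e.1
        have h12 := h2 e.2
        omega
      refine ⟨e :: Es, ?_, ?_, ?_⟩
      · intro f hf
        rw [List.mem_cons] at hf
        rcases hf with hf | hf
        · rw [hf]
          exact he
        · exact hsub (hs1 f hf)
      · rw [List.flatMap_cons, List.nodup_append]
        refine ⟨by simpa using hne e he, hs2, ?_⟩
        intro x hx y hy hxy
        rw [List.mem_flatMap] at hy
        obtain ⟨f, hf, hfy⟩ := hy
        have h3 := hs1 f hf
        rw [hE', mem_filter] at h3
        obtain ⟨-, g1, g2, g3, g4⟩ := h3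
        simp only [List.mem_cons, List.not_mem_nil, or_false] at hx hfy
        rcases hx with hx | hx <;> rcases hfy with hfy | hfy
        · exact g1 (by rw [← hfy, ← hxy, hx])
        · exact g3 (by rw [← hfy, ← hxy, hx])
        · exact g2 (by rw [← hfy, ← hxy, hx])
        · exact g4 (by rw [← hfy, ← hxy, hx])
      · rw [List.length_cons]
        calc E.card ≤ E'.card + 4 * a := hcard
          _ ≤ 4 * a * Es.length + 4 * a := by omega
          _ = 4 * a * (Es.length + 1) := by ring

theorem p_IND : T_IND := by
  intro E a h0 h1 h2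
  exact IND_aux a E.card E le_rfl h0 h1 h2

end Pool.Agent.CycMC
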