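import Pool.Agent.CycMC.Targets

/-!
# LAMCYC: untwisted bands which are not interlaced give a cycle with a non-crossing family of links
-/

set_option autoImplicit false

namespace Pool.Agent.CycMC

open Finset
open Pool.Agent.CycSp (Pt Cyc ZD)
open Pool.Agent.CycPl (Crs NonCr)

namespace LAMCYC_

variable {V : Type}

/-- The number of vertices before the block `i`. -/
def off (w : List (List V)) (i : ℕ) : ℕ := (w.take i).flatten.length

theorem off_mono (w : List (List V)) {i j : ℕ} (h : i ≤ j) : off w i ≤ off w j := by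
  unfold off
  have h1 : w.take i <+: w.take j := List.take_prefix_take_left h
  obtain ⟨t, ht⟩ := h1
  rw [← ht, List.flatten_append, List.length_append]
  omega

theorem off_succ {w : List (List V)} {i : ℕ} {l : List V} (h : w[i]? = some l) :
    off w (i + 1) = off w i + l.length := by
  unfold off
  rw [List.take_add_one, h]
  simp

theorem get_block {w : List (List V)} {i : ℕ} {l : List V} (h : w[i]? = some l) {r : ℕ}
    (hr : r < l.length) : w.flatten[off w i + r]? = l[r]? := by
  have hi : i < w.length := (List.getElem?_eq_some_iff.1 h).1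
  have hl : w[i] = l := (List.getElem?_eq_some_iff.1 h).2
  have h1 : w.flatten = (w.take i).flatten ++ (l ++ (w.drop (i + 1)).flatten) := by
    conv_lhs => rw [← List.take_append_drop i w, List.drop_eq_getElem_cons hi, hl]
    simp
  rw [h1, off, List.getElem?_append_right (by omega), List.getElem?_append_left (by omega)]
  congr 1
  omega

theorem disj_of {α β : Type} (f : α → List β) {B : List α} (h : (B.flatMap f).Nodup) {b c : α}
    (hb : b ∈ B) (hc : c ∈ B) (hne : b ≠ c) : List.Disjoint (f b) (f c) := by
  rw [List.nodup_flatMap] at h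
  haveI : Std.Symm (Function.onFun List.Disjoint f) := ⟨fun _ _ h => List.Disjoint.symm h⟩
  exact h.2.forall hb hc hne

theorem eq_of {α β : Type} (f : α → List β) {B : List α} (h : (B.flatMap f).Nodup) {b c : α}
    (hb : b ∈ B) (hc : c ∈ B) {x : β} (hx : x ∈ f b) (hx' : x ∈ f c) : b = c := by
  by_contra hne
  exact disj_of f h hb hc hne hx hx'

end LAMCYC_

open LAMCYC_ in
theorem p_LAMCYC : T_LAMCYC := by
  classical
  intro V Gr lam K W w B hlam hF hS hL hcl
  set F := w.flatten with hFdef
  have hFne : F ≠ [] := by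
    intro h
    rw [h] at hF
    simp at hF
  obtain ⟨d, hd⟩ : ∃ d, d ∈ F := List.exists_mem_of_ne_nil _ hFne
  -- the block indices
  have h1 : ∀ b : Band V, ∃ i j : ℕ, b ∈ B →
      i < j ∧ w[i]? = some b.l1 ∧ w[j]? = some b.l2.reverse := by
    intro b
    by_cases hb : b ∈ B
    · obtain ⟨i, j, h⟩ := hL.1 b hb
      exact ⟨i, j, fun _ => h⟩
    · exact ⟨0, 0, fun h => absurd h hb⟩
  choose i j hij using h1
  let X : Band V → ℕ := fun b => off w (i b)
  let Y : Band V → ℕ := fun b => off w (j b) + (b.l2.length - 1)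
  have hl1 : ∀ b : Band V, 1 ≤ b.l1.length := fun b => by simp [Band.l1]
  have hl2 : ∀ b : Band V, 1 ≤ b.l2.length := fun b => by simp [Band.l2]
  have hX : ∀ b ∈ B, F[X b]? = some b.p := by
    intro b hb
    have := get_block (hij b hb).2.1 (r := 0) (hl1 b)
    simp only [Nat.add_zero] at this
    rw [this]
    simp [Band.l1]
  have hY : ∀ b ∈ B, F[Y b]? = some b.q := by
    intro b hb
    have := get_block (hij b hb).2.2 (r := b.l2.length - 1)
      (by rw [List.length_reverse]; have := hl2 b; omega)
    show w.flatten[off w (j b) + (b.l2.length - 1)]? = some b.q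
    rw [this, List.getElem?_reverse (by have := hl2 b; omega)]
    have e : b.l2.length - 1 - (b.l2.length - 1) = 0 := by omega
    rw [e]
    simp [Band.l2]
  have hYs : ∀ b ∈ B, Y b < off w (j b + 1) := by
    intro b hb
    rw [off_succ (hij b hb).2.2, List.length_reverse]
    have := hl2 b
    show off w (j b) + (b.l2.length - 1) < _
    omega
  have hXs : ∀ b ∈ B, X b + b.l1.length ≤ off w (j b) := by
    intro b hb
    have h2 := off_succ (hij b hb).2.1
    have h3 := off_mono w (i := i b + 1) (j := j b) (hij b hb).1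
    show off w (i b) + _ ≤ _
    omega
  have hXY : ∀ b ∈ B, X b + lam < Y b := by
    intro b hb
    have h2 := hXs b hb
    have h3 := hS.big b hb
    have h4 := hl2 b
    show X b + lam < off w (j b) + (b.l2.length - 1)
    omega
  have hlt : ∀ (n : ℕ) (x : V), F[n]? = some x → n < F.length := fun n x h =>
    (List.getElem?_eq_some_iff.1 h).1
  have hinj : ∀ (n m : ℕ) (x : V), F[n]? = some x → F[m]? = some x → n = m := by
    intro n m x hn hm
    exact (List.getElem?_inj (hlt n x hn) hS.nodup).1 (hn.trans hm.symm)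
  have hmem : ∀ (n : ℕ) (x : V), F[n]? = some x → x ∈ F := fun n x h => List.mem_of_getElem? h
  -- disjointness
  have hdisj := hS.disj
  have hp1 : ∀ b : Band V, b.p ∈ b.l1 ++ b.l2 := fun b => by simp [Band.l1]
  have hq1 : ∀ b : Band V, b.q ∈ b.l1 ++ b.l2 := fun b => by simp [Band.l2]
  have hXinj : ∀ b ∈ B, ∀ b' ∈ B, X b = X b' → b = b' := by
    intro b hb b' hb' h
    have h2 := hX b hb
    rw [h, hX b' hb'] at h2
    have h3 : b'.p = b.p := Option.some.inj h2
    exact eq_of _ hdisj hb hb' (hp1 b) (h3 ▸ hp1 b')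
  have hYinj : ∀ b ∈ B, ∀ b' ∈ B, Y b = Y b' → b = b' := by
    intro b hb b' hb' h
    have h2 := hY b hb
    rw [h, hY b' hb'] at h2
    have h3 : b'.q = b.q := Option.some.inj h2
    exact eq_of _ hdisj hb hb' (hq1 b) (h3 ▸ hq1 b')
  let c : ℤ → V := fun z => (F[z.toNat]?).getD d
  have hc : ∀ n : ℕ, ∀ x, F[n]? = some x → c n = x := by
    intro n x h
    show (F[((n : ℤ)).toNat]?).getD d = x
    rw [Int.toNat_natCast, h]
    rfl
  have hc' : ∀ z : ℤ, 0 ≤ z → z < F.length → F[z.toNat]? = some (c z) := by
    intro z h0 h1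
    have h2 : z.toNat < F.length := by omega
    show F[z.toNat]? = some ((F[z.toNat]?).getD d)
    rw [List.getElem?_eq_getElem h2]
    rfl
  let v : ℤ → V := fun z => if h : ∃ b ∈ B, (X b : ℤ) = z then (h.choose.k.head?).getD d else d
  have hv : ∀ b ∈ B, v (X b) = (b.k.head?).getD d := by
    intro b hb
    have h : ∃ b' ∈ B, (X b' : ℤ) = (X b : ℤ) := ⟨b, hb, rfl⟩
    show (if h : ∃ b' ∈ B, (X b' : ℤ) = (X b : ℤ) then (h.choose.k.head?).getD d else d) = _
    rw [dif_pos h]
    have h2 := h.choose_spec
    have h3 : h.choose = b := hXinj _ h2.1 b hb (by exact_mod_cast h2.2)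
    rw [h3]
  let φ : Band V → Pt := fun b => ((X b : ℤ), (Y b : ℤ))
  let P : Finset Pt := (B.map φ).toFinset
  have hP : ∀ p : Pt, p ∈ P → ∃ b ∈ B, p = ((X b : ℤ), (Y b : ℤ)) := by
    intro p hp
    have h2 : p ∈ B.map φ := List.mem_toFinset.1 hp
    obtain ⟨b, hb, rfl⟩ := List.mem_map.1 h2
    exact ⟨b, hb, rfl⟩
  have hcard : P.card = B.length := by
    have h2 : (B.map φ).Nodup := by
      have h3 := (List.nodup_flatMap.1 hdisj).2
      show List.Pairwise _ (B.map φ)
      rw [List.pairwise_map]
      refine List.Pairwise.imp_of_mem ?_ h3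
      intro b b' hb hb' h4 h5
      have h6 : (X b : ℤ) = X b' := congrArg Prod.fst h5
      have h7 : b = b' := hXinj b hb b' hb' (by exact_mod_cast h6)
      subst h7
      exact h4 (hp1 b) (hp1 b)
    show (B.map φ).toFinset.card = _
    rw [List.toFinset_card_of_nodup h2, List.length_map]
  refine ⟨c, v, P, ⟨by exact_mod_cast hF, ?_, ?_, ?_, ?_, ?_, ?_⟩, ?_, hcard⟩
  · -- adj
    intro z h0 hz
    have h2 := hc' z h0 (by omega)
    have h3 := hc' (z + 1) (by omega) hz
    have e : (z + 1).toNat = z.toNat + 1 := by omega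
    rw [e] at h3
    have h4 : z.toNat + 1 < F.length := by omega
    have h5 := List.isChain_iff_getElem.1 hS.chain z.toNat h4
    rw [List.getElem?_eq_getElem (by omega)] at h2
    rw [List.getElem?_eq_getElem h4] at h3
    rw [← Option.some.inj h2, ← Option.some.inj h3]
    exact h5
  · -- last
    have h2 := hc' ((F.length : ℤ) - 1) (by omega) (by omega)
    have h3 := hc' 0 (by omega) (by omega)
    refine hcl _ ?_ _ ?_
    · rw [List.getLast?_eq_getElem?]
      have e : ((F.length : ℤ) - 1).toNat = F.length - 1 := by omega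
      rw [e] at h2
      exact h2
    · rw [List.head?_eq_getElem?]
      exact h3
  · -- inj
    intro z z' h0 h1 h0' h1' h
    have h2 := hc' z h0 h1
    have h3 := hc' z' h0' h1'
    rw [h] at h2
    have := hinj _ _ _ h2 h3
    omega
  · -- mem
    intro p hp
    obtain ⟨b, hb, rfl⟩ := hP p hp
    have h2 := hXY b hb
    have h3 := hlt _ _ (hY b hb)
    refine ⟨by positivity, ?_, ?_⟩
    · show (X b : ℤ) + lam < Y b
      exact_mod_cast h2
    · show (Y b : ℤ) < F.length
      exact_mod_cast h3
  · -- disty
    intro p hp q hq h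
    obtain ⟨b, hb, rfl⟩ := hP p hp
    obtain ⟨b', hb', rfl⟩ := hP q hq
    have h2 : (Y b : ℤ) = Y b' := h
    rw [hYinj b hb b' hb' (by exact_mod_cast h2)]
  · -- link
    rcases hlam with rfl | rfl
    · left
      refine ⟨rfl, fun p hp => ?_⟩
      obtain ⟨b, hb, rfl⟩ := hP p hp
      have h2 := (hS.kl b hb).1
      have h3 : b.k = [] := List.eq_nil_of_length_eq_zero (by omega)
      have h4 := (hS.link b hb).1
      rw [h3] at h4
      rw [hc _ _ (hX b hb), hc _ _ (hY b hb)]
      simpa using h4
    · right
      have hk : ∀ b ∈ B, ∃ m, b.k = [m] ∧ v (X b) = m := by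
        intro b hb
        have h2 := (hS.kl b hb).1
        obtain ⟨m, hm⟩ := List.length_eq_one_iff.1 (show b.k.length = 1 by omega)
        refine ⟨m, hm, ?_⟩
        rw [hv b hb, hm]
        rfl
      refine ⟨rfl, ?_, ?_, ?_⟩
      · intro p hp
        obtain ⟨b, hb, rfl⟩ := hP p hp
        obtain ⟨m, hm, hvm⟩ := hk b hb
        have h4 := (hS.link b hb).1
        rw [hm] at h4
        show Gr.Adj (c (X b)) (v (X b)) ∧ Gr.Adj (v (X b)) (c (Y b))
        rw [hc _ _ (hX b hb), hc _ _ (hY b hb), hvm]
        simpa using h4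
      · intro p hp z h0 hz he
        obtain ⟨b, hb, rfl⟩ := hP p hp
        obtain ⟨m, hm, hvm⟩ := hk b hb
        have h4 : m ∈ kap B := ⟨b, hb, Or.inl (by rw [hm]; simp)⟩
        refine hS.kout m h4 ?_
        have h5 : v (X b) = c z := he
        rw [← hvm, h5]
        exact hmem _ _ (hc' z h0 hz)
      · intro p hp q hq he
        obtain ⟨b, hb, rfl⟩ := hP p hp
        obtain ⟨b', hb', rfl⟩ := hP q hq
        obtain ⟨m, hm, hvm⟩ := hk b hb
        obtain ⟨m', hm', hvm'⟩ := hk b' hb'
        have h5 : v (X b) = v (X b') := he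
        rw [hvm, hvm'] at h5
        have h6 : b = b' := eq_of (fun b : Band V => b.k ++ b.k') hS.kn hb hb' (x := m)
          (by simp [hm]) (by simp [hm', h5])
        rw [h6]
  · -- NonCr
    intro p hp q hq hcr
    obtain ⟨b, hb, rfl⟩ := hP p hp
    obtain ⟨b', hb', rfl⟩ := hP q hq
    have h2 : X b < X b' := Int.ofNat_lt.1 hcr.1
    have h3 : X b' < Y b := Int.ofNat_lt.1 hcr.2.1
    have h4 : Y b < Y b' := Int.ofNat_lt.1 hcr.2.2
    refine hL.2 b hb b' hb' ⟨i b, i b', j b, j b', ?_, ?_, ?_, (hij b hb).2.1,
      (hij b' hb').2.1, (hij b hb).2.2, (hij b' hb').2.2⟩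
    · by_contra h
      have := off_mono w (not_lt.1 h)
      have h5 : off w (i b) < off w (i b') := h2
      omega
    · by_contra h
      rcases Nat.lt_or_ge (j b) (i b') with h5 | h5
      · have h6 := off_mono w (i := j b + 1) (j := i b') h5
        have h7 := hYs b hb
        have h8 : off w (i b') < Y b := h3
        omega
      · have h6 : i b' = j b := by omega
        have h7 := (hij b' hb').2.1
        rw [h6, (hij b hb).2.2] at h7
        have h8 : b.l2.reverse = b'.l1 := Option.some.inj h7
        have h9 : b'.p ∈ b.l1 ++ b.l2 := by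
          have : b'.p ∈ b'.l1 := by simp [Band.l1]
          rw [← h8, List.mem_reverse] at this
          exact List.mem_append_right _ this
        have h10 := eq_of _ hdisj hb hb' h9 (hp1 b')
        rw [h10] at h2
        omega
    · by_contra h
      rcases Nat.lt_or_ge (j b') (j b) with h5 | h5
      · have h6 := off_mono w (i := j b' + 1) (j := j b) h5
        have h7 := hYs b' hb'
        have h8 : off w (j b) ≤ Y b := Nat.le_add_right _ _
        omega
      · have h6 : j b = j b' := by omega
        have h7 := (hij b' hb').2.2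
        rw [← h6, (hij b hb).2.2] at h7
        have h8 : b.l2.reverse = b'.l2.reverse := Option.some.inj h7
        have h9 : b.l2 = b'.l2 := List.reverse_injective h8
        have h10 : b'.q ∈ b.l1 ++ b.l2 := by
          have : b'.q ∈ b'.l2 := by simp [Band.l2]
          rw [← h9] at this
          exact List.mem_append_right _ this
        have h11 := eq_of _ hdisj hb hb' h10 (hq1 b')
        rw [h11] at h2
        omega

end Pool.Agent.CycMC
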