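import Pool.Agent.CycMC.Targets

/-!
# LAMI: untwisted bands which are not interlaced give many lengths
-/

set_option autoImplicit false

namespace Pool.Agent.CycMC

open Finset

/-! ### Lists -/

theorem lami_split1 {α : Type} (i : ℕ) (w : List α) (a : α) (h : w[i]? = some a) :
    ∃ u z : List α, w = u ++ a :: z ∧ u.length = i := by
  obtain ⟨hi, rfl⟩ := List.getElem?_eq_some_iff.mp h
  refine ⟨w.take i, w.drop (i + 1), ?_, ?_⟩
  · conv_lhs => rw [← List.take_append_drop i w]
    rw [List.drop_eq_getElem_cons hi]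
  · rw [List.length_take]
    omega

theorem lami_split2 {α : Type} (i j : ℕ) (w : List α) (a c : α) (hij : i < j)
    (h1 : w[i]? = some a) (h2 : w[j]? = some c) :
    ∃ u v z : List α, w = u ++ a :: (v ++ c :: z) ∧ u.length = i ∧
      u.length + 1 + v.length = j := by
  obtain ⟨u, z', rfl, hu⟩ := lami_split1 i w a h1
  have h3 : z'[j - (i + 1)]? = some c := by
    rw [List.getElem?_append] at h2
    rw [if_neg (by omega)] at h2
    have h4 : j - u.length = (j - (i + 1)) + 1 := by omega
    rw [h4, List.getElem?_cons_succ] at h2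
    exact h2
  obtain ⟨v, z, rfl, hv⟩ := lami_split1 _ z' c h3
  exact ⟨u, v, z, rfl, hu, by omega⟩

theorem lami_get_v {α : Type} (u v z : List α) (a c : α) (k : ℕ) (hk : k < v.length) :
    (u ++ a :: (v ++ c :: z))[u.length + 1 + k]? = v[k]? := by
  rw [List.getElem?_append, if_neg (by omega)]
  have h4 : u.length + 1 + k - u.length = k + 1 := by omega
  rw [h4, List.getElem?_cons_succ, List.getElem?_append, if_pos hk]

theorem lami_get_z {α : Type} (u v z : List α) (a c : α) (k : ℕ) :
    (u ++ a :: (v ++ c :: z))[u.length + 1 + v.length + 1 + k]? = z[k]? := by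
  rw [List.getElem?_append, if_neg (by omega)]
  have h4 : u.length + 1 + v.length + 1 + k - u.length = (v.length + 1 + k) + 1 := by omega
  rw [h4, List.getElem?_cons_succ, List.getElem?_append, if_neg (by omega)]
  have h5 : v.length + 1 + k - v.length = k + 1 := by omega
  rw [h5, List.getElem?_cons_succ]

/-! ### Replacements -/

theorem lami_refl {V : Type} {Gr : SimpleGraph V} {l : List V} (h1 : l.IsChain Gr.Adj)
    (h2 : l.Nodup) : Rep Gr ∅ l l := ⟨h1, h2, rfl, rfl, fun _ hv => Or.inl hv⟩

theorem lami_mono {V : Type} {Gr : SimpleGraph V} {S T : Set V} {l l' : List V}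
    (h : Rep Gr S l l') (hST : S ⊆ T) : Rep Gr T l l' :=
  ⟨h.chain, h.nodup, h.head, h.last, fun v hv => (h.sub v hv).imp id (fun hx => hST hx)⟩

theorem lami_app {V : Type} {Gr : SimpleGraph V} {S T : Set V} {l l' m m' : List V}
    (h1 : Rep Gr S l l') (h2 : Rep Gr T m m') (hc : (l ++ m).IsChain Gr.Adj)
    (hn : (l ++ m).Nodup) (hS : ∀ v ∈ S, v ∉ m) (hT : ∀ v ∈ T, v ∉ l)
    (hST : ∀ v ∈ S, v ∉ T) : Rep Gr (S ∪ T) (l ++ m) (l' ++ m') := by
  obtain ⟨c1, c2, c3⟩ := List.isChain_append.mp hc
  obtain ⟨n1, n2, n3⟩ := List.nodup_append.mp hn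
  refine ⟨List.isChain_append.mpr ⟨h1.chain, h2.chain, ?_⟩, List.nodup_append.mpr
    ⟨h1.nodup, h2.nodup, ?_⟩, ?_, ?_, ?_⟩
  · intro x hx y hy
    exact c3 x (h1.last ▸ hx) y (h2.head ▸ hy)
  · intro a ha b hb hab
    subst hab
    rcases h1.sub a ha with h | h
    · rcases h2.sub a hb with h' | h'
      · exact n3 a h a h' rfl
      · exact hT a h' h
    · rcases h2.sub a hb with h' | h'
      · exact hS a h h'
      · exact hST a h h'
  · rw [List.head?_append, List.head?_append, h1.head, h2.head]
  · rw [List.getLast?_append, List.getLast?_append, h1.last, h2.last]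
  · intro v hv
    rcases List.mem_append.mp hv with h | h
    · rcases h1.sub v h with h' | h'
      · exact Or.inl (List.mem_append.mpr (Or.inl h'))
      · exact Or.inr (Or.inl h')
    · rcases h2.sub v h with h' | h'
      · exact Or.inl (List.mem_append.mpr (Or.inr h'))
      · exact Or.inr (Or.inr h')

/-! ### Sets of lengths -/

theorem lami_comb (X Y : Finset ℕ) (K : ℕ) (hX : X.Nonempty) (hY : Y.Nonempty)
    (sX : ∀ a ∈ X, ∀ b ∈ X, a < b → a + K ≤ b) (sY : ∀ a ∈ Y, ∀ b ∈ Y, a < b → a + K ≤ b) :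
    ∃ (Z : Finset ℕ) (a0 c0 : ℕ), a0 ∈ X ∧ c0 ∈ Y ∧ X.card + Y.card ≤ Z.card + 1 ∧
      (∀ a ∈ Z, ∀ b ∈ Z, a < b → a + K ≤ b) ∧
      ∀ z ∈ Z, c0 ≤ z ∧ ∃ a ∈ X, ∃ c ∈ Y, z = a + c := by
  classical
  set a0 := X.min' hX with ha0
  set a1 := X.max' hX with ha1
  set c0 := Y.min' hY with hc0
  set c1 := Y.max' hY with hc1
  have mX : ∀ a ∈ X, a0 ≤ a := fun a ha => X.min'_le a ha
  have mY : ∀ a ∈ Y, c0 ≤ a := fun a ha => Y.min'_le a ha
  have MY : ∀ a ∈ Y, a ≤ c1 := fun a ha => Y.le_max' a ha
  have a0X : a0 ∈ X := X.min'_mem hX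
  have c0Y : c0 ∈ Y := Y.min'_mem hY
  have c1Y : c1 ∈ Y := Y.max'_mem hY
  refine ⟨X.image (fun a => a + c1) ∪ Y.image (fun c => a0 + c), a0, c0, a0X, c0Y, ?_, ?_, ?_⟩
  · have h1 : (X.image (fun a => a + c1)).card = X.card :=
      Finset.card_image_of_injective _ (fun a b hab => by
        have : a + c1 = b + c1 := hab
        omega)
    have h2 : (Y.image (fun c => a0 + c)).card = Y.card :=
      Finset.card_image_of_injective _ (fun a b hab => by
        have : a0 + a = a0 + b := hab
        omega)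
    have h3 : X.image (fun a => a + c1) ∩ Y.image (fun c => a0 + c) ⊆ {a0 + c1} := by
      intro t ht
      rw [Finset.mem_inter, Finset.mem_image, Finset.mem_image] at ht
      obtain ⟨⟨a, ha, rfl⟩, c, hc, hac⟩ := ht
      rw [Finset.mem_singleton]
      have := mX a ha
      have := MY c hc
      omega
    have h4 := Finset.card_union_add_card_inter (X.image (fun a => a + c1))
      (Y.image (fun c => a0 + c))
    have h5 := Finset.card_le_card h3
    rw [Finset.card_singleton] at h5
    omega
  · intro s hs t ht hst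
    rw [Finset.mem_union, Finset.mem_image, Finset.mem_image] at hs ht
    rcases hs with ⟨a, ha, rfl⟩ | ⟨c, hc, rfl⟩
    · rcases ht with ⟨b, hb, rfl⟩ | ⟨d, hd, rfl⟩
      · have := sX a ha b hb (by omega)
        omega
      · have := mX a ha
        have := MY d hd
        omega
    · rcases ht with ⟨b, hb, rfl⟩ | ⟨d, hd, rfl⟩
      · rcases Nat.lt_or_ge c c1 with h | h
        · have := sY c hc c1 c1Y h
          have := mX b hb
          omega
        · have h1 := MY c hc
          have := sX a0 a0X b hb (by omega)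
          omega
      · have := sY c hc d hd (by omega)
        omega
  · intro t ht
    rw [Finset.mem_union, Finset.mem_image, Finset.mem_image] at ht
    rcases ht with ⟨a, ha, rfl⟩ | ⟨c, hc, rfl⟩
    · exact ⟨by have := mY c1 c1Y; omega, a, ha, c1, c1Y, rfl⟩
    · exact ⟨by have := mY c hc; omega, a0, a0X, c, hc, rfl⟩

/-! ### States -/

theorem lami_perm {V : Type} {Gr : SimpleGraph V} {lam K W : ℕ} {w : List (List V)}
    {B B' : List (Band V)} (hp : B.Perm B') (h : PSt Gr lam K W w B) : PSt Gr lam K W w B' := by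
  have hm : ∀ b, b ∈ B' → b ∈ B := fun b hb => hp.mem_iff.mpr hb
  refine ⟨h.chain, h.nodup, ?_, ?_, ?_, fun b hb => h.legs b (hm b hb),
    fun b hb => h.link b (hm b hb), fun b hb => h.kl b (hm b hb),
    fun b hb => h.big b (hm b hb), fun b hb => h.small b (hm b hb)⟩
  · exact (hp.flatMap_right _).nodup_iff.mp h.disj
  · exact (hp.flatMap_right _).nodup_iff.mp h.kn
  · rintro v ⟨b, hb, hv⟩
    exact h.kout v ⟨b, hm b hb, hv⟩

theorem lami_kap_perm {V : Type} {B B' : List (Band V)} (hp : B.Perm B') : kap B = kap B' := by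
  ext v
  constructor
  · rintro ⟨b, hb, hv⟩
    exact ⟨b, hp.mem_iff.mp hb, hv⟩
  · rintro ⟨b, hb, hv⟩
    exact ⟨b, hp.mem_iff.mpr hb, hv⟩

/-- The state of a part of the word. -/
theorem lami_sub {V : Type} {Gr : SimpleGraph V} {lam K W : ℕ} {w w' : List (List V)}
    {B B' : List (Band V)} (h : PSt Gr lam K W w B) (hB : B'.Sublist B)
    (hc : w'.flatten.IsChain Gr.Adj) (hn : w'.flatten.Nodup)
    (hs : ∀ v ∈ w'.flatten, v ∈ w.flatten) (hU : ∀ b ∈ B', Un w' b) :
    PSt Gr lam K W w' B' := by
  have hm : ∀ b, b ∈ B' → b ∈ B := fun b hb => hB.subset hb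
  refine ⟨hc, hn, ?_, ?_, ?_, ?_,
    fun b hb => h.link b (hm b hb), fun b hb => h.kl b (hm b hb),
    fun b hb => h.big b (hm b hb), fun b hb => h.small b (hm b hb)⟩
  · exact h.disj.sublist (hB.flatMap _)
  · exact h.kn.sublist (hB.flatMap _)
  · rintro v ⟨b, hb, hv⟩ hv'
    exact h.kout v ⟨b, hm b hb, hv⟩ (hs v hv')
  · intro b hb
    obtain ⟨i, j, _, h1, h2⟩ := hU b hb
    exact ⟨Or.inl (List.mem_of_getElem? h1), Or.inr (List.mem_of_getElem? h2)⟩

theorem lami_step {V : Type} {Gr : SimpleGraph V} {lam K W : ℕ} (hK : 1 ≤ K) {b : Band V}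
    {Bv Bz : List (Band V)} {u v z : List (List V)}
    (h : PSt Gr lam K W (u ++ b.l1 :: (v ++ b.l2.reverse :: z)) (b :: (Bv ++ Bz)))
    (Rv : Rich Gr (kap Bv) v.flatten K (Bv.length + 1))
    (Rz : Rich Gr (kap Bz) z.flatten K (Bz.length + 1)) :
    Rich Gr (kap (b :: (Bv ++ Bz))) (u ++ b.l1 :: (v ++ b.l2.reverse :: z)).flatten K
      (Bv.length + Bz.length + 2) := by
  classical
  have hw : (u ++ b.l1 :: (v ++ b.l2.reverse :: z)).flatten =
      u.flatten ++ ((b.l1 ++ (v.flatten ++ b.l2.reverse)) ++ z.flatten) := by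
    simp [List.flatten_append, List.append_assoc]
  have hch := h.chain
  have hnd := h.nodup
  have hko := h.kout
  rw [hw] at hch hnd hko ⊢
  -- the link sets
  have hbig := h.big b (by simp)
  have hkl := h.kl b (by simp)
  have hlk := h.link b (by simp)
  have hkn := h.kn
  have hdj := h.disj
  rw [List.flatMap_cons, List.flatMap_append] at hkn
  obtain ⟨kb, kvz0, kbr⟩ := List.nodup_append.mp hkn
  obtain ⟨_, _, kvz⟩ := List.nodup_append.mp kvz0
  have kV : ∀ x ∈ kap Bv, x ∉ kap Bz := by
    rintro x ⟨c, hc, hx⟩ ⟨d, hd, hy⟩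
    refine kvz x (List.mem_flatMap.mpr ⟨c, hc, List.mem_append.mpr hx⟩) x
      (List.mem_flatMap.mpr ⟨d, hd, List.mem_append.mpr hy⟩) rfl
  have kB : ∀ x ∈ kap [b], x ∉ kap Bz := by
    rintro x ⟨c, hc, hx⟩ ⟨d, hd, hy⟩
    have hcb : c = b := by simpa using hc
    subst hcb
    refine kbr x (List.mem_append.mpr hx) x
      (List.mem_append.mpr (Or.inr (List.mem_flatMap.mpr ⟨d, hd, List.mem_append.mpr hy⟩))) rfl
  have koV : ∀ x ∈ kap Bv, x ∉ u.flatten ++ ((b.l1 ++ (v.flatten ++ b.l2.reverse)) ++
      z.flatten) := by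
    rintro x ⟨c, hc, hx⟩
    exact hko x ⟨c, by simp [hc], hx⟩
  have koZ : ∀ x ∈ kap Bz, x ∉ u.flatten ++ ((b.l1 ++ (v.flatten ++ b.l2.reverse)) ++
      z.flatten) := by
    rintro x ⟨c, hc, hx⟩
    exact hko x ⟨c, by simp [hc], hx⟩
  have koB : ∀ x ∈ kap [b], x ∉ u.flatten ++ ((b.l1 ++ (v.flatten ++ b.l2.reverse)) ++
      z.flatten) := by
    rintro x ⟨c, hc, hx⟩
    have hcb : c = b := by simpa using hc
    subst hcb
    exact hko x ⟨c, by simp, hx⟩
  -- parts of the path
  obtain ⟨cu, cmz, cumz⟩ := List.isChain_append.mp hch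
  obtain ⟨cm, cz, _⟩ := List.isChain_append.mp cmz
  obtain ⟨cl1, cvl2, _⟩ := List.isChain_append.mp cm
  obtain ⟨cv, cl2, _⟩ := List.isChain_append.mp cvl2
  obtain ⟨nu, nmz, numz⟩ := List.nodup_append.mp hnd
  obtain ⟨nm, nz, _⟩ := List.nodup_append.mp nmz
  obtain ⟨nl1, nvl2, nl1v⟩ := List.nodup_append.mp nm
  obtain ⟨nv, nl2, _⟩ := List.nodup_append.mp nvl2
  have hUu := lami_refl cu nu
  have hL1 := lami_refl cl1 nl1
  have hL2 := lami_refl cl2 nl2
  -- replacements of the middle part
  have hmid1 : ∀ v', Rep Gr (kap Bv) v.flatten v' →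
      Rep Gr (kap Bv) (b.l1 ++ (v.flatten ++ b.l2.reverse)) (b.l1 ++ (v' ++ b.l2.reverse)) := by
    intro v' hv'
    have h1 := lami_app hv' hL2 cvl2 nvl2
      (fun x hx hy => koV x hx (by simp only [List.mem_append]; tauto))
      (fun x hx => absurd hx (Set.notMem_empty x)) (fun x _ => Set.notMem_empty x)
    have h2 := lami_app hL1 h1 cm nm (fun x hx => absurd hx (Set.notMem_empty x))
      (fun x hx hy => by
        rcases hx with hx | hx
        · exact koV x hx (by simp only [List.mem_append]; tauto)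
        · exact absurd hx (Set.notMem_empty x))
      (fun x hx => absurd hx (Set.notMem_empty x))
    exact lami_mono h2 (by simp)
  have hpl : b.p ∈ b.l1 := by simp [Band.l1]
  have hql : b.q ∈ b.l2 := by simp [Band.l2]
  have hmid2 : Rep Gr (kap [b]) (b.l1 ++ (v.flatten ++ b.l2.reverse))
      (b.p :: (b.k ++ [b.q])) := by
    have hpq : b.p ≠ b.q := by
      intro hpq
      exact nl1v b.p hpl b.q (List.mem_append.mpr (Or.inr (List.mem_reverse.mpr hql))) hpq
    have hkk : ∀ x ∈ b.k, x ∈ kap [b] := fun x hx => ⟨b, by simp, Or.inl hx⟩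
    have hk1 : b.k.Nodup := (List.nodup_append.mp kb).1
    have hpk : b.p ∉ b.k := fun hx => koB b.p (hkk _ hx) (by
      simp only [List.mem_append]; tauto)
    have hqk : b.q ∉ b.k := fun hx => koB b.q (hkk _ hx) (by
      simp only [List.mem_append, List.mem_reverse]; tauto)
    refine ⟨hlk.1, ?_, ?_, ?_, ?_⟩
    · rw [List.nodup_cons, List.nodup_append]
      refine ⟨?_, hk1, by simp, ?_⟩
      · simp only [List.mem_append, List.mem_singleton, not_or]
        exact ⟨hpk, hpq⟩
      · intro a ha c hc hac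
        have : c = b.q := by simpa using hc
        subst this
        subst hac
        exact hqk ha
    · rfl
    · have hl : ∀ (x y : V) (l : List V), (x :: (l ++ [y])).getLast? = some y := by
        intro x y l
        rw [← List.cons_append, List.getLast?_append]
        rfl
      rw [List.getLast?_append, List.getLast?_append, List.getLast?_reverse, hl]
      rfl
    · intro x hx
      simp only [List.mem_cons, List.mem_append, List.not_mem_nil, or_false] at hx
      rcases hx with rfl | hx | rfl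
      · left
        exact List.mem_append.mpr (Or.inl hpl)
      · right
        exact hkk x hx
      · left
        exact List.mem_append.mpr (Or.inr (List.mem_append.mpr (Or.inr
          (List.mem_reverse.mpr hql))))
  -- the whole path
  have hall : ∀ (S : Set V) (m' z' : List V), S ⊆ kap (b :: (Bv ++ Bz)) →
      (∀ x ∈ S, x ∉ kap Bz) →
      Rep Gr S (b.l1 ++ (v.flatten ++ b.l2.reverse)) m' → Rep Gr (kap Bz) z.flatten z' →
      Rep Gr (kap (b :: (Bv ++ Bz)))
        (u.flatten ++ ((b.l1 ++ (v.flatten ++ b.l2.reverse)) ++ z.flatten))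
        (u.flatten ++ (m' ++ z')) := by
    intro S m' z' hS hSz hm hz
    have h1 := lami_app hm hz cmz nmz
      (fun x hx hy => hko x (hS hx) (by simp only [List.mem_append]; tauto))
      (fun x hx hy => koZ x hx (by simp only [List.mem_append] at hy ⊢; tauto)) hSz
    have h2 := lami_app hUu h1 hch hnd (fun x hx => absurd hx (Set.notMem_empty x))
      (fun x hx hy => by
        rcases hx with hx | hx
        · exact hko x (hS hx) (by simp only [List.mem_append]; tauto)
        · exact koZ x hx (by simp only [List.mem_append]; tauto))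
      (fun x hx => absurd hx (Set.notMem_empty x))
    refine lami_mono h2 ?_
    intro x hx
    rcases hx with hx | hx | hx
    · exact absurd hx (Set.notMem_empty x)
    · exact hS hx
    · obtain ⟨c, hc, hx⟩ := hx
      exact ⟨c, by simp [hc], hx⟩
  have hSv : kap Bv ⊆ kap (b :: (Bv ++ Bz)) := by
    rintro x ⟨c, hc, hx⟩
    exact ⟨c, by simp [hc], hx⟩
  have hSb : kap [b] ⊆ kap (b :: (Bv ++ Bz)) := by
    rintro x ⟨c, hc, hx⟩
    have hcb : c = b := by simpa using hc
    exact ⟨c, by simp [hcb], hx⟩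
  -- the numbers
  obtain ⟨Xv, hXv1, hXv2, hXv3, hXv4⟩ := Rv
  obtain ⟨Xz, hXz1, hXz2, hXz3, hXz4⟩ := Rz
  obtain ⟨Z, a0, c0, ha0, hc0, hZ1, hZ2, hZ3⟩ := lami_comb Xv Xz K
    (Finset.card_pos.mp (by omega)) (Finset.card_pos.mp (by omega)) hXv2 hXz2
  set M := u.flatten.length + b.l1.length + b.l2.length with hM
  have hZim : (Z.image (fun t => M + t)).card = Z.card :=
    Finset.card_image_of_injective _ (fun a b hab => by
      have : M + a = M + b := hab
      omega)
  have hni : (u.flatten.length + lam + 1 + c0) ∉ Z.image (fun t => M + t) := by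
    intro hx
    obtain ⟨t, ht, hxt⟩ := Finset.mem_image.mp hx
    have := (hZ3 t ht).1
    omega
  refine ⟨insert (u.flatten.length + lam + 1 + c0) (Z.image (fun t => M + t)), ?_, ?_, ?_, ?_⟩
  · rw [Finset.card_insert_of_notMem hni, hZim]
    omega
  · intro s hs t ht hst
    rw [Finset.mem_insert, Finset.mem_image] at hs ht
    rcases hs with rfl | ⟨s', hs', rfl⟩
    · rcases ht with rfl | ⟨t', ht', rfl⟩
      · omega
      · have := (hZ3 t' ht').1
        omega
    · rcases ht with rfl | ⟨t', ht', rfl⟩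
      · have := (hZ3 s' hs').1
        omega
      · have := hZ2 s' hs' t' ht' (by omega)
        omega
  · intro s hs
    rw [Finset.mem_insert, Finset.mem_image] at hs
    simp only [List.length_append, List.length_reverse]
    rcases hs with rfl | ⟨s', hs', rfl⟩
    · have := hXz3 c0 hc0
      omega
    · obtain ⟨_, a, ha, c, hc, rfl⟩ := hZ3 s' hs'
      have := hXz3 c hc
      have := hXv3 a ha
      omega
  · intro s hs
    rw [Finset.mem_insert, Finset.mem_image] at hs
    rcases hs with rfl | ⟨s', hs', rfl⟩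
    · obtain ⟨z', hz', hzl⟩ := hXz4 c0 hc0
      refine ⟨_, hall _ _ z' hSb kB hmid2 hz', ?_⟩
      simp only [List.length_append, List.length_cons, List.length_nil]
      omega
    · obtain ⟨_, a, ha, c, hc, rfl⟩ := hZ3 s' hs'
      obtain ⟨z', hz', hzl⟩ := hXz4 c hc
      obtain ⟨v', hv', hvl⟩ := hXv4 a ha
      refine ⟨_, hall _ _ z' hSv kV (hmid1 v' hv') hz', ?_⟩
      simp only [List.length_append, List.length_reverse]
      omega

/-- The band whose first leg comes first. -/
theorem lami_first {V : Type} {w : List (List V)} {B : List (Band V)} (hB : B ≠ [])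
    (hU : ∀ b ∈ B, Un w b) :
    ∃ b ∈ B, ∃ i j : ℕ, i < j ∧ w[i]? = some b.l1 ∧ w[j]? = some b.l2.reverse ∧
      ∀ c ∈ B, ∀ i' j' : ℕ, i' < j' → w[i']? = some c.l1 → w[j']? = some c.l2.reverse →
        i ≤ i' := by
  classical
  have hex : ∃ i : ℕ, ∃ b ∈ B, ∃ j : ℕ, i < j ∧ w[i]? = some b.l1 ∧
      w[j]? = some b.l2.reverse := by
    obtain ⟨b, hb⟩ := List.exists_mem_of_ne_nil B hB
    obtain ⟨i, j, h1, h2, h3⟩ := hU b hb
    exact ⟨i, b, hb, j, h1, h2, h3⟩
  obtain ⟨b, hb, j, h1, h2, h3⟩ := Nat.find_spec hex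
  refine ⟨b, hb, Nat.find hex, j, h1, h2, h3, ?_⟩
  intro c hc i' j' h4 h5 h6
  exact Nat.find_min' hex ⟨c, hc, j', h4, h5, h6⟩

theorem lami_main {V : Type} {Gr : SimpleGraph V} {lam K W : ℕ} (hK : 1 ≤ K) :
    ∀ (n : ℕ) (w : List (List V)) (B : List (Band V)), B.length ≤ n →
      PSt Gr lam K W w B → Lam w B → Rich Gr (kap B) w.flatten K (B.length + 1) := by
  classical
  intro n
  induction n with
  | zero =>
    intro w B hn h _
    have hB : B = [] := List.length_eq_zero_iff.mp (by omega)
    subst hB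
    refine ⟨{w.flatten.length}, by simp, ?_, ?_, ?_⟩
    · intro a ha c hc hac
      rw [Finset.mem_singleton] at ha hc
      omega
    · intro a ha
      rw [Finset.mem_singleton] at ha
      omega
    · intro a ha
      rw [Finset.mem_singleton] at ha
      exact ⟨w.flatten, lami_mono (lami_refl h.chain h.nodup) (Set.empty_subset _), ha.symm⟩
  | succ n ih =>
    intro w B hn h hL
    by_cases hB : B = []
    · exact ih w B (by simp [hB]) h hL
    obtain ⟨b, hb, i, j, hij, hi, hj, hmin⟩ := lami_first hB hL.1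
    obtain ⟨u, v, z, rfl, hu, hv⟩ := lami_split2 i j w _ _ hij hi hj
    obtain ⟨B1, B2, rfl⟩ := List.append_of_mem hb
    -- the other bands
    set B' := B1 ++ B2 with hB'
    set Bv := B'.filter (fun c => decide (Un v c)) with hBv
    set Bz := B'.filter (fun c => !decide (Un v c)) with hBz
    have hp : (B1 ++ b :: B2).Perm (b :: (Bv ++ Bz)) := by
      refine List.perm_middle.trans (List.Perm.cons b ?_)
      exact (List.filter_append_perm _ _).symm
    have hmemB : ∀ c, c ∈ B' → c ∈ B1 ++ b :: B2 := by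
      intro c hc
      simp only [hB', List.mem_append, List.mem_cons] at hc ⊢
      tauto
    have hne : ∀ c ∈ B', List.Disjoint (b.l1 ++ b.l2) (c.l1 ++ c.l2) := by
      have h1 := h.disj
      rw [((List.perm_middle (a := b) (l₁ := B1) (l₂ := B2)).flatMap_right _).nodup_iff,
        List.flatMap_cons, List.nodup_append] at h1
      intro c hc x hx hy
      exact h1.2.2 x hx x (List.mem_flatMap.mpr ⟨c, hc, hy⟩) rfl
    have hpl : ∀ c : Band V, c.p ∈ c.l1 ++ c.l2 := fun c => by simp [Band.l1]
    have hUn : ∀ c ∈ B', Un v c ∨ Un z c := by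
      intro c hc
      obtain ⟨i', j', hij', hi', hj'⟩ := hL.1 c (hmemB c hc)
      have h1 := hmin c (hmemB c hc) i' j' hij' hi' hj'
      have h2 : i' ≠ i := by
        rintro rfl
        have h3 : b.l1 = c.l1 := Option.some.inj (hi.symm.trans hi')
        exact hne c hc (a := b.p) (hpl b) (by
          rw [← h3]; simp [Band.l1])
      have h3 : i' ≠ j := by
        rintro rfl
        have h3 : b.l2.reverse = c.l1 := Option.some.inj (hj.symm.trans hi')
        exact hne c hc (a := b.q) (by simp [Band.l2]) (by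
          rw [← h3]; simp [Band.l2])
      have h4 : j' ≠ j := by
        rintro rfl
        have h3 : b.l2.reverse = c.l2.reverse := Option.some.inj (hj.symm.trans hj')
        have h5 : b.l2 = c.l2 := List.reverse_injective h3
        exact hne c hc (a := b.q) (by simp [Band.l2]) (by
          rw [← h5]; simp [Band.l2])
      rcases Nat.lt_or_ge i' j with h5 | h5
      · rcases Nat.lt_or_ge j j' with h6 | h6
        · exact absurd ⟨i, i', j, j', by omega, h5, h6, hi, hi', hj, hj'⟩
            (hL.2 b hb c (hmemB c hc))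
        · left
          refine ⟨i' - (u.length + 1), j' - (u.length + 1), by omega, ?_, ?_⟩
          · rw [← lami_get_v u v z b.l1 b.l2.reverse _ (by omega), ← hi']
            congr 1
            omega
          · rw [← lami_get_v u v z b.l1 b.l2.reverse _ (by omega), ← hj']
            congr 1
            omega
      · right
        refine ⟨i' - (u.length + 1 + v.length + 1), j' - (u.length + 1 + v.length + 1),
          by omega, ?_, ?_⟩
        · rw [← lami_get_z u v z b.l1 b.l2.reverse, ← hi']
          congr 1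
          omega
        · rw [← lami_get_z u v z b.l1 b.l2.reverse, ← hj']
          congr 1
          omega
    have hUv : ∀ c ∈ Bv, Un v c := by
      intro c hc
      have := (List.mem_filter.mp hc).2
      simpa using this
    have hUz : ∀ c ∈ Bz, Un z c := by
      intro c hc
      have h1 := (List.mem_filter.mp hc)
      have h2 : ¬ Un v c := by simpa using h1.2
      exact (hUn c h1.1).resolve_left h2
    have hLv : Lam v Bv := by
      refine ⟨hUv, ?_⟩
      rintro c hc d hd ⟨i1, i2, i3, i4, h12, h23, h34, g1, g2, g3, g4⟩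
      have q1 := (List.getElem?_eq_some_iff.mp g1).1
      have q4 := (List.getElem?_eq_some_iff.mp g4).1
      refine hL.2 c (hmemB c (List.mem_filter.mp hc).1) d (hmemB d (List.mem_filter.mp hd).1)
        ⟨u.length + 1 + i1, u.length + 1 + i2, u.length + 1 + i3, u.length + 1 + i4,
          by omega, by omega, by omega, ?_, ?_, ?_, ?_⟩
      · rw [lami_get_v _ _ _ _ _ _ (by omega), g1]
      · rw [lami_get_v _ _ _ _ _ _ (by omega), g2]
      · rw [lami_get_v _ _ _ _ _ _ (by omega), g3]
      · rw [lami_get_v _ _ _ _ _ _ (by omega), g4]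
    have hLz : Lam z Bz := by
      refine ⟨hUz, ?_⟩
      rintro c hc d hd ⟨i1, i2, i3, i4, h12, h23, h34, g1, g2, g3, g4⟩
      refine hL.2 c (hmemB c (List.mem_filter.mp hc).1) d (hmemB d (List.mem_filter.mp hd).1)
        ⟨u.length + 1 + v.length + 1 + i1, u.length + 1 + v.length + 1 + i2,
          u.length + 1 + v.length + 1 + i3, u.length + 1 + v.length + 1 + i4,
          by omega, by omega, by omega, ?_, ?_, ?_, ?_⟩
      · rw [lami_get_z, g1]
      · rw [lami_get_z, g2]
      · rw [lami_get_z, g3]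
      · rw [lami_get_z, g4]
    have hp' : PSt Gr lam K W (u ++ b.l1 :: (v ++ b.l2.reverse :: z)) (b :: (Bv ++ Bz)) :=
      lami_perm hp h
    have hw : (u ++ b.l1 :: (v ++ b.l2.reverse :: z)).flatten =
        u.flatten ++ ((b.l1 ++ (v.flatten ++ b.l2.reverse)) ++ z.flatten) := by
      simp [List.flatten_append, List.append_assoc]
    have hch := h.chain
    have hnd := h.nodup
    rw [hw] at hch hnd
    have cz := (List.isChain_append.mp (List.isChain_append.mp hch).2.1).2.1
    have cv := (List.isChain_append.mp (List.isChain_append.mp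
      (List.isChain_append.mp (List.isChain_append.mp hch).2.1).1).2.1).1
    have nz := (List.nodup_append.mp (List.nodup_append.mp hnd).2.1).2.1
    have nv := (List.nodup_append.mp (List.nodup_append.mp
      (List.nodup_append.mp (List.nodup_append.mp hnd).2.1).1).2.1).1
    have sv : Bv.Sublist (b :: (Bv ++ Bz)) :=
      (List.sublist_append_left Bv Bz).trans (List.sublist_cons_self _ _)
    have sz : Bz.Sublist (b :: (Bv ++ Bz)) :=
      (List.sublist_append_right Bv Bz).trans (List.sublist_cons_self _ _)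
    have Pv : PSt Gr lam K W v Bv := lami_sub hp' sv cv nv
      (fun x hx => by rw [hw]; simp only [List.mem_append]; tauto) hUv
    have Pz : PSt Gr lam K W z Bz := lami_sub hp' sz cz nz
      (fun x hx => by rw [hw]; simp only [List.mem_append]; tauto) hUz
    have hlen : (B1 ++ b :: B2).length = Bv.length + Bz.length + 1 := by
      rw [hp.length_eq, List.length_cons, List.length_append]
    have Rv := ih v Bv (by omega) Pv hLv
    have Rz := ih z Bz (by omega) Pz hLz
    have hfin := lami_step hK hp' Rv Rz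
    rw [lami_kap_perm hp]
    have he : (B1 ++ b :: B2).length + 1 = Bv.length + Bz.length + 2 := by omega
    rw [he]
    exact hfin

/-- LAMI -/
theorem p_LAMI : T_LAMI := by
  intro V Gr lam K W w B hK h hL
  exact lami_main hK B.length w B le_rfl h hL

end Pool.Agent.CycMC
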