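import Pool.Agent.CycMC.Targets

/-!
# LOWB: bounded range, bands
-/

set_option autoImplicit false

namespace Pool.Agent.CycMC

open Finset
open Pool.Agent.HubG (cycleSet)
open Pool.Agent.CycSp (Pt Cyc ZD)

theorem LOWB_seg_eq {V : Type} (c : ℤ → V) (a b : ℤ) :
    seg c a b = (List.range (b + 1 - a).toNat).map (fun i : ℕ => c (a + i)) := by
  unfold seg
  rw [List.bind_eq_flatMap, List.map_flatMap]
  simp only [List.pure_def, List.map_cons, List.map_nil]
  rw [← List.map_eq_flatMap]

theorem LOWB_seg_head {V : Type} (c : ℤ → V) (L : ℤ) (hL : 3 ≤ L) :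
    (seg c 0 (L - 1)).head? = some (c 0) := by
  rw [LOWB_seg_eq]
  rw [List.head?_map, List.head?_range]
  have h : (L - 1 + 1 - 0).toNat ≠ 0 := by omega
  rw [if_neg h]
  simp

theorem LOWB_seg_last {V : Type} (c : ℤ → V) (L : ℤ) (hL : 3 ≤ L) :
    (seg c 0 (L - 1)).getLast? = some (c (L - 1)) := by
  rw [LOWB_seg_eq]
  rw [List.getLast?_map, List.getLast?_range]
  have h : (L - 1 + 1 - 0).toNat ≠ 0 := by omega
  rw [if_neg h]
  simp only [Option.map_some, Option.some.injEq]
  congr 1
  omega

theorem LOWB_seg_len {V : Type} (c : ℤ → V) (L : ℤ) (hL : 3 ≤ L) :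
    3 ≤ (seg c 0 (L - 1)).length := by
  rw [LOWB_seg_eq]
  rw [List.length_map, List.length_range]
  omega

theorem LOWB_two {α : Type} (w : List (List α)) (i j : ℕ) (a b : List α) (hij : i < j)
    (hi : w[i]? = some a) (hj : w[j]? = some b) : a.length + b.length ≤ w.flatten.length := by
  induction w generalizing i j with
  | nil => simp at hi
  | cons x w ih =>
    cases j with
    | zero => omega
    | succ j =>
      rw [List.getElem?_cons_succ] at hj
      rw [List.flatten_cons, List.length_append]
      cases i with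
      | zero =>
        rw [List.getElem?_cons_zero] at hi
        have hx : x = a := by simpa using hi
        subst hx
        have hb : b ∈ w := List.mem_of_getElem? hj
        have := (List.sublist_flatten_of_mem hb).length_le
        omega
      | succ i =>
        rw [List.getElem?_cons_succ] at hi
        have := ih i j (by omega) hi hj
        omega

theorem p_LOWB (h1 : T_WORD0) (h2 : T_GREEDY) (h3 : T_LAMCYC) (h4 : T_CLOSEC)
    (h5 : Pool.Agent.CycPl.T_LAM) : T_LOWB := by
  intro V Gr L c v P lam K W Bs hC hK hPB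
  obtain ⟨w, hw, hst⟩ := h1 V Gr L c v P lam K W Bs hC hPB
  obtain ⟨w', B', X, hst', hlam, hrep, hlen, hgap, hX⟩ :=
    h2 V Gr lam K W w (Bs.map (toBand c v lam)) hK hst
  rw [List.length_map] at hlen
  have hL := hC.three
  have hadj : ∀ l' : List V, Rep Gr (kap (Bs.map (toBand c v lam))) w.flatten l' →
      ∀ a ∈ l'.getLast?, ∀ b ∈ l'.head?, Gr.Adj a b := by
    intro l' hl' a ha b hb
    rw [hl'.last, hw, LOWB_seg_last c L hL] at ha
    rw [hl'.head, hw, LOWB_seg_head c L hL] at hb
    have ea : c (L - 1) = a := by simpa using ha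
    have eb : c 0 = b := by simpa using hb
    rw [← ea, ← eb]
    exact hC.last
  have hwl : 3 ≤ w.flatten.length := by
    rw [hw]
    exact LOWB_seg_len c L hL
  by_cases hcase : Bs.length ≤ 4 * X.card
  · left
    refine ⟨X, hcase, ?_, hgap⟩
    intro n hn
    obtain ⟨h6, l', h7, h8⟩ := hX n hn
    rw [← h8]
    refine h4 V Gr l' ?_ h7.nodup h7.chain (hadj l' h7)
    rw [h8]
    rcases h6 with h6 | h6 <;> omega
  · right
    push Not at hcase
    refine ⟨B'.length, by omega, ?_⟩
    have hw3 : 3 ≤ w'.flatten.length := by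
      cases hB : B' with
      | nil =>
        rw [hB] at hlen
        simp at hlen
        omega
      | cons b B'' =>
        have hb : b ∈ B' := by rw [hB]; exact List.mem_cons_self
        obtain ⟨i, j, hij, hi, hj⟩ := hlam.1 b hb
        have := LOWB_two w' i j _ _ hij hi hj
        rw [List.length_reverse] at this
        unfold Band.l1 Band.l2 at this
        simp only [List.length_cons, List.length_append, List.length_nil] at this
        omega
    have hl12 : lam = 1 ∨ lam = 2 := by
      rcases hC.link with h | h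
      · exact Or.inl h.1
      · exact Or.inr h.1
    obtain ⟨c', v', P', hC', hN, hcard⟩ :=
      h3 V Gr lam K W w' B' hl12 hw3 hst' hlam (hadj _ hrep)
    intro s hs hs2
    have := h5 V Gr _ c' v' P' lam s hC' hN hs (by rw [hcard]; exact hs2)
    rw [hcard] at this
    exact this

end Pool.Agent.CycMC
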