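import Pool.Agent.CycMC.Targets

/-!
# LOWS and STAR: bounded range, arcs with many links; one hub
-/

set_option autoImplicit false

namespace Pool.Agent.CycMC

open Finset
open Pool.Agent.HubG (cycleSet CycSeq)
open Pool.Agent.CycSp (Pt Cyc ZD offE SparseP)
open Pool.Agent.CycPl (Crs NonCr)
open Pool.Agent.Pend (Minor)

/-- a subfamily of the links -/
theorem LOWS_sub {V : Type} {Gr : SimpleGraph V} {L : ℤ} {c v : ℤ → V} {P P' : Finset Pt}
    {lam : ℕ} (h : Cyc Gr L c v P lam) (hs : P' ⊆ P) : Cyc Gr L c v P' lam := by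
  refine ⟨h.three, h.adj, h.last, h.inj, fun p hp => h.mem p (hs hp),
    fun p hp q hq => h.disty p (hs hp) q (hs hq), ?_⟩
  rcases h.link with ⟨h1, h2⟩ | ⟨h1, h2, h3, h4⟩
  · exact Or.inl ⟨h1, fun p hp => h2 p (hs hp)⟩
  · exact Or.inr ⟨h1, fun p hp => h2 p (hs hp), fun p hp => h3 p (hs hp),
      fun p hp q hq => h4 p (hs hp) q (hs hq)⟩

/-- STAR: one hub. -/
theorem p_STAR (h1 : Pool.Agent.CycPl.T_LAM) : T_STAR := by
  intro V Gr L c v P lam h x s hs hsm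
  have hsub : P.filter (fun p => p.1 = x) ⊆ P := filter_subset _ _
  have hnc : NonCr (P.filter (fun p => p.1 = x)) := by
    intro p hp q hq hcr
    rw [mem_filter] at hp hq
    have := hcr.1
    rw [hp.2, hq.2] at this
    exact lt_irrefl _ this
  exact h1 V Gr L c v _ lam s (LOWS_sub h hsub) hnc hs hsm

/-- deleting the smallest element -/
theorem LOWS_gap (X : Finset ℕ) (W m : ℕ) (hG : Gap X 1 W) (hm : m ∈ X)
    (hmin : ∀ n ∈ X, m ≤ n) : Gap (X.erase m) 1 W := by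
  intro n hn
  rw [mem_erase] at hn
  rcases hG n hn.2 with h1 | ⟨n1, h1, h2, h3⟩
  · exact absurd (le_antisymm (h1 m hm) (hmin n hn.2)) hn.1
  · by_cases h5 : n1 = m
    · by_cases hex : ∃ n2 ∈ X.erase m, n2 < n
      · right
        obtain ⟨n2, hn2, hlt⟩ := hex
        have := hmin n2 (mem_of_mem_erase hn2)
        exact ⟨n2, hn2, by omega, by omega⟩
      · left
        intro n2 hn2
        by_contra h
        exact hex ⟨n2, hn2, by omega⟩
    · right
      exact ⟨n1, mem_erase.2 ⟨h5, h1⟩, h2, h3⟩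

/-- the ends of a segment -/
theorem LOWS_seg_head {V : Type} (c : ℤ → V) (a b : ℤ) (h : a ≤ b) :
    (seg c a b).head? = some (c a) := by
  unfold seg
  obtain ⟨n, hn⟩ : ∃ n : ℕ, (b + 1 - a).toNat = n + 1 := ⟨(b - a).toNat, by omega⟩
  rw [hn, List.range_succ_eq_map]
  simp

theorem LOWS_seg_last {V : Type} (c : ℤ → V) (a b : ℤ) (h : a ≤ b) :
    (seg c a b).getLast? = some (c b) := by
  have e : seg c a b = (List.range (b + 1 - a).toNat).map (fun i : ℕ => c (a + (i : ℤ))) := by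
    unfold seg
    have e2 : ∀ l : List ℕ,
        List.map (fun i : ℤ => c (a + i)) (List.flatMap (fun k : ℕ => [(k : ℤ)]) l)
          = l.map (fun i : ℕ => c (a + (i : ℤ))) := by
      intro l
      induction l with
      | nil => rfl
      | cons x l ih => simpa using ih
    exact e2 _
  rw [e]
  obtain ⟨n, hn⟩ : ∃ n : ℕ, (b + 1 - a).toNat = n + 1 := ⟨(b - a).toNat, by omega⟩
  rw [hn, List.range_succ, List.map_append, List.map_singleton, List.getLast?_concat]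
  congr 2
  omega

/-- the interval of an arc -/
theorem LOWS_iv (P : Finset Pt) (L : ℤ) (θ Lm k : ℕ) (hθ : 3 ≤ θ)
    (hP : ∀ p ∈ P, 0 ≤ p.1 ∧ p.1 < p.2 ∧ p.2 < L)
    (hτ : ∀ i j, 0 ≤ i → i ≤ j → tau P Lm i = tau P Lm j →
      (j - i) + (P.filter (fun p => i ≤ p.1 ∧ p.1 < j)).card < Lm)
    (hk : θ ≤ (P.filter (fun p => tau P Lm p.1 = k ∧ tau P Lm p.2 = k)).card) :
    ∃ I : ℤ × ℤ, 0 ≤ I.1 ∧ I.1 ≤ I.2 ∧ I.2 ≤ L - 1 ∧ I.2 - I.1 < Lm ∧
      3 * 1 ≤ (P.filter (fun p => I.1 ≤ p.1 ∧ p.2 ≤ I.2)).card ∧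
      tau P Lm I.1 = k ∧ tau P Lm I.2 = k := by
  obtain ⟨F, hF⟩ : ∃ F, F = P.filter (fun p => tau P Lm p.1 = k ∧ tau P Lm p.2 = k) := ⟨_, rfl⟩
  rw [← hF] at hk
  have hne : F.Nonempty := by
    rw [← card_pos]
    omega
  have hmem : ∀ p ∈ F, p ∈ P ∧ tau P Lm p.1 = k ∧ tau P Lm p.2 = k := by
    intro p hp
    rwa [hF, mem_filter] at hp
  obtain ⟨p, hp, hpmin⟩ := exists_min_image F (fun p => p.1) hne
  obtain ⟨q, hq, hqmax⟩ := exists_max_image F (fun p => p.2) hne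
  obtain ⟨a1, a2, a3⟩ := hmem p hp
  obtain ⟨b1, b2, b3⟩ := hmem q hq
  obtain ⟨c1, c2, c3⟩ := hP p a1
  obtain ⟨d1, d2, d3⟩ := hP q b1
  have e1 : p.1 ≤ q.1 := hpmin q hq
  have hle : p.1 ≤ q.2 := by omega
  have e2 := hτ p.1 q.2 c1 hle (by rw [a2, b3])
  refine ⟨(p.1, q.2), c1, hle, by show q.2 ≤ L - 1; omega, by show q.2 - p.1 < Lm; omega, ?_,
    a2, b3⟩
  refine le_trans (by omega : 3 * 1 ≤ F.card) (card_le_card ?_)
  intro r hr
  rw [mem_filter]
  exact ⟨(hmem r hr).1, hpmin r hr, hqmax r hr⟩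

/-- LOWS: bounded range, arcs with many links. -/
theorem p_LOWS (h1 : T_SHC) (h2 : T_CLOSEC) (h3 : T_TAU) : T_LOWS := by
  intro V Gr L c v P lam θ Lm Ks hc hθ hLm hKs
  have hP : ∀ p ∈ P, 0 ≤ p.1 ∧ p.1 < p.2 ∧ p.2 < L := by
    intro p hp
    obtain ⟨e1, e2, e3⟩ := hc.mem p hp
    exact ⟨e1, by omega, e3⟩
  obtain ⟨t1, -, t3⟩ := h3 P L Lm hLm hP hc.disty
  have hiv : ∀ k : ℕ, ∃ I : ℤ × ℤ, k ∈ Ks → 0 ≤ I.1 ∧ I.1 ≤ I.2 ∧ I.2 ≤ L - 1 ∧
      I.2 - I.1 < Lm ∧ 3 * 1 ≤ (P.filter (fun p => I.1 ≤ p.1 ∧ p.2 ≤ I.2)).card ∧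
      tau P Lm I.1 = k ∧ tau P Lm I.2 = k := by
    intro k
    by_cases hk : k ∈ Ks
    · obtain ⟨I, hI⟩ := LOWS_iv P L θ Lm k hθ hP t3 (hKs k hk)
      exact ⟨I, fun _ => hI⟩
    · exact ⟨(0, 0), fun h => absurd h hk⟩
  choose I hI using hiv
  have hdis : ∀ k ∈ Ks, ∀ k2 ∈ Ks, k < k2 → (I k).2 < (I k2).1 := by
    intro k hk k2 hk2 hlt
    by_contra hcon
    have := t1 (I k2).1 (I k).2 (by omega)
    obtain ⟨-, -, -, -, -, -, e1⟩ := hI k hk
    obtain ⟨-, -, -, -, -, e2, -⟩ := hI k2 hk2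
    omega
  have hlen : (Ks.toList.map I).length = Ks.card := by simp
  obtain ⟨X, hX1, hX2, -, -, hX5⟩ := h1 V Gr L c v P lam 1 Lm hc le_rfl 0 (L - 1)
    (Ks.toList.map I) le_rfl (by omega) (by
      intro J hJ
      rw [List.mem_map] at hJ
      obtain ⟨k, hk, rfl⟩ := hJ
      rw [mem_toList] at hk
      obtain ⟨e1, e2, e3, e4, e5, -, -⟩ := hI k hk
      exact ⟨e1, e2, e3, e4, e5⟩) (by
      rw [List.pairwise_map]
      refine List.Pairwise.imp_of_mem ?_ Ks.nodup_toList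
      intro k k2 hk hk2 hne
      rw [mem_toList] at hk hk2
      rcases lt_or_gt_of_ne hne with h | h
      · exact Or.inl (hdis k hk k2 hk2 h)
      · exact Or.inr (hdis k2 hk2 k hk h))
  rw [hlen] at hX1
  have hne : X.Nonempty := by
    rw [← card_pos]
    omega
  obtain ⟨m, hm, hmin⟩ := exists_min_image X (fun n => n) hne
  have h3L := hc.three
  have hhd := LOWS_seg_head c 0 (L - 1) (by omega)
  have hls := LOWS_seg_last c 0 (L - 1) (by omega)
  have hc0 : c 0 ≠ c (L - 1) := by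
    intro h
    have := hc.inj 0 (L - 1) le_rfl (by omega) (by omega) (by omega) h
    omega
  have htwo : ∀ n ∈ X, 2 ≤ n := by
    intro n hn
    obtain ⟨l, hl, rfl⟩ := hX5 n hn
    have e1 := hl.head
    have e2 := hl.last
    rw [hhd] at e1
    rw [hls] at e2
    match l, e1, e2 with
    | [], e1, _ => simp at e1
    | [a], e1, e2 =>
      simp only [List.head?_cons, Option.some.injEq] at e1
      simp only [List.getLast?_singleton, Option.some.injEq] at e2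
      exact absurd (e1.symm.trans e2) hc0
    | a :: b :: l, _, _ => simp
  refine ⟨X.erase m, ?_, ?_, LOWS_gap X Lm m hX2 hm hmin⟩
  · rw [card_erase_of_mem hm]
    omega
  · intro n hn
    rw [mem_erase] at hn
    have e1 := htwo m hm
    have e2 : m ≤ n := hmin n hn.2
    obtain ⟨l, hl, rfl⟩ := hX5 n hn.2
    refine h2 V Gr l (by omega) hl.nodup hl.chain ?_
    intro a ha b hb
    rw [hl.last, hls] at ha
    rw [hl.head, hhd] at hb
    rw [Option.mem_some_iff] at ha hb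
    rw [← ha, ← hb]
    exact hc.last

end Pool.Agent.CycMC
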