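import Pool.Agent.CycMC.Targets

/-!
MAIN3: the trichotomy.
-/

set_option autoImplicit false

namespace Pool.Agent.CycMC

open Finset
open Pool.Agent.HubG (cycleSet)
open Pool.Agent.CycSp (Pt Cyc ZD)
open Pool.Agent.Pend (Minor)

theorem gap_mono {X : Finset ℕ} {K W W' : ℕ} (hW : W ≤ W') (h : Gap X K W) : Gap X K W' := by
  intro n hn
  rcases h n hn with h1 | ⟨n', h1, h2, h3⟩
  · exact Or.inl h1
  · exact Or.inr ⟨n', h1, h2, by omega⟩

theorem midG_mono {V : Type} {Gr : SimpleGraph V} {L : ℤ} {C C' Lm : ℕ} (hC : C ≤ C')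
    (h : MidG Gr L C Lm) : MidG Gr L C' Lm := by
  obtain ⟨I, m, σ, h1, h2, h3, h4, h5⟩ := h
  refine ⟨I, m, σ, h1, h2.trans (Nat.mul_le_mul_right _ hC), h3.trans ?_, h4, h5⟩
  have : C * Lm * m ≤ C' * Lm * m := Nat.mul_le_mul_right _ (Nat.mul_le_mul_right _ hC)
  exact_mod_cast this

theorem exists_median (P : Finset Pt) (hP : P.Nonempty) : ∃ D : ℕ, 1 ≤ D ∧
    P.card ≤ 2 * (P.filter (fun p => dg P p.1 ≤ D)).card ∧
    P.card ≤ 2 * (P.filter (fun p => D ≤ dg P p.1)).card := by
  classical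
  have hex : ∃ D : ℕ, P.card ≤ 2 * (P.filter (fun p => dg P p.1 ≤ D)).card := by
    refine ⟨P.card, ?_⟩
    rw [Finset.filter_true_of_mem]
    · omega
    · intro p _
      exact Finset.card_filter_le _ _
  have hspec := Nat.find_spec hex
  have hmin := fun m => Nat.find_min (m := m) hex
  set D := Nat.find hex with hD
  have hpos : 0 < P.card := Finset.card_pos.mpr hP
  have hD0 : D ≠ 0 := by
    intro h0
    rw [h0] at hspec
    have : P.filter (fun p => dg P p.1 ≤ 0) = ∅ := by
      apply Finset.filter_false_of_mem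
      intro p hp h
      have : 0 < dg P p.1 := Finset.card_pos.mpr ⟨p, by simp [hp]⟩
      omega
    rw [this] at hspec
    simp at hspec
    exact hP.ne_empty hspec
  refine ⟨D, by omega, hspec, ?_⟩
  have h1 := hmin (D - 1) (by omega)
  have h2 : (P.filter (fun p => dg P p.1 ≤ D - 1)).card +
      (P.filter (fun p => D ≤ dg P p.1)).card = P.card := by
    have h3 := Finset.card_filter_add_card_filter_not (s := P) (fun p => dg P p.1 ≤ D - 1)
    have h4 : P.filter (fun p => ¬ dg P p.1 ≤ D - 1) = P.filter (fun p => D ≤ dg P p.1) := by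
      apply Finset.filter_congr
      intro p _
      omega
    rw [h4] at h3
    exact h3
  omega

theorem p_MAIN3 (h1 : T_EXTR) (h2 : T_DENSE) (h3 : T_MIDB) (h4 : T_MIDS) (h5 : T_LOWB)
    (h6 : T_LOWS) (h7 : T_STAR) : T_MAIN3 := by
  intro t R hR
  obtain ⟨CE, hCE1, hE⟩ := h1 t R hR
  obtain ⟨CD, hCD1, hDn⟩ := h2 t R hR
  have hM : 1 ≤ MM t R := by
    unfold MM
    have : 1 ≤ (2 ^ t + 1) * R := Nat.mul_pos (by positivity) hR
    nlinarith
  obtain ⟨CB, hB⟩ := h3 (max CE CD) (MM t R) hM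
  obtain ⟨CS, hS⟩ := h4 (max CE CD) (MM t R) hM
  generalize hMd : MM t R = M at *
  refine ⟨CB + CS + 1, by omega, ?_⟩
  intro D0 e
  set D1 := 8 + CB + CS + D0 with hD1
  set θ1 := 4 * (D1 + 8) with hθ1
  set e1 := e * M + CB + CS + M with he1
  refine ⟨7 * (M * θ1) + 8 * (CE * θ1) + 8 * e1 + 1, by omega, ?_⟩
  intro V Gr L c v P lam hC hmin hL hCL
  have hLpos : 0 < L := by
    have : (0 : ℤ) < ((7 * (M * θ1) + 8 * (CE * θ1) + 8 * e1 + 1 : ℕ) : ℤ) := by
      exact_mod_cast Nat.succ_pos _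
    omega
  have hPne : P.Nonempty := by
    rw [Finset.nonempty_iff_ne_empty]
    intro h0
    rw [h0] at hL
    simp at hL
    omega
  obtain ⟨D, hDpos, hs, hb⟩ := exists_median P hPne
  set θ := 4 * (D + 8) with hθ
  have h32 : 32 ≤ θ := by omega
  have h4D : 4 * D ≤ θ := by omega
  have h4d : 4 ∣ θ := ⟨D + 8, rfl⟩
  by_cases hlow : D < D1
  · -- bounded range
    have hθle : θ ≤ θ1 := by omega
    have hMθ : M * θ ≤ M * θ1 := Nat.mul_le_mul_left _ hθle
    have hCθ : CE * θ ≤ CE * θ1 := Nat.mul_le_mul_left _ hθle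
    have hMθL : ((M * θ : ℕ) : ℤ) ≤ L := by
      refine le_trans ?_ hCL
      exact_mod_cast (by omega : M * θ ≤ 7 * (M * θ1) + 8 * (CE * θ1) + 8 * e1 + 1)
    rcases hE V Gr L c v P lam D θ hC hmin hL h32 h4D hMθL hs with
      ⟨Ks, hK1, hK2⟩ | ⟨Bs, hB1, hB2, -, -⟩
    · right; left
      obtain ⟨X, hX1, hX2, hX3⟩ := h6 V Gr L c v P lam θ (M * θ) Ks hC (by omega)
        (Nat.mul_pos hM (by omega)) hK2
      refine ⟨X, ?_, hX2, gap_mono (by omega) hX3⟩
      refine hK1.trans ?_
      have : CE * θ * Ks.card ≤ (7 * (M * θ1) + 8 * (CE * θ1) + 8 * e1 + 1) * X.card :=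
        Nat.mul_le_mul (by omega) hX1
      exact_mod_cast this
    · right
      rcases h5 V Gr L c v P lam (θ / 4) (3 * (M * θ)) Bs hC (by omega) hB2 with
        ⟨X, hX1, hX2, hX3⟩ | ⟨m, hm1, hm2⟩
      · left
        refine ⟨X, ?_, hX2, gap_mono (by omega) hX3⟩
        refine hB1.trans ?_
        have : CE * θ * Bs.length ≤ (7 * (M * θ1) + 8 * (CE * θ1) + 8 * e1 + 1) * X.card := by
          calc CE * θ * Bs.length ≤ CE * θ * (4 * X.card) := Nat.mul_le_mul_left _ hX1
            _ = (4 * (CE * θ)) * X.card := by ring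
            _ ≤ _ := Nat.mul_le_mul_right _ (by omega)
        exact_mod_cast this
      · right
        refine ⟨m, ?_, hm2⟩
        refine hB1.trans ?_
        have : CE * θ * Bs.length ≤ (7 * (M * θ1) + 8 * (CE * θ1) + 8 * e1 + 1) * m := by
          calc CE * θ * Bs.length ≤ CE * θ * (2 * m) := Nat.mul_le_mul_left _ hm1
            _ = (2 * (CE * θ)) * m := by ring
            _ ≤ _ := Nat.mul_le_mul_right _ (by omega)
        exact_mod_cast this
  · have hD8 : 8 ≤ D := by omega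
    have hθ8 : θ ≤ 8 * D := by omega
    by_cases hmid : ((e1 * θ : ℕ) : ℤ) ≤ L
    · left
      have hMe : M * θ ≤ e1 * θ := Nat.mul_le_mul_right _ (by omega)
      have hBe : CB * θ ≤ e1 * θ := Nat.mul_le_mul_right _ (by omega)
      have hSe : CS * θ ≤ e1 * θ := Nat.mul_le_mul_right _ (by omega)
      have hee : e * (M * θ) ≤ e1 * θ := by
        rw [← mul_assoc]
        exact Nat.mul_le_mul_right _ (by omega)
      have hMθL : ((M * θ : ℕ) : ℤ) ≤ L := le_trans (by exact_mod_cast hMe) hmid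
      have hBθL : (CB : ℤ) * θ ≤ L := le_trans (by exact_mod_cast hBe) hmid
      have hSθL : (CS : ℤ) * θ ≤ L := le_trans (by exact_mod_cast hSe) hmid
      have heL : (e : ℤ) * ((M * θ : ℕ) : ℤ) ≤ L := le_trans (by exact_mod_cast hee) hmid
      refine ⟨M * θ, ?_, heL, ?_⟩
      · have : θ ≤ M * θ := Nat.le_mul_of_pos_left _ hM
        omega
      obtain ⟨x, k, hxk⟩ := hDn V Gr L c v P lam D θ hC hmin hL hDpos hθ8 (by omega) hMθL hb
      have hxk' : θ ≤ max CE CD *
          (P.filter (fun p => p.1 = x ∧ tau P (M * θ) p.2 = k)).card :=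
        hxk.trans (Nat.mul_le_mul_right _ (le_max_right _ _))
      rcases hE V Gr L c v P lam D θ hC hmin hL h32 h4D hMθL hs with
        ⟨Ks, hK1, hK2⟩ | ⟨Bs, hB1, hB2, hB3, hB4⟩
      · have hK1' : L ≤ ((max CE CD : ℕ) : ℤ) * θ * Ks.card := by
          refine hK1.trans ?_
          have : CE * θ * Ks.card ≤ max CE CD * θ * Ks.card :=
            Nat.mul_le_mul_right _ (Nat.mul_le_mul_right _ (le_max_left _ _))
          exact_mod_cast this
        exact midG_mono (by omega) (hS V Gr L c v P lam θ Ks x k hC h32 h4d hMθL hSθL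
          (by omega) hK1' hK2 hxk')
      · have hB1' : L ≤ ((max CE CD : ℕ) : ℤ) * θ * Bs.length := by
          refine hB1.trans ?_
          have : CE * θ * Bs.length ≤ max CE CD * θ * Bs.length :=
            Nat.mul_le_mul_right _ (Nat.mul_le_mul_right _ (le_max_left _ _))
          exact_mod_cast this
        exact midG_mono (by omega) (hB V Gr L c v P lam θ Bs x k hC h32 h4d hMθL hBθL
          (by omega) hB1' hB2 hB3 hB4 hxk')
    · right; right
      have hne : (P.filter (fun p => D ≤ dg P p.1)).Nonempty := by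
        rw [← Finset.card_pos]
        have : 0 < P.card := Finset.card_pos.mpr hPne
        omega
      obtain ⟨p, hp⟩ := hne
      rw [Finset.mem_filter] at hp
      refine ⟨dg P p.1, ?_, h7 V Gr L c v P lam hC p.1⟩
      have h8 : e1 * θ ≤ (7 * (M * θ1) + 8 * (CE * θ1) + 8 * e1 + 1) * dg P p.1 := by
        calc e1 * θ ≤ e1 * (8 * D) := Nat.mul_le_mul_left _ hθ8
          _ = (8 * e1) * D := by ring
          _ ≤ _ := Nat.mul_le_mul (by omega) hp.2
      have h9 : L ≤ ((e1 * θ : ℕ) : ℤ) := by omega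
      refine h9.trans ?_
      exact_mod_cast h8

end Pool.Agent.CycMC
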