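import Pool.Agent.CycMC.Targets

/-!
# MIDB: middle range, bands
-/

set_option autoImplicit false

namespace Pool.Agent.CycMC

open Finset
open Pool.Agent.HubG (cycleSet)
open Pool.Agent.CycSp (Pt Cyc ZD)

/-- A value occurs at most once in a nodup list of pairs: deleting the pairs which contain `a`
decreases the length by at most one. -/
theorem filter_len_aux {α : Type} (f g : α → ℕ) (a : ℕ) :
    ∀ (Bs : List α), (Bs.flatMap (fun e => [f e, g e])).Nodup →
      Bs.length ≤ (Bs.filter (fun e => decide (f e ≠ a ∧ g e ≠ a))).length + 1 := by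
  intro Bs
  induction Bs with
  | nil => intro _; simp
  | cons e T ih =>
    intro h
    rw [List.flatMap_cons] at h
    have hT : (T.flatMap (fun e => [f e, g e])).Nodup := (List.nodup_append.1 h).2.1
    by_cases hc : f e ≠ a ∧ g e ≠ a
    · rw [List.filter_cons_of_pos (by simpa using hc)]
      have := ih hT
      simp only [List.length_cons]
      omega
    · rw [List.filter_cons_of_neg (by simpa using hc)]
      have hall : T.filter (fun e => decide (f e ≠ a ∧ g e ≠ a)) = T := by
        rw [List.filter_eq_self]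
        intro e' he'
        have hd := (List.nodup_append.1 h).2.2
        have hae : a ∈ [f e, g e] := by
          simp only [List.mem_cons, List.not_mem_nil, or_false]
          by_contra hcon
          push Not at hcon
          exact hc ⟨fun h => hcon.1 h.symm, fun h => hcon.2 h.symm⟩
        have h1 : f e' ∈ T.flatMap (fun e => [f e, g e]) :=
          List.mem_flatMap.2 ⟨e', he', by simp⟩
        have h2 : g e' ∈ T.flatMap (fun e => [f e, g e]) :=
          List.mem_flatMap.2 ⟨e', he', by simp⟩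
        have h3 : f e' ≠ a := fun hh => hd a hae _ h1 hh.symm
        have h4 : g e' ≠ a := fun hh => hd a hae _ h2 hh.symm
        simpa using ⟨h3, h4⟩
      rw [hall]
      simp

/-- MIDB -/
theorem p_MIDB (h1 : T_WORD) (h2 : T_TYPE) (h3 : T_SEP) (h4 : T_TAU) : T_MIDB := by
  intro C M hM
  refine ⟨100 * C * M, ?_⟩
  intro V Gr L c v P lam θ Bs x k hC hθ h4θ hML hCL hCθ hLB hPB htau hnd hQ
  set Lm := M * θ with hLm
  -- the constant is positive
  have hC1 : 1 ≤ C := by
    rcases Nat.eq_zero_or_pos C with h0 | h0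
    · rw [h0] at hQ
      omega
    · exact h0
  have hLm1 : 1 ≤ Lm := by
    rw [hLm]
    exact Nat.mul_pos hM (by omega)
  have hmemP : ∀ p ∈ P, 0 ≤ p.1 ∧ p.1 < p.2 ∧ p.2 < L := by
    intro p hp
    obtain ⟨a, b, d⟩ := hC.mem p hp
    refine ⟨a, ?_, d⟩
    have : (0 : ℤ) ≤ (lam : ℤ) := Int.natCast_nonneg _
    linarith
  obtain ⟨tmono, -, tlen⟩ := h4 P L Lm hLm1 hmemP hC.disty
  -- the links to the arc `k`
  set Q := P.filter (fun p => p.1 = x ∧ tau P Lm p.2 = k) with hQdef
  have hCM : C ≤ C * M := Nat.le_mul_of_pos_right _ hM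
  have hQ2 : 2 ≤ Q.card := by
    by_contra hcon
    push Not at hcon
    have : C * Q.card ≤ C * 1 := Nat.mul_le_mul_left _ (by omega)
    have h100 : 100 * C * M = 100 * (C * M) := by ring
    omega
  have hQne : Q.Nonempty := by
    rw [← Finset.card_pos]; omega
  obtain ⟨p0, hp0, hp0min⟩ := Finset.exists_min_image Q (fun p => p.2) hQne
  obtain ⟨p1, hp1, hp1max⟩ := Finset.exists_max_image Q (fun p => p.2) hQne
  have hp0' := Finset.mem_filter.1 hp0
  have hp1' := Finset.mem_filter.1 hp1
  set j0 := p0.2 with hj0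
  set j1 := p1.2 with hj1
  have hxj0 : x < j0 := by
    have := (hmemP p0 hp0'.1).2.1
    rw [hp0'.2.1] at this
    exact this
  have hx0 : 0 ≤ x := by
    have := (hmemP p0 hp0'.1).1
    rw [hp0'.2.1] at this
    exact this
  have hj01 : j0 ≤ j1 := hp0min p1 hp1
  have hxj1 : (x, j1) ∈ P := by
    have h5 : (x, j1) = p1 := by
      rw [hj1, ← hp1'.2.1]
    rw [h5]
    exact hp1'.1
  -- the bands which remain
  set B1 := Bs.filter (fun e => decide (tau P Lm e.1.1 ≠ tau P Lm x ∧
    tau P Lm e.1.2 ≠ tau P Lm x)) with hB1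
  set B2 := B1.filter (fun e => decide (tau P Lm e.1.1 ≠ k ∧ tau P Lm e.1.2 ≠ k)) with hB2
  have hl1 : Bs.length ≤ B1.length + 1 :=
    filter_len_aux (fun e : Pt × Pt => tau P Lm e.1.1) (fun e => tau P Lm e.1.2)
      (tau P Lm x) Bs hnd
  have hs1 : B1.Sublist Bs := List.filter_sublist
  have hs2 : B2.Sublist B1 := List.filter_sublist
  have hs : B2.Sublist Bs := hs2.trans hs1
  have hflat : ∀ {β : Type} (F : Pt × Pt → List β) {l l' : List (Pt × Pt)}, l.Sublist l' →
      (l.flatMap F).Sublist (l'.flatMap F) := by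
    intro β F l l' hl
    induction hl with
    | slnil => simp
    | cons a _ ih =>
      rw [List.flatMap_cons]
      exact ih.trans (List.sublist_append_right _ _)
    | cons_cons a _ ih =>
      rw [List.flatMap_cons, List.flatMap_cons]
      exact List.Sublist.append_left ih _
  have hnd1 : (B1.flatMap (fun e => [tau P Lm e.1.1, tau P Lm e.1.2])).Nodup :=
    hnd.sublist (hflat _ hs1)
  have hl2 : B1.length ≤ B2.length + 1 :=
    filter_len_aux (fun e : Pt × Pt => tau P Lm e.1.1) (fun e => tau P Lm e.1.2) k B1 hnd1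
  have hPB2 : PB P (θ / 4) (3 * Lm) B2 :=
    { mem := fun e he => hPB.mem e (hs.subset he)
      dis := hPB.dis.sublist (hflat _ hs)
      lo := fun e he => hPB.lo e (hs.subset he)
      hi := fun e he => hPB.hi e (hs.subset he) }
  have hB2mem : ∀ e ∈ B2, e ∈ Bs ∧ tau P Lm e.1.1 ≠ tau P Lm x ∧ tau P Lm e.1.2 ≠ tau P Lm x ∧
      tau P Lm e.1.1 ≠ k ∧ tau P Lm e.1.2 ≠ k := by
    intro e he
    have ha := List.mem_filter.1 he
    have hb := List.mem_filter.1 ha.1
    have ha2 := of_decide_eq_true ha.2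
    have hb2 := of_decide_eq_true hb.2
    exact ⟨hb.1, hb2.1, hb2.2, ha2.1, ha2.2⟩
  -- disjointness from `x` and the interval
  have key : ∀ (a b : ℤ) (t0 : ℕ), a ≤ b → tau P Lm a = t0 → tau P Lm b = t0 →
      t0 ≠ tau P Lm x → t0 ≠ k → Dis (a, b) (x, x) ∧ Dis (a, b) (j0, j1) := by
    intro a b t0 hab ha hb hx hk
    constructor
    · by_contra hcon
      unfold Dis at hcon
      push Not at hcon
      have e1 : tau P Lm a ≤ tau P Lm x := tmono _ _ hcon.2
      have e2 : tau P Lm x ≤ tau P Lm b := tmono _ _ hcon.1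
      exact hx (by omega)
    · by_contra hcon
      unfold Dis at hcon
      push Not at hcon
      have e1 : tau P Lm a ≤ tau P Lm j1 := tmono _ _ hcon.2
      have e2 : tau P Lm j0 ≤ tau P Lm b := tmono _ _ hcon.1
      have e3 := hp0'.2.2
      have e4 := hp1'.2.2
      exact hk (by omega)
  have hDis : ∀ I ∈ B2.flatMap ivs, Dis I (x, x) ∧ Dis I (j0, j1) := by
    intro I hI
    obtain ⟨e, he, hIe⟩ := List.mem_flatMap.1 hI
    obtain ⟨hm, g1, g2, g3, g4⟩ := hB2mem e he
    obtain ⟨t1, t2⟩ := htau e hm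
    have hmem := hPB.mem e hm
    unfold ivs at hIe
    simp only [List.mem_cons, List.not_mem_nil, or_false] at hIe
    rcases hIe with hIe | hIe
    · rw [hIe]
      refine key _ _ (tau P Lm e.1.1) (min_le_max) ?_ ?_ g1 g3
      · rcases le_total e.1.1 e.2.1 with hh | hh
        · rw [min_eq_left hh]
        · rw [min_eq_right hh, t1]
      · rcases le_total e.1.1 e.2.1 with hh | hh
        · rw [max_eq_right hh, t1]
        · rw [max_eq_left hh]
    · rw [hIe]
      exact key _ _ (tau P Lm e.1.2) hmem.2.2.2.le rfl t2.symm g2 g4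
  obtain ⟨hub, κ, wA, wB, hFr⟩ := h1 V Gr L c v P lam (θ / 4) (3 * Lm) B2 x j0 j1 hC hPB2 hx0
    hxj0 hj01 hxj1 hDis
  set I0 := ((P.filter (fun p => p.1 = x ∧ j0 ≤ p.2 ∧ p.2 ≤ j1)).image
    (fun p => (p.2 - j0).toNat)) with hI0
  obtain ⟨m, σ, hm, hσ, hYX⟩ := h2 V Gr lam (θ / 4) (3 * Lm) (c x) hub (seg c j0 j1) κ wA wB
    (B2.map (toBand c v lam)) I0 (by omega) hFr
  rw [List.length_map] at hm
  obtain ⟨Y, hYm, hYsep, hY⟩ := hYX
  obtain ⟨Y', hY'sub, hY'card, hY'sep⟩ := h3 (θ / 4) (4 * M) Y (by omega) hYsep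
  have hgK : 4 * M * (θ / 4) = Lm := by
    obtain ⟨r, hr⟩ := h4θ
    rw [hLm, hr, Nat.mul_div_cancel_left _ (by norm_num)]
    ring
  rw [hgK] at hY'sep
  have hseglen : (seg c j0 j1).length = (j1 + 1 - j0).toNat := by
    simp [seg]
  set I1 := I0.filter (fun i => i + 1 < (seg c j0 j1).length) with hI1
  refine ⟨I1, Y'.card, σ, ?_, ?_, ?_, hσ, Y', le_refl _, hY'sep, ?_⟩
  · -- I1 < Lm
    intro i hi
    have hi' := (Finset.mem_filter.1 hi).2
    rw [hseglen] at hi'
    have e3 := hp0'.2.2
    have e4 := hp1'.2.2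
    have := tlen j0 j1 (by omega) hj01 (e3.trans e4.symm)
    have h0 : (0 : ℤ) ≤ ((P.filter (fun p => j0 ≤ p.1 ∧ p.1 < j1)).card : ℤ) :=
      Int.natCast_nonneg _
    omega
  · -- many elements
    have hI0card : Q.card ≤ I0.card := by
      rw [hI0]
      refine Finset.card_le_card_of_injOn (fun p => (p.2 - j0).toNat) ?_ ?_
      · intro p hp
        have hp' := Finset.mem_coe.1 hp
        have hpm := Finset.mem_filter.1 hp'
        refine Finset.mem_coe.2 (Finset.mem_image.2 ⟨p, ?_, rfl⟩)
        refine Finset.mem_filter.2 ⟨hpm.1, hpm.2.1, hp0min p hp', hp1max p hp'⟩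
      · intro p hp q hq hpq
        have hp' := Finset.mem_coe.1 hp
        have hq' := Finset.mem_coe.1 hq
        have e1 : j0 ≤ p.2 := hp0min p hp'
        have e2 : j0 ≤ q.2 := hp0min q hq'
        have e3 : p.2 = q.2 := by
          simp only at hpq
          omega
        exact hC.disty p (Finset.mem_filter.1 hp').1 q (Finset.mem_filter.1 hq').1 e3
    have hI01 : I0.card ≤ I1.card + 1 := by
      have hsub : I0 ⊆ insert ((j1 - j0).toNat) I1 := by
        intro i hi
        rw [Finset.mem_insert]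
        by_cases hcase : i + 1 < (seg c j0 j1).length
        · right
          exact Finset.mem_filter.2 ⟨hi, hcase⟩
        · left
          rw [hI0] at hi
          obtain ⟨p, hp, hpi⟩ := Finset.mem_image.1 hi
          have hp' := (Finset.mem_filter.1 hp).2
          rw [hseglen] at hcase
          omega
      calc I0.card ≤ (insert ((j1 - j0).toNat) I1).card := Finset.card_le_card hsub
        _ ≤ I1.card + 1 := Finset.card_insert_le _ _
    have hQI : Q.card ≤ 2 * I1.card := by omega
    calc Lm = M * θ := hLm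
      _ ≤ M * (C * (2 * I1.card)) :=
        Nat.mul_le_mul_left _ (hQ.trans (Nat.mul_le_mul_left _ hQI))
      _ = 2 * (C * M) * I1.card := by ring
      _ ≤ 100 * (C * M) * I1.card := by
        apply Nat.mul_le_mul_right
        omega
      _ = 100 * C * M * I1.card := by ring
  · -- many lengths
    have hBs4 : 4 ≤ Bs.length := by
      by_contra hcon
      push Not at hcon
      have e1 : ((100 * C * M : ℕ) : ℤ) * θ ≤ (C : ℤ) * θ * Bs.length := hCL.trans hLB
      have e2 : 100 * C * M * θ ≤ C * θ * Bs.length := by exact_mod_cast e1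
      have e3 : C * θ * Bs.length ≤ C * θ * 3 := Nat.mul_le_mul_left _ (by omega)
      have e4 : 100 * C * M * θ = 100 * M * (C * θ) := by ring
      have e5 : 100 * 1 * (C * θ) ≤ 100 * M * (C * θ) :=
        Nat.mul_le_mul_right _ (Nat.mul_le_mul_left _ hM)
      have e6 : 0 < C * θ := Nat.mul_pos hC1 (by omega)
      omega
    have hB24 : Bs.length ≤ 2 * B2.length := by omega
    have hchain : Bs.length ≤ 96 * M * Y'.card := by
      calc Bs.length ≤ 2 * B2.length := hB24
        _ ≤ 2 * (12 * m) := Nat.mul_le_mul_left _ hm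
        _ ≤ 2 * (12 * Y.card) := by
          apply Nat.mul_le_mul_left; apply Nat.mul_le_mul_left; exact hYm
        _ ≤ 2 * (12 * (4 * M * Y'.card)) := by
          apply Nat.mul_le_mul_left; apply Nat.mul_le_mul_left; exact hY'card
        _ = 96 * M * Y'.card := by ring
    have hnat : C * θ * Bs.length ≤ 100 * C * M * Lm * Y'.card := by
      calc C * θ * Bs.length ≤ C * θ * (96 * M * Y'.card) := Nat.mul_le_mul_left _ hchain
        _ = 96 * C * 1 * (M * θ) * Y'.card := by ring
        _ ≤ 100 * C * M * (M * θ) * Y'.card := by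
          apply Nat.mul_le_mul_right
          apply Nat.mul_le_mul_right
          apply Nat.mul_le_mul _ hM
          apply Nat.mul_le_mul_right
          norm_num
        _ = 100 * C * M * Lm * Y'.card := by rw [hLm]
    have hcast : (C : ℤ) * θ * Bs.length ≤ ((100 * C * M : ℕ) : ℤ) * Lm * Y'.card := by
      exact_mod_cast hnat
    exact hLB.trans hcast
  · intro y hy i hi
    exact hY y (hY'sub hy) i hi

end Pool.Agent.CycMC
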