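import Pool.Agent.CycMC.Targets

/-! CMC-MIDS: middle range, arcs with many links (helper99). -/

set_option autoImplicit false

namespace Pool.Agent.CycMC

open Finset
open Pool.Agent.HubG (cycleSet CycSeq)
open Pool.Agent.CycSp (Pt Cyc ZD offE SparseP)

namespace MIDS

variable {V : Type} {Gr : SimpleGraph V} {L : ℤ} {c v : ℤ → V} {P : Finset Pt} {lam : ℕ}

lemma seg_eq (a b : ℤ) :
    seg c a b = (List.range (b + 1 - a).toNat).map (fun i : ℕ => c (a + (i : ℤ))) := by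
  unfold seg
  generalize (b + 1 - a).toNat = n
  change List.map (fun i : ℤ => c (a + i)) ((List.range n).flatMap (fun i : ℕ => [(i : ℤ)])) = _
  rw [List.map_flatMap]
  induction (List.range n) with
  | nil => rfl
  | cons x l ih =>
    rw [List.flatMap_cons, ih]
    rfl

lemma seg_length (a b : ℤ) : (seg c a b).length = (b + 1 - a).toNat := by
  simp [seg_eq]

lemma mem_seg {a b : ℤ} {u : V} : u ∈ seg c a b ↔ ∃ j, a ≤ j ∧ j ≤ b ∧ u = c j := by
  simp only [seg_eq, List.mem_map, List.mem_range]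
  constructor
  · rintro ⟨i, hi, rfl⟩
    exact ⟨a + i, by omega, by omega, rfl⟩
  · rintro ⟨j, h1, h2, rfl⟩
    refine ⟨(j - a).toNat, by omega, ?_⟩
    congr 1
    omega

lemma seg_ne {a b : ℤ} (h : a ≤ b) : seg c a b ≠ [] := by
  intro h1
  have h2 := congrArg List.length h1
  rw [seg_length] at h2
  simp only [List.length_nil] at h2
  omega

lemma seg_head {a b : ℤ} (h : a ≤ b) : (seg c a b).head? = some (c a) := by
  have h1 : 0 < (b + 1 - a).toNat := by omega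
  rw [List.head?_eq_getElem?]
  simp [seg_eq, h1]

lemma seg_last {a b : ℤ} (h : a ≤ b) : (seg c a b).getLast? = some (c b) := by
  have h1 : 0 < (b + 1 - a).toNat := by omega
  rw [List.getLast?_eq_getElem?]
  simp only [seg_eq, List.length_map, List.length_range, List.getElem?_map]
  rw [List.getElem?_range (by omega)]
  simp only [Option.map_some, Option.some.injEq]
  congr 1
  omega

lemma seg_chain (hC : Cyc Gr L c v P lam) {a b : ℤ} (ha : 0 ≤ a) (hb : b < L) :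
    (seg c a b).IsChain Gr.Adj := by
  rw [seg_eq, List.isChain_iff_getElem]
  intro i hi
  simp only [List.length_map, List.length_range] at hi
  simp only [List.getElem_map, List.getElem_range]
  have := hC.adj (a + i) (by omega) (by omega)
  have e : a + ((i + 1 : ℕ) : ℤ) = a + i + 1 := by push_cast; ring
  rw [e]
  exact this

lemma seg_nodup (hC : Cyc Gr L c v P lam) {a b : ℤ} (ha : 0 ≤ a) (hb : b < L) :
    (seg c a b).Nodup := by
  rw [seg_eq]
  refine List.Nodup.map_on ?_ List.nodup_range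
  intro i hi j hj hij
  rw [List.mem_range] at hi hj
  have := hC.inj (a + i) (a + j) (by omega) (by omega) (by omega) (by omega) hij
  omega

lemma kp_cases (hC : Cyc Gr L c v P lam) (x : ℤ) :
    (lam = 1 ∧ kp v lam x = []) ∨ (lam = 2 ∧ kp v lam x = [v x]) := by
  rcases hC.link with h | h
  · exact Or.inl ⟨h.1, by simp [kp, h.1]⟩
  · exact Or.inr ⟨h.1, by simp [kp, h.1]⟩

/-- The closing path. -/
def gg (c v : ℤ → V) (lam : ℕ) (x s1 e1 s2 e2 : ℤ) : List V :=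
  seg c s1 e1 ++ (kp v lam x ++ seg c s2 e2)

lemma join (hC : Cyc Gr L c v P lam) {x t s1 e1 s2 e2 : ℤ} (hxt : (x, t) ∈ P)
    (h1 : 0 ≤ s1) (h2 : s1 ≤ e1) (h3 : e1 < L) (h4 : 0 ≤ s2) (h5 : s2 ≤ e2) (h6 : e2 < L)
    (hd : e1 < s2 ∨ e2 < s1) (ht : (e1 = x ∧ s2 = t) ∨ (e1 = t ∧ s2 = x)) :
    (gg c v lam x s1 e1 s2 e2).IsChain Gr.Adj ∧ (gg c v lam x s1 e1 s2 e2).Nodup ∧
    (∀ u ∈ gg c v lam x s1 e1 s2 e2,
      (∃ j, ((s1 ≤ j ∧ j ≤ e1) ∨ (s2 ≤ j ∧ j ≤ e2)) ∧ u = c j) ∨ (lam = 2 ∧ u = v x)) ∧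
    ((gg c v lam x s1 e1 s2 e2).length : ℤ) = (e1 + 1 - s1) + (lam - 1) + (e2 + 1 - s2) ∧
    (gg c v lam x s1 e1 s2 e2).head? = some (c s1) ∧
    (gg c v lam x s1 e1 s2 e2).getLast? = some (c e2) ∧
    2 ≤ (gg c v lam x s1 e1 s2 e2).length := by
  have c1 := seg_chain hC h1 h3
  have c2 := seg_chain hC h4 h6
  have n1 := seg_nodup hC h1 h3
  have n2 := seg_nodup hC h4 h6
  have l1 := seg_last (c := c) h2
  have l2 := seg_last (c := c) h5
  have d1 := seg_head (c := c) h2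
  have d2 := seg_head (c := c) h5
  have hdis : ∀ u ∈ seg c s1 e1, u ∉ seg c s2 e2 := by
    intro u hu hu'
    rw [mem_seg] at hu hu'
    obtain ⟨i, hi1, hi2, rfl⟩ := hu
    obtain ⟨j, hj1, hj2, hj⟩ := hu'
    have := hC.inj i j (by omega) (by omega) (by omega) (by omega) hj
    omega
  have e1 := seg_length (c := c) s1 e1
  have e2 := seg_length (c := c) s2 e2
  have hne1 := seg_ne (c := c) h2
  have hne2 := seg_ne (c := c) h5
  unfold gg
  rcases kp_cases hC x with ⟨hl, hk⟩ | ⟨hl, hk⟩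
  · -- no inner vertex
    rw [hk, List.nil_append]
    have hadj : ∀ p ∈ P, Gr.Adj (c p.1) (c p.2) := by
      rcases hC.link with h | h
      · exact h.2
      · omega
    have ha := hadj _ hxt
    refine ⟨?_, ?_, ?_, ?_, ?_, ?_, ?_⟩
    · rw [List.isChain_append]
      refine ⟨c1, c2, ?_⟩
      rw [l1, d2]
      intro y hy z hz
      simp only [Option.mem_def, Option.some.injEq] at hy hz
      subst hy hz
      rcases ht with ⟨rfl, rfl⟩ | ⟨rfl, rfl⟩
      · exact ha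
      · exact ha.symm
    · exact List.nodup_append.2 ⟨n1, n2, fun a ha' b hb hab => hdis a ha' (hab ▸ hb)⟩
    · intro u hu
      rw [List.mem_append, mem_seg, mem_seg] at hu
      rcases hu with ⟨j, hj1, hj2, rfl⟩ | ⟨j, hj1, hj2, rfl⟩
      · exact Or.inl ⟨j, Or.inl ⟨hj1, hj2⟩, rfl⟩
      · exact Or.inl ⟨j, Or.inr ⟨hj1, hj2⟩, rfl⟩
    · rw [List.length_append, e1, e2, hl]
      push_cast
      omega
    · rw [List.head?_append, d1]
      rfl
    · rw [List.getLast?_append, l2]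
      rfl
    · rw [List.length_append, e1, e2]
      omega
  · -- one inner vertex
    rw [hk]
    obtain ⟨hadj, hnc, hvv⟩ : (∀ p ∈ P, Gr.Adj (c p.1) (v p.1) ∧ Gr.Adj (v p.1) (c p.2)) ∧
      (∀ p ∈ P, ∀ i, 0 ≤ i → i < L → v p.1 ≠ c i) ∧
      (∀ p ∈ P, ∀ q ∈ P, v p.1 = v q.1 → p.1 = q.1) := by
      rcases hC.link with h | h
      · omega
      · exact h.2
    have ha := hadj _ hxt
    have hn1 : ∀ s e : ℤ, 0 ≤ s → e < L → v x ∉ seg c s e := by
      intro s e hs he hu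
      rw [mem_seg] at hu
      obtain ⟨j, hj1, hj2, hj⟩ := hu
      exact hnc _ hxt j (by omega) (by omega) hj
    refine ⟨?_, ?_, ?_, ?_, ?_, ?_, ?_⟩
    · rw [List.isChain_append, List.isChain_append]
      refine ⟨c1, ⟨List.isChain_singleton _, c2, ?_⟩, ?_⟩
      · rw [d2]
        intro y hy z hz
        simp only [List.getLast?_singleton, Option.mem_def, Option.some.injEq] at hy hz
        subst hy hz
        rcases ht with ⟨rfl, rfl⟩ | ⟨rfl, rfl⟩
        · exact ha.2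
        · exact ha.1.symm
      · rw [l1]
        intro y hy z hz
        simp only [List.cons_append, List.nil_append, List.head?_cons, Option.mem_def,
          Option.some.injEq] at hy hz
        subst hy hz
        rcases ht with ⟨rfl, rfl⟩ | ⟨rfl, rfl⟩
        · exact ha.1
        · exact ha.2.symm
    · rw [List.singleton_append]
      refine List.nodup_append.2 ⟨n1, List.nodup_cons.2 ⟨hn1 _ _ h4 h6, n2⟩, ?_⟩
      intro a ha' b hb hab
      subst hab
      rw [List.mem_cons] at hb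
      rcases hb with rfl | hb
      · exact hn1 _ _ h1 h3 ha'
      · exact hdis a ha' hb
    · intro u hu
      rw [List.mem_append, List.mem_append, mem_seg, mem_seg, List.mem_singleton] at hu
      rcases hu with ⟨j, hj1, hj2, rfl⟩ | rfl | ⟨j, hj1, hj2, rfl⟩
      · exact Or.inl ⟨j, Or.inl ⟨hj1, hj2⟩, rfl⟩
      · exact Or.inr ⟨hl, rfl⟩
      · exact Or.inl ⟨j, Or.inr ⟨hj1, hj2⟩, rfl⟩
    · rw [List.length_append, List.length_append, e1, e2, hl, List.length_singleton]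
      push_cast
      omega
    · rw [List.head?_append, d1]
      rfl
    · rw [List.getLast?_append, List.getLast?_append, l2]
      rfl
    · rw [List.length_append, List.length_append, e1, e2]
      omega

/-- The hubs of the links with first end in `[a, b]`. -/
def SS (v : ℤ → V) (P : Finset Pt) (lam : ℕ) (a b : ℤ) : Set V :=
  {u | lam = 2 ∧ ∃ p ∈ P, a ≤ p.1 ∧ p.1 ≤ b ∧ u = v p.1}

lemma notmem (hC : Cyc Gr L c v P lam) {x t a b : ℤ} (hxt : (x, t) ∈ P) (ha : 0 ≤ a)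
    (hb : b < L) (hx : x < a ∨ b < x) {u : V}
    (hu : (∃ j, 0 ≤ j ∧ j < L ∧ (j < a ∨ b < j) ∧ u = c j) ∨ (lam = 2 ∧ u = v x)) :
    u ∉ seg c a b ∧ u ∉ SS v P lam a b := by
  rcases hC.link with h | ⟨hl, -, hnc, hvv⟩
  · refine ⟨?_, fun h' => by have := h'.1; omega⟩
    rcases hu with ⟨j, hj1, hj2, hj3, rfl⟩ | ⟨h2, -⟩
    · intro h1
      rw [mem_seg] at h1
      obtain ⟨i, hi1, hi2, hi⟩ := h1
      have := hC.inj j i (by omega) (by omega) (by omega) (by omega) hi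
      omega
    · omega
  · rcases hu with ⟨j, hj1, hj2, hj3, rfl⟩ | ⟨-, rfl⟩
    · constructor
      · intro h1
        rw [mem_seg] at h1
        obtain ⟨i, hi1, hi2, hi⟩ := h1
        have := hC.inj j i (by omega) (by omega) (by omega) (by omega) hi
        omega
      · rintro ⟨-, p, hp, -, -, h4⟩
        exact hnc p hp j hj1 hj2 h4.symm
    · constructor
      · intro h1
        rw [mem_seg] at h1
        obtain ⟨i, hi1, hi2, hi⟩ := h1
        exact hnc _ hxt i (by omega) (by omega) hi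
      · rintro ⟨-, p, hp, h2, h3, h4⟩
        have := hvv _ hxt p hp h4
        simp only at this
        omega

/-- The data of an interval with many links. -/
def Ok (P : Finset Pt) (θ Lm : ℕ) (a b : ℤ) (J : ℤ × ℤ) : Prop :=
  a ≤ J.1 ∧ J.1 ≤ J.2 ∧ J.2 ≤ b ∧ J.2 - J.1 < Lm ∧
    θ ≤ (P.filter (fun p => J.1 ≤ p.1 ∧ p.2 ≤ J.2)).card

lemma rich (h1 : T_SHC) (hC : Cyc Gr L c v P lam) {θ Lm : ℕ} (hθ : 32 ≤ θ) {a b : ℤ}
    (ha : 0 ≤ a) (hb : b < L) (R : Finset ℕ) (J : ℕ → ℤ × ℤ) (hJ : ∀ k ∈ R, Ok P θ Lm a b (J k))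
    (hD : ∀ k ∈ R, ∀ k' ∈ R, k ≠ k' → Dis (J k) (J k')) :
    Rich Gr (SS v P lam a b) (seg c a b) (θ / 4) (R.card + 1) := by
  obtain ⟨X, hX1, -, hX2, hX3, hX4⟩ := h1 V Gr L c v P lam (θ / 4) Lm hC (by omega) a b
    (R.toList.map J) ha hb (by
      intro I hI
      rw [List.mem_map] at hI
      obtain ⟨k, hk, rfl⟩ := hI
      obtain ⟨g1, g2, g3, g4, g5⟩ := hJ k (Finset.mem_toList.1 hk)
      exact ⟨g1, g2, g3, g4, by omega⟩) (by
      rw [List.pairwise_map]
      refine List.Pairwise.imp_of_mem ?_ (Finset.nodup_toList R)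
      intro k k' hk hk' hkk
      exact hD k (Finset.mem_toList.1 hk) k' (Finset.mem_toList.1 hk') hkk)
  exact ⟨X, by simpa using hX1, hX2, hX3, hX4⟩

/-- The data of a closing path. -/
def Cl (Gr : SimpleGraph V) (L : ℤ) (c : ℤ → V) (P : Finset Pt) (lam : ℕ) (a b x s1 e1 s2 e2 n : ℤ) :
    Prop :=
  ∃ t, (x, t) ∈ P ∧ (0 ≤ s1 ∧ s1 ≤ e1 ∧ e1 < L ∧ 0 ≤ s2 ∧ s2 ≤ e2 ∧ e2 < L) ∧
    (e1 < s2 ∨ e2 < s1) ∧ ((e1 = x ∧ s2 = t) ∨ (e1 = t ∧ s2 = x)) ∧
    (e1 < a ∨ b < s1) ∧ (e2 < a ∨ b < s2) ∧ Gr.Adj (c b) (c s1) ∧ Gr.Adj (c e2) (c a) ∧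
    (e1 + 1 - s1) + ((lam : ℤ) - 1) + (e2 + 1 - s2) = n

lemma region (h1 : T_SHC) (h2 : T_CLS) (hC : Cyc Gr L c v P lam) {θ Lm : ℕ} (hθ : 32 ≤ θ)
    {a b : ℤ} (ha : 0 ≤ a) (hab : a ≤ b) (hb : b < L) (R : Finset ℕ) (J : ℕ → ℤ × ℤ)
    (hJ : ∀ k ∈ R, Ok P θ Lm a b (J k)) (hD : ∀ k ∈ R, ∀ k' ∈ R, k ≠ k' → Dis (J k) (J k'))
    {x : ℤ} (hx : x < a ∨ b < x) (I : Finset ℕ) (s1 e1 s2 e2 : ℕ → ℤ) (a0 σ : ℤ)
    (hI : ∀ i ∈ I, Cl Gr L c P lam a b x (s1 i) (e1 i) (s2 i) (e2 i) (a0 + σ * i)) :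
    YX Gr (θ / 4) (R.card + 1) I σ := by
  refine h2 V Gr (SS v P lam a b) (seg c a b) (θ / 4) (R.card + 1) I
    (fun i => gg c v lam x (s1 i) (e1 i) (s2 i) (e2 i)) a0 σ
    (rich h1 hC hθ ha hb R J hJ hD) (seg_ne hab) ?_
  intro i hi
  obtain ⟨t, hxt, ⟨b1, b2, b3, b4, b5, b6⟩, b7, b8, b9, b10, b11, b12, b13⟩ := hI i hi
  obtain ⟨j1, j2, j3, j4, j5, j6, j7⟩ := join hC hxt b1 b2 b3 b4 b5 b6 b7 b8
  refine ⟨j7, j1, j2, ?_, ?_, ?_, ?_⟩
  · intro u hu
    refine notmem hC hxt ha hb hx ?_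
    rcases j3 u hu with ⟨j, hj, rfl⟩ | h
    · exact Or.inl ⟨j, by omega, by omega, by omega, rfl⟩
    · exact Or.inr h
  · rw [seg_last hab, j5]
    intro y hy z hz
    simp only [Option.mem_def, Option.some.injEq] at hy hz
    subst hy hz
    exact b11
  · rw [seg_head hab, j6]
    intro y hy z hz
    simp only [Option.mem_def, Option.some.injEq] at hy hz
    subst hy hz
    exact b12
  · rw [j4]
    exact b13

lemma fin (h3 : T_SEP) {M θ r : ℕ} (hM : 1 ≤ M) (h4 : 4 ∣ θ) {I : Finset ℕ} {σ : ℤ}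
    (h : YX Gr (θ / 4) (r + 1) I σ) : ∃ m, r + 1 ≤ 4 * M * m ∧ YX Gr (M * θ) m I σ := by
  obtain ⟨Y, hY1, hY2, hY3⟩ := h
  obtain ⟨Y', hs, hc, hd⟩ := h3 (θ / 4) (4 * M) Y (by omega) hY2
  refine ⟨Y'.card, hY1.trans hc, Y', le_rfl, ?_, fun y hy => hY3 y (hs hy)⟩
  have e : 4 * M * (θ / 4) = M * θ := by
    obtain ⟨u, rfl⟩ := h4
    rw [Nat.mul_div_cancel_left u (by norm_num)]
    ring
  rw [e] at hd
  exact hd

end MIDS

open MIDS in
theorem p_MIDS (h1 : T_SHC) (h2 : T_CLS) (h3 : T_SEP) (h4 : T_TAU) : T_MIDS := by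
  intro C M hM
  refine ⟨12 * C * M + 1, ?_⟩
  intro V Gr L c v P lam θ Ks x k hC hθ h4θ hML hCL _ hLK hKs hx
  classical
  have hlam : 1 ≤ lam := by
    rcases hC.link with h | h
    · omega
    · omega
  have hmem' : ∀ p ∈ P, 0 ≤ p.1 ∧ p.1 < p.2 ∧ p.2 < L := by
    intro p hp
    have := hC.mem p hp
    omega
  have hLm : 1 ≤ M * θ := Nat.mul_pos (by omega) (by omega)
  obtain ⟨tm, -, tl⟩ := h4 P L (M * θ) hLm hmem' hC.disty
  obtain ⟨τ, hτ⟩ : ∃ τ : ℤ → ℕ, τ = tau P (M * θ) := ⟨_, rfl⟩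
  rw [← hτ] at tm tl hKs hx
  obtain ⟨Q, hQ⟩ : ∃ Q : Finset Pt, Q = P.filter (fun p => p.1 = x ∧ τ p.2 = k) := ⟨_, rfl⟩
  rw [← hQ] at hx
  have hQm : ∀ p, p ∈ Q ↔ p ∈ P ∧ p.1 = x ∧ τ p.2 = k := by
    intro p
    rw [hQ, Finset.mem_filter]
  have hQ1 : 0 < Q.card := by
    rcases Nat.eq_zero_or_pos Q.card with h | h
    · rw [h] at hx
      omega
    · exact h
  have hC1 : 1 ≤ C := by
    rcases Nat.eq_zero_or_pos C with h | h
    · rw [h] at hx
      omega
    · exact h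
  have hQne : Q.Nonempty := Finset.card_pos.1 hQ1
  obtain ⟨p0, hp0, hmin⟩ := Finset.exists_min_image Q (fun p => p.2) hQne
  obtain ⟨p1, hp1, hmax⟩ := Finset.exists_max_image Q (fun p => p.2) hQne
  have q0 := (hQm p0).1 hp0
  have q1 := (hQm p1).1 hp1
  obtain ⟨j0, hj0⟩ : ∃ j0 : ℤ, j0 = p0.2 := ⟨_, rfl⟩
  obtain ⟨j1, hj1⟩ : ∃ j1 : ℤ, j1 = p1.2 := ⟨_, rfl⟩
  have m0 := hC.mem p0 q0.1
  have m1 := hC.mem p1 q1.1
  rw [q0.2.1, ← hj0] at m0
  rw [q1.2.1, ← hj1] at m1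
  have k0 : τ j0 = k := by rw [hj0]; exact q0.2.2
  have k1 : τ j1 = k := by rw [hj1]; exact q1.2.2
  have hj01 : j0 ≤ j1 := by
    have := hmin p1 hp1
    rw [hj0, hj1]
    exact this
  have hjlen := tl j0 j1 (by omega) hj01 (by rw [k0, k1])
  obtain ⟨I, hI⟩ : ∃ I : Finset ℕ, I = Q.image (fun p => (p.2 - j0).toNat) := ⟨_, rfl⟩
  have hge : ∀ p ∈ Q, j0 ≤ p.2 ∧ p.2 ≤ j1 := by
    intro p hp
    rw [hj0, hj1]
    exact ⟨hmin p hp, hmax p hp⟩
  have hIcard : I.card = Q.card := by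
    rw [hI]
    refine Finset.card_image_of_injOn ?_
    intro p hp q hq hpq
    have g1 := hge p hp
    have g2 := hge q hq
    simp only at hpq
    refine hC.disty p ((hQm p).1 hp).1 q ((hQm q).1 hq).1 ?_
    omega
  have hImem : ∀ i ∈ I, (x, j0 + (i : ℤ)) ∈ P ∧ j0 + (i : ℤ) ≤ j1 := by
    intro i hi
    rw [hI, Finset.mem_image] at hi
    obtain ⟨p, hp, rfl⟩ := hi
    have g1 := hge p hp
    have g2 := (hQm p).1 hp
    have e : j0 + (((p.2 - j0).toNat : ℕ) : ℤ) = p.2 := by omega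
    rw [e]
    refine ⟨?_, g1.2⟩
    rw [← g2.2.1]
    exact g2.1
  have hIlt : ∀ i ∈ I, i < M * θ := by
    intro i hi
    have g1 := (hImem i hi).2
    omega
  -- the intervals
  have hJex : ∀ k' ∈ Ks, ∃ J : ℤ × ℤ, 0 ≤ J.1 ∧ J.1 ≤ J.2 ∧ J.2 < L ∧ τ J.1 = k' ∧ τ J.2 = k' ∧
      θ ≤ (P.filter (fun p => J.1 ≤ p.1 ∧ p.2 ≤ J.2)).card := by
    intro k' hk'
    have g1 := hKs k' hk'
    obtain ⟨F, hF⟩ : ∃ F : Finset Pt, F = P.filter (fun p => τ p.1 = k' ∧ τ p.2 = k') := ⟨_, rfl⟩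
    rw [← hF] at g1
    have hFm : ∀ p, p ∈ F ↔ p ∈ P ∧ τ p.1 = k' ∧ τ p.2 = k' := by
      intro p
      rw [hF, Finset.mem_filter]
    have hFne : F.Nonempty := Finset.card_pos.1 (by omega)
    obtain ⟨r0, hr0, hmin'⟩ := Finset.exists_min_image F (fun p => p.1) hFne
    obtain ⟨r1, hr1, hmax'⟩ := Finset.exists_max_image F (fun p => p.2) hFne
    have g2 := (hFm r0).1 hr0
    have g3 := (hFm r1).1 hr1
    have g4 := hmem' r0 g2.1
    have g5 := hmem' r1 g3.1
    have g6 := hmax' r0 hr0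
    refine ⟨(r0.1, r1.2), g4.1, by simp only; omega, g5.2.2, g2.2.1, g3.2.2, g1.trans ?_⟩
    refine Finset.card_le_card ?_
    intro p hp
    rw [Finset.mem_filter]
    exact ⟨((hFm p).1 hp).1, hmin' p hp, hmax' p hp⟩
  choose! J hJ using hJex
  have hDis : ∀ k' ∈ Ks, ∀ k'' ∈ Ks, k' ≠ k'' → Dis (J k') (J k'') := by
    intro k' hk' k'' hk'' hne
    obtain ⟨-, -, -, g1, g2, -⟩ := hJ k' hk'
    obtain ⟨-, -, -, g3, g4, -⟩ := hJ k'' hk''
    unfold Dis
    by_contra hcon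
    rw [not_or, not_lt, not_lt] at hcon
    have g5 := tm _ _ hcon.1
    have g6 := tm _ _ hcon.2
    omega
  have hOk : ∀ k' ∈ Ks, ∀ a b : ℤ, a ≤ (J k').1 → (J k').2 ≤ b → Ok P θ (M * θ) a b (J k') := by
    intro k' hk' a b ha hb
    obtain ⟨g1, g2, g3, g4, g5, g6⟩ := hJ k' hk'
    have g7 := tl (J k').1 (J k').2 g1 g2 (by rw [g4, g5])
    exact ⟨ha, g2, hb, by omega, g6⟩
  -- the regions
  have hcount : Ks.card ≤ (Ks.filter (fun k' => τ x < k' ∧ k' < k)).card +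
      (Ks.filter (fun k' => τ x < k' ∧ k < k')).card +
      (Ks.filter (fun k' => k' < τ x)).card + 2 := by
    have g1 : Ks ⊆ ((Ks.filter (fun k' => τ x < k' ∧ k' < k)) ∪
      (Ks.filter (fun k' => τ x < k' ∧ k < k'))) ∪ (Ks.filter (fun k' => k' < τ x)) ∪
        {τ x, k} := by
      intro k' hk'
      simp only [Finset.mem_union, Finset.mem_filter, Finset.mem_insert, Finset.mem_singleton,
        hk', true_and]
      omega
    refine (Finset.card_le_card g1).trans ?_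
    refine (Finset.card_union_le _ _).trans ?_
    have g2 := Finset.card_union_le ((Ks.filter (fun k' => τ x < k' ∧ k' < k)) ∪
      (Ks.filter (fun k' => τ x < k' ∧ k < k'))) (Ks.filter (fun k' => k' < τ x))
    have g3 := Finset.card_union_le (Ks.filter (fun k' => τ x < k' ∧ k' < k))
      (Ks.filter (fun k' => τ x < k' ∧ k < k'))
    have g4 : ({τ x, k} : Finset ℕ).card ≤ 2 := Finset.card_le_two
    omega
  have hK3 : 3 ≤ Ks.card := by
    by_contra hcon
    have g1 : Ks.card ≤ 2 := by omega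
    have g2 : C * θ * Ks.card ≤ C * θ * 2 := Nat.mul_le_mul_left _ g1
    have g3 : (12 * C * M + 1) * θ ≤ C * θ * 2 := by
      have h5 : (((12 * C * M + 1) * θ : ℕ) : ℤ) ≤ ((C * θ * Ks.card : ℕ) : ℤ) := by
        push_cast at hCL hLK ⊢
        linarith
      exact (Int.ofNat_le.1 h5).trans g2
    have g4 : C * θ * 2 ≤ 12 * C * M * θ := by
      calc C * θ * 2 = C * 1 * θ * 2 := by ring
        _ ≤ C * M * θ * 12 := by gcongr; omega
        _ = 12 * C * M * θ := by ring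
    have g5 : (12 * C * M + 1) * θ = 12 * C * M * θ + θ := by ring
    omega
  have hfinal : ∀ (r : ℕ) (σ : ℤ), (σ = 1 ∨ σ = -1) → Ks.card ≤ 3 * r + 2 →
      YX Gr (θ / 4) (r + 1) I σ → MidG Gr L (12 * C * M + 1) (M * θ) := by
    intro r σ hσ hr hY
    obtain ⟨m, hm, hY'⟩ := fin h3 hM h4θ hY
    refine ⟨I, m, σ, hIlt, ?_, ?_, hσ, hY'⟩
    · rw [hIcard]
      calc M * θ ≤ M * (C * Q.card) := Nat.mul_le_mul_left _ hx
        _ = 1 * (C * M) * Q.card := by ring
        _ ≤ 12 * (C * M) * Q.card := by gcongr; omega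
        _ ≤ 12 * (C * M) * Q.card + Q.card := Nat.le_add_right _ _
        _ = _ := by ring
    · have g1 : Ks.card ≤ 12 * M * m := by
        calc Ks.card ≤ 3 * (r + 1) := by omega
          _ ≤ 3 * (4 * M * m) := Nat.mul_le_mul_left _ hm
          _ = _ := by ring
      have g2 : C * θ * Ks.card ≤ (12 * C * M + 1) * (M * θ) * m := by
        calc C * θ * Ks.card ≤ C * θ * (12 * M * m) := Nat.mul_le_mul_left _ g1
          _ = 12 * C * 1 * (M * θ) * m := by ring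
          _ ≤ 12 * C * M * (M * θ) * m := by gcongr
          _ ≤ (12 * C * M + 1) * (M * θ) * m := by gcongr; omega
      have g3 : ((C * θ * Ks.card : ℕ) : ℤ) ≤ (((12 * C * M + 1) * (M * θ) * m : ℕ) : ℤ) := by
        exact_mod_cast g2
      push_cast at g3 hLK ⊢
      linarith
  have hcase : Ks.card ≤ 3 * (Ks.filter (fun k' => τ x < k' ∧ k' < k)).card + 2 ∨
      Ks.card ≤ 3 * (Ks.filter (fun k' => τ x < k' ∧ k < k')).card + 2 ∨
      Ks.card ≤ 3 * (Ks.filter (fun k' => k' < τ x)).card + 2 := by omega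
  rcases hcase with hr | hr | hr
  · refine hfinal _ 1 (Or.inl rfl) hr ?_
    have hin : ∀ k' ∈ Ks.filter (fun k' => τ x < k' ∧ k' < k),
        x + 1 ≤ (J k').1 ∧ (J k').2 ≤ j0 - 1 := by
      intro k' hk'
      rw [Finset.mem_filter] at hk'
      obtain ⟨g1, g2, g3, g4, g5, g6⟩ := hJ k' hk'.1
      constructor
      · by_contra hcon
        have := tm (J k').1 x (by omega)
        omega
      · by_contra hcon
        have := tm j0 (J k').2 (by omega)
        omega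
    have hne : (Ks.filter (fun k' => τ x < k' ∧ k' < k)).Nonempty := Finset.card_pos.1 (by omega)
    obtain ⟨k', hk'⟩ := hne
    have g1 := hin k' hk'
    have g2 := (hJ k' (Finset.mem_filter.1 hk').1).2.1
    refine region h1 h2 hC hθ (a := x + 1) (b := j0 - 1) (Lm := M * θ) (by omega) (by omega)
      (by omega) _ J (fun k' hk' => hOk k' (Finset.mem_filter.1 hk').1 _ _ (hin k' hk').1
        (hin k' hk').2) (fun k' hk' k'' hk'' => hDis k' (Finset.mem_filter.1 hk').1 k''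
        (Finset.mem_filter.1 hk'').1) (x := x) (by omega) I (fun _ => j0) (fun i => j0 + (i : ℤ))
      (fun _ => x) (fun _ => x) (lam + 1) 1 ?_
    intro i hi
    have g3 := hImem i hi
    have a1 := hC.adj (j0 - 1) (by omega) (by omega)
    rw [sub_add_cancel] at a1
    have a2 := hC.adj x (by omega) (by omega)
    exact ⟨j0 + (i : ℤ), g3.1, by omega, by omega, Or.inr ⟨rfl, rfl⟩, by omega, by omega, a1, a2,
      by ring⟩
  · refine hfinal _ (-1) (Or.inr rfl) hr ?_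
    have hin : ∀ k' ∈ Ks.filter (fun k' => τ x < k' ∧ k < k'),
        j1 + 1 ≤ (J k').1 ∧ (J k').2 ≤ L - 1 := by
      intro k' hk'
      rw [Finset.mem_filter] at hk'
      obtain ⟨g1, g2, g3, g4, g5, g6⟩ := hJ k' hk'.1
      constructor
      · by_contra hcon
        have := tm (J k').1 j1 (by omega)
        omega
      · omega
    have hne : (Ks.filter (fun k' => τ x < k' ∧ k < k')).Nonempty := Finset.card_pos.1 (by omega)
    obtain ⟨k', hk'⟩ := hne
    have g1 := hin k' hk'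
    have g2 := (hJ k' (Finset.mem_filter.1 hk').1).2.1
    refine region h1 h2 hC hθ (a := j1 + 1) (b := L - 1) (Lm := M * θ) (by omega) (by omega)
      (by omega) _ J (fun k' hk' => hOk k' (Finset.mem_filter.1 hk').1 _ _ (hin k' hk').1
        (hin k' hk').2) (fun k' hk' k'' hk'' => hDis k' (Finset.mem_filter.1 hk').1 k''
        (Finset.mem_filter.1 hk'').1) (x := x) (by omega) I (fun _ => 0) (fun _ => x)
      (fun i => j0 + (i : ℤ)) (fun _ => j1) (x + lam + 1 + j1 - j0) (-1) ?_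
    intro i hi
    have g3 := hImem i hi
    have a2 := hC.adj j1 (by omega) (by omega)
    exact ⟨j0 + (i : ℤ), g3.1, by omega, by omega, Or.inl ⟨rfl, rfl⟩, by omega, by omega,
      hC.last, a2, by ring⟩
  · refine hfinal _ (-1) (Or.inr rfl) hr ?_
    have hin : ∀ k' ∈ Ks.filter (fun k' => k' < τ x),
        0 ≤ (J k').1 ∧ (J k').2 ≤ x - 1 := by
      intro k' hk'
      rw [Finset.mem_filter] at hk'
      obtain ⟨g1, g2, g3, g4, g5, g6⟩ := hJ k' hk'.1
      refine ⟨g1, ?_⟩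
      by_contra hcon
      have := tm x (J k').2 (by omega)
      omega
    have hne : (Ks.filter (fun k' => k' < τ x)).Nonempty := Finset.card_pos.1 (by omega)
    obtain ⟨k', hk'⟩ := hne
    have g1 := hin k' hk'
    have g2 := (hJ k' (Finset.mem_filter.1 hk').1).2.1
    refine region h1 h2 hC hθ (a := 0) (b := x - 1) (Lm := M * θ) (by omega) (by omega)
      (by omega) _ J (fun k' hk' => hOk k' (Finset.mem_filter.1 hk').1 _ _ (hin k' hk').1
        (hin k' hk').2) (fun k' hk' k'' hk'' => hDis k' (Finset.mem_filter.1 hk').1 k''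
        (Finset.mem_filter.1 hk'').1) (x := x) (by omega) I (fun _ => x) (fun _ => x)
      (fun i => j0 + (i : ℤ)) (fun _ => L - 1) (lam + L - j0) (-1) ?_
    intro i hi
    have g3 := hImem i hi
    have a1 := hC.adj (x - 1) (by omega) (by omega)
    rw [sub_add_cancel] at a1
    exact ⟨j0 + (i : ℤ), g3.1, by omega, by omega, Or.inl ⟨rfl, rfl⟩, by omega, by omega,
      a1, hC.last, by ring⟩

end Pool.Agent.CycMC
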