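import Pool.Agent.CycMC.Targets

/-!
# CycMC: NORM
-/

set_option autoImplicit false

namespace Pool.Agent.CycMC

open Finset
open Pool.Agent.HubG (cycleSet)
open Pool.Agent.CycSp (Pt Cyc ZD)

namespace NORM_

variable {V : Type}

lemma flip_l1 (b : Band V) : b.flip.l1 = b.l1.reverse := by
  unfold Band.flip Band.l1
  simp

lemma flip_l2 (b : Band V) : b.flip.l2 = b.l2.reverse := by
  unfold Band.flip Band.l2
  simp

lemma kap_flip (b : Band V) : kap [b.flip] = kap [b] := by
  ext v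
  simp only [kap, List.mem_singleton, Set.mem_ofPred_eq]
  constructor
  · rintro ⟨c, rfl, h⟩
    exact ⟨b, rfl, h.symm⟩
  · rintro ⟨c, rfl, h⟩
    exact ⟨_, rfl, h.symm⟩

lemma kap_swap (b : Band V) : kap [b.swap] = kap [b] := by
  ext v
  simp only [kap, List.mem_singleton, Set.mem_ofPred_eq]
  constructor
  · rintro ⟨c, rfl, h⟩
    refine ⟨b, rfl, ?_⟩
    unfold Band.swap at h
    simpa using h
  · rintro ⟨c, rfl, h⟩
    refine ⟨_, rfl, ?_⟩
    unfold Band.swap
    simpa using h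

lemma kap_cons (b : Band V) (B : List (Band V)) : kap (b :: B) = kap [b] ∪ kap B := by
  ext v
  simp only [kap, Set.mem_ofPred_eq, List.mem_cons, Set.mem_union]
  constructor
  · rintro ⟨c, hc | hc, h⟩
    · exact Or.inl ⟨c, Or.inl hc, h⟩
    · exact Or.inr ⟨c, hc, h⟩
  · rintro (⟨c, hc | hc, h⟩ | ⟨c, hc, h⟩)
    · exact ⟨c, Or.inl hc, h⟩
    · exact absurd hc List.not_mem_nil
    · exact ⟨c, Or.inr hc, h⟩

/-- the case of ordered legs -/
lemma one' (hS : T_SYM) {Gr : SimpleGraph V} {lam K W : ℕ} {w : List (List V)} {b : Band V}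
    {B : List (Band V)} (h : PSt Gr lam K W w (b :: B)) {i j : ℕ} (hij : i < j)
    (hi : w[i]? = some b.l1 ∨ w[i]? = some b.l1.reverse)
    (hj : w[j]? = some b.l2 ∨ w[j]? = some b.l2.reverse) :
    ∃ b' : Band V, PSt Gr lam K W w (b' :: B) ∧ kap [b'] = kap [b] ∧ (Tw w b' ∨ Un w b') := by
  rcases hi with hi | hi
  · refine ⟨b, h, rfl, ?_⟩
    rcases hj with hj | hj
    · exact Or.inl ⟨i, j, hij, hi, hj⟩
    · exact Or.inr ⟨i, j, hij, hi, hj⟩
  · refine ⟨b.flip, ((hS V Gr lam K W w).2 b B h).1, kap_flip b, ?_⟩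
    rcases hj with hj | hj
    · refine Or.inr ⟨i, j, hij, by rw [flip_l1]; exact hi, ?_⟩
      rw [flip_l2, List.reverse_reverse]
      exact hj
    · refine Or.inl ⟨i, j, hij, by rw [flip_l1]; exact hi, ?_⟩
      rw [flip_l2]
      exact hj

lemma mem_idx {w : List (List V)} {l : List V} (h : l ∈ w ∨ l.reverse ∈ w) :
    ∃ i : ℕ, w[i]? = some l ∨ w[i]? = some l.reverse := by
  rcases h with h | h
  · obtain ⟨i, hi⟩ := List.mem_iff_getElem?.1 h
    exact ⟨i, Or.inl hi⟩
  · obtain ⟨i, hi⟩ := List.mem_iff_getElem?.1 h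
    exact ⟨i, Or.inr hi⟩

lemma one (hS : T_SYM) {Gr : SimpleGraph V} {lam K W : ℕ} {w : List (List V)} {b : Band V}
    {B : List (Band V)} (h : PSt Gr lam K W w (b :: B)) :
    ∃ b' : Band V, PSt Gr lam K W w (b' :: B) ∧ kap [b'] = kap [b] ∧ (Tw w b' ∨ Un w b') := by
  obtain ⟨h1, h2⟩ := h.legs b List.mem_cons_self
  obtain ⟨i, hi⟩ := mem_idx h1
  obtain ⟨j, hj⟩ := mem_idx h2
  have hne : i ≠ j := by
    rintro rfl
    have hd := h.disj
    rw [List.flatMap_cons] at hd
    have h3 := (List.nodup_append.1 hd).1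
    have h4 := (List.nodup_append.1 h3).2.2
    have h5 : b.p ∈ b.l1 := by
      unfold Band.l1
      exact List.mem_cons_self
    have h6 : b.p ∈ b.l2 := by
      rcases hi with hi | hi <;> rcases hj with hj | hj
      · rw [hi] at hj
        rw [← Option.some.inj hj]
        exact h5
      · rw [hi] at hj
        rw [← List.mem_reverse, ← Option.some.inj hj]
        exact h5
      · rw [hi] at hj
        rw [← Option.some.inj hj, List.mem_reverse]
        exact h5
      · rw [hi] at hj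
        rw [← List.mem_reverse, ← Option.some.inj hj, List.mem_reverse]
        exact h5
    exact h4 b.p h5 b.p h6 rfl
  rcases lt_or_gt_of_ne hne with hij | hij
  · exact one' hS h hij hi hj
  · obtain ⟨b', h3, h4, h5⟩ := one' hS (b := b.swap) ((hS V Gr lam K W w).2 b B h).2.1 hij hj hi
    exact ⟨b', h3, h4.trans (kap_swap b), h5⟩

lemma all (hS : T_SYM) {Gr : SimpleGraph V} {lam K W : ℕ} {w : List (List V)}
    (B1 : List (Band V)) : ∀ B2 : List (Band V), PSt Gr lam K W w (B1 ++ B2) →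
    ∃ B' : List (Band V), PSt Gr lam K W w (B' ++ B2) ∧ B'.length = B1.length ∧
      kap B' = kap B1 ∧ ∀ b ∈ B', Tw w b ∨ Un w b := by
  induction B1 with
  | nil =>
    intro B2 h
    exact ⟨[], h, rfl, rfl, fun b hb => absurd hb List.not_mem_nil⟩
  | cons b t ih =>
    intro B2 h
    have h1 : PSt Gr lam K W w (t ++ b :: B2) :=
      (hS V Gr lam K W w).1 _ _ List.perm_middle.symm h
    obtain ⟨t', h2, h3, h4, h5⟩ := ih (b :: B2) h1
    have h6 : PSt Gr lam K W w (b :: (t' ++ B2)) :=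
      (hS V Gr lam K W w).1 _ _ List.perm_middle h2
    obtain ⟨b', h7, h8, h9⟩ := one hS h6
    refine ⟨b' :: t', h7, by rw [List.length_cons, List.length_cons, h3], ?_, ?_⟩
    · rw [kap_cons, kap_cons b t, h8, h4]
    · intro c hc
      rcases List.mem_cons.1 hc with rfl | hc
      · exact h9
      · exact h5 c hc

end NORM_

theorem p_NORM (h1 : T_SYM) : T_NORM := by
  intro V Gr lam K W w B hB
  obtain ⟨B', h2, h3, h4, h5⟩ := NORM_.all h1 B [] (by simpa using hB)
  exact ⟨B', by simpa using h2, h3, h4, h5⟩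

end Pool.Agent.CycMC
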