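import Pool.Agent.CycMC.Targets

/-!
# QUOT: the quotient graph of the arcs is a minor
-/

set_option autoImplicit false

namespace Pool.Agent.CycMC

open Finset
open Pool.Agent.CycSp (Pt Cyc)
open Pool.Agent.Pend (Minor eo T_MADER T_MTRANS)

namespace QUOT_

/-- The used arcs. -/
abbrev Arc (L : ℤ) (r : ℕ) (τ : ℤ → ℕ) : Type :=
  {k : Fin r // ∃ i : ℤ, 0 ≤ i ∧ i < L ∧ τ i = (k : ℕ)}

/-- The quotient graph. -/
def Qg (P : Finset Pt) (L : ℤ) (r : ℕ) (τ : ℤ → ℕ) : SimpleGraph (Arc L r τ) where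
  Adj a b := a ≠ b ∧ ∃ p ∈ P, (τ p.1 = (a.1 : ℕ) ∧ τ p.2 = (b.1 : ℕ)) ∨
    (τ p.1 = (b.1 : ℕ) ∧ τ p.2 = (a.1 : ℕ))
  symm := ⟨fun _ _ h => ⟨h.1.symm, by
    obtain ⟨_, p, hp, h⟩ := h
    exact ⟨p, hp, h.symm⟩⟩⟩
  loopless := ⟨fun _ h => h.1 rfl⟩

/-- The branch sets. -/
def br {V : Type} (c v : ℤ → V) (P : Finset Pt) (lam : ℕ) (L : ℤ) (τ : ℤ → ℕ) (k : ℕ) : Set V :=
  {u | (∃ i : ℤ, 0 ≤ i ∧ i < L ∧ τ i = k ∧ u = c i) ∨
    (lam = 2 ∧ ∃ p ∈ P, τ p.1 = k ∧ u = v p.1)}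

lemma reach {V : Type} (Gr : SimpleGraph V) (L : ℤ) (c v : ℤ → V) (P : Finset Pt)
    (lam : ℕ) (τ : ℤ → ℕ) (h : Cyc Gr L c v P lam)
    (hm : ∀ i j, 0 ≤ i → i ≤ j → j < L → τ i ≤ τ j) (k : ℕ) (i : ℤ) (hi : 0 ≤ i)
    (hk : τ i = k) (n : ℕ) (hn : i + n < L) (hk2 : τ (i + n) = k)
    (m1 : c i ∈ br c v P lam L τ k) (m2 : c (i + n) ∈ br c v P lam L τ k) :
    (Gr.induce (br c v P lam L τ k)).Reachable ⟨c i, m1⟩ ⟨c (i + n), m2⟩ := by
  induction n with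
  | zero =>
    have e : c (i + (0 : ℕ)) = c i := by simp
    have e2 : (⟨c (i + (0 : ℕ)), m2⟩ : br c v P lam L τ k) = ⟨c i, m1⟩ := Subtype.ext e
    rw [e2]
  | succ n ih =>
    have hn1 : i + (n : ℤ) < L := by push_cast at hn; omega
    have hk1 : τ (i + n) = k := by
      have a1 := hm i (i + n) hi (by omega) hn1
      have a2 := hm (i + n) (i + (n + 1 : ℕ)) (by omega) (by push_cast; omega) hn
      omega
    have m3 : c (i + n) ∈ br c v P lam L τ k := Or.inl ⟨i + n, by omega, hn1, hk1, rfl⟩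
    refine (ih hn1 hk1 m3).trans ?_
    apply SimpleGraph.Adj.reachable
    rw [SimpleGraph.comap_adj]
    show Gr.Adj (c (i + n)) (c (i + (n + 1 : ℕ)))
    have := h.adj (i + n) (by omega) (by push_cast at hn; omega)
    have e : i + (n + 1 : ℕ) = i + (n : ℤ) + 1 := by push_cast; ring
    rw [e]
    exact this

lemma minor {V : Type} (Gr : SimpleGraph V) (L : ℤ) (c v : ℤ → V) (P : Finset Pt)
    (lam r : ℕ) (τ : ℤ → ℕ) (h : Cyc Gr L c v P lam)
    (hm : ∀ i j, 0 ≤ i → i ≤ j → j < L → τ i ≤ τ j) : Minor (Qg P L r τ) Gr := by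
  refine ⟨fun a => br c v P lam L τ (a.1 : ℕ), ?_, ?_, ?_⟩
  · rintro ⟨k, i, hi, hi2, hk⟩
    show (Gr.induce (br c v P lam L τ (k : ℕ))).Connected
    have m1 : c i ∈ br c v P lam L τ (k : ℕ) := Or.inl ⟨i, hi, hi2, hk, rfl⟩
    have key : ∀ (j : ℤ) (_ : 0 ≤ j) (_ : j < L) (_ : τ j = (k : ℕ))
        (m2 : c j ∈ br c v P lam L τ (k : ℕ)),
        (Gr.induce (br c v P lam L τ (k : ℕ))).Reachable ⟨c i, m1⟩ ⟨c j, m2⟩ := by
      intro j hj hj2 hjk m2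
      rcases le_total i j with hij | hij
      · obtain ⟨n, hn⟩ := Int.eq_ofNat_of_zero_le (sub_nonneg.mpr hij)
        have e : j = i + n := by omega
        subst e
        exact reach Gr L c v P lam τ h hm k i hi hk n hj2 hjk m1 m2
      · obtain ⟨n, hn⟩ := Int.eq_ofNat_of_zero_le (sub_nonneg.mpr hij)
        have e : i = j + n := by omega
        subst e
        exact (reach Gr L c v P lam τ h hm k j hj hjk n hi2 hk m2 m1).symm
    rw [SimpleGraph.connected_iff_exists_forall_reachable]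
    refine ⟨⟨c i, m1⟩, ?_⟩
    rintro ⟨w, hw⟩
    rcases hw with ⟨j, hj, hj2, hjk, rfl⟩ | ⟨hl, p, hp, hpk, rfl⟩
    · exact key j hj hj2 hjk _
    · have hp2 := h.mem p hp
      have m3 : c p.1 ∈ br c v P lam L τ (k : ℕ) :=
        Or.inl ⟨p.1, hp2.1, by omega, hpk, rfl⟩
      refine (key p.1 hp2.1 (by omega) hpk m3).trans ?_
      apply SimpleGraph.Adj.reachable
      rw [SimpleGraph.comap_adj]
      show Gr.Adj (c p.1) (v p.1)
      rcases h.link with h1 | h1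
      · omega
      · exact (h1.2.1 p hp).1
  · intro a b hab
    rw [Set.disjoint_left]
    rintro u (⟨i, hi, hi2, hik, rfl⟩ | ⟨hl, p, hp, hpk, rfl⟩) hu2
    · rcases hu2 with ⟨j, hj, hj2, hjk, e⟩ | ⟨hl, q, hq, hqk, e⟩
      · have := h.inj i j hi hi2 hj hj2 e
        subst this
        exact hab (Subtype.ext (Fin.ext (hik.symm.trans hjk)))
      · rcases h.link with h1 | h1
        · omega
        · exact h1.2.2.1 q hq i hi hi2 e.symm
    · rcases hu2 with ⟨j, hj, hj2, hjk, e⟩ | ⟨_, q, hq, hqk, e⟩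
      · rcases h.link with h1 | h1
        · omega
        · exact h1.2.2.1 p hp j hj hj2 e
      · rcases h.link with h1 | h1
        · omega
        · have := h1.2.2.2 p hp q hq e
          rw [← this] at hqk
          exact hab (Subtype.ext (Fin.ext (hpk.symm.trans hqk)))
  · have key : ∀ (k k' : ℕ) (p : Pt), p ∈ P → τ p.1 = k → τ p.2 = k' →
        ∃ x ∈ br c v P lam L τ k, ∃ y ∈ br c v P lam L τ k', Gr.Adj x y := by
      intro k k' p hp h1 h2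
      have hp2 := h.mem p hp
      have m2 : c p.2 ∈ br c v P lam L τ k' :=
        Or.inl ⟨p.2, by omega, hp2.2.2, h2, rfl⟩
      rcases h.link with h3 | h3
      · exact ⟨c p.1, Or.inl ⟨p.1, hp2.1, by omega, h1, rfl⟩, c p.2, m2, h3.2 p hp⟩
      · exact ⟨v p.1, Or.inr ⟨h3.1, p, hp, h1, rfl⟩, c p.2, m2, (h3.2.1 p hp).2⟩
    rintro a b ⟨_, p, hp, hp2 | hp2⟩
    · exact key _ _ p hp hp2.1 hp2.2
    · obtain ⟨x, hx, y, hy, hxy⟩ := key _ _ p hp hp2.1 hp2.2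
      exact ⟨y, hy, x, hx, hxy.symm⟩

end QUOT_

open QUOT_ in
/-- Few pairs of arcs are joined by links. -/
theorem p_QUOT (h1 : T_MADER) (h2 : T_MTRANS) : T_QUOT := by
  intro V Gr L c v P lam t r τ h ht hm hr
  classical
  have hmin : ¬ Minor (⊤ : SimpleGraph (Fin t)) (Qg P L r τ) := fun hh =>
    ht (h2 _ _ _ _ _ _ hh (minor Gr L c v P lam r τ h hm))
  have hE := h1 t (Arc L r τ) (Qg P L r τ) hmin
  have hc : Fintype.card (Arc L r τ) ≤ r := by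
    have := Fintype.card_subtype_le (fun k : Fin r => ∃ i : ℤ, 0 ≤ i ∧ i < L ∧ τ i = (k : ℕ))
    rw [Fintype.card_fin] at this
    exact this
  refine le_trans ?_ (hE.trans (Nat.mul_le_mul_left _ hc))
  unfold eo
  refine le_trans (card_le_card (t := (univ.filter
    (fun p : Arc L r τ × Arc L r τ => (Qg P L r τ).Adj p.1 p.2)).image
      (fun q => ((q.1.1 : ℕ), (q.2.1 : ℕ)))) ?_) card_image_le
  intro a ha
  rw [mem_filter, mem_image] at ha
  obtain ⟨⟨p, hp, rfl⟩, hne⟩ := ha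
  have hp2 := h.mem p hp
  have b1 := hr p.1 hp2.1 (by omega)
  have b2 := hr p.2 (by omega) hp2.2.2
  rw [mem_image]
  refine ⟨(⟨⟨τ p.1, b1⟩, p.1, hp2.1, by omega, rfl⟩, ⟨⟨τ p.2, b2⟩, p.2, by omega, hp2.2.2, rfl⟩),
    ?_, rfl⟩
  rw [mem_filter]
  refine ⟨mem_univ _, ?_, p, hp, Or.inl ⟨rfl, rfl⟩⟩
  intro e
  apply hne
  have := congrArg (fun x : Arc L r τ => (x.1 : ℕ)) e
  exact this

end Pool.Agent.CycMC
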