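import Pool.Agent.CycMC.Targets

/-!
# SEP: a separated set has a large subset which is separated more strongly
-/

set_option autoImplicit false

namespace Pool.Agent.CycMC

open Finset

namespace SEP_

lemma step (K : ℕ) (Y : Finset ℤ) (hY : ∀ a ∈ Y, ∀ b ∈ Y, a < b → a + K ≤ b) (a : ℤ) :
    ∀ (n : ℕ) (b : ℤ), b ∈ Y → a ≤ b → (Y.filter (fun x => a ≤ x ∧ x < b)).card = n →
      a + K * n ≤ b := by
  intro n
  induction n with
  | zero =>
    intro b _ hab _
    simpa using hab
  | succ n ih =>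
    intro b hb hab hn
    have hne : (Y.filter (fun x => a ≤ x ∧ x < b)).Nonempty := by
      rw [← card_pos, hn]
      omega
    obtain ⟨b', hb'⟩ : ∃ b', b' = (Y.filter (fun x => a ≤ x ∧ x < b)).max' hne := ⟨_, rfl⟩
    have hm := max'_mem _ hne
    rw [← hb', mem_filter] at hm
    obtain ⟨hm1, hm2, hm3⟩ := hm
    have h1 : (Y.filter (fun x => a ≤ x ∧ x < b)) =
        insert b' (Y.filter (fun x => a ≤ x ∧ x < b')) := by
      ext x
      rw [mem_insert, mem_filter, mem_filter]
      constructor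
      · rintro ⟨h1, h2, h3⟩
        have h4 := le_max' (Y.filter (fun x => a ≤ x ∧ x < b)) x
          (mem_filter.2 ⟨h1, h2, h3⟩)
        rw [← hb'] at h4
        rcases h4.lt_or_eq with h5 | h5
        · exact Or.inr ⟨h1, h2, h5⟩
        · exact Or.inl h5
      · rintro (h | ⟨h1, h2, h3⟩)
        · rw [h]
          exact ⟨hm1, hm2, hm3⟩
        · exact ⟨h1, h2, h3.trans hm3⟩
    rw [h1, card_insert_of_notMem (by simp)] at hn
    have h2 := ih b' hm1 hm2 (by omega)
    have h3 := hY b' hm1 b hb hm3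
    push_cast
    linarith

end SEP_

open SEP_ in
theorem p_SEP : T_SEP := by
  intro K g Y hg hY
  obtain ⟨rk, hrk⟩ : ∃ rk : ℤ → ℕ, ∀ a, rk a = (Y.filter (fun x => x < a)).card :=
    ⟨_, fun _ => rfl⟩
  have hadd : ∀ a ∈ Y, ∀ b ∈ Y, a < b →
      rk b = rk a + (Y.filter (fun x => a ≤ x ∧ x < b)).card := by
    intro a _ b _ hab
    rw [hrk, hrk, ← card_union_of_disjoint]
    · congr 1
      ext x
      simp only [mem_filter, mem_union]
      constructor
      · rintro ⟨h1, h2⟩
        rcases lt_or_ge x a with h | h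
        · exact Or.inl ⟨h1, h⟩
        · exact Or.inr ⟨h1, h, h2⟩
      · rintro (⟨h1, h2⟩ | ⟨h1, h2, h3⟩)
        · exact ⟨h1, h2.trans hab⟩
        · exact ⟨h1, h3⟩
    · rw [disjoint_left]
      intro x h1 h2
      rw [mem_filter] at h1 h2
      exact absurd h1.2 (not_lt.2 h2.2.1)
  obtain ⟨r, hr⟩ : ∃ r, Y.card ≤ g * (Y.filter (fun x => rk x % g = r)).card := by
    by_contra hcon
    push Not at hcon
    have h1 : Y.card = ∑ r ∈ range g, (Y.filter (fun x => rk x % g = r)).card :=
      card_eq_sum_card_fiberwise (fun x _ => by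
        simpa using Nat.mod_lt _ (by omega))
    have h2 : g * Y.card = ∑ r ∈ range g, g * (Y.filter (fun x => rk x % g = r)).card := by
      rw [h1, mul_sum]
    have h3 : ∑ r ∈ range g, g * (Y.filter (fun x => rk x % g = r)).card <
        ∑ r ∈ range g, Y.card :=
      sum_lt_sum_of_nonempty (nonempty_range_iff.2 (by omega)) (fun r _ => hcon r)
    rw [sum_const, card_range, smul_eq_mul] at h3
    omega
  refine ⟨_, filter_subset _ _, hr, ?_⟩
  intro a ha b hb hab
  rw [mem_filter] at ha hb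
  have h1 := hadd a ha.1 b hb.1 hab
  have h2 := step K Y hY a _ b hb.1 hab.le rfl
  obtain ⟨m, hm⟩ : ∃ m, m = (Y.filter (fun x => a ≤ x ∧ x < b)).card := ⟨_, rfl⟩
  rw [← hm] at h1 h2
  have h3 : 0 < m := by
    rw [hm, card_pos]
    exact ⟨a, mem_filter.2 ⟨ha.1, le_rfl, hab⟩⟩
  have h4 : g ∣ m := by
    have h5 : rk a ≡ rk a + m [MOD g] := by
      rw [← h1]
      exact ha.2.trans hb.2.symm
    have h6 := (Nat.modEq_iff_dvd' (Nat.le_add_right _ _)).1 h5
    rwa [Nat.add_sub_cancel_left] at h6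
  have h5 : g ≤ m := Nat.le_of_dvd h3 h4
  have h6 : ((g * K : ℕ) : ℤ) ≤ (K : ℤ) * m := by
    have : g * K ≤ K * m := by
      rw [mul_comm]
      exact Nat.mul_le_mul_left _ h5
    exact_mod_cast this
  linarith

end Pool.Agent.CycMC
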