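import Pool.Agent.CycMC.Targets

/-!
# Cycle sets of graphs without a complete minor: SHC, many disjoint intervals with many links
-/

set_option autoImplicit false

namespace Pool.Agent.CycMC

open Finset
open Pool.Agent.HubG (cycleSet)
open Pool.Agent.CycSp (Pt Cyc ZD)

namespace SHC_

variable {V : Type}

/-- The hubs of the links with the first end in `[a, b]`. -/
def Hs (v : ℤ → V) (P : Finset Pt) (lam : ℕ) (a b : ℤ) : Set V :=
  {u | lam = 2 ∧ ∃ p ∈ P, a ≤ p.1 ∧ p.1 ≤ b ∧ u = v p.1}

lemma seg_eq (c : ℤ → V) (a b : ℤ) :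
    seg c a b = (List.range (b + 1 - a).toNat).map (fun i : ℕ => c (a + (i : ℤ))) := by
  have h : ∀ (f : ℤ → V) (l : List ℕ), List.map f (do let a ← l; pure (a : ℤ)) =
      l.map (fun i : ℕ => f (i : ℤ)) := by
    intro f l
    induction l with
    | nil => rfl
    | cons x l ih =>
      rw [List.map_cons, ← ih]
      rfl
  exact h _ _

lemma length_seg (c : ℤ → V) (a b : ℤ) : (seg c a b).length = (b + 1 - a).toNat := by
  rw [seg_eq, List.length_map, List.length_range]

lemma mem_seg {c : ℤ → V} {a b : ℤ} {u : V} :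
    u ∈ seg c a b ↔ ∃ i, a ≤ i ∧ i ≤ b ∧ u = c i := by
  rw [seg_eq, List.mem_map]
  constructor
  · rintro ⟨i, hi, rfl⟩
    rw [List.mem_range] at hi
    exact ⟨a + i, by omega, by omega, rfl⟩
  · rintro ⟨i, h1, h2, rfl⟩
    refine ⟨(i - a).toNat, ?_, ?_⟩
    · rw [List.mem_range]
      omega
    · congr 1
      omega

lemma seg_append (c : ℤ → V) (a m b : ℤ) (h1 : a ≤ m + 1) (h2 : m ≤ b) :
    seg c a b = seg c a m ++ seg c (m + 1) b := by
  have h3 : (b + 1 - a).toNat = (m + 1 - a).toNat + (b + 1 - (m + 1)).toNat := by omega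
  rw [seg_eq, seg_eq, seg_eq, h3, List.range_add, List.map_append, List.map_map]
  congr 1
  refine List.map_congr_left fun i _ => ?_
  rw [Function.comp_apply]
  congr 1
  push_cast
  omega

variable {Gr : SimpleGraph V} {L : ℤ} {c v : ℤ → V} {P : Finset Pt} {lam : ℕ}

lemma rep_seg (hC : Cyc Gr L c v P lam) (S : Set V) {a b : ℤ} (ha : 0 ≤ a) (hb : b < L) :
    Rep Gr S (seg c a b) (seg c a b) := by
  refine ⟨?_, ?_, rfl, rfl, fun u hu => Or.inl hu⟩
  · rw [List.isChain_iff_getElem]
    intro i hi
    rw [length_seg] at hi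
    have h1 := hC.adj (a + i) (by omega) (by omega)
    have h2 : a + (i : ℤ) + 1 = a + ((i + 1 : ℕ) : ℤ) := by push_cast; ring
    rw [h2] at h1
    simpa [seg_eq] using h1
  · rw [seg_eq]
    refine List.Nodup.map_on (fun i hi j hj hij => ?_) List.nodup_range
    rw [List.mem_range] at hi hj
    have h1 := hC.inj (a + i) (a + j) (by omega) (by omega) (by omega) (by omega) hij
    omega

lemma hub_ne_c (hC : Cyc Gr L c v P lam) (h2 : lam = 2) {p : Pt} (hp : p ∈ P) {i : ℤ}
    (h0 : 0 ≤ i) (hi : i < L) : v p.1 ≠ c i := by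
  rcases hC.link with h | h
  · omega
  · exact h.2.2.1 p hp i h0 hi

lemma hub_inj (hC : Cyc Gr L c v P lam) (h2 : lam = 2) {p q : Pt} (hp : p ∈ P) (hq : q ∈ P)
    (h : v p.1 = v q.1) : p.1 = q.1 := by
  rcases hC.link with h' | h'
  · omega
  · exact h'.2.2.2 p hp q hq h

/-- Two replacements of adjacent segments. -/
lemma glue (hC : Cyc Gr L c v P lam) {a m b : ℤ} (ha : 0 ≤ a) (h1 : a ≤ m + 1) (h2 : m ≤ b)
    (hb : b < L) {l1 l2 : List V} (r1 : Rep Gr (Hs v P lam a m) (seg c a m) l1)
    (r2 : Rep Gr (Hs v P lam (m + 1) b) (seg c (m + 1) b) l2) :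
    Rep Gr (Hs v P lam a b) (seg c a b) (l1 ++ l2) := by
  have e := seg_append c a m b h1 h2
  have hs := (rep_seg hC ∅ ha hb).chain
  rw [e, List.isChain_append] at hs
  refine ⟨?_, ?_, ?_, ?_, fun u hu => ?_⟩
  · rw [List.isChain_append]
    refine ⟨r1.chain, r2.chain, fun x hx y hy => hs.2.2 x ?_ y ?_⟩
    · rwa [← r1.last]
    · rwa [← r2.head]
  · rw [List.nodup_append]
    refine ⟨r1.nodup, r2.nodup, fun x hx y hy hxy => ?_⟩
    subst hxy
    rcases r1.sub x hx with h3 | ⟨h3, p, hp, h4, h5, h6⟩
    · obtain ⟨i, hi1, hi2, rfl⟩ := mem_seg.1 h3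
      rcases r2.sub _ hy with h7 | ⟨h7, q, hq, h8, h9, h10⟩
      · obtain ⟨j, hj1, hj2, hj⟩ := mem_seg.1 h7
        have := hC.inj i j (by omega) (by omega) (by omega) (by omega) hj
        omega
      · exact hub_ne_c hC h7 hq (by omega) (by omega) h10.symm
    · rcases r2.sub _ hy with h7 | ⟨h7, q, hq, h8, h9, h10⟩
      · obtain ⟨j, hj1, hj2, hj⟩ := mem_seg.1 h7
        exact hub_ne_c hC h3 hp (by omega) (by omega) (h6.symm.trans hj)
      · have := hub_inj hC h3 hp hq (h6.symm.trans h10)
        omega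
  · rw [e, List.head?_append, List.head?_append, r1.head, r2.head]
  · rw [e, List.getLast?_append, List.getLast?_append, r1.last, r2.last]
  · rw [e, List.mem_append]
    rcases List.mem_append.1 hu with h | h
    · rcases r1.sub u h with h3 | ⟨h3, p, hp, h4, h5, h6⟩
      · exact Or.inl (Or.inl h3)
      · exact Or.inr ⟨h3, p, hp, h4, by omega, h6⟩
    · rcases r2.sub u h with h3 | ⟨h3, p, hp, h4, h5, h6⟩
      · exact Or.inl (Or.inr h3)
      · exact Or.inr ⟨h3, p, hp, by omega, h5, h6⟩

/-- The numbers: adding one smaller element. -/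
lemma numbers {X : Finset ℕ} {K W r s : ℕ} (hne : X.Nonempty) (hK : 1 ≤ K) (h1 : s + K ≤ r)
    (h2 : r ≤ s + W) (hG : Gap X K W)
    (hsep : ∀ n ∈ X, ∀ n' ∈ X, n < n' → n + K ≤ n') :
    (insert (X.min' hne + s) (X.image (· + r))).card = X.card + 1 ∧
      Gap (insert (X.min' hne + s) (X.image (· + r))) K W ∧
      ∀ n ∈ insert (X.min' hne + s) (X.image (· + r)),
        ∀ n' ∈ insert (X.min' hne + s) (X.image (· + r)), n < n' → n + K ≤ n' := by
  have hlt : ∀ n ∈ X.image (· + r), X.min' hne + s + K ≤ n := by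
    intro n hn
    obtain ⟨m, hm, rfl⟩ := mem_image.1 hn
    have := X.min'_le m hm
    omega
  refine ⟨?_, ?_, ?_⟩
  · rw [card_insert_of_notMem, card_image_of_injective _ (add_left_injective r)]
    intro h
    have := hlt _ h
    omega
  · intro n hn
    rcases mem_insert.1 hn with h | h
    · left
      intro n' hn'
      rcases mem_insert.1 hn' with h' | h'
      · omega
      · have := hlt _ h'
        omega
    · right
      obtain ⟨m, hm, rfl⟩ := mem_image.1 h
      rcases hG m hm with h3 | ⟨m', hm', h3, h4⟩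
      · refine ⟨X.min' hne + s, mem_insert_self _ _, hlt _ h, ?_⟩
        have := h3 _ (X.min'_mem hne)
        change m + r ≤ _
        omega
      · refine ⟨m' + r, mem_insert_of_mem (mem_image_of_mem _ hm'), ?_, ?_⟩
        · omega
        · omega
  · intro n hn n' hn' hlt'
    rcases mem_insert.1 hn with h | h
    · rcases mem_insert.1 hn' with h' | h'
      · omega
      · have := hlt _ h'
        omega
    · rcases mem_insert.1 hn' with h' | h'
      · have := hlt _ h
        omega
      · obtain ⟨m, hm, rfl⟩ := mem_image.1 h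
        obtain ⟨m', hm', rfl⟩ := mem_image.1 h'
        have := hsep m hm m' hm' (by
          have h5 : m + r < m' + r := hlt'
          omega)
        change m + r + K ≤ m' + r
        omega

end SHC_

open SHC_ in
/-- SHC. -/
theorem p_SHC (h1 : T_SHORT) : T_SHC := by
  intro V Gr L c v P lam K W hC hK a b Is ha hb hIs hdis
  have key : ∀ (n : ℕ) (b : ℤ) (Is : List (ℤ × ℤ)), Is.length = n → b < L →
      (∀ I ∈ Is, a ≤ I.1 ∧ I.1 ≤ I.2 ∧ I.2 ≤ b ∧ I.2 - I.1 < W ∧
        3 * K ≤ (P.filter (fun p => I.1 ≤ p.1 ∧ p.2 ≤ I.2)).card) → Is.Pairwise Dis →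
      ∃ X : Finset ℕ, Is.length + 1 ≤ X.card ∧ Gap X K W ∧
        (∀ n ∈ X, ∀ n' ∈ X, n < n' → n + K ≤ n') ∧ (∀ n ∈ X, n ≤ (seg c a b).length) ∧
        ∀ n ∈ X, ∃ l' : List V, Rep Gr (Hs v P lam a b) (seg c a b) l' ∧ l'.length = n := by
    intro n
    induction n with
    | zero =>
      intro b Is hn hb _ _
      have hI : Is = [] := List.eq_nil_of_length_eq_zero hn
      subst hI
      refine ⟨{(seg c a b).length}, ?_, ?_, ?_, ?_, ?_⟩
      · rw [card_singleton, List.length_nil]
      · intro n hn
        left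
        intro n' hn'
        rw [mem_singleton] at hn hn'
        omega
      · intro n hn n' hn' hlt
        rw [mem_singleton] at hn hn'
        omega
      · intro n hn
        rw [mem_singleton] at hn
        omega
      · intro n hn
        rw [mem_singleton] at hn
        exact ⟨_, rep_seg hC _ ha hb, hn.symm⟩
    | succ n ih =>
      intro b Is hn hb hIs hdis
      obtain ⟨J, hJ, hmax⟩ := exists_max_image Is.toFinset (fun I => I.1) (by
        rw [List.toFinset_nonempty_iff]
        intro h
        rw [h] at hn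
        simp at hn)
      rw [List.mem_toFinset] at hJ
      have hperm := List.perm_cons_erase hJ
      have hd2 : (J :: Is.erase J).Pairwise Dis :=
        (List.Perm.pairwise_iff (fun h => h.symm) hperm).1 hdis
      rw [List.pairwise_cons] at hd2
      obtain ⟨hJa, hJ12, hJb, hJW, hJK⟩ := hIs J hJ
      have hlen : (Is.erase J).length = n := by
        rw [List.length_erase_of_mem hJ, hn, Nat.add_sub_cancel]
      obtain ⟨X, hX1, hX2, hX3, hX4, hX5⟩ := ih (J.1 - 1) (Is.erase J) hlen (by omega) (by
        intro I hI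
        have hI' := List.mem_of_mem_erase hI
        obtain ⟨g1, g2, g3, g4, g5⟩ := hIs I hI'
        have g6 := hmax I (List.mem_toFinset.2 hI')
        have g7 : I.1 ≤ J.1 := g6
        refine ⟨g1, g2, ?_, g4, g5⟩
        rcases hd2.1 I hI with h | h <;> omega) hd2.2
      have hne : X.Nonempty := by
        rw [← card_pos]
        omega
      obtain ⟨lJ, rJ, hJl⟩ := h1 V Gr L c v P lam hC J.1 J.2 (by omega) hJ12 (by omega)
      have rJ' : Rep Gr (Hs v P lam J.1 J.2) (seg c J.1 J.2) lJ := rJ
      have hpos : 1 ≤ lJ.length := by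
        rcases Nat.eq_zero_or_pos lJ.length with h | h
        · exfalso
          have h3 := rJ.head
          rw [List.eq_nil_of_length_eq_zero h, List.head?_nil] at h3
          have h4 : seg c J.1 J.2 = [] := List.head?_eq_none_iff.1 h3.symm
          have h5 := length_seg c J.1 J.2
          rw [h4, List.length_nil] at h5
          omega
        · exact h
      have l1 := length_seg c J.1 J.2
      have l2 := length_seg c (J.2 + 1) b
      have l3 := length_seg c a (J.1 - 1)
      have l4 := length_seg c a b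
      have l5 := length_seg c J.1 b
      have rs : Rep Gr (Hs v P lam (J.2 + 1) b) (seg c (J.2 + 1) b) (seg c (J.2 + 1) b) :=
        rep_seg hC _ (by omega) hb
      have rshort : Rep Gr (Hs v P lam J.1 b) (seg c J.1 b) (lJ ++ seg c (J.2 + 1) b) :=
        glue hC (by omega) (by omega) hJb hb rJ' rs
      have rlong : Rep Gr (Hs v P lam J.1 b) (seg c J.1 b) (seg c J.1 b) :=
        rep_seg hC _ (by omega) hb
      have ecut : J.1 - 1 + 1 = J.1 := by omega
      have gl : ∀ {l1 l2 : List V}, Rep Gr (Hs v P lam a (J.1 - 1)) (seg c a (J.1 - 1)) l1 →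
          Rep Gr (Hs v P lam J.1 b) (seg c J.1 b) l2 →
          Rep Gr (Hs v P lam a b) (seg c a b) (l1 ++ l2) := by
        intro l1 l2 r1 r2
        refine glue hC ha (by omega) (by omega) hb r1 ?_
        rw [ecut]
        exact r2
      obtain ⟨n1, n2, n3⟩ := numbers (r := (seg c J.1 b).length)
        (s := (lJ ++ seg c (J.2 + 1) b).length) hne hK (by
          rw [List.length_append]
          omega) (by
          rw [List.length_append]
          omega) hX2 hX3
      refine ⟨insert (X.min' hne + (lJ ++ seg c (J.2 + 1) b).length)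
        (X.image (· + (seg c J.1 b).length)), ?_, n2, n3, ?_, ?_⟩
      · rw [n1]
        omega
      · intro n' hn'
        rcases mem_insert.1 hn' with h | h
        · have g1 := hX4 _ (X.min'_mem hne)
          rw [List.length_append] at h
          omega
        · obtain ⟨m, hm, rfl⟩ := mem_image.1 h
          have g1 := hX4 _ hm
          change m + (seg c J.1 b).length ≤ _
          omega
      · intro n' hn'
        rcases mem_insert.1 hn' with h | h
        · obtain ⟨l', r', hl'⟩ := hX5 _ (X.min'_mem hne)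
          exact ⟨l' ++ (lJ ++ seg c (J.2 + 1) b), gl r' rshort, by
            rw [List.length_append, hl', h]⟩
        · obtain ⟨m, hm, rfl⟩ := mem_image.1 h
          obtain ⟨l', r', hl'⟩ := hX5 _ hm
          exact ⟨l' ++ seg c J.1 b, gl r' rlong, by rw [List.length_append, hl']⟩
  exact key Is.length b Is rfl hb hIs hdis

end Pool.Agent.CycMC
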