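import Pool.Agent.CycMC.Targets

/-!
# Many links inside of an interval give a short path
-/

set_option autoImplicit false

namespace Pool.Agent.CycMC

open Finset
open Pool.Agent.CycSp (Pt Cyc)

namespace SHORT

variable {V : Type} {Gr : SimpleGraph V}

/-- Extension of a path. -/
lemma ext {l : List V} {s x y : V} (h1 : l.IsChain Gr.Adj) (h2 : l.Nodup)
    (h3 : l.head? = some s) (h4 : l.getLast? = some x) (h5 : Gr.Adj x y) (h6 : y ∉ l) :
    (l ++ [y]).IsChain Gr.Adj ∧ (l ++ [y]).Nodup ∧ (l ++ [y]).head? = some s ∧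
      (l ++ [y]).getLast? = some y := by
  refine ⟨?_, ?_, ?_, ?_⟩
  · rw [List.isChain_append]
    refine ⟨h1, by simp, fun u hu w hw => ?_⟩
    rw [h4, Option.mem_some_iff] at hu
    rw [List.head?_cons, Option.mem_some_iff] at hw
    rw [← hu, ← hw]
    exact h5
  · rw [List.nodup_append]
    refine ⟨h2, by simp, fun u hu w hw => ?_⟩
    rw [List.mem_singleton] at hw
    rw [hw]
    exact fun e => h6 (e ▸ hu)
  · rw [List.head?_append, h3]
    rfl
  · simp

lemma core {L : ℤ} {c v : ℤ → V} {P : Finset Pt} {lam : ℕ} (H : Cyc Gr L c v P lam) {a : ℤ}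
    (ha : 0 ≤ a) (k : ℕ) : a + k < L → ∃ l : List V, l.IsChain Gr.Adj ∧ l.Nodup ∧
      l.head? = some (c a) ∧ l.getLast? = some (c (a + k)) ∧
      (∀ u ∈ l, (∃ j, a ≤ j ∧ j ≤ a + k ∧ u = c j) ∨
        (lam = 2 ∧ ∃ p ∈ P, a ≤ p.1 ∧ p.1 < a + k ∧ u = v p.1)) ∧
      3 * l.length + (P.filter (fun p => a ≤ p.1 ∧ p.2 ≤ a + k)).card ≤ 3 * (k + 1) := by
  induction k using Nat.strong_induction_on with
  | _ k ih =>
    intro hk
    have hlam : 1 ≤ lam ∧ lam ≤ 2 := by
      rcases H.link with h | h
      · rw [h.1]; exact ⟨le_refl _, by norm_num⟩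
      · rw [h.1]; exact ⟨by norm_num, le_refl _⟩
    have hub : ∀ p ∈ P, lam = 2 → ∀ j, 0 ≤ j → j < L → v p.1 ≠ c j := by
      intro p hp h2 j hj hj'
      rcases H.link with h | h
      · omega
      · exact h.2.2.1 p hp j hj hj'
    by_cases hp : ∃ p ∈ P, a ≤ p.1 ∧ p.2 = a + k
    · obtain ⟨p, hpP, hp1, hp2⟩ := hp
      have hm := H.mem p hpP
      obtain ⟨m, hm'⟩ : ∃ m : ℕ, p.1 = a + m := ⟨(p.1 - a).toNat, by omega⟩
      have hmk : m + lam < k := by omega
      obtain ⟨l, g1, g2, g3, g4, g5, g6⟩ := ih m (by omega) (by omega)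
      -- the count
      have hcount : (P.filter (fun p => a ≤ p.1 ∧ p.2 ≤ a + k)).card ≤
          (P.filter (fun p => a ≤ p.1 ∧ p.2 ≤ a + m)).card + (k - m) := by
        have h1 : P.filter (fun p => a ≤ p.1 ∧ p.2 ≤ a + k) ⊆
            P.filter (fun p => a ≤ p.1 ∧ p.2 ≤ a + m) ∪
              P.filter (fun p => a + m < p.2 ∧ p.2 ≤ a + k) := by
          intro q hq
          rw [mem_filter] at hq
          rw [mem_union, mem_filter, mem_filter]
          by_cases h : q.2 ≤ a + m
          · exact Or.inl ⟨hq.1, hq.2.1, h⟩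
          · exact Or.inr ⟨hq.1, by omega, hq.2.2⟩
        have h2 : (P.filter (fun p => a + m < p.2 ∧ p.2 ≤ a + k)).card ≤
            (Finset.Ioc (a + (m : ℤ)) (a + k)).card := by
          apply card_le_card_of_injOn (fun p => p.2)
          · intro q hq
            rw [mem_coe, mem_filter] at hq
            rw [mem_coe, mem_Ioc]
            exact hq.2
          · intro q hq q' hq' he
            rw [mem_coe, mem_filter] at hq hq'
            exact H.disty q hq.1 q' hq'.1 he
        rw [Int.card_Ioc] at h2
        have h3 := (card_le_card h1).trans (card_union_le _ _)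
        omega
      -- vertices of `l`
      have hci : ∀ u ∈ l, u ≠ c (a + k) := by
        intro u hu e
        rcases g5 u hu with ⟨j, hj1, hj2, hj3⟩ | ⟨hl2, q, hq, hq1, hq2, hq3⟩
        · have := H.inj j (a + k) (by omega) (by omega) (by omega) hk (by rw [← hj3, e])
          omega
        · exact hub q hq hl2 (a + k) (by omega) hk (by rw [← hq3, e])
      rcases H.link with ⟨hl, hadj⟩ | ⟨hl, hadj, _, hinj⟩
      · have hA : Gr.Adj (c (a + m)) (c (a + k)) := by
          have := hadj p hpP
          rwa [hm', hp2] at this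
        obtain ⟨f1, f2, f3, f4⟩ := ext g1 g2 g3 g4 hA (fun h => hci _ h rfl)
        refine ⟨l ++ [c (a + k)], f1, f2, f3, f4, ?_, ?_⟩
        · intro u hu
          rw [List.mem_append, List.mem_singleton] at hu
          rcases hu with hu | rfl
          · rcases g5 u hu with ⟨j, hj1, hj2, hj3⟩ | ⟨hl2, q, hq, hq1, hq2, hq3⟩
            · exact Or.inl ⟨j, hj1, by omega, hj3⟩
            · exact Or.inr ⟨hl2, q, hq, hq1, by omega, hq3⟩
          · exact Or.inl ⟨a + k, by omega, le_refl _, rfl⟩
        · rw [List.length_append, List.length_singleton]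
          omega
      · have hA := hadj p hpP
        rw [hp2] at hA
        have hA1 : Gr.Adj (c (a + m)) (v p.1) := by
          rw [← hm']
          exact hA.1
        have hv : v p.1 ∉ l := by
          intro h
          rcases g5 _ h with ⟨j, hj1, hj2, hj3⟩ | ⟨hl2, q, hq, hq1, hq2, hq3⟩
          · exact hub p hpP hl j (by omega) (by omega) hj3
          · have := hinj p hpP q hq hq3
            omega
        obtain ⟨f1, f2, f3, f4⟩ := ext g1 g2 g3 g4 hA1 hv
        have hck : c (a + k) ∉ l ++ [v p.1] := by
          intro h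
          rw [List.mem_append, List.mem_singleton] at h
          rcases h with h | h
          · exact hci _ h rfl
          · exact hub p hpP hl (a + k) (by omega) hk h.symm
        obtain ⟨e1, e2, e3, e4⟩ := ext f1 f2 f3 f4 hA.2 hck
        refine ⟨l ++ [v p.1] ++ [c (a + k)], e1, e2, e3, e4, ?_, ?_⟩
        · intro u hu
          rw [List.mem_append, List.mem_append, List.mem_singleton, List.mem_singleton] at hu
          rcases hu with (hu | rfl) | rfl
          · rcases g5 u hu with ⟨j, hj1, hj2, hj3⟩ | ⟨hl2, q, hq, hq1, hq2, hq3⟩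
            · exact Or.inl ⟨j, hj1, by omega, hj3⟩
            · exact Or.inr ⟨hl2, q, hq, hq1, by omega, hq3⟩
          · exact Or.inr ⟨hl, p, hpP, hp1, by omega, rfl⟩
          · exact Or.inl ⟨a + k, by omega, le_refl _, rfl⟩
        · rw [List.length_append, List.length_append, List.length_singleton,
            List.length_singleton]
          omega
    · cases k with
      | zero =>
        refine ⟨[c a], by simp, by simp, rfl, by simp, ?_, ?_⟩
        · intro u hu
          rw [List.mem_singleton] at hu
          exact Or.inl ⟨a, le_refl _, by simp, hu⟩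
        · have h0 : P.filter (fun p => a ≤ p.1 ∧ p.2 ≤ a + (0 : ℕ)) = ∅ := by
            rw [filter_eq_empty_iff]
            intro q hq h
            have := H.mem q hq
            have := h.2
            push_cast at this
            omega
          rw [h0]
          simp
      | succ k =>
        obtain ⟨l, g1, g2, g3, g4, g5, g6⟩ := ih k (by omega) (by push_cast at hk ⊢; omega)
        push_cast at hk hp ⊢
        have hcount : P.filter (fun p => a ≤ p.1 ∧ p.2 ≤ a + ((k : ℤ) + 1)) =
            P.filter (fun p => a ≤ p.1 ∧ p.2 ≤ a + k) := by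
          apply filter_congr
          intro q hq
          constructor
          · intro h
            refine ⟨h.1, ?_⟩
            by_contra h'
            exact hp ⟨q, hq, h.1, by omega⟩
          · intro h
            exact ⟨h.1, by omega⟩
        have hA : Gr.Adj (c (a + k)) (c (a + (k + 1))) := by
          have := H.adj (a + k) (by omega) (by omega)
          rwa [add_assoc] at this
        have hci : c (a + (k + 1)) ∉ l := by
          intro hu
          rcases g5 _ hu with ⟨j, hj1, hj2, hj3⟩ | ⟨hl2, q, hq, hq1, hq2, hq3⟩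
          · have := H.inj j (a + (k + 1)) (by omega) (by omega) (by omega) hk hj3.symm
            omega
          · exact hub q hq hl2 _ (by omega) hk hq3.symm
        obtain ⟨f1, f2, f3, f4⟩ := ext g1 g2 g3 g4 hA hci
        refine ⟨l ++ [c (a + (k + 1))], f1, f2, f3, f4, ?_, ?_⟩
        · intro u hu
          rw [List.mem_append, List.mem_singleton] at hu
          rcases hu with hu | rfl
          · rcases g5 u hu with ⟨j, hj1, hj2, hj3⟩ | ⟨hl2, q, hq, hq1, hq2, hq3⟩
            · exact Or.inl ⟨j, hj1, by omega, hj3⟩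
            · exact Or.inr ⟨hl2, q, hq, hq1, by omega, hq3⟩
          · exact Or.inl ⟨a + (k + 1), by omega, le_refl _, rfl⟩
        · rw [hcount, List.length_append, List.length_singleton]
          omega

/-- `seg` as a list of values at natural numbers. -/
lemma seg_eq (c : ℤ → V) (a b : ℤ) :
    seg c a b = (List.range (b + 1 - a).toNat).map (fun i : ℕ => c (a + (i : ℤ))) := by
  unfold seg
  generalize List.range (b + 1 - a).toNat = l
  induction l with
  | nil => rfl
  | cons x l ih =>
    simp only [List.bind_eq_flatMap, List.pure_def, List.flatMap_cons, List.map_append,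
      List.map_cons, List.map_nil] at ih ⊢
    rw [ih]
    rfl

end SHORT

theorem p_SHORT : T_SHORT := by
  intro V Gr L c v P lam H a b ha hab hb
  obtain ⟨k, hk⟩ : ∃ k : ℕ, b = a + k := ⟨(b - a).toNat, by omega⟩
  subst hk
  obtain ⟨l, g1, g2, g3, g4, g5, g6⟩ := SHORT.core H ha k hb
  have hn : (a + (k : ℤ) + 1 - a).toNat = k + 1 := by omega
  refine ⟨l, ⟨g1, g2, ?_, ?_, ?_⟩, ?_⟩
  · rw [g3, SHORT.seg_eq, hn, List.range_succ_eq_map]
    simp
  · rw [g4, SHORT.seg_eq, hn, List.range_succ]
    simp
  · intro u hu
    rcases g5 u hu with ⟨j, hj1, hj2, hj3⟩ | ⟨hl2, q, hq, hq1, hq2, hq3⟩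
    · left
      rw [SHORT.seg_eq, hn, List.mem_map]
      refine ⟨(j - a).toNat, List.mem_range.2 (by omega), ?_⟩
      have h1 : a + ((j - a).toNat : ℤ) = j := by omega
      rw [hj3, h1]
    · right
      exact ⟨hl2, q, hq, hq1, by omega, hq3⟩
  · rw [SHORT.seg_eq, hn, List.length_map, List.length_range]
    exact g6

end Pool.Agent.CycMC
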