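import Pool.Agent.CycMC.Targets

/-!
# CycMC: STEP
-/

set_option autoImplicit false

namespace Pool.Agent.CycMC

open Finset
open Pool.Agent.HubG (cycleSet)
open Pool.Agent.CycSp (Pt Cyc ZD)

namespace STEP_

lemma split1 {α : Type} {w : List α} {i : ℕ} {a : α} (h : w[i]? = some a) :
    ∃ u z, w = u ++ a :: z ∧ u.length = i := by
  obtain ⟨hi, ha⟩ := List.getElem?_eq_some_iff.1 h
  refine ⟨w.take i, w.drop (i + 1), ?_, ?_⟩
  · rw [← ha, ← List.drop_eq_getElem_cons hi, List.take_append_drop]
  · rw [List.length_take, min_eq_left hi.le]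

lemma split2 {α : Type} {w : List α} {i j : ℕ} {a c : α} (hij : i < j) (h : w[i]? = some a)
    (h' : w[j]? = some c) : ∃ u v z, w = u ++ a :: (v ++ c :: z) ∧ u.length = i ∧
      (u ++ a :: v).length = j := by
  obtain ⟨u, z, hw, hu⟩ := split1 h
  have h2 : z[j - i - 1]? = some c := by
    rw [hw, List.getElem?_append_right (by omega), hu] at h'
    rw [show j - i = (j - i - 1) + 1 by omega, List.getElem?_cons_succ] at h'
    exact h'
  obtain ⟨v, z', hz, hv⟩ := split1 h2
  refine ⟨u, v, z', by rw [hw, hz], hu, ?_⟩
  rw [List.length_append, List.length_cons, hu, hv]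
  omega

lemma split4 {α : Type} {w : List α} {i j k l : ℕ} {a b c d : α} (hij : i < j) (hjk : j < k)
    (hkl : k < l) (h1 : w[i]? = some a) (h2 : w[j]? = some b) (h3 : w[k]? = some c)
    (h4 : w[l]? = some d) :
    ∃ u v x y z, w = u ++ a :: (v ++ b :: (x ++ c :: (y ++ d :: z))) := by
  obtain ⟨u, v, z, hw, hu, hv⟩ := split2 hij h1 h2
  have hw2 : w = (u ++ a :: v ++ [b]) ++ z := by rw [hw]; simp
  have hl : (u ++ a :: v ++ [b]).length = j + 1 := by
    rw [List.length_append, hv, List.length_singleton]
  have h3' : z[k - (j + 1)]? = some c := by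
    rw [hw2, List.getElem?_append_right (by omega), hl] at h3
    exact h3
  have h4' : z[l - (j + 1)]? = some d := by
    rw [hw2, List.getElem?_append_right (by omega), hl] at h4
    exact h4
  obtain ⟨x, y, z', hz, -, -⟩ := split2 (by omega) h3' h4'
  exact ⟨u, v, x, y, z', by rw [hw, hz]⟩

variable {V : Type}

lemma kap_mono {B B' : List (Band V)} (h : ∀ b ∈ B, b ∈ B') : kap B ⊆ kap B' := by
  rintro v ⟨b, hb, hv⟩
  exact ⟨b, h b hb, hv⟩

lemma rep_mono {Gr : SimpleGraph V} {S S' : Set V} (h : S ⊆ S') {l l' : List V}
    (hr : Rep Gr S l l') : Rep Gr S' l l' :=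
  ⟨hr.chain, hr.nodup, hr.head, hr.last, fun v hv => (hr.sub v hv).imp_right (fun h1 => h h1)⟩

lemma l1_ne (b : Band V) : 2 ≤ b.l1.length := by
  unfold Band.l1
  simp

lemma l2_ne (b : Band V) : 2 ≤ b.l2.length := by
  unfold Band.l2
  simp

end STEP_

open STEP_ in
theorem p_STEP (hS : T_SYM) (hN : T_NORM) (hT : T_TW2) (hD : T_DB) : T_STEP := by
  intro V Gr lam K W w B hB
  obtain ⟨B', hB', hlen, hkap, htu⟩ := hN V Gr lam K W w B hB
  by_cases h1 : ∃ b ∈ B', Tw w b
  · right
    obtain ⟨b, hb, i, j, hij, hi, hj⟩ := h1
    obtain ⟨s, t, hst⟩ := List.append_of_mem hb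
    have hperm : B'.Perm (b :: (s ++ t)) := by
      rw [hst]
      exact List.perm_middle
    have hP : PSt Gr lam K W w (b :: (s ++ t)) := (hS V Gr lam K W w).1 _ _ hperm hB'
    have hl : B'.length = (s ++ t).length + 1 := by
      rw [hperm.length_eq, List.length_cons]
    obtain ⟨u, v, z, hw, -, -⟩ := split2 hij hi hj
    have hP2 := hP
    rw [hw] at hP2
    obtain ⟨w', hw', hrep, hln⟩ := hT V Gr lam K W b (s ++ t) u v z hP2
    rw [← hw] at hrep hln
    have hbig := hP.big b List.mem_cons_self
    have hsmall := hP.small b List.mem_cons_self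
    have hkl := hP.kl b List.mem_cons_self
    have hwl : b.l1.length + b.l2.length ≤ w.flatten.length := by
      rw [hw]
      simp only [List.flatten_append, List.flatten_cons, List.length_append]
      omega
    have hsub : ∀ c ∈ s ++ t, c ∈ B' := fun c hc =>
      hperm.symm.subset (List.mem_cons_of_mem _ hc)
    refine ⟨w', s ++ t, hw', by omega, by omega, ?_, ?_, by omega, by omega, by omega⟩
    · rw [← hkap]
      exact kap_mono hsub
    · rw [← hkap]
      refine rep_mono (kap_mono ?_) hrep
      intro c hc
      rw [List.mem_singleton] at hc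
      rw [hc]
      exact hb
  · by_cases h2 : ∃ b ∈ B', ∃ c ∈ B', Xing w b c
    · right
      obtain ⟨b, hb, c, hc, i, j, k, l, hij, hjk, hkl', hi, hj, hk, hl'⟩ := h2
      have hbc : c ≠ b := by
        rintro rfl
        obtain ⟨u, v, z, hw, -, -⟩ := split2 hij hi hj
        have hnd := hB'.nodup
        rw [hw] at hnd
        simp only [List.flatten_append, List.flatten_cons] at hnd
        have h3 := (List.nodup_append.1 hnd).2.1
        have h4 := (List.nodup_append.1 h3).2.2
        have h5 : c.p ∈ c.l1 := by
          unfold Band.l1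
          exact List.mem_cons_self
        exact h4 c.p h5 c.p (List.mem_append_right _ (List.mem_append_left _ h5)) rfl
      obtain ⟨s, t, hst⟩ := List.append_of_mem hb
      have hperm1 : B'.Perm (b :: (s ++ t)) := by
        rw [hst]
        exact List.perm_middle
      have hc2 : c ∈ s ++ t := by
        rcases List.mem_cons.1 (hperm1.subset hc) with h | h
        · exact absurd h hbc
        · exact h
      obtain ⟨s', t', hst'⟩ := List.append_of_mem hc2
      have hperm : B'.Perm (b :: c :: (s' ++ t')) := by
        refine hperm1.trans (List.Perm.cons b ?_)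
        rw [hst']
        exact List.perm_middle
      have hP : PSt Gr lam K W w (b :: c :: (s' ++ t')) := (hS V Gr lam K W w).1 _ _ hperm hB'
      have hl : B'.length = (s' ++ t').length + 2 := by
        rw [hperm.length_eq, List.length_cons, List.length_cons]
      obtain ⟨u, v, x, y, z, hw⟩ := split4 hij hjk hkl' hi hj hk hl'
      have hP2 := hP
      rw [hw] at hP2
      obtain ⟨w', hw', hrep, hln⟩ := hD V Gr lam K W b c (s' ++ t') u v x y z hP2
      rw [← hw] at hrep hln
      have hbig := hP.big b List.mem_cons_self
      have hsmall := hP.small b List.mem_cons_self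
      have hkl := hP.kl b List.mem_cons_self
      have hbig2 := hP.big c (List.mem_cons_of_mem _ List.mem_cons_self)
      have hsmall2 := hP.small c (List.mem_cons_of_mem _ List.mem_cons_self)
      have hwl : b.l1.length + b.l2.length + c.l1.length + c.l2.length ≤ w.flatten.length := by
        rw [hw]
        simp only [List.flatten_append, List.flatten_cons, List.length_append,
          List.length_reverse]
        omega
      have hsub : ∀ d ∈ s' ++ t', d ∈ B' := fun d hd =>
        hperm.symm.subset (List.mem_cons_of_mem _ (List.mem_cons_of_mem _ hd))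
      refine ⟨w', s' ++ t', hw', by omega, by omega, ?_, ?_, by omega, by omega, by omega⟩
      · rw [← hkap]
        exact kap_mono hsub
      · rw [← hkap]
        refine rep_mono (kap_mono ?_) hrep
        intro d hd
        simp only [List.mem_cons, List.not_mem_nil, or_false] at hd
        rcases hd with rfl | rfl
        · exact hb
        · exact hc
    · left
      refine ⟨B', hB', hlen, hkap, ?_, ?_⟩
      · intro b hb
        rcases htu b hb with h | h
        · exact absurd ⟨b, hb, h⟩ h1
        · exact h
      · intro b hb c hc h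
        exact h2 ⟨b, hb, c, hc, h⟩

end Pool.Agent.CycMC
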