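import Pool.Agent.CycMC.Targets

/-! SYM: symmetries of the state. -/

set_option autoImplicit false

namespace Pool.Agent.CycMC

open Finset
open Pool.Agent.HubG (cycleSet)

namespace SYM

variable {V : Type}

theorem flip_l1 (b : Band V) : b.flip.l1 = b.l1.reverse := by
  simp [Band.flip, Band.l1]

theorem flip_l2 (b : Band V) : b.flip.l2 = b.l2.reverse := by
  simp [Band.flip, Band.l2]

theorem swap_l1 (b : Band V) : b.swap.l1 = b.l2 := rfl

theorem swap_l2 (b : Band V) : b.swap.l2 = b.l1 := rfl

theorem mem_kap_cons {b : Band V} {B : List (Band V)} {v : V} :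
    v ∈ kap (b :: B) ↔ v ∈ b.k ++ b.k' ∨ v ∈ kap B := by
  simp only [kap, Set.mem_setOf_eq, List.mem_cons, List.mem_append]
  constructor
  · rintro ⟨c, rfl | hc, h⟩
    · exact Or.inl h
    · exact Or.inr ⟨c, hc, h⟩
  · rintro (h | ⟨c, hc, h⟩)
    · exact ⟨b, Or.inl rfl, h⟩
    · exact ⟨c, Or.inr hc, h⟩

theorem replace {Gr : SimpleGraph V} {lam K W : ℕ} {w : List (List V)} {b b' : Band V}
    {B : List (Band V)} (h : PSt Gr lam K W w (b :: B))
    (h1 : (b'.l1 ++ b'.l2).Perm (b.l1 ++ b.l2)) (h2 : (b'.k ++ b'.k').Perm (b.k ++ b.k'))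
    (h3 : (b'.l1 ∈ w ∨ b'.l1.reverse ∈ w) ∧ (b'.l2 ∈ w ∨ b'.l2.reverse ∈ w))
    (h4 : (b'.p :: (b'.k ++ [b'.q])).IsChain Gr.Adj ∧
      (b'.p' :: (b'.k' ++ [b'.q'])).IsChain Gr.Adj)
    (h5 : b'.k.length + 1 = lam ∧ b'.k'.length + 1 = lam) : PSt Gr lam K W w (b' :: B) := by
  have hl : b'.l1.length + b'.l2.length = b.l1.length + b.l2.length := by
    have := h1.length_eq
    rwa [List.length_append, List.length_append] at this
  refine ⟨h.chain, h.nodup, ?_, ?_, ?_, ?_, ?_, ?_, ?_, ?_⟩
  · have := h.disj
    rw [List.flatMap_cons] at this ⊢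
    exact ((h1.append_right _).nodup_iff).2 this
  · have := h.kn
    rw [List.flatMap_cons] at this ⊢
    exact ((h2.append_right _).nodup_iff).2 this
  · intro v hv
    apply h.kout
    rw [mem_kap_cons] at hv ⊢
    rcases hv with hv | hv
    · exact Or.inl (h2.mem_iff.1 hv)
    · exact Or.inr hv
  · intro c hc
    rcases List.mem_cons.1 hc with rfl | hc
    · exact h3
    · exact h.legs c (List.mem_cons_of_mem _ hc)
  · intro c hc
    rcases List.mem_cons.1 hc with rfl | hc
    · exact h4
    · exact h.link c (List.mem_cons_of_mem _ hc)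
  · intro c hc
    rcases List.mem_cons.1 hc with rfl | hc
    · exact h5
    · exact h.kl c (List.mem_cons_of_mem _ hc)
  · intro c hc
    rcases List.mem_cons.1 hc with rfl | hc
    · rw [hl]
      exact h.big b List.mem_cons_self
    · exact h.big c (List.mem_cons_of_mem _ hc)
  · intro c hc
    rcases List.mem_cons.1 hc with rfl | hc
    · rw [hl]
      exact h.small b List.mem_cons_self
    · exact h.small c (List.mem_cons_of_mem _ hc)

theorem chain_rev {Gr : SimpleGraph V} {l : List V} (h : l.IsChain Gr.Adj) :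
    l.reverse.IsChain Gr.Adj := by
  rw [List.isChain_reverse]
  exact h.imp fun _ _ h => h.symm

end SYM

open SYM in
theorem p_SYM : T_SYM := by
  intro V Gr lam K W w
  refine ⟨?_, ?_⟩
  · intro B B' hB h
    refine ⟨h.chain, h.nodup, ?_, ?_, ?_, ?_, ?_, ?_, ?_, ?_⟩
    · exact ((hB.flatMap_right _).nodup_iff).1 h.disj
    · exact ((hB.flatMap_right _).nodup_iff).1 h.kn
    · rintro v ⟨b, hb, hv⟩
      exact h.kout v ⟨b, hB.mem_iff.2 hb, hv⟩
    · exact fun b hb => h.legs b (hB.mem_iff.2 hb)
    · exact fun b hb => h.link b (hB.mem_iff.2 hb)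
    · exact fun b hb => h.kl b (hB.mem_iff.2 hb)
    · exact fun b hb => h.big b (hB.mem_iff.2 hb)
    · exact fun b hb => h.small b (hB.mem_iff.2 hb)
  · intro b B h
    have g3 := h.legs b List.mem_cons_self
    have g4 := h.link b List.mem_cons_self
    have g5 := h.kl b List.mem_cons_self
    refine ⟨replace h ?_ ?_ ?_ ?_ ?_, replace h ?_ ?_ ?_ ?_ ?_, ?_⟩
    · rw [flip_l1, flip_l2]
      exact (List.reverse_perm _).append (List.reverse_perm _)
    · exact List.perm_append_comm
    · rw [flip_l1, flip_l2, List.reverse_reverse, List.reverse_reverse]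
      exact ⟨g3.1.symm, g3.2.symm⟩
    · exact ⟨g4.2, g4.1⟩
    · exact ⟨g5.2, g5.1⟩
    · rw [swap_l1, swap_l2]
      exact List.perm_append_comm
    · exact (List.reverse_perm _).append (List.reverse_perm _)
    · exact ⟨g3.2, g3.1⟩
    · have e1 := chain_rev g4.1
      have e2 := chain_rev g4.2
      simp only [List.reverse_cons, List.reverse_append, List.reverse_nil, List.nil_append,
        List.cons_append, List.append_assoc] at e1 e2
      exact ⟨e1, e2⟩
    · change b.k.reverse.length + 1 = lam ∧ b.k'.reverse.length + 1 = lam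
      rw [List.length_reverse, List.length_reverse]
      exact g5
    · refine ⟨h.chain, h.nodup, ?_, ?_, ?_, ?_, ?_, ?_, ?_, ?_⟩
      · have := h.disj
        rw [List.flatMap_cons] at this
        exact this.of_append_right
      · have := h.kn
        rw [List.flatMap_cons] at this
        exact this.of_append_right
      · intro v hv
        exact h.kout v (mem_kap_cons.2 (Or.inr hv))
      · exact fun c hc => h.legs c (List.mem_cons_of_mem _ hc)
      · exact fun c hc => h.link c (List.mem_cons_of_mem _ hc)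
      · exact fun c hc => h.kl c (List.mem_cons_of_mem _ hc)
      · exact fun c hc => h.big c (List.mem_cons_of_mem _ hc)
      · exact fun c hc => h.small c (List.mem_cons_of_mem _ hc)

end Pool.Agent.CycMC
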