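import Pool.Agent.CycMC.Targets

/-!
# Cycle sets of graphs without a complete minor: TAA and TBB

All legs in the first part, or all legs in the second part, of the cycle.
-/

set_option autoImplicit false

namespace Pool.Agent.CycMC

namespace TAA_

/-- A part of the word which contains all legs. -/
theorem sub_st {V : Type} {Gr : SimpleGraph V} {lam K W : ℕ} {w w' : List (List V)}
    {B : List (Band V)} (h : PSt Gr lam K W w B) (hc : w'.flatten.IsChain Gr.Adj)
    (hn : w'.flatten.Nodup) (hs : ∀ v ∈ w'.flatten, v ∈ w.flatten)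
    (h2 : ∀ b ∈ B, (b.l1 ∈ w' ∨ b.l1.reverse ∈ w') ∧ (b.l2 ∈ w' ∨ b.l2.reverse ∈ w')) :
    PSt Gr lam K W w' B where
  chain := hc
  nodup := hn
  disj := h.disj
  kn := h.kn
  kout := fun v hv hv' => h.kout v hv (hs v hv')
  legs := h2
  link := h.link
  kl := h.kl
  big := h.big
  small := h.small

/-- The word is not empty if it contains a leg. -/
theorem ne_nil {V : Type} {w : List (List V)} {B : List (Band V)} (hB : B ≠ [])
    (h2 : ∀ b ∈ B, (b.l1 ∈ w ∨ b.l1.reverse ∈ w) ∧ (b.l2 ∈ w ∨ b.l2.reverse ∈ w)) :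
    w.flatten ≠ [] := by
  obtain ⟨b, hb⟩ := List.exists_mem_of_ne_nil B hB
  intro h0
  rcases (h2 b hb).1 with h | h
  · have hp : b.p ∈ w.flatten := List.mem_flatten.2 ⟨_, h, by simp [Band.l1]⟩
    rw [h0] at hp
    simp at hp
  · have hp : b.p ∈ w.flatten := List.mem_flatten.2 ⟨_, h, by simp [Band.l1]⟩
    rw [h0] at hp
    simp at hp

/-- The word of a frame. -/
theorem flat {V : Type} (x : V) (J : List V) (wA wB : List (List V)) :
    ([x] :: (wA ++ J :: wB)).flatten = x :: (wA.flatten ++ (J ++ wB.flatten)) := by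
  simp

/-- Facts on one link from `x` to an element of `J`. -/
theorem lnk {V : Type} {Gr : SimpleGraph V} {lam K W : ℕ} {x hub : V} {J κ : List V}
    {wA wB : List (List V)} {B : List (Band V)} {I : Finset ℕ}
    (h : Fr Gr lam K W x hub J κ wA wB B I) {i : ℕ} (hi : i ∈ I) :
    ∃ y, ∃ hiJ : i < J.length, J[i] = y ∧ (x :: κ).IsChain Gr.Adj ∧
      (κ ++ [x]).IsChain Gr.Adj ∧
      (∀ a ∈ (x :: κ).getLast?, Gr.Adj a y) ∧ (∀ a ∈ (κ ++ [x]).head?, Gr.Adj y a) := by
  obtain ⟨y, hy, hc⟩ := h.lks i hi
  obtain ⟨hiJ, hy'⟩ := List.getElem?_eq_some_iff.1 hy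
  refine ⟨y, hiJ, hy', ?_⟩
  rcases h.hub with ⟨hk, _⟩ | ⟨hk, _⟩
  · subst hk
    simp only [List.nil_append, List.isChain_cons_cons, List.isChain_singleton, and_true] at hc
    simp [hc, hc.symm]
  · subst hk
    simp only [List.cons_append, List.nil_append, List.isChain_cons_cons,
      List.isChain_singleton, and_true] at hc
    simp [hc.1, hc.2, hc.1.symm, hc.2.symm]

/-- Facts on the inner vertices of the links. -/
theorem kout {V : Type} {Gr : SimpleGraph V} {lam K W : ℕ} {x hub : V} {J κ : List V}
    {wA wB : List (List V)} {B : List (Band V)} {I : Finset ℕ}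
    (h : Fr Gr lam K W x hub J κ wA wB B I) :
    κ.Nodup ∧ ∀ v ∈ κ, v ≠ x ∧ v ∉ wA.flatten ∧ v ∉ J ∧ v ∉ wB.flatten ∧ v ∉ kap B := by
  rcases h.hub with ⟨hk, _⟩ | ⟨hk, h1, h2⟩
  · subst hk
    simp
  · subst hk
    rw [flat] at h1
    simp only [List.mem_cons, List.mem_append, not_or] at h1
    refine ⟨by simp, ?_⟩
    intro v hv
    rw [List.mem_singleton] at hv
    subst hv
    exact ⟨h1.1, h1.2.1, h1.2.2.1, h1.2.2.2, h2⟩

end TAA_

/-- TAA: all legs in the first part. -/
theorem p_TAA (h1 : T_CORE) (h2 : T_CLS) : T_TAA := by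
  intro V Gr lam K W x hub J κ wA wB B I hK hB h hl
  have hF := TAA_.flat x J wA wB
  have hch := h.st.chain
  have hnd := h.st.nodup
  have hko := h.st.kout
  rw [hF] at hch hnd hko
  have e1 := (List.isChain_append (l₁ := [x]) (l₂ := wA.flatten ++ (J ++ wB.flatten))).1 hch
  have hA : PSt Gr lam K W wA B := TAA_.sub_st h.st (List.isChain_append.1 e1.2.1).1
    (List.nodup_append.1 (List.nodup_cons.1 hnd).2).1
    (fun v hv => by rw [hF]; simp [List.mem_flatten.1 hv]) hl
  clear e1
  have hR := h1 V Gr lam K W wA B hK hA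
  have hA0 := TAA_.ne_nil hB hl
  obtain ⟨hkn, hkv⟩ := TAA_.kout h
  generalize hAe : wA.flatten = a at *
  generalize hBe : wB.flatten = b at *
  refine h2 V Gr (kap B) a K _ I (fun i => J.take (i + 1) ++ (κ ++ [x])) (lam + 1) 1 hR hA0 ?_
  intro i hi
  obtain ⟨y, hiJ, hy, c1, c2, c3, c4⟩ := TAA_.lnk h hi
  have hJt : J.take (i + 1) = J.take i ++ [y] := by
    rw [List.take_succ_eq_append_getElem hiJ, hy]
  have hJ0 : J ≠ [] := List.ne_nil_of_length_pos (by omega)
  have hch1 := (List.isChain_append (l₁ := [x]) (l₂ := a ++ (J ++ b))).1 hch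
  have hch2 := List.isChain_append.1 hch1.2.1
  have hch3 := List.isChain_append.1 hch2.2.1
  have htk : (J.take (i + 1)).IsChain Gr.Adj := hch3.1.take _
  have hnd1 := List.nodup_cons.1 hnd
  have hnd2 := List.nodup_append.1 hnd1.2
  have hnd3 := List.nodup_append.1 hnd2.2.1
  have hsub : ∀ v ∈ J.take (i + 1), v ∈ J := fun v hv => List.mem_of_mem_take hv
  refine ⟨?_, ?_, ?_, ?_, ?_, ?_, ?_⟩
  · simp only [List.length_append, List.length_take, List.length_singleton]
    omega
  · refine List.isChain_append.2 ⟨htk, c2, ?_⟩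
    intro u hu v hv
    rw [hJt] at hu
    simp only [List.getLast?_append, List.getLast?_singleton, Option.some_or,
      Option.mem_def, Option.some.injEq] at hu
    subst hu
    exact c4 v hv
  · refine List.nodup_append.2 ⟨hnd3.1.sublist (List.take_sublist _ _), ?_, ?_⟩
    · refine List.nodup_append.2 ⟨hkn, by simp, ?_⟩
      intro u hu v hv
      rw [List.mem_singleton] at hv
      subst hv
      exact (hkv u hu).1
    · intro u hu v hv huv
      subst huv
      rcases List.mem_append.1 hv with hv | hv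
      · exact (hkv u hv).2.2.1 (hsub u hu)
      · rw [List.mem_singleton] at hv
        subst hv
        exact hnd1.1 (List.mem_append.2 (Or.inr (List.mem_append.2 (Or.inl (hsub u hu)))))
  · intro v hv
    rcases List.mem_append.1 hv with hv | hv
    · refine ⟨fun hva => ?_, fun hvk => ?_⟩
      · exact hnd2.2.2 v hva v (List.mem_append.2 (Or.inl (hsub v hv))) rfl
      · exact hko v hvk (List.mem_cons_of_mem _
          (List.mem_append.2 (Or.inr (List.mem_append.2 (Or.inl (hsub v hv))))))
    · rcases List.mem_append.1 hv with hv | hv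
      · exact ⟨(hkv v hv).2.1, (hkv v hv).2.2.2.2⟩
      · rw [List.mem_singleton] at hv
        subst hv
        exact ⟨fun hva => hnd1.1 (List.mem_append.2 (Or.inl hva)),
          fun hvk => hko v hvk List.mem_cons_self⟩
  · intro u hu v hv
    refine hch2.2.2 u hu v ?_
    obtain ⟨j, J', rfl⟩ := List.exists_cons_of_ne_nil hJ0
    simpa using hv
  · intro u hu v hv
    simp only [List.getLast?_append, List.getLast?_singleton, Option.some_or,
      Option.mem_def, Option.some.injEq] at hu
    subst hu
    refine hch1.2.2 x (by simp) v ?_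
    obtain ⟨a0, a', rfl⟩ := List.exists_cons_of_ne_nil hA0
    simpa using hv
  · have hk := h.kl
    have hlen : (J.take (i + 1) ++ (κ ++ [x])).length = lam + 1 + i := by
      simp only [List.length_append, List.length_take, List.length_singleton]
      omega
    rw [hlen]
    push_cast
    ring

/-- TBB: all legs in the second part. -/
theorem p_TBB (h1 : T_CORE) (h2 : T_CLS) : T_TBB := by
  intro V Gr lam K W x hub J κ wA wB B I hK hB h hl
  have hF := TAA_.flat x J wA wB
  have hch := h.st.chain
  have hnd := h.st.nodup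
  have hko := h.st.kout
  have hcl := h.cl
  rw [hF] at hch hnd hko hcl
  have e1 := (List.isChain_append (l₁ := [x]) (l₂ := wA.flatten ++ (J ++ wB.flatten))).1 hch
  have hA : PSt Gr lam K W wB B := TAA_.sub_st h.st
    (List.isChain_append.1 (List.isChain_append.1 e1.2.1).2.1).2.1
    (List.nodup_append.1 (List.nodup_append.1 (List.nodup_cons.1 hnd).2).2.1).2.1
    (fun v hv => by rw [hF]; simp [List.mem_flatten.1 hv]) hl
  clear e1
  have hR := h1 V Gr lam K W wB B hK hA
  have hB0 := TAA_.ne_nil hB hl
  obtain ⟨hkn, hkv⟩ := TAA_.kout h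
  generalize hAe : wA.flatten = a at *
  generalize hBe : wB.flatten = b at *
  refine h2 V Gr (kap B) b K _ I (fun i => (x :: κ) ++ J.drop i) (lam + J.length) (-1) hR hB0 ?_
  intro i hi
  obtain ⟨y, hiJ, hy, c1, c2, c3, c4⟩ := TAA_.lnk h hi
  have hJd : J.drop i = y :: J.drop (i + 1) := by
    rw [List.drop_eq_getElem_cons hiJ, hy]
  have hJ0 : J ≠ [] := List.ne_nil_of_length_pos (by omega)
  have hch1 := (List.isChain_append (l₁ := [x]) (l₂ := a ++ (J ++ b))).1 hch
  have hch2 := List.isChain_append.1 hch1.2.1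
  have hch3 := List.isChain_append.1 hch2.2.1
  have htk : (J.drop i).IsChain Gr.Adj := hch3.1.drop _
  have hnd1 := List.nodup_cons.1 hnd
  have hnd2 := List.nodup_append.1 hnd1.2
  have hnd3 := List.nodup_append.1 hnd2.2.1
  have hsub : ∀ v ∈ J.drop i, v ∈ J := fun v hv => List.mem_of_mem_drop hv
  have hxb : x ∉ b := fun hv =>
    hnd1.1 (List.mem_append.2 (Or.inr (List.mem_append.2 (Or.inr hv))))
  have hxJ : x ∉ J := fun hv =>
    hnd1.1 (List.mem_append.2 (Or.inr (List.mem_append.2 (Or.inl hv))))
  refine ⟨?_, ?_, ?_, ?_, ?_, ?_, ?_⟩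
  · rw [hJd]
    simp only [List.length_append, List.length_cons]
    omega
  · refine List.isChain_append.2 ⟨c1, htk, ?_⟩
    intro u hu v hv
    rw [hJd] at hv
    simp only [List.head?_cons, Option.mem_def, Option.some.injEq] at hv
    subst hv
    exact c3 u hu
  · refine List.nodup_append.2 ⟨?_, hnd3.1.sublist (List.drop_sublist _ _), ?_⟩
    · exact List.nodup_cons.2 ⟨fun hx => (hkv x hx).1 rfl, hkn⟩
    · intro u hu v hv huv
      subst huv
      rcases List.mem_cons.1 hu with hu | hu
      · subst hu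
        exact hxJ (hsub u hv)
      · exact (hkv u hu).2.2.1 (hsub u hv)
  · intro v hv
    rcases List.mem_append.1 hv with hv | hv
    · rcases List.mem_cons.1 hv with hv | hv
      · subst hv
        exact ⟨hxb, fun hvk => hko v hvk List.mem_cons_self⟩
      · exact ⟨(hkv v hv).2.2.2.1, (hkv v hv).2.2.2.2⟩
    · refine ⟨fun hvb => ?_, fun hvk => ?_⟩
      · exact hnd3.2.2 v (hsub v hv) v hvb rfl
      · exact hko v hvk (List.mem_cons_of_mem _
          (List.mem_append.2 (Or.inr (List.mem_append.2 (Or.inl (hsub v hv))))))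
  · intro u hu v hv
    simp only [List.cons_append, List.head?_cons, Option.mem_def, Option.some.injEq] at hv
    subst hv
    refine hcl u ?_
    have hb := List.getLast?_eq_some_getLast hB0
    rw [hb] at hu
    rw [show x :: (a ++ (J ++ b)) = (x :: (a ++ J)) ++ b by simp, List.getLast?_append, hb]
    simpa using hu
  · intro u hu v hv
    refine hch3.2.2 u ?_ v hv
    have hd0 : J.drop i ≠ [] := by
      rw [hJd]
      simp
    have hb := List.getLast?_eq_some_getLast hd0
    have e1 : J.getLast? = (J.drop i).getLast? := by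
      conv_lhs => rw [← List.take_append_drop i J]
      rw [List.getLast?_append, hb]
      simp
    rw [e1]
    rw [List.getLast?_append, hb] at hu
    rw [hb]
    simpa using hu
  · have hk := h.kl
    have hlen : ((x :: κ) ++ J.drop i).length + i = lam + J.length := by
      simp only [List.length_append, List.length_cons, List.length_drop]
      omega
    have : ((((x :: κ) ++ J.drop i).length + i : ℕ) : ℤ) = ((lam + J.length : ℕ) : ℤ) := by
      rw [hlen]
    push_cast at this ⊢
    linarith

end Pool.Agent.CycMC
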