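import Pool.Agent.CycMC.Targets

/-!
# TAB1: one hub, a mixed band and bands behind it
-/

set_option autoImplicit false

namespace Pool.Agent.CycMC

open Finset

/-- Restriction of a state to the bands `B` and the new word. -/
private lemma TAB1_pst {V : Type} {Gr : SimpleGraph V} {lam K W : ℕ} {w : List (List V)}
    {t : Band V} {B : List (Band V)} (h : PSt Gr lam K W w (t :: B)) (a2 b2 rest : List V)
    (A2 B2 : List (List V)) (piece : List V) (hA : A2.flatten = a2) (hB : B2.flatten = b2)
    (hp : piece ++ b2 = t.q' :: rest)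
    (hch1 : (t.p' :: a2).IsChain Gr.Adj) (hch2 : (t.q' :: rest).IsChain Gr.Adj)
    (hnd : (t.p' :: (a2 ++ t.q' :: rest)).Nodup)
    (hsub : ∀ v ∈ t.p' :: (a2 ++ t.q' :: rest), v ∈ w.flatten)
    (hlegs : ∀ b ∈ B, (b.l1 ∈ A2 ++ B2 ∨ b.l1.reverse ∈ A2 ++ B2) ∧
      (b.l2 ∈ A2 ++ B2 ∨ b.l2.reverse ∈ A2 ++ B2)) :
    PSt Gr lam K W ((A2.map List.reverse).reverse ++ ((t.p' :: (t.k' ++ piece)) :: B2)) B ∧
    ((A2.map List.reverse).reverse ++ ((t.p' :: (t.k' ++ piece)) :: B2)).flatten =
      a2.reverse ++ t.p' :: (t.k' ++ t.q' :: rest) := by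
  have hfl : ((A2.map List.reverse).reverse ++ ((t.p' :: (t.k' ++ piece)) :: B2)).flatten =
      a2.reverse ++ t.p' :: (t.k' ++ t.q' :: rest) := by
    rw [List.flatten_append, List.flatten_cons, hB, ← List.reverse_flatten, hA, ← hp]
    simp
  have hkn := h.kn
  rw [List.flatMap_cons, List.nodup_append] at hkn
  obtain ⟨hk1, hk2, hk3⟩ := hkn
  have hk' : t.k'.Nodup := (List.nodup_append.mp hk1).2.1
  have hkout : ∀ v ∈ t.k', v ∉ w.flatten := fun v hv =>
    h.kout v ⟨t, by simp, Or.inr hv⟩
  have hd := h.disj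
  rw [List.flatMap_cons, List.nodup_append] at hd
  refine ⟨⟨?_, ?_, hd.2.1, hk2, ?_, ?_, fun b hb => h.link b (by simp [hb]),
    fun b hb => h.kl b (by simp [hb]), fun b hb => h.big b (by simp [hb]),
    fun b hb => h.small b (by simp [hb])⟩, hfl⟩
  · rw [hfl, List.isChain_split]
    refine ⟨?_, ?_⟩
    · have h1 : (t.p' :: a2).reverse.IsChain Gr.Adj := by
        rw [List.isChain_reverse]
        exact hch1.imp fun _ _ hxy => hxy.symm
      simpa using h1
    · have h2 := (h.link t (by simp)).2
      rw [← List.cons_append, List.isChain_split]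
      exact ⟨by simpa using h2, hch2⟩
  · rw [hfl]
    have hperm : (a2.reverse ++ t.p' :: (t.k' ++ t.q' :: rest)).Perm
        (t.k' ++ (t.p' :: (a2 ++ t.q' :: rest))) := by
      have e1 : (a2.reverse ++ t.p' :: (t.k' ++ t.q' :: rest)).Perm
          (a2 ++ (t.k' ++ (t.p' :: t.q' :: rest))) := by
        refine List.Perm.append (List.reverse_perm a2) ?_
        exact List.perm_middle.symm
      refine e1.trans ?_
      rw [← List.append_assoc]
      refine (List.Perm.append_right _ List.perm_append_comm).trans ?_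
      rw [List.append_assoc]
      exact List.Perm.append_left _ List.perm_middle
    rw [hperm.nodup_iff, List.nodup_append]
    refine ⟨hk', hnd, ?_⟩
    intro a ha b hb hab
    subst hab
    exact hkout a ha (hsub a hb)
  · intro v hv
    rw [hfl]
    intro hmem
    have h1 : v ∈ kap (t :: B) := by
      obtain ⟨b, hb, hb'⟩ := hv
      exact ⟨b, by simp [hb], hb'⟩
    have h2 : v ∉ w.flatten := h.kout v h1
    have h3 : v ∈ t.k' ∨ v ∈ t.p' :: (a2 ++ t.q' :: rest) := by
      simp only [List.mem_append, List.mem_reverse, List.mem_cons] at hmem ⊢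
      tauto
    rcases h3 with h3 | h3
    · obtain ⟨b, hb, hb'⟩ := hv
      refine hk3 v (List.mem_append_right _ h3) v ?_ rfl
      rw [List.mem_flatMap]
      exact ⟨b, hb, by rw [List.mem_append]; exact hb'⟩
    · exact h2 (hsub v h3)
  · have key : ∀ l : List V, (l ∈ A2 ++ B2 ∨ l.reverse ∈ A2 ++ B2) →
        (l ∈ (A2.map List.reverse).reverse ++ ((t.p' :: (t.k' ++ piece)) :: B2) ∨
          l.reverse ∈ (A2.map List.reverse).reverse ++ ((t.p' :: (t.k' ++ piece)) :: B2)) := by
      intro l hl
      simp only [List.mem_append, List.mem_reverse, List.mem_map, List.mem_cons] at hl ⊢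
      rcases hl with (h1 | h1) | (h1 | h1)
      · exact Or.inr (Or.inl ⟨l, h1, rfl⟩)
      · exact Or.inl (Or.inr (Or.inr h1))
      · exact Or.inl (Or.inl ⟨l.reverse, h1, List.reverse_reverse l⟩)
      · exact Or.inr (Or.inr (Or.inr h1))
    intro b hb
    exact ⟨key _ (hlegs b hb).1, key _ (hlegs b hb).2⟩

theorem p_TAB1 (h1 : T_CORE) (h2 : T_CLS) : T_TAB1 := by
  intro V Gr lam K W x hub J κ μ A1 A2 B1 B2 t B I hK hF hμ hlegs
  -- the pieces
  obtain ⟨piece, C, rest, hC, hp⟩ : ∃ piece C rest : List V,
      μ ++ B2.flatten = C ++ t.q' :: rest ∧ piece ++ B2.flatten = t.q' :: rest := by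
    rcases hμ with h | h
    · exact ⟨[t.q'], t.q :: t.B, B2.flatten, by rw [h]; simp [Band.l2], rfl⟩
    · refine ⟨μ, [], t.B.reverse ++ t.q :: B2.flatten, ?_, ?_⟩ <;>
      · rw [h]; simp [Band.l2]
  have hw : ([x] :: ((A1 ++ t.l1 :: A2) ++ J :: (B1 ++ μ :: B2))).flatten =
      (x :: (A1.flatten ++ (t.p :: t.A))) ++ (t.p' :: (A2.flatten ++ (J ++
        (B1.flatten ++ (C ++ t.q' :: rest))))) := by
    rw [← hC]
    simp [Band.l1]
  have hch := hF.st.chain
  have hnd := hF.st.nodup
  have hcl := hF.cl
  rw [hw] at hch hnd hcl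
  -- chains
  have hc1 : (t.p' :: (A2.flatten ++ (J ++ (B1.flatten ++ (C ++ t.q' :: rest))))).IsChain
      Gr.Adj := (List.isChain_append.mp hch).2.1
  have hc2 : ((t.p' :: A2.flatten) ++ (J ++ (B1.flatten ++ (C ++ t.q' :: rest)))).IsChain
      Gr.Adj := by simpa using hc1
  have hch1 : (t.p' :: A2.flatten).IsChain Gr.Adj := (List.isChain_append.mp hc2).1
  have hc3 := (List.isChain_append.mp hc2).2.1
  have hJch : J.IsChain Gr.Adj := (List.isChain_append.mp hc3).1
  have hch2 : (t.q' :: rest).IsChain Gr.Adj := by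
    have := (List.isChain_append.mp hc3).2.1
    have := (List.isChain_append.mp this).2.1
    exact (List.isChain_append.mp this).2.1
  -- sublist
  have hsl : (x :: (t.p' :: (A2.flatten ++ (J ++ t.q' :: rest)))).Sublist
      ((x :: (A1.flatten ++ (t.p :: t.A))) ++ (t.p' :: (A2.flatten ++ (J ++
        (B1.flatten ++ (C ++ t.q' :: rest)))))) := by
    have e : x :: (t.p' :: (A2.flatten ++ (J ++ t.q' :: rest))) =
      [x] ++ (t.p' :: (A2.flatten ++ (J ++ t.q' :: rest))) := rfl
    rw [e]
    refine List.Sublist.append ?_ ?_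
    · simp
    · refine List.Sublist.cons_cons _ ?_
      refine List.Sublist.append (List.Sublist.refl _) ?_
      refine List.Sublist.append (List.Sublist.refl _) ?_
      rw [← List.append_assoc]
      exact List.sublist_append_right _ _
  have hnd1 : (x :: (t.p' :: (A2.flatten ++ (J ++ t.q' :: rest)))).Nodup := hnd.sublist hsl
  have hsub1 : ∀ v ∈ x :: (t.p' :: (A2.flatten ++ (J ++ t.q' :: rest))),
      v ∈ ([x] :: ((A1 ++ t.l1 :: A2) ++ J :: (B1 ++ μ :: B2))).flatten := by
    intro v hv
    rw [hw]
    exact hsl.subset hv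
  have hnd2 : (t.p' :: (A2.flatten ++ t.q' :: rest)).Nodup := by
    refine (List.nodup_cons.mp hnd1).2.sublist ?_
    refine List.Sublist.cons_cons _ ?_
    refine List.Sublist.append (List.Sublist.refl _) ?_
    exact List.sublist_append_right _ _
  obtain ⟨hst, hfl⟩ := TAB1_pst hF.st A2.flatten B2.flatten rest A2 B2 piece rfl rfl hp hch1 hch2
    hnd2 (fun v hv => hsub1 v (by
      simp only [List.mem_cons, List.mem_append] at hv ⊢
      tauto)) hlegs
  have hrich := h1 V Gr lam K W _ B hK hst
  rw [hfl] at hrich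
  refine h2 V Gr (kap B) _ K _ I (fun i => x :: (κ ++ (J.take (i + 1)).reverse)) (lam + 1) 1
    hrich (by simp) ?_
  intro i hi
  obtain ⟨y, hy, hyc⟩ := hF.lks i hi
  have hilt : i < J.length := (List.getElem?_eq_some_iff.mp hy).1
  have htake : J.take (i + 1) = J.take i ++ [y] := by
    rw [List.take_add_one, hy]
    rfl
  have hκ : ∀ v ∈ κ, v ∉ ([x] :: ((A1 ++ t.l1 :: A2) ++ J :: (B1 ++ μ :: B2))).flatten ∧
      v ∉ kap (t :: B) := by
    intro v hv
    rcases hF.hub with ⟨h3, -⟩ | ⟨h3, h4, h5⟩
    · rw [h3] at hv; simp at hv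
    · rw [h3] at hv
      rw [List.mem_singleton.mp hv]
      exact ⟨h4, h5⟩
  have hκnd : κ.Nodup := by
    rcases hF.hub with ⟨h3, -⟩ | ⟨h3, -⟩ <;> rw [h3] <;> simp
  have hxJ : x ∉ J := by
    intro h
    have := (List.nodup_cons.mp hnd1).1
    exact this (by simp [h])
  have hmem : ∀ v ∈ x :: (κ ++ (J.take (i + 1)).reverse), v = x ∨ v ∈ κ ∨ v ∈ J := by
    intro v hv
    simp only [List.mem_cons, List.mem_append, List.mem_reverse] at hv
    rcases hv with h | h | h
    · exact Or.inl h
    · exact Or.inr (Or.inl h)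
    · exact Or.inr (Or.inr (List.mem_of_mem_take h))
  have hword : ∀ v, (v = x ∨ v ∈ J) →
      v ∈ ([x] :: ((A1 ++ t.l1 :: A2) ++ J :: (B1 ++ μ :: B2))).flatten := by
    rintro v (h | h)
    · exact hsub1 v (by simp [h])
    · exact hsub1 v (by simp [h])
  have hkapB : ∀ v, v ∈ kap B → v ∈ kap (t :: B) := by
    rintro v ⟨b, hb, hb'⟩
    exact ⟨b, by simp [hb], hb'⟩
  refine ⟨?_, ?_, ?_, ?_, ?_, ?_, ?_⟩
  · simp only [List.length_cons, List.length_append, List.length_reverse, List.length_take]
    omega
  · have e : x :: (κ ++ (J.take (i + 1)).reverse) = (x :: κ) ++ y :: (J.take i).reverse := by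
      rw [htake]; simp
    rw [e, List.isChain_split]
    refine ⟨by simpa using hyc, ?_⟩
    have h3 : (J.take (i + 1)).IsChain Gr.Adj := by
      have := hJch
      rw [← List.take_append_drop (i + 1) J] at this
      exact (List.isChain_append.mp this).1
    rw [htake] at h3
    have h4 : (J.take i ++ [y]).reverse.IsChain Gr.Adj := by
      rw [List.isChain_reverse]
      exact h3.imp fun _ _ hxy => hxy.symm
    simpa using h4
  · rw [List.nodup_cons, List.nodup_append]
    refine ⟨?_, hκnd, ?_, ?_⟩
    · intro h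
      rw [List.mem_append, List.mem_reverse] at h
      rcases h with h | h
      · exact (hκ x h).1 (hword x (Or.inl rfl))
      · exact hxJ (List.mem_of_mem_take h)
    · rw [List.nodup_reverse]
      have : J.Nodup := by
        have := (List.nodup_cons.mp (List.nodup_cons.mp hnd1).2).2
        exact (List.nodup_append.mp (List.nodup_append.mp this).2.1).1
      exact this.sublist (List.take_sublist _ _)
    · intro a ha b hb hab
      subst hab
      rw [List.mem_reverse] at hb
      exact (hκ a ha).1 (hword a (Or.inr (List.mem_of_mem_take hb)))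
  · intro v hv
    rcases hmem v hv with h | h | h
    · subst h
      refine ⟨?_, fun h => hF.st.kout v (hkapB v h) (hword v (Or.inl rfl))⟩
      intro h
      simp only [List.mem_append, List.mem_reverse, List.mem_cons] at h
      have hn := (List.nodup_cons.mp hnd1).1
      simp only [List.mem_append, List.mem_cons] at hn
      rcases h with h | h | h | h
      · exact hn (by tauto)
      · exact hn (by tauto)
      · exact hF.st.kout v ⟨t, by simp, Or.inr h⟩ (hword v (Or.inl rfl))
      · exact hn (by tauto)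
    · refine ⟨?_, fun h' => (hκ v h).2 (hkapB v h')⟩
      intro h'
      simp only [List.mem_append, List.mem_reverse, List.mem_cons] at h'
      have hs := hsub1 v
      simp only [List.mem_append, List.mem_cons] at hs
      rcases h' with h' | h' | h' | h'
      · exact (hκ v h).1 (hs (by tauto))
      · exact (hκ v h).1 (hs (by tauto))
      · exact (hκ v h).2 ⟨t, by simp, Or.inr h'⟩
      · exact (hκ v h).1 (hs (by tauto))
    · refine ⟨?_, fun h' => hF.st.kout v (hkapB v h') (hword v (Or.inr h))⟩
      intro h'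
      simp only [List.mem_append, List.mem_reverse, List.mem_cons] at h'
      have hn := (List.nodup_cons.mp hnd1).2
      rw [List.nodup_cons, List.nodup_append, List.nodup_append] at hn
      simp only [List.mem_append] at hn
      rcases h' with h' | h' | h' | h'
      · exact hn.2.2.2 v h' v (Or.inl h) rfl
      · exact hn.1 (by rw [← h']; tauto)
      · exact hF.st.kout v ⟨t, by simp, Or.inr h'⟩ (hword v (Or.inr h))
      · exact hn.2.2.1.2.2 v h v (by simpa using h') rfl
  · intro a ha b hb
    simp only [List.head?_cons, Option.mem_def, Option.some.injEq] at hb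
    subst hb
    refine hcl a ?_
    have e1 : (A2.flatten.reverse ++ t.p' :: (t.k' ++ t.q' :: rest)).getLast? =
        (t.q' :: rest).getLast? := by
      rw [← List.cons_append, ← List.append_assoc, List.getLast?_append_of_ne_nil _ (by simp)]
    have e2 : ((x :: (A1.flatten ++ (t.p :: t.A))) ++ (t.p' :: (A2.flatten ++ (J ++
        (B1.flatten ++ (C ++ t.q' :: rest)))))).getLast? = (t.q' :: rest).getLast? := by
      have e3 : (x :: (A1.flatten ++ (t.p :: t.A))) ++ (t.p' :: (A2.flatten ++ (J ++
        (B1.flatten ++ (C ++ t.q' :: rest))))) = ((x :: (A1.flatten ++ (t.p :: t.A))) ++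
          (t.p' :: (A2.flatten ++ (J ++ (B1.flatten ++ C))))) ++ t.q' :: rest := by simp
      rw [e3, List.getLast?_append_of_ne_nil _ (by simp)]
    rw [e2, ← e1]
    exact ha
  · intro a ha b hb
    have e1 : (x :: (κ ++ (J.take (i + 1)).reverse)).getLast? = J.head? := by
      have hne : (J.take (i + 1)).reverse ≠ [] := by rw [htake]; simp
      rw [← List.cons_append, List.getLast?_append_of_ne_nil _ hne, List.getLast?_reverse]
      rcases J with _ | ⟨j, J⟩
      · simp at hilt
      · simp
    have e2 : (A2.flatten.reverse ++ t.p' :: (t.k' ++ t.q' :: rest)).head? =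
        (t.p' :: A2.flatten).getLast? := by
      rw [← List.head?_reverse]
      simp [List.head?_append]
    rw [e1] at ha
    rw [e2] at hb
    refine ((List.isChain_append.mp hc2).2.2 b hb a ?_).symm
    rcases J with _ | ⟨j, J⟩
    · simp at hilt
    · simpa using ha
  · simp only [List.length_cons, List.length_append, List.length_reverse, List.length_take]
    have h3 := hF.kl
    rw [min_eq_left (by omega)]
    push_cast
    have : (κ.length : ℤ) + 1 = lam := by exact_mod_cast h3
    linarith

end Pool.Agent.CycMC
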