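import Pool.Agent.CycMC.Targets

/-!
# Cycle sets of graphs without a complete minor: TAB2
-/

set_option autoImplicit false

namespace Pool.Agent.CycMC

open Finset

namespace TAB2_

variable {V : Type} {Gr : SimpleGraph V}

theorem chain_rev {l : List V} (h : l.IsChain Gr.Adj) : l.reverse.IsChain Gr.Adj :=
  List.isChain_reverse.2 (h.imp fun _ _ hab => hab.symm)

theorem glue {l1 l2 : List V} {a : V} (h1 : l1.IsChain Gr.Adj) (ha : l1.getLast? = some a)
    (h2 : (a :: l2).IsChain Gr.Adj) : (l1 ++ l2).IsChain Gr.Adj := by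
  rw [List.isChain_cons] at h2
  rw [List.isChain_append]
  refine ⟨h1, h2.2, fun x hx y hy => ?_⟩
  rw [ha, Option.mem_some_iff] at hx
  subst hx
  exact h2.1 y hy

/-- The part of `μ` up to `t.q'`. -/
theorem piece {t : Band V} {μ : List V} (h : μ = t.l2 ∨ μ = t.l2.reverse) :
    ∃ p r : List V, μ = p ++ r ∧ p.getLast? = some t.q' := by
  rcases h with h | h
  · refine ⟨μ, [], by simp, List.getLast?_eq_some_iff.2 ⟨t.q :: t.B, ?_⟩⟩
    rw [h]
    simp [Band.l2]
  · exact ⟨[t.q'], t.B.reverse ++ [t.q], by rw [h]; simp [Band.l2], rfl⟩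

/-- The data of the path of `Fr` which are used. -/
theorem path {x z : V} {J0 μ p r : List V} {A1 A2 B1 B2 : List (List V)} {t : Band V}
    (hpr : μ = p ++ r) :
    ([x] :: ((A1 ++ t.l1 :: A2) ++ (J0 ++ [z]) :: (B1 ++ μ :: B2))).flatten =
      (x :: (A1.flatten ++ (t.p :: t.A))) ++ ((t.p' :: A2.flatten) ++ ((J0 ++ [z]) ++
        ((B1.flatten ++ p) ++ (r ++ B2.flatten)))) := by
  rw [hpr]
  simp [Band.l1]

end TAB2_

theorem p_TAB2 (h1 : T_CORE) (h2 : T_CLS) : T_TAB2 := by
  intro V Gr lam K W x hub J κ μ A1 A2 B1 B2 t B I hK hF hμ hB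
  obtain ⟨p, r, hpr, hpq⟩ := TAB2_.piece hμ
  obtain ⟨j, hjI, hjJ⟩ := hF.lst
  have hJne : J ≠ [] := by
    rintro rfl
    simp at hjJ
  obtain ⟨J0, z, hJ⟩ : ∃ J0 z, J = J0 ++ [z] :=
    ⟨J.dropLast, J.getLast hJne, (List.dropLast_append_getLast hJne).symm⟩
  subst hJ
  have hP := TAB2_.path (x := x) (z := z) (J0 := J0) (A1 := A1) (A2 := A2) (B1 := B1) (B2 := B2)
    (t := t) hpr
  have hc := hF.st.chain
  have hn := hF.st.nodup
  have hko := hF.st.kout
  have hhub := hF.hub
  rw [hP] at hc hn hko hhub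
  obtain ⟨Z, hZ⟩ : ∃ Z : List V, Z = B1.flatten ++ p := ⟨_, rfl⟩
  obtain ⟨Y, hY⟩ : ∃ Y : List V, Y = t.p' :: A2.flatten := ⟨_, rfl⟩
  rw [← hZ, ← hY] at hc hn hko hhub
  have hZlast : Z.getLast? = some t.q' := by
    rw [hZ, List.getLast?_append, hpq]
    rfl
  have hZne : Z ≠ [] := by
    rintro rfl
    simp at hZlast
  have hYne : Y ≠ [] := by
    rw [hY]
    simp
  -- chains
  obtain ⟨-, hc2, -⟩ := List.isChain_append.1 hc
  obtain ⟨hYc, hc3, hYJ⟩ := List.isChain_append.1 hc2
  obtain ⟨hJc, hc4, hJZ⟩ := List.isChain_append.1 hc3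
  obtain ⟨hZc, -, -⟩ := List.isChain_append.1 hc4
  -- disjointness
  obtain ⟨-, hn2, hnX⟩ := List.nodup_append.1 hn
  obtain ⟨hYn, hn3, hnY⟩ := List.nodup_append.1 hn2
  obtain ⟨hJn, hn4, hnJ⟩ := List.nodup_append.1 hn3
  obtain ⟨hZn, -, -⟩ := List.nodup_append.1 hn4
  have hkn := hF.st.kn
  rw [List.flatMap_cons, List.nodup_append] at hkn
  obtain ⟨hkt, hkB, hktB⟩ := hkn
  have hk'n : t.k'.Nodup := (List.nodup_append.1 hkt).2.1
  have hk'B : ∀ v ∈ t.k', v ∉ kap B := by
    rintro v hv ⟨b, hb, hvb⟩
    refine hktB v (by simp [hv]) v ?_ rfl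
    rw [List.mem_flatMap]
    exact ⟨b, hb, by simpa using hvb⟩
  have hk't : ∀ v ∈ t.k', v ∈ kap (t :: B) := fun v hv => ⟨t, by simp, Or.inr hv⟩
  have hkapB : kap B ⊆ kap (t :: B) := by
    rintro v ⟨b, hb, hvb⟩
    exact ⟨b, by simp [hb], hvb⟩
  obtain ⟨w, hw⟩ : ∃ w : List (List V), w = B1 ++ (p ++ (t.k'.reverse ++ [t.p'])) :: A2 := ⟨_, rfl⟩
  have hwf : w.flatten = Z ++ (t.k'.reverse ++ Y) := by
    rw [hw, hZ, hY]
    simp
  have hmem : ∀ v ∈ w.flatten, v ∈ Z ∨ v ∈ t.k' ∨ v ∈ Y := by
    intro v hv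
    rw [hwf] at hv
    simpa using hv
  have hst : PSt Gr lam K W w B := by
    refine ⟨?_, ?_, ?_, hkB, ?_, ?_, ?_, ?_, ?_, ?_⟩
    · rw [hwf]
      have hl := TAB2_.chain_rev (hF.st.link t (by simp)).2
      have hl2 : (t.q' :: (t.k'.reverse ++ [t.p'])).IsChain Gr.Adj := by simpa using hl
      refine TAB2_.glue hZc hZlast ?_
      rw [hY] at hYc ⊢
      have e : t.q' :: (t.k'.reverse ++ t.p' :: A2.flatten) =
          (t.q' :: (t.k'.reverse ++ [t.p'])) ++ A2.flatten := by simp
      rw [e]
      refine TAB2_.glue (a := t.p') hl2 (List.getLast?_eq_some_iff.2 ⟨t.q' :: t.k'.reverse, ?_⟩) hYc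
      simp
    · rw [hwf, List.nodup_append]
      refine ⟨hZn, ?_, ?_⟩
      · rw [List.nodup_append]
        refine ⟨List.nodup_reverse.2 hk'n, hYn, fun a ha b hb hab => ?_⟩
        rw [List.mem_reverse] at ha
        subst hab
        exact hko a (hk't a ha) (by simp [hb])
      · intro a ha b hb hab
        subst hab
        rw [List.mem_append, List.mem_reverse] at hb
        rcases hb with hb | hb
        · exact hko a (hk't a hb) (by simp [ha])
        · exact hnY a hb a (by simp [ha]) rfl
    · have := hF.st.disj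
      rw [List.flatMap_cons, List.nodup_append] at this
      exact this.2.1
    · intro v hv hvw
      rcases hmem v hvw with h | h | h
      · exact hko v (hkapB hv) (by simp [h])
      · exact hk'B v h hv
      · exact hko v (hkapB hv) (by simp [h])
    · intro b hb
      have h := hB b hb
      rw [hw]
      refine ⟨h.1.imp (fun h => ?_) fun h => ?_, h.2.imp (fun h => ?_) fun h => ?_⟩ <;>
      · rw [List.mem_append] at h
        rcases h with h | h <;> simp [h]
    · exact fun b hb => hF.st.link b (by simp [hb])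
    · exact fun b hb => hF.st.kl b (by simp [hb])
    · exact fun b hb => hF.st.big b (by simp [hb])
    · exact fun b hb => hF.st.small b (by simp [hb])
  have hrich := h1 V Gr lam K W w B hK hst
  -- the hub
  have hadj : ∀ i ∈ I, ∀ y, (J0 ++ [z])[i]? = some y → Gr.Adj hub y := by
    intro i hi y hy
    obtain ⟨y', hy', hch⟩ := hF.lks i hi
    rw [hy, Option.some_inj] at hy'
    subst hy'
    rcases hF.hub with ⟨hκ, hx⟩ | ⟨hκ, -, -⟩
    · rw [hκ] at hch
      rw [hx]
      simpa using hch
    · rw [hκ] at hch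
      simp only [List.cons_append, List.nil_append, List.isChain_cons_cons] at hch
      exact hch.2.1
  have hz : Gr.Adj hub z := by
    refine hadj j hjI z ?_
    have e : j = J0.length := by simpa using hjJ
    rw [e]
    simp
  have hubJ : hub ∉ J0 ++ [z] := by
    rcases hhub with ⟨-, hx⟩ | ⟨-, hx, -⟩
    · intro h
      exact hnX x (by simp) hub (by
        rw [List.mem_append, List.mem_append]
        exact Or.inr (Or.inl h)) hx.symm
    · intro h
      exact hx (by
        rw [List.mem_append, List.mem_append, List.mem_append]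
        exact Or.inr (Or.inr (Or.inl h)))
  have hubw : hub ∉ w.flatten := by
    intro hw
    rcases hhub with ⟨-, hx⟩ | ⟨-, hx, hx2⟩
    · subst hx
      rcases hmem hub hw with h | h | h
      · exact hnX hub (by simp) hub (by simp [h]) rfl
      · exact hko hub (hk't hub h) (by simp)
      · exact hnX hub (by simp) hub (by simp [h]) rfl
    · rcases hmem hub hw with h | h | h
      · exact hx (by simp [h])
      · exact hx2 (hk't hub h)
      · exact hx (by simp [h])
  have hubk : hub ∉ kap B := by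
    intro h
    rcases hhub with ⟨-, hx⟩ | ⟨-, hx, hx2⟩
    · subst hx
      exact hko hub (hkapB h) (by simp)
    · exact hx2 (hkapB h)
  have hJw : ∀ v ∈ J0 ++ [z], v ∉ w.flatten ∧ v ∉ kap B := by
    intro v hv
    have hvP : v ∈ (x :: (A1.flatten ++ t.p :: t.A)) ++ (Y ++ (J0 ++ [z] ++ (Z ++
        (r ++ B2.flatten)))) := by
      rw [List.mem_append, List.mem_append, List.mem_append]
      exact Or.inr (Or.inr (Or.inl hv))
    refine ⟨fun hvw => ?_, fun h => hko v (hkapB h) hvP⟩
    rcases hmem v hvw with h | h | h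
    · exact hnJ v hv v (by simp [h]) rfl
    · exact hko v (hk't v h) hvP
    · exact hnY v h v (by
        rw [List.mem_append]
        exact Or.inl hv) rfl
  have hlast : ∀ a ∈ w.flatten.getLast?, ∀ y ∈ (J0 ++ [z]).head?, Gr.Adj a y := by
    intro a ha y hy
    refine hYJ a ?_ y ?_
    · rw [hwf, ← List.append_assoc, List.getLast?_append] at ha
      cases hYl : Y.getLast? with
      | none => exact absurd (List.getLast?_eq_none_iff.1 hYl) hYne
      | some c =>
        rw [hYl] at ha
        simpa using ha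
    · rw [List.head?_append]
      rw [Option.mem_def] at hy
      rw [hy]
      rfl
  have hfirst : ∀ y ∈ w.flatten.head?, Gr.Adj z y := by
    intro y hy
    refine hJZ z (by simp) y ?_
    rw [hwf, List.head?_append] at hy
    rw [List.head?_append]
    cases hZh : Z.head? with
    | none => exact absurd (List.head?_eq_none_iff.1 hZh) hZne
    | some c =>
      rw [hZh] at hy
      simpa using hy
  refine h2 V Gr (kap B) w.flatten K ((B.length + 2) / 2) _
    (fun i => J0.take (i + 1) ++ [hub, z]) 3 1 hrich ?_ ?_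
  · rw [hwf]
    simp [hZne]
  intro i hi
  rw [Finset.mem_filter, List.length_append, List.length_singleton] at hi
  have hiJ : i < J0.length := by omega
  obtain ⟨y, hy⟩ : ∃ y, J0[i]? = some y := ⟨J0[i], List.getElem?_eq_getElem hiJ⟩
  have hyadj : Gr.Adj hub y := by
    refine hadj i hi.1 y ?_
    rw [List.getElem?_append_left hiJ]
    exact hy
  have htl : (J0.take (i + 1)).getLast? = some y := by
    rw [List.getLast?_take]
    simp [hy]
  have hsub : ∀ v ∈ J0.take (i + 1), v ∈ J0 := fun v hv => List.mem_of_mem_take hv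
  have hJ0c : J0.IsChain Gr.Adj := (List.isChain_append.1 hJc).1
  obtain ⟨hJ0n, -, hJ0z⟩ := List.nodup_append.1 hJn
  have hubz : hub ≠ z := hz.ne
  refine ⟨by simp, ?_, ?_, ?_, ?_, ?_, ?_⟩
  · refine TAB2_.glue (hJ0c.take _) htl ?_
    simp [hyadj.symm, hz]
  · rw [List.nodup_append]
    refine ⟨hJ0n.sublist (List.take_sublist _ _), by simp [hubz], ?_⟩
    intro a ha b hb hab
    subst hab
    have ha' := hsub a ha
    simp only [List.mem_cons, List.not_mem_nil, or_false] at hb
    rcases hb with hb | hb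
    · subst hb
      exact hubJ (by simp [ha'])
    · subst hb
      exact hJ0z a ha' a (by simp) rfl
  · intro v hv
    simp only [List.mem_append, List.mem_cons, List.not_mem_nil, or_false] at hv
    rcases hv with hv | hv | hv
    · exact hJw v (by simp [hsub v hv])
    · subst hv
      exact ⟨hubw, hubk⟩
    · exact hJw v (by simp [hv])
  · intro a ha y' hy'
    refine hlast a ha y' ?_
    rw [List.head?_append] at hy' ⊢
    have hne : J0 ≠ [] := by
      rintro rfl
      simp at hiJ
    cases hh : J0.head? with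
    | none => exact absurd (List.head?_eq_none_iff.1 hh) hne
    | some c =>
      rw [List.head?_take, hh] at hy'
      simpa using hy'
  · intro a ha y' hy'
    have : a = z := by
      have := ha
      simp at this
      exact this.symm
    subst this
    exact hfirst y' hy'
  · simp only [List.length_append, List.length_take, List.length_cons, List.length_nil]
    rw [min_eq_left (by omega)]
    push_cast
    ring

end Pool.Agent.CycMC
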