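import Pool.Agent.CycMC.Targets

/-!
# TAU: the arcs
-/

set_option autoImplicit false

namespace Pool.Agent.CycMC

open Finset
open Pool.Agent.CycSp (Pt)

/-- the number of positions and links before `i` -/
def tauF (P : Finset Pt) (i : ℤ) : ℕ := i.toNat + (P.filter (fun p => p.1 < i)).card

lemma tau_eq (P : Finset Pt) (Lm : ℕ) (i : ℤ) : tau P Lm i = tauF P i / Lm := rfl

lemma tauF_mono (P : Finset Pt) {i j : ℤ} (h : i ≤ j) : tauF P i ≤ tauF P j := by
  unfold tauF
  refine Nat.add_le_add (Int.toNat_le_toNat h) (card_le_card fun p hp => ?_)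
  rw [mem_filter] at hp ⊢
  exact ⟨hp.1, lt_of_lt_of_le hp.2 h⟩

theorem p_TAU : T_TAU := by
  intro P L Lm hLm hP hinj
  refine ⟨fun i j h => Nat.div_le_div_right (tauF_mono P h), fun i hi0 hiL => ?_,
    fun i j hi0 hij hτ => ?_⟩
  · -- the number of links
    have hcard : P.card ≤ (L - 1).toNat := by
      have h1 : (P.image (fun p : Pt => p.2)).card = P.card :=
        card_image_of_injOn fun p hp q hq h => hinj p hp q hq h
      have h2 : P.image (fun p : Pt => p.2) ⊆ Finset.Ico 1 L := by
        intro z hz
        rw [mem_image] at hz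
        obtain ⟨p, hp, rfl⟩ := hz
        obtain ⟨h3, h4, h5⟩ := hP p hp
        rw [mem_Ico]
        omega
      have h3 := card_le_card h2
      rw [h1, Int.card_Ico] at h3
      exact h3
    have h1 : tau P Lm i * Lm ≤ tauF P i := by
      rw [tau_eq]
      exact Nat.div_mul_le_self _ _
    have h2 : tauF P i ≤ i.toNat + P.card := by
      unfold tauF
      exact Nat.add_le_add_left (card_filter_le _ _) _
    have h3 : tau P Lm i * Lm ≤ i.toNat + (L - 1).toNat := by omega
    have h4 : ((tau P Lm i * Lm : ℕ) : ℤ) ≤ ((i.toNat + (L - 1).toNat : ℕ) : ℤ) := by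
      exact_mod_cast h3
    push_cast at h4
    rw [Int.toNat_of_nonneg hi0, Int.toNat_of_nonneg (by omega)] at h4
    push_cast
    omega
  · have h1 : tauF P j < tauF P i + Lm := by
      rw [tau_eq, tau_eq] at hτ
      have h2 := Nat.div_add_mod (tauF P i) Lm
      have h3 := Nat.div_add_mod (tauF P j) Lm
      have h4 := Nat.mod_lt (tauF P j) (by omega : Lm > 0)
      rw [hτ] at h2
      omega
    have h2 : (P.filter (fun p => p.1 < j)).card = (P.filter (fun p => p.1 < i)).card +
        (P.filter (fun p => i ≤ p.1 ∧ p.1 < j)).card := by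
      rw [← card_union_of_disjoint]
      · congr 1
        ext p
        rw [mem_union, mem_filter, mem_filter, mem_filter]
        constructor
        · rintro ⟨h3, h4⟩
          rcases lt_or_ge p.1 i with h5 | h5
          · exact Or.inl ⟨h3, h5⟩
          · exact Or.inr ⟨h3, h5, h4⟩
        · rintro (⟨h3, h4⟩ | ⟨h3, h4, h5⟩)
          · exact ⟨h3, by omega⟩
          · exact ⟨h3, h5⟩
      · rw [disjoint_left]
        intro p hp hq
        rw [mem_filter] at hp hq
        omega
    unfold tauF at h1
    rw [h2] at h1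
    have h3 : (((j.toNat + ((P.filter (fun p => p.1 < i)).card +
        (P.filter (fun p => i ≤ p.1 ∧ p.1 < j)).card) : ℕ)) : ℤ) <
        ((i.toNat + (P.filter (fun p => p.1 < i)).card + Lm : ℕ) : ℤ) := by
      exact_mod_cast h1
    push_cast at h3
    rw [Int.toNat_of_nonneg hi0, Int.toNat_of_nonneg (by omega)] at h3
    omega

end Pool.Agent.CycMC
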