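import Pool.Agent.CycMC.Targets

/-!
# TW2: switching a twisted band
-/

set_option autoImplicit false

namespace Pool.Agent.CycMC

open Finset
open Pool.Agent.HubG (cycleSet)
open Pool.Agent.CycSp (Pt Cyc ZD)

namespace TW2_

/-- Adjacency of two optional vertices. -/
def Lk {V : Type} (R : V → V → Prop) (x y : Option V) : Prop := ∀ a ∈ x, ∀ b ∈ y, R a b

theorem chain_new {V : Type} (Gr : SimpleGraph V) (U F Z A B k k' : List V) (p p' q q' : V)
    (h : (U ++ ((p :: (A ++ [p'])) ++ (F ++ ((q :: (B ++ [q'])) ++ Z)))).IsChain Gr.Adj)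
    (h1 : (p :: (k ++ [q])).IsChain Gr.Adj) (h2 : (p' :: (k' ++ [q'])).IsChain Gr.Adj) :
    (U ++ ((p :: (k ++ [q])) ++ (F.reverse ++ ((p' :: (k' ++ [q'])) ++ Z)))).IsChain Gr.Adj := by
  have hlast : ∀ (x y : V) (l : List V), (x :: (l ++ [y])).getLast? = some y := by
    intro x y l
    rw [← List.cons_append, List.getLast?_append]
    simp
  rw [List.isChain_append] at h ⊢
  obtain ⟨hU, h, hUp⟩ := h
  rw [List.isChain_append] at h ⊢
  obtain ⟨hl1, h, hF⟩ := h
  rw [List.isChain_append] at h ⊢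
  obtain ⟨hFc, h, hq⟩ := h
  rw [List.isChain_append] at h ⊢
  obtain ⟨hl2, hZ, hqZ⟩ := h
  rw [hlast] at hF hqZ ⊢
  rw [hlast]
  refine ⟨hU, ⟨h1, ⟨?_, ⟨h2, hZ, hqZ⟩, ?_⟩, ?_⟩, ?_⟩
  · rw [List.isChain_reverse]
    exact hFc.imp fun a b hab => hab.symm
  · intro a ha b hb
    rw [List.getLast?_reverse] at ha
    have hb' : b = p' := by simpa using hb.symm
    subst hb'
    refine (hF b (by simp) a ?_).symm
    rw [List.head?_append]
    rw [Option.mem_def] at ha ⊢
    rw [ha]; rfl
  · intro a ha b hb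
    have ha' : a = q := by simpa using ha.symm
    subst ha'
    rcases List.eq_nil_or_concat F with hF0 | ⟨F', d, hF0⟩
    · subst hF0
      have hb' : b = p' := by simpa using hb.symm
      subst hb'
      exact (hF b (by simp) a (by simp)).symm
    · have hb' : b = d := by
        rw [hF0] at hb
        simpa using hb.symm
      subst hb'
      refine (hq b ?_ a (by simp)).symm
      rw [hF0]
      simp
  · intro a ha b hb
    have hb' : b = p := by simpa using hb.symm
    subst hb'
    exact hUp a ha b (by simp)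

theorem nodup_new {V : Type} (U F Z A B k k' : List V) (p p' q q' : V)
    (h : (U ++ ((p :: (A ++ [p'])) ++ (F ++ ((q :: (B ++ [q'])) ++ Z)))).Nodup)
    (h1 : (k ++ k').Nodup)
    (h2 : ∀ v ∈ k ++ k', v ∉ U ++ ((p :: (A ++ [p'])) ++ (F ++ ((q :: (B ++ [q'])) ++ Z)))) :
    (U ++ ((p :: (k ++ [q])) ++ (F.reverse ++ ((p' :: (k' ++ [q'])) ++ Z)))).Nodup := by
  classical
  have e1 : (U ++ ((p :: (A ++ [p'])) ++ (F ++ ((q :: (B ++ [q'])) ++ Z)))).Perm
      ((U ++ (F ++ (Z ++ [p, p', q, q']))) ++ (A ++ B)) := by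
    rw [List.perm_iff_count]
    intro a
    simp only [List.count_append, List.count_cons, List.count_nil]
    ring
  have e2 : (U ++ ((p :: (k ++ [q])) ++ (F.reverse ++ ((p' :: (k' ++ [q'])) ++ Z)))).Perm
      ((U ++ (F ++ (Z ++ [p, p', q, q']))) ++ (k ++ k')) := by
    rw [List.perm_iff_count]
    intro a
    simp only [List.count_append, List.count_cons, List.count_nil, List.count_reverse]
    ring
  have h3 := e1.nodup_iff.1 h
  rw [List.nodup_append] at h3
  refine e2.nodup_iff.2 ?_
  rw [List.nodup_append]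
  refine ⟨h3.1, h1, ?_⟩
  intro a ha b hb hab
  subst hab
  exact h2 a hb (e1.mem_iff.2 (List.mem_append_left _ ha))

theorem flatten_rev {V : Type} (v : List (List V)) :
    ((v.map List.reverse).reverse).flatten = v.flatten.reverse := by
  induction v with
  | nil => rfl
  | cons a v ih => simp [ih]

end TW2_

open TW2_ in
theorem p_TW2 : T_TW2 := by
  intro V Gr lam K W b B u v z h
  have hfl : (u ++ b.l1 :: (v ++ b.l2 :: z)).flatten =
      u.flatten ++ ((b.p :: (b.A ++ [b.p'])) ++
        (v.flatten ++ ((b.q :: (b.B ++ [b.q'])) ++ z.flatten))) := by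
    simp [Band.l1, Band.l2]
  have hmem : b ∈ b :: B := List.mem_cons_self
  have hlk := h.link b hmem
  have hkl := h.kl b hmem
  have hkn : (b.k ++ b.k').Nodup := by
    have := h.kn
    rw [List.flatMap_cons, List.nodup_append] at this
    exact this.1
  have hkd : ∀ c ∈ B, ∀ x, x ∈ c.k ∨ x ∈ c.k' → x ∉ b.k ++ b.k' := by
    intro c hc x hx hx'
    have := h.kn
    rw [List.flatMap_cons, List.nodup_append] at this
    refine this.2.2 x hx' x ?_ rfl
    rw [List.mem_flatMap]
    exact ⟨c, hc, List.mem_append.2 hx⟩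
  have hko : ∀ x ∈ b.k ++ b.k', x ∉ (u ++ b.l1 :: (v ++ b.l2 :: z)).flatten := by
    intro x hx
    exact h.kout x ⟨b, hmem, List.mem_append.1 hx⟩
  have hld : ∀ c ∈ B, ∀ x ∈ c.l1 ++ c.l2, x ∉ b.l1 ++ b.l2 := by
    intro c hc x hx hx'
    have := h.disj
    rw [List.flatMap_cons, List.nodup_append] at this
    refine this.2.2 x hx' x ?_ rfl
    rw [List.mem_flatMap]
    exact ⟨c, hc, hx⟩
  set w' : List (List V) := u ++ ((b.p :: (b.k ++ [b.q])) ::
    ((v.map List.reverse).reverse ++ (b.p' :: (b.k' ++ [b.q'])) :: z)) with hw'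
  have hfl' : w'.flatten = u.flatten ++ ((b.p :: (b.k ++ [b.q])) ++
        (v.flatten.reverse ++ ((b.p' :: (b.k' ++ [b.q'])) ++ z.flatten))) := by
    rw [hw', List.flatten_append, List.flatten_cons, List.flatten_append, List.flatten_cons,
      flatten_rev]
  have hchain : w'.flatten.IsChain Gr.Adj := by
    rw [hfl']
    refine chain_new Gr _ _ _ b.A b.B _ _ _ _ _ _ ?_ hlk.1 hlk.2
    rw [← hfl]
    exact h.chain
  have hnodup : w'.flatten.Nodup := by
    rw [hfl']
    refine nodup_new _ _ _ b.A b.B _ _ _ _ _ _ ?_ hkn ?_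
    · rw [← hfl]
      exact h.nodup
    · rw [← hfl]
      exact hko
  have hsub : ∀ x ∈ w'.flatten, x ∈ (u ++ b.l1 :: (v ++ b.l2 :: z)).flatten ∨
      x ∈ b.k ++ b.k' := by
    intro x hx
    rw [hfl'] at hx
    rw [hfl]
    simp only [List.mem_append, List.mem_cons, List.mem_reverse, List.not_mem_nil,
      or_false] at hx ⊢
    tauto
  -- legs of other bands stay blocks
  have hleg : ∀ (l : List V), (∃ x ∈ l, x ∉ b.l1 ++ b.l2) →
      (l ∈ u ++ b.l1 :: (v ++ b.l2 :: z) ∨ l.reverse ∈ u ++ b.l1 :: (v ++ b.l2 :: z)) →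
      l ∈ w' ∨ l.reverse ∈ w' := by
    intro l hl
    obtain ⟨x, hxl, hx⟩ := hl
    rw [List.mem_append, not_or] at hx
    have key : ∀ m : List V, x ∈ m → m ∈ u ++ b.l1 :: (v ++ b.l2 :: z) →
        m ∈ w' ∨ m.reverse ∈ w' := by
      intro m hm hmw
      rw [hw']
      simp only [List.mem_append, List.mem_cons] at hmw ⊢
      rcases hmw with h1 | h1 | h1 | h1 | h1
      · exact Or.inl (Or.inl h1)
      · exact absurd (h1 ▸ hm) hx.1
      · refine Or.inr (Or.inr (Or.inr (Or.inl ?_)))
        rw [List.mem_reverse]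
        exact List.mem_map_of_mem h1
      · exact absurd (h1 ▸ hm) hx.2
      · exact Or.inl (Or.inr (Or.inr (Or.inr (Or.inr h1))))
    rintro (h1 | h1)
    · exact key l hxl h1
    · have := key l.reverse (List.mem_reverse.2 hxl) h1
      rw [List.reverse_reverse] at this
      exact this.symm
  refine ⟨w', ⟨hchain, hnodup, ?_, ?_, ?_, ?_, ?_, ?_, ?_, ?_⟩, ⟨hchain, hnodup, ?_, ?_, ?_⟩, ?_⟩
  · have := h.disj
    rw [List.flatMap_cons, List.nodup_append] at this
    exact this.2.1
  · have := h.kn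
    rw [List.flatMap_cons, List.nodup_append] at this
    exact this.2.1
  · rintro x ⟨c, hc, hx⟩ hxw
    rcases hsub x hxw with h1 | h1
    · exact h.kout x ⟨c, List.mem_cons_of_mem _ hc, hx⟩ h1
    · exact hkd c hc x hx h1
  · intro c hc
    have h1 := h.legs c (List.mem_cons_of_mem _ hc)
    refine ⟨hleg c.l1 ⟨c.p, ?_, hld c hc c.p ?_⟩ h1.1, hleg c.l2 ⟨c.q, ?_, hld c hc c.q ?_⟩ h1.2⟩
    · simp [Band.l1]
    · simp [Band.l1]
    · simp [Band.l2]
    · simp [Band.l2]
  · intro c hc
    exact h.link c (List.mem_cons_of_mem _ hc)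
  · intro c hc
    exact h.kl c (List.mem_cons_of_mem _ hc)
  · intro c hc
    exact h.big c (List.mem_cons_of_mem _ hc)
  · intro c hc
    exact h.small c (List.mem_cons_of_mem _ hc)
  · rw [hfl', hfl]
    simp only [List.head?_append, List.head?_cons, Option.some_or]
  · rw [hfl', hfl]
    simp only [List.getLast?_append, List.getLast?_cons, List.getLast?_nil]
    cases z.flatten.getLast? <;> simp
  · intro x hx
    rcases hsub x hx with h1 | h1
    · exact Or.inl h1
    · exact Or.inr ⟨b, List.mem_singleton_self b, List.mem_append.1 h1⟩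
  · rw [hfl', hfl]
    simp only [List.length_append, List.length_cons, List.length_reverse, List.length_nil,
      Band.l1, Band.l2]
    omega

end Pool.Agent.CycMC
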