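import Pool.Agent.CycMC.Targets

/-!
# TYPE: the general case of one hub and bands

The bands have both legs in `wA`, both legs in `wB`, or one leg in each of them.
-/

set_option autoImplicit false

namespace Pool.Agent.CycMC

namespace TYPE_

open Finset

variable {V : Type}

/-- `l` is a block of `w` up to reversal -/
def On (w : List (List V)) (l : List V) : Prop := l ∈ w ∨ l.reverse ∈ w

theorem on_rev (w : List (List V)) (l : List V) : On w l.reverse ↔ On w l := by
  unfold On
  rw [List.reverse_reverse]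
  exact or_comm

theorem on_append (u v : List (List V)) (l : List V) : On (u ++ v) l ↔ On u l ∨ On v l := by
  unfold On
  simp only [List.mem_append]
  tauto

theorem flip_l1 (b : Band V) : b.flip.l1 = b.l1.reverse := by
  simp [Band.flip, Band.l1]

theorem flip_l2 (b : Band V) : b.flip.l2 = b.l2.reverse := by
  simp [Band.flip, Band.l2]

theorem swap_l1 (b : Band V) : b.swap.l1 = b.l2 := rfl

theorem swap_l2 (b : Band V) : b.swap.l2 = b.l1 := rfl

theorem kap_mono {B B' : List (Band V)} (h : ∀ b ∈ B', b ∈ B) : kap B' ⊆ kap B := by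
  rintro v ⟨b, hb, hv⟩
  exact ⟨b, h b hb, hv⟩

theorem kap_flip (b : Band V) (B : List (Band V)) : kap (b.flip :: B) ⊆ kap (b :: B) := by
  rintro v ⟨c, hc, hv⟩
  rcases List.mem_cons.1 hc with h | h
  · subst h
    refine ⟨b, List.mem_cons_self, ?_⟩
    simp only [Band.flip] at hv
    tauto
  · exact ⟨c, List.mem_cons_of_mem _ h, hv⟩

theorem kap_swap (b : Band V) (B : List (Band V)) : kap (b.swap :: B) ⊆ kap (b :: B) := by
  rintro v ⟨c, hc, hv⟩
  rcases List.mem_cons.1 hc with h | h
  · subst h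
    refine ⟨b, List.mem_cons_self, ?_⟩
    simp only [Band.swap, List.mem_reverse] at hv
    exact hv
  · exact ⟨c, List.mem_cons_of_mem _ h, hv⟩

theorem pst_sub {Gr : SimpleGraph V} {lam K W : ℕ} {w : List (List V)} {B B' : List (Band V)}
    (h : PSt Gr lam K W w B) (hs : B'.Sublist B) : PSt Gr lam K W w B' where
  chain := h.chain
  nodup := h.nodup
  disj := h.disj.sublist (hs.flatMap _)
  kn := h.kn.sublist (hs.flatMap _)
  kout := fun v hv => h.kout v (kap_mono (fun _ hb => hs.subset hb) hv)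
  legs := fun b hb => h.legs b (hs.subset hb)
  link := fun b hb => h.link b (hs.subset hb)
  kl := fun b hb => h.kl b (hs.subset hb)
  big := fun b hb => h.big b (hs.subset hb)
  small := fun b hb => h.small b (hs.subset hb)

section fr

variable {Gr : SimpleGraph V} {lam K W : ℕ} {x hub : V} {J κ : List V}
  {wA wB : List (List V)} {B B' : List (Band V)} {I : Finset ℕ}

theorem fr_mk (h : Fr Gr lam K W x hub J κ wA wB B I)
    (hst : PSt Gr lam K W ([x] :: (wA ++ J :: wB)) B')
    (hlegs : ∀ b ∈ B', On (wA ++ wB) b.l1 ∧ On (wA ++ wB) b.l2)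
    (hk : kap B' ⊆ kap B) : Fr Gr lam K W x hub J κ wA wB B' I where
  st := hst
  cl := h.cl
  legs := hlegs
  hub := by
    rcases h.hub with h1 | ⟨h1, h2, h3⟩
    · exact Or.inl h1
    · exact Or.inr ⟨h1, h2, fun hc => h3 (hk hc)⟩
  kl := h.kl
  lks := h.lks
  lst := h.lst

theorem fr_sub (h : Fr Gr lam K W x hub J κ wA wB B I) (hs : B'.Sublist B) :
    Fr Gr lam K W x hub J κ wA wB B' I :=
  fr_mk h (pst_sub h.st hs) (fun b hb => h.legs b (hs.subset hb))
    (kap_mono (fun _ hb => hs.subset hb))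

theorem fr_perm (h1 : T_SYM) (h : Fr Gr lam K W x hub J κ wA wB B I) (hp : B.Perm B') :
    Fr Gr lam K W x hub J κ wA wB B' I :=
  fr_mk h ((h1 V Gr lam K W _).1 B B' hp h.st) (fun b hb => h.legs b (hp.symm.subset hb))
    (kap_mono (fun _ hb => hp.symm.subset hb))

theorem fr_flip (h1 : T_SYM) {b : Band V} (h : Fr Gr lam K W x hub J κ wA wB (b :: B) I) :
    Fr Gr lam K W x hub J κ wA wB (b.flip :: B) I := by
  refine fr_mk h ((h1 V Gr lam K W _).2 b B h.st).1 ?_ (kap_flip b B)
  intro c hc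
  rcases List.mem_cons.1 hc with e | e
  · subst e
    rw [flip_l1, flip_l2, on_rev, on_rev]
    exact h.legs b List.mem_cons_self
  · exact h.legs c (List.mem_cons_of_mem _ e)

theorem fr_swap (h1 : T_SYM) {b : Band V} (h : Fr Gr lam K W x hub J κ wA wB (b :: B) I) :
    Fr Gr lam K W x hub J κ wA wB (b.swap :: B) I := by
  refine fr_mk h ((h1 V Gr lam K W _).2 b B h.st).2.1 ?_ (kap_swap b B)
  intro c hc
  rcases List.mem_cons.1 hc with e | e
  · subst e
    rw [swap_l1, swap_l2]
    exact (h.legs b List.mem_cons_self).symm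
  · exact h.legs c (List.mem_cons_of_mem _ e)

theorem yx_mono {m m' : ℕ} {I I' : Finset ℕ} {σ : ℤ} (h : YX Gr K m I σ) (hm : m' ≤ m)
    (hI : I' ⊆ I) : YX Gr K m' I' σ := by
  obtain ⟨Y, h1, h2, h3⟩ := h
  exact ⟨Y, hm.trans h1, h2, fun y hy i hi => h3 y hy i (hI hi)⟩

theorem yx_zero (I : Finset ℕ) (σ : ℤ) : YX Gr K 0 I σ :=
  ⟨∅, le_refl _, by simp, by simp⟩

end fr

theorem first_of {α : Type} (P : α → Prop) : ∀ w : List α, (∃ l ∈ w, P l) →
    ∃ A1 l A2, w = A1 ++ l :: A2 ∧ P l ∧ ∀ a ∈ A1, ¬ P a := by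
  intro w
  induction w with
  | nil => rintro ⟨l, hl, -⟩; simp at hl
  | cons a w ih =>
    intro h
    by_cases ha : P a
    · exact ⟨[], a, w, rfl, ha, by simp⟩
    · have : ∃ l ∈ w, P l := by
        obtain ⟨l, hl, hP⟩ := h
        rcases List.mem_cons.1 hl with e | e
        · subst e
          exact absurd hP ha
        · exact ⟨l, e, hP⟩
      obtain ⟨A1, l, A2, h1, h2, h3⟩ := ih this
      refine ⟨a :: A1, l, A2, by rw [h1]; rfl, h2, ?_⟩
      intro c hc
      rcases List.mem_cons.1 hc with e | e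
      · subst e
        exact ha
      · exact h3 c e

theorem len2 {α : Type} (p q : α → Bool) : ∀ l : List α, (∀ a ∈ l, p a = true ∨ q a = true) →
    l.length ≤ (l.filter p).length + (l.filter q).length := by
  intro l
  induction l with
  | nil => intro _; simp
  | cons a l ih =>
    intro h
    have h1 := ih (fun b hb => h b (List.mem_cons_of_mem _ hb))
    have h2 := h a List.mem_cons_self
    rw [List.filter_cons, List.filter_cons, List.length_cons]
    rcases h2 with e | e
    · rw [if_pos e, List.length_cons]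
      split
      · rw [List.length_cons]; omega
      · omega
    · rw [if_pos e, List.length_cons]
      split
      · rw [List.length_cons]; omega
      · omega

theorem len3 {α : Type} (p q r : α → Bool) : ∀ l : List α,
    (∀ a ∈ l, p a = true ∨ q a = true ∨ r a = true) →
    l.length ≤ (l.filter p).length + (l.filter q).length + (l.filter r).length := by
  intro l h
  have h1 := len2 p (fun a => q a || r a) l (by
    intro a ha
    rcases h a ha with e | e | e <;> simp [e])
  have h2 := len2 q r (l.filter (fun a => q a || r a)) (by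
    intro a ha
    have := (List.mem_filter.1 ha).2
    simpa using this)
  have h3 : ((l.filter (fun a => q a || r a)).filter q).length ≤ (l.filter q).length := by
    exact ((List.filter_sublist (p := fun a => q a || r a) (l := l)).filter q).length_le
  have h4 : ((l.filter (fun a => q a || r a)).filter r).length ≤ (l.filter r).length := by
    exact ((List.filter_sublist (p := fun a => q a || r a) (l := l)).filter r).length_le
  omega

/-- one leg in `wA` and one leg in `wB` -/
def Mix (wA wB : List (List V)) (b : Band V) : Prop :=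
  (On wA b.l1 ∧ On wB b.l2 ∧ ¬ On wB b.l1 ∧ ¬ On wA b.l2) ∨
  (On wB b.l1 ∧ On wA b.l2 ∧ ¬ On wA b.l1 ∧ ¬ On wB b.l2)

theorem mix_flip {wA wB : List (List V)} {b : Band V} (h : Mix wA wB b) : Mix wA wB b.flip := by
  unfold Mix
  rw [flip_l1, flip_l2]
  simp only [on_rev]
  exact h

theorem mix_swap {wA wB : List (List V)} {b : Band V} (h : Mix wA wB b) : Mix wA wB b.swap := by
  unfold Mix
  rw [swap_l1, swap_l2]
  unfold Mix at h
  tauto

/-- the legs of the other bands are different from the legs of `t` -/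
theorem leg_ne {t : Band V} {R : List (Band V)}
    (hd : ((t :: R).flatMap (fun b => b.l1 ++ b.l2)).Nodup) {c : Band V} (hc : c ∈ R)
    {l l' : List V} (hl : l = t.l1 ∨ l = t.l1.reverse ∨ l = t.l2 ∨ l = t.l2.reverse)
    (hl' : l' = c.l1 ∨ l' = c.l1.reverse ∨ l' = c.l2 ∨ l' = c.l2.reverse) : l' ≠ l := by
  intro e
  rw [List.flatMap_cons, List.nodup_append] at hd
  have hne : ∃ v, v ∈ l := by
    rcases hl with h | h | h | h
    · exact ⟨t.p, by rw [h]; simp [Band.l1]⟩
    · exact ⟨t.p, by rw [h]; simp [Band.l1]⟩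
    · exact ⟨t.q, by rw [h]; simp [Band.l2]⟩
    · exact ⟨t.q, by rw [h]; simp [Band.l2]⟩
  obtain ⟨v, hv⟩ := hne
  have h1 : v ∈ t.l1 ++ t.l2 := by
    rcases hl with h | h | h | h
    · rw [h] at hv; exact List.mem_append.2 (Or.inl hv)
    · rw [h, List.mem_reverse] at hv; exact List.mem_append.2 (Or.inl hv)
    · rw [h] at hv; exact List.mem_append.2 (Or.inr hv)
    · rw [h, List.mem_reverse] at hv; exact List.mem_append.2 (Or.inr hv)
  have h2 : v ∈ c.l1 ++ c.l2 := by
    rw [← e] at hv
    rcases hl' with h | h | h | h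
    · rw [h] at hv; exact List.mem_append.2 (Or.inl hv)
    · rw [h, List.mem_reverse] at hv; exact List.mem_append.2 (Or.inl hv)
    · rw [h] at hv; exact List.mem_append.2 (Or.inr hv)
    · rw [h, List.mem_reverse] at hv; exact List.mem_append.2 (Or.inr hv)
  exact hd.2.2 v h1 v (List.mem_flatMap.2 ⟨c, hc, h2⟩) rfl

/-- a leg of a band is one of four lists -/
def IsLeg (c : Band V) (l : List V) : Prop :=
  l = c.l1 ∨ l = c.l1.reverse ∨ l = c.l2 ∨ l = c.l2.reverse

theorem isLeg_rev {c : Band V} {l : List V} (h : IsLeg c l) : IsLeg c l.reverse := by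
  rcases h with h | h | h | h
  · exact Or.inr (Or.inl (by rw [h]))
  · exact Or.inl (by rw [h, List.reverse_reverse])
  · exact Or.inr (Or.inr (Or.inr (by rw [h])))
  · exact Or.inr (Or.inr (Or.inl (by rw [h, List.reverse_reverse])))

/-- a leg on `u ++ l :: v` which is different from `l` up to reversal -/
theorem on_mid {u v : List (List V)} {l a : List V} (h : On (u ++ l :: v) a) (h1 : a ≠ l)
    (h2 : a.reverse ≠ l) : On u a ∨ On v a := by
  unfold On at h ⊢
  simp only [List.mem_append, List.mem_cons] at h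
  tauto

theorem mixed (h1 : T_SYM) (h4 : T_TAB1) (h5 : T_TAB2) (Gr : SimpleGraph V) (lam K W : ℕ)
    (x hub : V) (J κ : List V) (wA wB : List (List V)) (B : List (Band V)) (I : Finset ℕ)
    (hK : 1 ≤ K) (h : Fr Gr lam K W x hub J κ wA wB B I) (hne : B ≠ [])
    (hmix : ∀ b ∈ B, Mix wA wB b) :
    ∃ m : ℕ, 3 * B.length + 3 ≤ 12 * m ∧
      YX Gr K m (I.filter (fun i => i + 1 < J.length)) 1 := by
  classical
  -- the first leg in `wA`
  have hex : ∃ l ∈ wA, ∃ c ∈ B, IsLeg c l := by
    obtain ⟨b, hb⟩ := List.exists_mem_of_ne_nil B hne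
    rcases hmix b hb with ⟨h2, -⟩ | ⟨-, h2, -⟩
    · rcases h2 with h2 | h2
      · exact ⟨_, h2, b, hb, Or.inl rfl⟩
      · exact ⟨_, h2, b, hb, Or.inr (Or.inl rfl)⟩
    · rcases h2 with h2 | h2
      · exact ⟨_, h2, b, hb, Or.inr (Or.inr (Or.inl rfl))⟩
      · exact ⟨_, h2, b, hb, Or.inr (Or.inr (Or.inr rfl))⟩
  obtain ⟨A1, l, A2, hw, ⟨c, hc, hcl⟩, hfirst⟩ := first_of (fun l => ∃ c ∈ B, IsLeg c l) wA hex
  obtain ⟨R1, R2, hR⟩ := List.append_of_mem hc
  have hperm : B.Perm (c :: (R1 ++ R2)) := by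
    rw [hR]
    exact List.perm_middle
  have hfr : Fr Gr lam K W x hub J κ wA wB (c :: (R1 ++ R2)) I := fr_perm h1 h hperm
  have hsub : ∀ b ∈ R1 ++ R2, b ∈ B := by
    intro b hb
    exact hperm.symm.subset (List.mem_cons_of_mem _ hb)
  have hlen : B.length = (R1 ++ R2).length + 1 := by
    rw [hperm.length_eq, List.length_cons]
  generalize R1 ++ R2 = R at *
  -- the symmetric band
  have ht : ∃ t : Band V, t.l1 = l ∧ Mix wA wB t ∧ Fr Gr lam K W x hub J κ wA wB (t :: R) I := by
    rcases hcl with e | e | e | e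
    · exact ⟨c, e.symm, hmix c hc, hfr⟩
    · exact ⟨c.flip, by rw [flip_l1, e], mix_flip (hmix c hc), fr_flip h1 hfr⟩
    · exact ⟨c.swap, by rw [swap_l1, e], mix_swap (hmix c hc), fr_swap h1 hfr⟩
    · exact ⟨c.flip.swap, by rw [swap_l1, flip_l2, e], mix_swap (mix_flip (hmix c hc)),
        fr_swap h1 (fr_flip h1 hfr)⟩
  obtain ⟨t, htl, htm, hft⟩ := ht
  have hlA : l ∈ wA := by rw [hw]; simp
  have hB2 : On wB t.l2 := by
    rcases htm with ⟨-, h2, -⟩ | ⟨-, -, h2, -⟩
    · exact h2
    · exact absurd (Or.inl (by rw [htl]; exact hlA)) h2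
  have hμ : ∃ μ : List V, (μ = t.l2 ∨ μ = t.l2.reverse) ∧ μ ∈ wB := by
    rcases hB2 with h2 | h2
    · exact ⟨_, Or.inl rfl, h2⟩
    · exact ⟨_, Or.inr rfl, h2⟩
  obtain ⟨μ, hμ1, hμ2⟩ := hμ
  obtain ⟨B1, B2, hwB⟩ := List.append_of_mem hμ2
  have hdis := hft.st.disj
  -- the other legs
  have hA2 : ∀ b ∈ R, ∀ a : List V, IsLeg b a → On wA a → On A2 a := by
    intro b hb a ha hon
    rw [hw] at hon
    have e1 : a ≠ l := leg_ne hdis hb (Or.inl htl.symm) ha
    have e2 : a.reverse ≠ l := leg_ne hdis hb (Or.inl htl.symm) (isLeg_rev ha)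
    rcases on_mid hon e1 e2 with h2 | h2
    · exfalso
      rcases h2 with h2 | h2
      · exact hfirst _ h2 ⟨b, hsub b hb, ha⟩
      · exact hfirst _ h2 ⟨b, hsub b hb, isLeg_rev ha⟩
    · exact h2
  have hBB : ∀ b ∈ R, ∀ a : List V, IsLeg b a → On wB a → On B1 a ∨ On B2 a := by
    intro b hb a ha hon
    rw [hwB] at hon
    have hm : μ = t.l1 ∨ μ = t.l1.reverse ∨ μ = t.l2 ∨ μ = t.l2.reverse :=
      Or.inr (Or.inr hμ1)
    exact on_mid hon (leg_ne hdis hb hm ha) (leg_ne hdis hb hm (isLeg_rev ha))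
  have hcls : ∀ b ∈ R, (On (A2 ++ B1) b.l1 ∧ On (A2 ++ B1) b.l2) ∨
      (On (A2 ++ B2) b.l1 ∧ On (A2 ++ B2) b.l2) := by
    intro b hb
    simp only [on_append]
    have l1 : IsLeg b b.l1 := Or.inl rfl
    have l2 : IsLeg b b.l2 := Or.inr (Or.inr (Or.inl rfl))
    rcases hmix b (hsub b hb) with ⟨h2, h3, -⟩ | ⟨h3, h2, -⟩
    · have e1 := hA2 b hb _ l1 h2
      have e2 := hBB b hb _ l2 h3
      tauto
    · have e1 := hA2 b hb _ l2 h2
      have e2 := hBB b hb _ l1 h3
      tauto
  have hcount := len2 (fun b => decide (On (A2 ++ B1) b.l1 ∧ On (A2 ++ B1) b.l2))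
    (fun b => decide (On (A2 ++ B2) b.l1 ∧ On (A2 ++ B2) b.l2)) R (by
      intro b hb
      rcases hcls b hb with e | e
      · exact Or.inl (decide_eq_true e)
      · exact Or.inr (decide_eq_true e))
  by_cases hbig : (R.filter (fun b => decide (On (A2 ++ B1) b.l1 ∧ On (A2 ++ B1) b.l2))).length ≤
      (R.filter (fun b => decide (On (A2 ++ B2) b.l1 ∧ On (A2 ++ B2) b.l2))).length
  · -- the legs in `A2` and `B2`
    set S := R.filter (fun b => decide (On (A2 ++ B2) b.l1 ∧ On (A2 ++ B2) b.l2)) with hS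
    have hfS : Fr Gr lam K W x hub J κ wA wB (t :: S) I :=
      fr_sub hft (List.Sublist.cons_cons t List.filter_sublist)
    rw [hw, hwB, ← htl] at hfS
    have hyx := h4 V Gr lam K W x hub J κ μ A1 A2 B1 B2 t S I hK hfS hμ1 (by
      intro b hb
      have hbd := (List.mem_filter.1 hb).2
      rw [decide_eq_true_eq] at hbd
      exact hbd)
    exact ⟨(S.length + 2) / 2, by omega, yx_mono hyx le_rfl (Finset.filter_subset _ _)⟩
  · set S := R.filter (fun b => decide (On (A2 ++ B1) b.l1 ∧ On (A2 ++ B1) b.l2)) with hS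
    have hfS : Fr Gr lam K W x hub J κ wA wB (t :: S) I :=
      fr_sub hft (List.Sublist.cons_cons t List.filter_sublist)
    rw [hw, hwB, ← htl] at hfS
    have hyx := h5 V Gr lam K W x hub J κ μ A1 A2 B1 B2 t S I hK hfS hμ1 (by
      intro b hb
      have hbd := (List.mem_filter.1 hb).2
      rw [decide_eq_true_eq] at hbd
      exact hbd)
    exact ⟨(S.length + 2) / 2, by omega, hyx⟩

end TYPE_

open TYPE_ in
/-- TYPE: the general case. -/
theorem p_TYPE (h1 : T_SYM) (h2 : T_TAA) (h3 : T_TBB) (h4 : T_TAB1) (h5 : T_TAB2) : T_TYPE := by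
  classical
  intro V Gr lam K W x hub J κ wA wB B I hK hfr
  by_cases hB : B = []
  · exact ⟨0, 1, by rw [hB]; simp, Or.inl rfl, yx_zero _ _⟩
  have hBpos : 0 < B.length := List.length_pos_iff.2 hB
  set BA := B.filter (fun b => decide (On wA b.l1 ∧ On wA b.l2)) with hBA
  set BB := B.filter (fun b => decide (On wB b.l1 ∧ On wB b.l2)) with hBB
  set BM := B.filter (fun b => decide (Mix wA wB b)) with hBM
  have hcount : B.length ≤ BA.length + BB.length + BM.length := by
    apply len3
    intro b hb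
    have hl := hfr.legs b hb
    have e1 : On wA b.l1 ∨ On wB b.l1 := (on_append _ _ _).1 hl.1
    have e2 : On wA b.l2 ∨ On wB b.l2 := (on_append _ _ _).1 hl.2
    simp only [decide_eq_true_eq]
    unfold Mix
    tauto
  by_cases hA : B.length ≤ 3 * BA.length
  · have hne : BA ≠ [] := by
      intro e
      rw [e, List.length_nil] at hA
      omega
    have hyx := h2 V Gr lam K W x hub J κ wA wB BA I hK hne (fr_sub hfr List.filter_sublist) (by
      intro b hb
      have hbd := (List.mem_filter.1 hb).2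
      rw [decide_eq_true_eq] at hbd
      exact hbd)
    exact ⟨(BA.length + 2) / 2, 1, by omega, Or.inl rfl,
      yx_mono hyx le_rfl (Finset.filter_subset _ _)⟩
  by_cases hC : B.length ≤ 3 * BB.length
  · have hne : BB ≠ [] := by
      intro e
      rw [e, List.length_nil] at hC
      omega
    have hyx := h3 V Gr lam K W x hub J κ wA wB BB I hK hne (fr_sub hfr List.filter_sublist) (by
      intro b hb
      have hbd := (List.mem_filter.1 hb).2
      rw [decide_eq_true_eq] at hbd
      exact hbd)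
    exact ⟨(BB.length + 2) / 2, -1, by omega, Or.inr rfl,
      yx_mono hyx le_rfl (Finset.filter_subset _ _)⟩
  have hne : BM ≠ [] := by
    intro e
    rw [e, List.length_nil] at hcount
    omega
  obtain ⟨m, hm, hyx⟩ := mixed h1 h4 h5 Gr lam K W x hub J κ wA wB BM I hK
    (fr_sub hfr List.filter_sublist) hne (by
      intro b hb
      have hbd := (List.mem_filter.1 hb).2
      rw [decide_eq_true_eq] at hbd
      exact hbd)
  exact ⟨m, 1, by omega, Or.inl rfl, hyx⟩

end Pool.Agent.CycMC
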