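import Pool.Agent.CycMC.Defs

/-!
# Cycle sets of graphs without a complete minor: the targets

Each `T_XXX : Prop` is one job; the proof is a theorem `p_XXX : T_XXX` in the file
`Pool/Agent/CycMC/XXX.lean` (the hypotheses of a job may be other targets).
The proofs are in `Blueprint.lean.txt`.
-/

set_option autoImplicit false

namespace Pool.Agent.CycMC

open Finset
open Pool.Agent.HubG (cycleSet CycSeq)
open Pool.Agent.CycSp (Pt Cyc ZD offE SparseP)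
open Pool.Agent.CycPl (Crs NonCr)
open Pool.Agent.Pend (Minor)

/-! ## Counting -/

/-- COUNT3 -/
def T_COUNT3 : Prop := ∀ n Lm a m : ℕ, 1 ≤ a →
  {A : Set ℕ | (∀ l ∈ A, l ≤ n) ∧ ∃ I : Finset ℕ, (∀ i ∈ I, i < Lm) ∧ a ≤ I.card ∧
    ∃ Y : Finset ℤ, m ≤ Y.card ∧ (∀ y ∈ Y, ∀ z ∈ Y, y < z → y + Lm ≤ z) ∧
    ∃ σ : ℤ, (σ = 1 ∨ σ = -1) ∧ ∀ y ∈ Y, ∀ i ∈ I, ∃ N ∈ A, (N : ℤ) = y + σ * i}.ncard ≤
      2 * 2 ^ Lm * (n + 2 * Lm + 1).choose m * 2 ^ (n + 1 - a * m)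

/-- COUNT4 -/
def T_COUNT4 : Prop := ∀ n W m : ℕ, 1 ≤ W →
  {A : Set ℕ | (∀ l ∈ A, l ≤ n) ∧ ∃ X : Finset ℕ, m < X.card ∧ (∀ x ∈ X, x ∈ A) ∧
    Gap X 1 W}.ncard ≤ (n + 1) * (2 ^ W - 1) ^ (m / W) * 2 ^ (n + 1 - W * (m / W))

/-- SEP: a `K`-separated set has a large `g K`-separated subset. -/
def T_SEP : Prop := ∀ (K g : ℕ) (Y : Finset ℤ), 1 ≤ g →
  (∀ a ∈ Y, ∀ b ∈ Y, a < b → a + K ≤ b) →
  ∃ Y' ⊆ Y, Y.card ≤ g * Y'.card ∧ ∀ a ∈ Y', ∀ b ∈ Y', a < b → a + (g * K : ℕ) ≤ b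

/-! ## Paths and bands -/

/-- CLOSEC: closed paths are cycles. -/
def T_CLOSEC : Prop := ∀ (V : Type) (Gr : SimpleGraph V) (l : List V), 3 ≤ l.length →
  l.Nodup → l.IsChain Gr.Adj → (∀ a ∈ l.getLast?, ∀ b ∈ l.head?, Gr.Adj a b) →
  l.length ∈ cycleSet Gr

/-- CLS: closing the paths of a rich list by a family `g i` of paths. -/
def T_CLS : Prop := ∀ (V : Type) (Gr : SimpleGraph V) (S : Set V) (l : List V) (K m : ℕ)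
  (I : Finset ℕ) (g : ℕ → List V) (a0 σ : ℤ), Rich Gr S l K m → l ≠ [] →
  (∀ i ∈ I, 2 ≤ (g i).length ∧ (g i).IsChain Gr.Adj ∧ (g i).Nodup ∧
    (∀ v ∈ g i, v ∉ l ∧ v ∉ S) ∧ (∀ a ∈ l.getLast?, ∀ b ∈ (g i).head?, Gr.Adj a b) ∧
    (∀ a ∈ (g i).getLast?, ∀ b ∈ l.head?, Gr.Adj a b) ∧ ((g i).length : ℤ) = a0 + σ * i) →
  YX Gr K m I σ

/-- SYM: symmetries of the state. -/
def T_SYM : Prop := ∀ (V : Type) (Gr : SimpleGraph V) (lam K W : ℕ) (w : List (List V)),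
  (∀ B B' : List (Band V), B.Perm B' → PSt Gr lam K W w B → PSt Gr lam K W w B') ∧
  (∀ (b : Band V) (B : List (Band V)), PSt Gr lam K W w (b :: B) →
    PSt Gr lam K W w (b.flip :: B) ∧ PSt Gr lam K W w (b.swap :: B) ∧ PSt Gr lam K W w B)

/-- TW2: switching a twisted band. -/
def T_TW2 : Prop := ∀ (V : Type) (Gr : SimpleGraph V) (lam K W : ℕ) (b : Band V)
  (B : List (Band V)) (u v z : List (List V)),
  PSt Gr lam K W (u ++ b.l1 :: (v ++ b.l2 :: z)) (b :: B) →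
  ∃ w' : List (List V), PSt Gr lam K W w' B ∧
    Rep Gr (kap [b]) (u ++ b.l1 :: (v ++ b.l2 :: z)).flatten w'.flatten ∧
    w'.flatten.length + b.l1.length + b.l2.length =
      (u ++ b.l1 :: (v ++ b.l2 :: z)).flatten.length + 2 * lam + 2

/-- DB: switching two interlaced untwisted bands. -/
def T_DB : Prop := ∀ (V : Type) (Gr : SimpleGraph V) (lam K W : ℕ) (b c : Band V)
  (B : List (Band V)) (u v x y z : List (List V)),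
  PSt Gr lam K W
    (u ++ b.l1 :: (v ++ c.l1 :: (x ++ b.l2.reverse :: (y ++ c.l2.reverse :: z))))
    (b :: c :: B) →
  ∃ w' : List (List V), PSt Gr lam K W w' B ∧
    Rep Gr (kap [b, c])
      (u ++ b.l1 :: (v ++ c.l1 :: (x ++ b.l2.reverse :: (y ++ c.l2.reverse :: z)))).flatten
      w'.flatten ∧
    w'.flatten.length + b.l1.length + b.l2.length + c.l1.length + c.l2.length =
      (u ++ b.l1 :: (v ++ c.l1 :: (x ++ b.l2.reverse :: (y ++ c.l2.reverse :: z)))).flatten.length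
        + 4 * lam + 4

/-- NORM: every band is twisted or untwisted after a symmetry. -/
def T_NORM : Prop := ∀ (V : Type) (Gr : SimpleGraph V) (lam K W : ℕ) (w : List (List V))
  (B : List (Band V)), PSt Gr lam K W w B →
  ∃ B' : List (Band V), PSt Gr lam K W w B' ∧ B'.length = B.length ∧ kap B' = kap B ∧
    ∀ b ∈ B', Tw w b ∨ Un w b

/-- STEP: either the bands are untwisted and not interlaced, or one or two bands can be switched. -/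
def T_STEP : Prop := ∀ (V : Type) (Gr : SimpleGraph V) (lam K W : ℕ) (w : List (List V))
  (B : List (Band V)), PSt Gr lam K W w B →
  (∃ B' : List (Band V), PSt Gr lam K W w B' ∧ B'.length = B.length ∧ kap B' = kap B ∧
    Lam w B') ∨
  (∃ (w' : List (List V)) (B' : List (Band V)), PSt Gr lam K W w' B' ∧
    B'.length < B.length ∧ B.length ≤ B'.length + 2 ∧ kap B' ⊆ kap B ∧
    Rep Gr (kap B) w.flatten w'.flatten ∧ w'.flatten.length + K ≤ w.flatten.length ∧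
    w.flatten.length ≤ w'.flatten.length + 2 * W ∧ 4 ≤ w'.flatten.length)

/-- LAMI: many lengths for untwisted bands which are not interlaced. -/
def T_LAMI : Prop := ∀ (V : Type) (Gr : SimpleGraph V) (lam K W : ℕ) (w : List (List V))
  (B : List (Band V)), 1 ≤ K → PSt Gr lam K W w B → Lam w B →
  Rich Gr (kap B) w.flatten K (B.length + 1)

/-- CORE: many lengths. -/
def T_CORE : Prop := ∀ (V : Type) (Gr : SimpleGraph V) (lam K W : ℕ) (w : List (List V))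
  (B : List (Band V)), 1 ≤ K → PSt Gr lam K W w B →
  Rich Gr (kap B) w.flatten K ((B.length + 2) / 2)

/-- GREEDY: many lengths with bounded gaps, or many untwisted bands which are not interlaced. -/
def T_GREEDY : Prop := ∀ (V : Type) (Gr : SimpleGraph V) (lam K W : ℕ) (w : List (List V))
  (B : List (Band V)), 1 ≤ K → PSt Gr lam K W w B →
  ∃ (w' : List (List V)) (B' : List (Band V)) (X : Finset ℕ), PSt Gr lam K W w' B' ∧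
    Lam w' B' ∧ Rep Gr (kap B) w.flatten w'.flatten ∧ B.length ≤ B'.length + 2 * X.card ∧
    Gap X 1 (2 * W) ∧ ∀ a ∈ X, (a = w.flatten.length ∨ 4 ≤ a) ∧
      ∃ l', Rep Gr (kap B) w.flatten l' ∧ l'.length = a

/-- LAMCYC: untwisted bands which are not interlaced give a cycle with a non-crossing family of
links. -/
def T_LAMCYC : Prop := ∀ (V : Type) (Gr : SimpleGraph V) (lam K W : ℕ) (w : List (List V))
  (B : List (Band V)), (lam = 1 ∨ lam = 2) → 3 ≤ w.flatten.length → PSt Gr lam K W w B →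
  Lam w B → (∀ a ∈ w.flatten.getLast?, ∀ b ∈ w.flatten.head?, Gr.Adj a b) →
  ∃ (c v : ℤ → V) (P : Finset Pt), Cyc Gr (w.flatten.length : ℤ) c v P lam ∧ NonCr P ∧
    P.card = B.length

/-! ## One hub and bands -/

/-- A cycle `x, wA, J, wB`, bands with legs in `wA` and `wB`, and links from `x` to the elements
`i ∈ I` of `J`, among them the last one. -/
structure Fr {V : Type} (Gr : SimpleGraph V) (lam K W : ℕ) (x hub : V) (J κ : List V)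
    (wA wB : List (List V)) (B : List (Band V)) (I : Finset ℕ) : Prop where
  st : PSt Gr lam K W ([x] :: (wA ++ J :: wB)) B
  cl : ∀ a ∈ ([x] :: (wA ++ J :: wB)).flatten.getLast?, Gr.Adj a x
  legs : ∀ b ∈ B, (b.l1 ∈ wA ++ wB ∨ b.l1.reverse ∈ wA ++ wB) ∧
    (b.l2 ∈ wA ++ wB ∨ b.l2.reverse ∈ wA ++ wB)
  hub : (κ = [] ∧ hub = x) ∨ (κ = [hub] ∧ hub ∉ ([x] :: (wA ++ J :: wB)).flatten ∧ hub ∉ kap B)
  kl : κ.length + 1 = lam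
  lks : ∀ i ∈ I, ∃ y, J[i]? = some y ∧ (x :: (κ ++ [y])).IsChain Gr.Adj
  lst : ∃ j ∈ I, j + 1 = J.length

/-- TAA: all legs in `wA`. -/
def T_TAA : Prop := ∀ (V : Type) (Gr : SimpleGraph V) (lam K W : ℕ) (x hub : V) (J κ : List V)
  (wA wB : List (List V)) (B : List (Band V)) (I : Finset ℕ), 1 ≤ K → B ≠ [] →
  Fr Gr lam K W x hub J κ wA wB B I →
  (∀ b ∈ B, (b.l1 ∈ wA ∨ b.l1.reverse ∈ wA) ∧ (b.l2 ∈ wA ∨ b.l2.reverse ∈ wA)) →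
  YX Gr K ((B.length + 2) / 2) I 1

/-- TBB: all legs in `wB`. -/
def T_TBB : Prop := ∀ (V : Type) (Gr : SimpleGraph V) (lam K W : ℕ) (x hub : V) (J κ : List V)
  (wA wB : List (List V)) (B : List (Band V)) (I : Finset ℕ), 1 ≤ K → B ≠ [] →
  Fr Gr lam K W x hub J κ wA wB B I →
  (∀ b ∈ B, (b.l1 ∈ wB ∨ b.l1.reverse ∈ wB) ∧ (b.l2 ∈ wB ∨ b.l2.reverse ∈ wB)) →
  YX Gr K ((B.length + 2) / 2) I (-1)

/-- TAB1: a band `t` with the legs in `wA = A1 ++ t.l1 :: A2` and `wB = B1 ++ μ :: B2`, the other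
bands have one leg in `A2` and one leg in `B2`. -/
def T_TAB1 : Prop := ∀ (V : Type) (Gr : SimpleGraph V) (lam K W : ℕ) (x hub : V) (J κ μ : List V)
  (A1 A2 B1 B2 : List (List V)) (t : Band V) (B : List (Band V)) (I : Finset ℕ), 1 ≤ K →
  Fr Gr lam K W x hub J κ (A1 ++ t.l1 :: A2) (B1 ++ μ :: B2) (t :: B) I →
  (μ = t.l2 ∨ μ = t.l2.reverse) →
  (∀ b ∈ B, (b.l1 ∈ A2 ++ B2 ∨ b.l1.reverse ∈ A2 ++ B2) ∧
    (b.l2 ∈ A2 ++ B2 ∨ b.l2.reverse ∈ A2 ++ B2)) →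
  YX Gr K ((B.length + 2) / 2) I 1

/-- TAB2: the same with `B1` in place of `B2`. -/
def T_TAB2 : Prop := ∀ (V : Type) (Gr : SimpleGraph V) (lam K W : ℕ) (x hub : V) (J κ μ : List V)
  (A1 A2 B1 B2 : List (List V)) (t : Band V) (B : List (Band V)) (I : Finset ℕ), 1 ≤ K →
  Fr Gr lam K W x hub J κ (A1 ++ t.l1 :: A2) (B1 ++ μ :: B2) (t :: B) I →
  (μ = t.l2 ∨ μ = t.l2.reverse) →
  (∀ b ∈ B, (b.l1 ∈ A2 ++ B1 ∨ b.l1.reverse ∈ A2 ++ B1) ∧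
    (b.l2 ∈ A2 ++ B1 ∨ b.l2.reverse ∈ A2 ++ B1)) →
  YX Gr K ((B.length + 2) / 2) (I.filter (fun i => i + 1 < J.length)) 1

/-- TYPE: the general case. -/
def T_TYPE : Prop := ∀ (V : Type) (Gr : SimpleGraph V) (lam K W : ℕ) (x hub : V) (J κ : List V)
  (wA wB : List (List V)) (B : List (Band V)) (I : Finset ℕ), 1 ≤ K →
  Fr Gr lam K W x hub J κ wA wB B I →
  ∃ (m : ℕ) (σ : ℤ), B.length ≤ 12 * m ∧ (σ = 1 ∨ σ = -1) ∧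
    YX Gr K m (I.filter (fun i => i + 1 < J.length)) σ

/-! ## From positions to lists -/

/-- BLK: blocks of a segment. -/
def T_BLK : Prop := ∀ (V : Type) (c : ℤ → V) (a b : ℤ) (Is : List (ℤ × ℤ)),
  (∀ I ∈ Is, a ≤ I.1 ∧ I.1 ≤ I.2 ∧ I.2 ≤ b) → Is.Pairwise Dis →
  ∃ w : List (List V), w.flatten = seg c a b ∧ ∀ I ∈ Is, seg c I.1 I.2 ∈ w

/-- WORD0: the whole cycle. -/
def T_WORD0 : Prop := ∀ (V : Type) (Gr : SimpleGraph V) (L : ℤ) (c v : ℤ → V) (P : Finset Pt)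
  (lam K W : ℕ) (Bs : List (Pt × Pt)), Cyc Gr L c v P lam → PB P K W Bs →
  ∃ w : List (List V), w.flatten = seg c 0 (L - 1) ∧
    PSt Gr lam K W w (Bs.map (toBand c v lam))

/-- WORD: a hub `x` and an interval `[j0, j1]` which avoid the legs. -/
def T_WORD : Prop := ∀ (V : Type) (Gr : SimpleGraph V) (L : ℤ) (c v : ℤ → V) (P : Finset Pt)
  (lam K W : ℕ) (Bs : List (Pt × Pt)) (x j0 j1 : ℤ), Cyc Gr L c v P lam → PB P K W Bs →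
  0 ≤ x → x < j0 → j0 ≤ j1 → (x, j1) ∈ P →
  (∀ I ∈ Bs.flatMap ivs, Dis I (x, x) ∧ Dis I (j0, j1)) →
  ∃ (hub : V) (κ : List V) (wA wB : List (List V)),
    Fr Gr lam K W (c x) hub (seg c j0 j1) κ wA wB (Bs.map (toBand c v lam))
      (((P.filter (fun p => p.1 = x ∧ j0 ≤ p.2 ∧ p.2 ≤ j1)).image (fun p => (p.2 - j0).toNat)))

/-! ## Links inside of an interval -/

/-- SHORT: many links inside of an interval give a short path. -/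
def T_SHORT : Prop := ∀ (V : Type) (Gr : SimpleGraph V) (L : ℤ) (c v : ℤ → V) (P : Finset Pt)
  (lam : ℕ), Cyc Gr L c v P lam → ∀ a b : ℤ, 0 ≤ a → a ≤ b → b < L →
  ∃ l' : List V, Rep Gr {u | lam = 2 ∧ ∃ p ∈ P, a ≤ p.1 ∧ p.1 ≤ b ∧ u = v p.1} (seg c a b) l' ∧
    3 * l'.length + (P.filter (fun p => a ≤ p.1 ∧ p.2 ≤ b)).card ≤ 3 * (seg c a b).length

/-- SHC: many disjoint intervals with many links. -/
def T_SHC : Prop := ∀ (V : Type) (Gr : SimpleGraph V) (L : ℤ) (c v : ℤ → V) (P : Finset Pt)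
  (lam K W : ℕ), Cyc Gr L c v P lam → 1 ≤ K → ∀ (a b : ℤ) (Is : List (ℤ × ℤ)), 0 ≤ a → b < L →
  (∀ I ∈ Is, a ≤ I.1 ∧ I.1 ≤ I.2 ∧ I.2 ≤ b ∧ I.2 - I.1 < W ∧
    3 * K ≤ (P.filter (fun p => I.1 ≤ p.1 ∧ p.2 ≤ I.2)).card) → Is.Pairwise Dis →
  ∃ X : Finset ℕ, Is.length + 1 ≤ X.card ∧ Gap X K W ∧
    (∀ n ∈ X, ∀ n' ∈ X, n < n' → n + K ≤ n') ∧ (∀ n ∈ X, n ≤ (seg c a b).length) ∧
    ∀ n ∈ X, ∃ l' : List V,
      Rep Gr {u | lam = 2 ∧ ∃ p ∈ P, a ≤ p.1 ∧ p.1 ≤ b ∧ u = v p.1} (seg c a b) l' ∧ l'.length = n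

/-! ## Extraction -/

/-- QUOT: few pairs of arcs are joined by links. -/
def T_QUOT : Prop := ∀ (V : Type) (Gr : SimpleGraph V) (L : ℤ) (c v : ℤ → V) (P : Finset Pt)
  (lam t r : ℕ) (τ : ℤ → ℕ), Cyc Gr L c v P lam → ¬ Minor (⊤ : SimpleGraph (Fin t)) Gr →
  (∀ i j, 0 ≤ i → i ≤ j → j < L → τ i ≤ τ j) → (∀ i, 0 ≤ i → i < L → τ i < r) →
  ((P.image (fun p => (τ p.1, τ p.2))).filter (fun a => a.1 ≠ a.2)).card ≤ 2 ^ t * r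

/-- TAU: the arcs. -/
def T_TAU : Prop := ∀ (P : Finset Pt) (L : ℤ) (Lm : ℕ), 1 ≤ Lm →
  (∀ p ∈ P, 0 ≤ p.1 ∧ p.1 < p.2 ∧ p.2 < L) → (∀ p ∈ P, ∀ q ∈ P, p.2 = q.2 → p = q) →
  (∀ i j, i ≤ j → tau P Lm i ≤ tau P Lm j) ∧
  (∀ i, 0 ≤ i → i < L → tau P Lm i * Lm < 2 * L) ∧
  (∀ i j, 0 ≤ i → i ≤ j → tau P Lm i = tau P Lm j →
    (j - i) + (P.filter (fun p => i ≤ p.1 ∧ p.1 < j)).card < Lm)

/-- IND: vertex disjoint pairs. -/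
def T_IND : Prop := ∀ (E : Finset (ℕ × ℕ)) (a : ℕ), (∀ e ∈ E, e.1 ≠ e.2) →
  (∀ k, (E.filter (fun e => e.1 = k)).card ≤ a) → (∀ k, (E.filter (fun e => e.2 = k)).card ≤ a) →
  ∃ Es : List (ℕ × ℕ), (∀ e ∈ Es, e ∈ E) ∧ (Es.flatMap (fun e => [e.1, e.2])).Nodup ∧
    E.card ≤ 4 * a * Es.length

/-- The factor for the length of the arcs. -/
def MM (t R : ℕ) : ℕ := 12 * (2 ^ t + 1) * R

/-- HVY: many links with hubs of small degree are in arcs or pairs of arcs with many such links. -/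
def T_HVY : Prop := ∀ (t R : ℕ), 1 ≤ R → ∀ (V : Type) (Gr : SimpleGraph V) (L : ℤ)
  (c v : ℤ → V) (P : Finset Pt) (lam D θ : ℕ), Cyc Gr L c v P lam →
  ¬ Minor (⊤ : SimpleGraph (Fin t)) Gr → L ≤ R * P.card → 1 ≤ θ → 4 * D ≤ θ →
  (MM t R * θ : ℕ) ≤ L →
  P.card ≤ 2 * (P.filter (fun p => dg P p.1 ≤ D)).card →
  (∃ Ks : Finset ℕ, L ≤ 8 * R * (MM t R * θ) * Ks.card ∧ ∀ k ∈ Ks,
    θ ≤ (P.filter (fun p => tau P (MM t R * θ) p.1 = k ∧ tau P (MM t R * θ) p.2 = k)).card) ∨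
  (∃ E : Finset (ℕ × ℕ), L ≤ 8 * R * (MM t R * θ) * E.card ∧ ∀ e ∈ E, e.1 ≠ e.2 ∧
    θ ≤ (P.filter (fun p => dg P p.1 ≤ D ∧ tau P (MM t R * θ) p.1 = e.1 ∧
      tau P (MM t R * θ) p.2 = e.2)).card)

/-- BAND1: a pair of arcs with many links contains a band. -/
def T_BAND1 : Prop := ∀ (P : Finset Pt) (Q : Finset Pt) (D θ : ℕ), Q ⊆ P → 4 * D ≤ θ →
  θ ≤ Q.card → 1 ≤ θ → (∀ p ∈ P, ∀ q ∈ P, p.2 = q.2 → p = q) → (∀ p ∈ Q, dg P p.1 ≤ D) →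
  ∃ p ∈ Q, ∃ q ∈ Q, p.1 ≠ q.1 ∧ (3 * θ : ℤ) ≤ 4 * (q.2 - p.2)

/-- EXTR: many disjoint bands, or many arcs with many links. -/
def T_EXTR : Prop := ∀ (t R : ℕ), 1 ≤ R → ∃ C : ℕ, 1 ≤ C ∧ ∀ (V : Type) (Gr : SimpleGraph V)
  (L : ℤ) (c v : ℤ → V) (P : Finset Pt) (lam D θ : ℕ), Cyc Gr L c v P lam →
  ¬ Minor (⊤ : SimpleGraph (Fin t)) Gr → L ≤ R * P.card → 32 ≤ θ → 4 * D ≤ θ →
  (MM t R * θ : ℕ) ≤ L →
  P.card ≤ 2 * (P.filter (fun p => dg P p.1 ≤ D)).card →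
  (∃ Ks : Finset ℕ, L ≤ C * θ * Ks.card ∧ ∀ k ∈ Ks,
    θ ≤ (P.filter (fun p => tau P (MM t R * θ) p.1 = k ∧ tau P (MM t R * θ) p.2 = k)).card) ∨
  (∃ Bs : List (Pt × Pt), L ≤ C * θ * Bs.length ∧ PB P (θ / 4) (3 * (MM t R * θ)) Bs ∧
    (∀ e ∈ Bs, tau P (MM t R * θ) e.1.1 = tau P (MM t R * θ) e.2.1 ∧
      tau P (MM t R * θ) e.1.2 = tau P (MM t R * θ) e.2.2) ∧
    (Bs.flatMap (fun e => [tau P (MM t R * θ) e.1.1, tau P (MM t R * θ) e.1.2])).Nodup)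

/-- DENSE: a hub with many links to one arc. -/
def T_DENSE : Prop := ∀ (t R : ℕ), 1 ≤ R → ∃ C : ℕ, 1 ≤ C ∧ ∀ (V : Type) (Gr : SimpleGraph V)
  (L : ℤ) (c v : ℤ → V) (P : Finset Pt) (lam D θ : ℕ), Cyc Gr L c v P lam →
  ¬ Minor (⊤ : SimpleGraph (Fin t)) Gr → L ≤ R * P.card → 1 ≤ D → θ ≤ 8 * D → 1 ≤ θ →
  (MM t R * θ : ℕ) ≤ L →
  P.card ≤ 2 * (P.filter (fun p => D ≤ dg P p.1)).card →
  ∃ (x : ℤ) (k : ℕ), θ ≤ C * (P.filter (fun p => p.1 = x ∧ tau P (MM t R * θ) p.2 = k)).card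

/-! ## Assembly -/

/-- The good structures for one graph in the middle range. -/
def MidG {V : Type} (Gr : SimpleGraph V) (L : ℤ) (C Lm : ℕ) : Prop :=
  ∃ (I : Finset ℕ) (m : ℕ) (σ : ℤ), (∀ i ∈ I, i < Lm) ∧ Lm ≤ C * I.card ∧
    L ≤ C * Lm * m ∧ (σ = 1 ∨ σ = -1) ∧ YX Gr Lm m I σ

/-- MIDB: middle range, bands. -/
def T_MIDB : Prop := ∀ (C M : ℕ), 1 ≤ M → ∃ C' : ℕ, ∀ (V : Type) (Gr : SimpleGraph V) (L : ℤ)
  (c v : ℤ → V) (P : Finset Pt) (lam θ : ℕ) (Bs : List (Pt × Pt)) (x : ℤ) (k : ℕ),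
  Cyc Gr L c v P lam → 32 ≤ θ → 4 ∣ θ → (M * θ : ℕ) ≤ L → C' * θ ≤ L → C' ≤ θ →
  L ≤ C * θ * Bs.length → PB P (θ / 4) (3 * (M * θ)) Bs →
  (∀ e ∈ Bs, tau P (M * θ) e.1.1 = tau P (M * θ) e.2.1 ∧
      tau P (M * θ) e.1.2 = tau P (M * θ) e.2.2) →
  (Bs.flatMap (fun e => [tau P (M * θ) e.1.1, tau P (M * θ) e.1.2])).Nodup →
  θ ≤ C * (P.filter (fun p => p.1 = x ∧ tau P (M * θ) p.2 = k)).card →
  MidG Gr L C' (M * θ)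

/-- MIDS: middle range, arcs with many links. -/
def T_MIDS : Prop := ∀ (C M : ℕ), 1 ≤ M → ∃ C' : ℕ, ∀ (V : Type) (Gr : SimpleGraph V) (L : ℤ)
  (c v : ℤ → V) (P : Finset Pt) (lam θ : ℕ) (Ks : Finset ℕ) (x : ℤ) (k : ℕ),
  Cyc Gr L c v P lam → 32 ≤ θ → 4 ∣ θ → (M * θ : ℕ) ≤ L → C' * θ ≤ L → C' ≤ θ →
  L ≤ C * θ * Ks.card →
  (∀ k ∈ Ks, θ ≤ (P.filter (fun p => tau P (M * θ) p.1 = k ∧ tau P (M * θ) p.2 = k)).card) →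
  θ ≤ C * (P.filter (fun p => p.1 = x ∧ tau P (M * θ) p.2 = k)).card →
  MidG Gr L C' (M * θ)

/-- LOWB: bounded range, bands. -/
def T_LOWB : Prop := ∀ (V : Type) (Gr : SimpleGraph V) (L : ℤ) (c v : ℤ → V) (P : Finset Pt)
  (lam K W : ℕ) (Bs : List (Pt × Pt)), Cyc Gr L c v P lam → 1 ≤ K → PB P K W Bs →
  (∃ X : Finset ℕ, Bs.length ≤ 4 * X.card ∧ (∀ n ∈ X, n ∈ cycleSet Gr) ∧ Gap X 1 (2 * W)) ∨
  (∃ m : ℕ, Bs.length ≤ 2 * m ∧ ZDm Gr m)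

/-- LOWS: bounded range, arcs with many links. -/
def T_LOWS : Prop := ∀ (V : Type) (Gr : SimpleGraph V) (L : ℤ) (c v : ℤ → V) (P : Finset Pt)
  (lam θ Lm : ℕ) (Ks : Finset ℕ), Cyc Gr L c v P lam → 3 ≤ θ → 1 ≤ Lm →
  (∀ k ∈ Ks, θ ≤ (P.filter (fun p => tau P Lm p.1 = k ∧ tau P Lm p.2 = k)).card) →
  ∃ X : Finset ℕ, Ks.card ≤ X.card ∧ (∀ n ∈ X, n ∈ cycleSet Gr) ∧ Gap X 1 Lm

/-- STAR: one hub. -/
def T_STAR : Prop := ∀ (V : Type) (Gr : SimpleGraph V) (L : ℤ) (c v : ℤ → V) (P : Finset Pt)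
  (lam : ℕ), Cyc Gr L c v P lam → ∀ x : ℤ, ZDm Gr (dg P x)

/-- MAIN3: the trichotomy. -/
def T_MAIN3 : Prop := ∀ (t R : ℕ), 1 ≤ R → ∃ C : ℕ, 1 ≤ C ∧ ∀ D0 e : ℕ, ∃ C1 : ℕ, 1 ≤ C1 ∧
  ∀ (V : Type) (Gr : SimpleGraph V) (L : ℤ) (c v : ℤ → V) (P : Finset Pt) (lam : ℕ),
  Cyc Gr L c v P lam → ¬ Minor (⊤ : SimpleGraph (Fin t)) Gr → L ≤ R * P.card → C1 ≤ L →
  (∃ Lm : ℕ, D0 ≤ Lm ∧ e * Lm ≤ L ∧ MidG Gr L C Lm) ∨
  (∃ X : Finset ℕ, L ≤ C1 * X.card ∧ (∀ n ∈ X, n ∈ cycleSet Gr) ∧ Gap X 1 C1) ∨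
  (∃ m : ℕ, L ≤ C1 * m ∧ ZDm Gr m)

/-! ## The four kinds of cycle sets -/

/-- CMID: few sets with the middle structure. -/
def T_CMID : Prop := ∀ R C : ℕ, 1 ≤ R → 1 ≤ C → ∃ (D0 e n0 : ℕ) (δ : ℝ), 0 < δ ∧
  ∀ n : ℕ, n0 ≤ n →
  (({A : Set ℕ | (∀ l ∈ A, l ≤ n) ∧ ∃ (Lm : ℕ) (I : Finset ℕ) (Y : Finset ℤ) (σ : ℤ),
    D0 ≤ Lm ∧ e * Lm ≤ n ∧ (∀ i ∈ I, i < Lm) ∧ Lm ≤ C * I.card ∧ n ≤ C * R * Lm * Y.card ∧
    (∀ y ∈ Y, ∀ z ∈ Y, y < z → y + Lm ≤ z) ∧ (σ = 1 ∨ σ = -1) ∧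
    ∀ y ∈ Y, ∀ i ∈ I, ∃ N ∈ A, (N : ℤ) = y + σ * i}.ncard : ℕ) : ℝ) ≤ 2 ^ ((1 - δ) * n)

/-- CGAP: few sets with bounded gaps in a long interval. -/
def T_CGAP : Prop := ∀ C : ℕ, 1 ≤ C → ∃ (n0 : ℕ) (δ : ℝ), 0 < δ ∧ ∀ n : ℕ, n0 ≤ n →
  (({A : Set ℕ | (∀ l ∈ A, l ≤ n) ∧ ∃ X : Finset ℕ, n ≤ C * X.card ∧ (∀ x ∈ X, x ∈ A) ∧
    Gap X 1 C}.ncard : ℕ) : ℝ) ≤ 2 ^ ((1 - δ) * n)

/-- CZD: few sets which contain `Z - D`. -/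
def T_CZD : Prop := ∀ C : ℕ, 1 ≤ C → ∃ (s n0 : ℕ) (δ : ℝ), 1 ≤ s ∧ 0 < δ ∧
  ∀ n : ℕ, n0 ≤ n →
  (({A : Set ℕ | (∀ l ∈ A, l ≤ n) ∧ ∃ Z D : Finset ℤ, D.card = s ∧ n ≤ C * Z.card ∧
    ∀ z ∈ Z, ∀ d ∈ D, ∃ N ∈ A, (N : ℤ) = z - d}.ncard : ℕ) : ℝ) ≤ 2 ^ ((1 - δ) * n)

/-- CSM: the bound of SMALLX. -/
def T_CSM : Prop := ∀ K : ℕ, 1 ≤ K → ∃ R0 : ℕ, ∀ R : ℕ, R0 ≤ R → ∃ (n0 : ℕ) (δ : ℝ),
  0 < δ ∧ ∀ n : ℕ, n0 ≤ n →
  ((K ^ (n / R + 1) * (n + K * (n / R + 1)).choose (K * (n / R + 1)) : ℕ) : ℝ) ≤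
    2 ^ ((1 - δ) * n)

/-- the number of cycle sets of graphs without `K_t` minor -/
noncomputable def numCycleSets (t n : ℕ) : ℕ :=
  {A : Set ℕ | ∃ G : SimpleGraph (Fin n), ¬ Minor (⊤ : SimpleGraph (Fin t)) G ∧
    A = cycleSet G}.ncard

/-- FINAL2 -/
def T_FINAL2 : Prop := ∀ t : ℕ, ∃ c : ℝ, 0 < c ∧ ∀ n : ℕ,
  (numCycleSets t n : ℝ) ≤ 2 ^ ((1 - c) * n)

end Pool.Agent.CycMC
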