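import Pool.Agent.CycMC.Targets

/-!
# From positions to words
-/

set_option autoImplicit false

namespace Pool.Agent.CycMC

open Finset
open Pool.Agent.CycSp (Pt Cyc)

namespace WordAux

variable {V : Type}

theorem seg_eq (c : ℤ → V) (a b : ℤ) :
    seg c a b = (List.range (b + 1 - a).toNat).map (fun i : ℕ => c (a + (i : ℤ))) := by
  unfold seg
  simp [List.map_eq_flatMap, List.flatMap_assoc]

theorem mem_seg {c : ℤ → V} {a b : ℤ} {u : V} :
    u ∈ seg c a b ↔ ∃ i, a ≤ i ∧ i ≤ b ∧ c i = u := by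
  rw [seg_eq]
  rw [List.mem_map]
  constructor
  · rintro ⟨i, hi, rfl⟩
    rw [List.mem_range] at hi
    exact ⟨a + i, by omega, by omega, rfl⟩
  · rintro ⟨i, h1, h2, rfl⟩
    refine ⟨(i - a).toNat, ?_, ?_⟩
    · rw [List.mem_range]; omega
    · congr 1; omega

theorem length_seg (c : ℤ → V) (a b : ℤ) : (seg c a b).length = (b + 1 - a).toNat := by
  rw [seg_eq, List.length_map, List.length_range]

theorem seg_append (c : ℤ → V) {a b d : ℤ} (h1 : a ≤ b + 1) (h2 : b ≤ d) :
    seg c a b ++ seg c (b + 1) d = seg c a d := by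
  rw [seg_eq, seg_eq, seg_eq]
  have h : (d + 1 - a).toNat = (b + 1 - a).toNat + (d + 1 - (b + 1)).toNat := by omega
  rw [h, List.range_add, List.map_append, List.map_map]
  congr 1
  apply List.map_congr_left
  intro i _
  simp only [Function.comp]
  congr 1
  push_cast
  omega

theorem seg_self (c : ℤ → V) (a : ℤ) : seg c a a = [c a] := by
  rw [seg_eq]
  have : (a + 1 - a).toNat = 1 := by omega
  rw [this]
  simp

theorem seg_cons (c : ℤ → V) {a b : ℤ} (h : a ≤ b) :
    seg c a b = c a :: seg c (a + 1) b := by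
  rw [← seg_append c (a := a) (b := a) (d := b) (by omega) h, seg_self]
  rfl

theorem seg_snoc (c : ℤ → V) {a b : ℤ} (h : a ≤ b) :
    seg c a b = seg c a (b - 1) ++ [c b] := by
  have h' := seg_append c (a := a) (b := b - 1) (d := b) (by omega) (by omega)
  rw [← h', show b - 1 + 1 = b by ring, seg_self]

theorem seg_both (c : ℤ → V) {a b : ℤ} (h : a < b) :
    seg c a b = c a :: (seg c (a + 1) (b - 1) ++ [c b]) := by
  rw [seg_cons c h.le, seg_snoc c (a := a + 1) (b := b) (by omega)]

theorem seg_nil (c : ℤ → V) {a b : ℤ} (h : b < a) : seg c a b = [] := by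
  rw [seg_eq]
  have : (b + 1 - a).toNat = 0 := by omega
  rw [this]
  rfl

theorem nodup_seg {c : ℤ → V} {a b : ℤ}
    (h : ∀ i j, a ≤ i → i ≤ b → a ≤ j → j ≤ b → c i = c j → i = j) : (seg c a b).Nodup := by
  rw [seg_eq]
  refine List.Nodup.map_on ?_ List.nodup_range
  intro i hi j hj hij
  rw [List.mem_range] at hi hj
  have := h (a + i) (a + j) (by omega) (by omega) (by omega) (by omega) hij
  omega

theorem chain_seg {c : ℤ → V} {R : V → V → Prop} {a b : ℤ}
    (h : ∀ i, a ≤ i → i < b → R (c i) (c (i + 1))) : (seg c a b).IsChain R := by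
  rw [seg_eq, List.isChain_map, List.isChain_range]
  intro m hm
  have := h (a + m) (by omega) (by omega)
  have h2 : a + ((m.succ : ℕ) : ℤ) = a + m + 1 := by push_cast; ring
  rw [h2]
  exact this

theorem getElem_seg (c : ℤ → V) {a b i : ℤ} (h1 : a ≤ i) (h2 : i ≤ b) :
    (seg c a b)[(i - a).toNat]? = some (c i) := by
  rw [seg_eq, List.getElem?_map, List.getElem?_range (by omega)]
  simp only [Option.map_some]
  congr 2
  omega

theorem last_seg (c : ℤ → V) {a b : ℤ} (h : a ≤ b) : (seg c a b).getLast? = some (c b) := by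
  rw [seg_snoc c h]
  simp

theorem head_seg (c : ℤ → V) {a b : ℤ} (h : a ≤ b) : (seg c a b).head? = some (c a) := by
  rw [seg_cons c h]
  simp

section
variable {Gr : SimpleGraph V} {L : ℤ} {c v : ℤ → V} {P : Finset Pt} {lam K W : ℕ}
  {Bs : List (Pt × Pt)}

theorem lam_cases (hC : Cyc Gr L c v P lam) : lam = 1 ∨ lam = 2 := by
  rcases hC.link with h | h
  · exact Or.inl h.1
  · exact Or.inr h.1

theorem kp_len (hC : Cyc Gr L c v P lam) (x : ℤ) : (kp v lam x).length + 1 = lam := by
  rcases lam_cases hC with h | h <;> simp [kp, h]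

theorem link_chain (hC : Cyc Gr L c v P lam) {p : Pt} (hp : p ∈ P) :
    (c p.1 :: (kp v lam p.1 ++ [c p.2])).IsChain Gr.Adj := by
  rcases hC.link with ⟨h1, h2⟩ | ⟨h1, h2, -⟩
  · simp only [kp, h1]
    simpa using h2 p hp
  · simp only [kp, h1]
    simpa using h2 p hp

theorem mem_kp {x : ℤ} {u : V} (h : u ∈ kp v lam x) : lam = 2 ∧ u = v x := by
  unfold kp at h
  split_ifs at h with h1
  · exact ⟨h1, by simpa using h⟩
  · simp at h

theorem kp_out (hC : Cyc Gr L c v P lam) {p : Pt} (hp : p ∈ P) {u : V}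
    (hu : u ∈ kp v lam p.1) {i : ℤ} (h0 : 0 ≤ i) (h1 : i < L) : u ≠ c i := by
  obtain ⟨h2, rfl⟩ := mem_kp hu
  rcases hC.link with ⟨h3, -⟩ | ⟨-, -, h4, -⟩
  · omega
  · exact h4 p hp i h0 h1

theorem kp_inj (hC : Cyc Gr L c v P lam) {p q : Pt} (hp : p ∈ P) (hq : q ∈ P) {u : V}
    (hu : u ∈ kp v lam p.1) (hu' : u ∈ kp v lam q.1) : p.1 = q.1 := by
  obtain ⟨h2, rfl⟩ := mem_kp hu
  obtain ⟨-, h3⟩ := mem_kp hu'
  rcases hC.link with ⟨h4, -⟩ | ⟨-, -, -, h5⟩
  · omega
  · exact h5 p hp q hq h3

theorem toBand_k (e : Pt × Pt) : (toBand c v lam e).k = kp v lam e.1.1 := by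
  unfold toBand; split_ifs <;> rfl

theorem toBand_k' (e : Pt × Pt) : (toBand c v lam e).k' = kp v lam e.2.1 := by
  unfold toBand; split_ifs <;> rfl

theorem toBand_p (e : Pt × Pt) : (toBand c v lam e).p = c e.1.1 := by
  unfold toBand; split_ifs <;> rfl

theorem toBand_p' (e : Pt × Pt) : (toBand c v lam e).p' = c e.2.1 := by
  unfold toBand; split_ifs <;> rfl

theorem toBand_q (e : Pt × Pt) : (toBand c v lam e).q = c e.1.2 := by
  unfold toBand; split_ifs <;> rfl

theorem toBand_q' (e : Pt × Pt) : (toBand c v lam e).q' = c e.2.2 := by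
  unfold toBand; split_ifs <;> rfl

theorem toBand_l2 (e : Pt × Pt) (h : e.1.2 < e.2.2) :
    (toBand c v lam e).l2 = seg c e.1.2 e.2.2 := by
  rw [seg_both c h]
  unfold toBand Band.l2
  split_ifs <;> rfl

theorem toBand_l1 (e : Pt × Pt) (h : e.1.1 ≠ e.2.1) :
    (toBand c v lam e).l1 = seg c (min e.1.1 e.2.1) (max e.1.1 e.2.1) ∨
      (toBand c v lam e).l1.reverse = seg c (min e.1.1 e.2.1) (max e.1.1 e.2.1) := by
  rcases lt_or_gt_of_ne h with h1 | h1
  · left
    rw [min_eq_left h1.le, max_eq_right h1.le, seg_both c h1]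
    unfold toBand Band.l1
    rw [if_pos h1]
  · right
    rw [min_eq_right h1.le, max_eq_left h1.le, seg_both c h1]
    unfold toBand Band.l1
    rw [if_neg (by omega)]
    simp

theorem l1_perm (e : Pt × Pt) (h : e.1.1 ≠ e.2.1) :
    (toBand c v lam e).l1.Perm (seg c (min e.1.1 e.2.1) (max e.1.1 e.2.1)) := by
  rcases toBand_l1 (c := c) (v := v) (lam := lam) e h with h1 | h1
  · rw [h1]
  · rw [← h1]
    exact (List.reverse_perm _).symm

/-- The general form. -/
theorem pst_of (hC : Cyc Gr L c v P lam) (hB : PB P K W Bs) (w : List (List V))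
    (hch : w.flatten.IsChain Gr.Adj) (hnd : w.flatten.Nodup)
    (hmem : ∀ u ∈ w.flatten, ∃ i, 0 ≤ i ∧ i < L ∧ c i = u)
    (hleg : ∀ I ∈ Bs.flatMap ivs, seg c I.1 I.2 ∈ w) :
    PSt Gr lam K W w (Bs.map (toBand c v lam)) := by
  have hiv1 : ∀ e ∈ Bs, (min e.1.1 e.2.1, max e.1.1 e.2.1) ∈ Bs.flatMap ivs := by
    intro e he
    rw [List.mem_flatMap]
    exact ⟨e, he, by simp [ivs]⟩
  have hiv2 : ∀ e ∈ Bs, (e.1.2, e.2.2) ∈ Bs.flatMap ivs := by
    intro e he
    rw [List.mem_flatMap]
    exact ⟨e, he, by simp [ivs]⟩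
  have hrange : ∀ I ∈ Bs.flatMap ivs, 0 ≤ I.1 ∧ I.2 < L := by
    intro I hI
    rw [List.mem_flatMap] at hI
    obtain ⟨e, he, hI⟩ := hI
    obtain ⟨m1, m2, m3, m4⟩ := hB.mem e he
    have c1 := hC.mem e.1 m1
    have c2 := hC.mem e.2 m2
    simp only [ivs, List.mem_cons, List.not_mem_nil, or_false] at hI
    rcases hI with rfl | rfl
    · simp only
      omega
    · simp only
      omega
  have hdisj : ((Bs.flatMap ivs).flatMap (fun I => seg c I.1 I.2)).Nodup := by
    rw [List.nodup_flatMap]
    refine ⟨?_, ?_⟩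
    · intro I hI
      have := hrange I hI
      refine nodup_seg ?_
      intro i j h1 h2 h3 h4 h5
      exact hC.inj i j (by omega) (by omega) (by omega) (by omega) h5
    · refine (List.Pairwise.and_mem.1 hB.dis).imp ?_
      rintro I J ⟨hI, hJ, hd⟩
      have r1 := hrange I hI
      have r2 := hrange J hJ
      intro u hu hu'
      rw [mem_seg] at hu hu'
      obtain ⟨i, i1, i2, rfl⟩ := hu
      obtain ⟨j, j1, j2, j3⟩ := hu'
      have := hC.inj j i (by omega) (by omega) (by omega) (by omega) j3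
      subst this
      rcases hd with hd | hd <;> omega
  have hx : ∀ e ∈ Bs, ∀ x, (x = e.1.1 ∨ x = e.2.1) →
      min e.1.1 e.2.1 ≤ x ∧ x ≤ max e.1.1 e.2.1 := by
    intro e he x hx
    rcases hx with rfl | rfl <;> omega
  constructor
  · exact hch
  · exact hnd
  · rw [List.flatMap_map]
    rw [List.flatMap_assoc] at hdisj
    refine (List.Perm.nodup_iff ?_).2 hdisj
    refine List.Perm.flatMap_left _ ?_
    intro e he
    obtain ⟨m1, m2, m3, m4⟩ := hB.mem e he
    rw [toBand_l2 e m4]
    simp only [ivs, List.flatMap_cons, List.flatMap_nil, List.append_nil]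
    exact (l1_perm e m3).append_right _
  · rw [List.flatMap_map]
    rw [List.nodup_flatMap]
    refine ⟨?_, ?_⟩
    · intro e he
      obtain ⟨m1, m2, m3, m4⟩ := hB.mem e he
      rw [toBand_k, toBand_k']
      rw [List.nodup_append]
      refine ⟨?_, ?_, ?_⟩
      · unfold kp; split_ifs <;> simp
      · unfold kp; split_ifs <;> simp
      · intro a ha b hb hab
        subst hab
        exact m3 (kp_inj hC m1 m2 ha hb)
    · have hd := hB.dis
      rw [List.pairwise_flatMap] at hd
      refine (List.Pairwise.and_mem.1 hd.2).imp ?_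
      rintro e f ⟨he, hf, hd⟩ u hu hu'
      obtain ⟨m1, m2, m3, m4⟩ := hB.mem e he
      obtain ⟨n1, n2, n3, n4⟩ := hB.mem f hf
      simp only [toBand_k, toBand_k', List.mem_append] at hu hu'
      have h0 := hd (min e.1.1 e.2.1, max e.1.1 e.2.1) (by simp [ivs])
        (min f.1.1 f.2.1, max f.1.1 f.2.1) (by simp [ivs])
      unfold Dis at h0
      simp only at h0
      rcases hu with hu | hu <;> rcases hu' with hu' | hu'
      · have := kp_inj hC m1 n1 hu hu'
        omega
      · have := kp_inj hC m1 n2 hu hu'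
        omega
      · have := kp_inj hC m2 n1 hu hu'
        omega
      · have := kp_inj hC m2 n2 hu hu'
        omega
  · rintro u ⟨b, hb, hu⟩ hw
    rw [List.mem_map] at hb
    obtain ⟨e, he, rfl⟩ := hb
    obtain ⟨m1, m2, m3, m4⟩ := hB.mem e he
    obtain ⟨i, i1, i2, i3⟩ := hmem u hw
    rw [toBand_k, toBand_k'] at hu
    rcases hu with hu | hu
    · exact kp_out hC m1 hu i1 i2 i3.symm
    · exact kp_out hC m2 hu i1 i2 i3.symm
  · intro b hb
    rw [List.mem_map] at hb
    obtain ⟨e, he, rfl⟩ := hb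
    obtain ⟨m1, m2, m3, m4⟩ := hB.mem e he
    refine ⟨?_, ?_⟩
    · rcases toBand_l1 (c := c) (v := v) (lam := lam) e m3 with h1 | h1
      · left
        rw [h1]
        exact hleg _ (hiv1 e he)
      · right
        rw [h1]
        exact hleg _ (hiv1 e he)
    · left
      rw [toBand_l2 e m4]
      exact hleg _ (hiv2 e he)
  · intro b hb
    rw [List.mem_map] at hb
    obtain ⟨e, he, rfl⟩ := hb
    obtain ⟨m1, m2, m3, m4⟩ := hB.mem e he
    rw [toBand_k, toBand_k', toBand_p, toBand_p', toBand_q, toBand_q']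
    exact ⟨link_chain hC m1, link_chain hC m2⟩
  · intro b hb
    rw [List.mem_map] at hb
    obtain ⟨e, he, rfl⟩ := hb
    rw [toBand_k, toBand_k']
    exact ⟨kp_len hC _, kp_len hC _⟩
  · intro b hb
    rw [List.mem_map] at hb
    obtain ⟨e, he, rfl⟩ := hb
    obtain ⟨m1, m2, m3, m4⟩ := hB.mem e he
    have h1 := (l1_perm (c := c) (v := v) (lam := lam) e m3).length_eq
    rw [toBand_l2 e m4, h1, length_seg, length_seg]
    have h2 := hB.lo e he
    have h3 := lam_cases hC
    omega
  · intro b hb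
    rw [List.mem_map] at hb
    obtain ⟨e, he, rfl⟩ := hb
    obtain ⟨m1, m2, m3, m4⟩ := hB.mem e he
    have h1 := (l1_perm (c := c) (v := v) (lam := lam) e m3).length_eq
    rw [toBand_l2 e m4, h1, length_seg, length_seg]
    have h2 := hB.hi e he
    have h3 : max e.1.1 e.2.1 - min e.1.1 e.2.1 = |e.2.1 - e.1.1| := by
      rw [max_sub_min_eq_abs]
    omega

theorem iv_le (hC : Cyc Gr L c v P lam) (hB : PB P K W Bs) :
    ∀ I ∈ Bs.flatMap ivs, 0 ≤ I.1 ∧ I.1 ≤ I.2 ∧ I.2 < L := by
  intro I hI
  rw [List.mem_flatMap] at hI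
  obtain ⟨e, he, hI⟩ := hI
  obtain ⟨m1, m2, m3, m4⟩ := hB.mem e he
  have c1 := hC.mem e.1 m1
  have c2 := hC.mem e.2 m2
  simp only [ivs, List.mem_cons, List.not_mem_nil, or_false] at hI
  rcases hI with rfl | rfl
  · simp only
    omega
  · simp only
    omega

end

end WordAux

open WordAux

theorem p_WORD0 (h1 : T_BLK) : T_WORD0 := by
  intro V Gr L c v P lam K W Bs hC hB
  have hiv := iv_le hC hB
  obtain ⟨w, hw, hleg⟩ := h1 V c 0 (L - 1) (Bs.flatMap ivs)
    (fun I hI => by have := hiv I hI; omega) hB.dis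
  refine ⟨w, hw, pst_of hC hB w ?_ ?_ ?_ hleg⟩
  · rw [hw]
    exact chain_seg (fun i h0 h1 => hC.adj i h0 (by omega))
  · rw [hw]
    exact nodup_seg (fun i j h0 h1 h2 h3 h4 => hC.inj i j h0 (by omega) h2 (by omega) h4)
  · intro u hu
    rw [hw, mem_seg] at hu
    obtain ⟨i, h0, h1, h2⟩ := hu
    exact ⟨i, h0, by omega, h2⟩

theorem p_WORD (h1 : T_BLK) : T_WORD := by
  intro V Gr L c v P lam K W Bs x j0 j1 hC hB hx hxj hj hP hdis
  have hiv := iv_le hC hB
  have hmem := hC.mem _ hP
  simp only at hmem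
  obtain ⟨w1, hw1, hl1⟩ := h1 V c 0 (x - 1)
    ((Bs.flatMap ivs).filter (fun I => I.2 < x))
    (fun I hI => by
      rw [List.mem_filter] at hI
      have := hiv I hI.1
      have h2 := hI.2
      simp only [decide_eq_true_eq] at h2
      omega) (hB.dis.filter _)
  obtain ⟨wA, hwA, hlA⟩ := h1 V c (x + 1) (j0 - 1)
    ((Bs.flatMap ivs).filter (fun I => x < I.1 ∧ I.2 < j0))
    (fun I hI => by
      rw [List.mem_filter] at hI
      have := hiv I hI.1
      have h2 := hI.2
      simp only [decide_eq_true_eq] at h2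
      omega) (hB.dis.filter _)
  obtain ⟨w2, hw2, hl2⟩ := h1 V c (j1 + 1) (L - 1)
    ((Bs.flatMap ivs).filter (fun I => j1 < I.1))
    (fun I hI => by
      rw [List.mem_filter] at hI
      have := hiv I hI.1
      have h2 := hI.2
      simp only [decide_eq_true_eq] at h2
      omega) (hB.dis.filter _)
  have hflat : ([c x] :: (wA ++ seg c j0 j1 :: (w2 ++ w1))).flatten
      = seg c x (L - 1) ++ seg c 0 (x - 1) := by
    simp only [List.flatten_cons, List.flatten_append]
    rw [hwA, hw1, hw2]
    have e1 : seg c x (L - 1) = [c x] ++ (seg c (x + 1) (j0 - 1) ++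
        (seg c j0 j1 ++ seg c (j1 + 1) (L - 1))) := by
      rw [seg_append c (a := j0) (b := j1) (d := L - 1) (by omega) (by omega)]
      have h2 := seg_append c (a := x + 1) (b := j0 - 1) (d := L - 1) (by omega) (by omega)
      rw [show j0 - 1 + 1 = j0 by ring] at h2
      rw [h2, seg_cons c (a := x) (b := L - 1) (by omega)]
      rfl
    rw [e1]
    simp only [List.append_assoc]
  have hcase : ∀ I ∈ Bs.flatMap ivs, seg c I.1 I.2 ∈ wA ∨ seg c I.1 I.2 ∈ w2 ++ w1 := by
    intro I hI
    have h0 := hiv I hI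
    obtain ⟨d1, d2⟩ := hdis I hI
    unfold Dis at d1 d2
    simp only at d1 d2
    by_cases hc : I.2 < x
    · right
      rw [List.mem_append]
      right
      refine hl1 I ?_
      rw [List.mem_filter]
      exact ⟨hI, by simpa using hc⟩
    · by_cases hc2 : I.2 < j0
      · left
        refine hlA I ?_
        rw [List.mem_filter]
        refine ⟨hI, ?_⟩
        simp only [decide_eq_true_eq]
        omega
      · right
        rw [List.mem_append]
        left
        refine hl2 I ?_
        rw [List.mem_filter]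
        refine ⟨hI, ?_⟩
        simp only [decide_eq_true_eq]
        omega
  have hmemf : ∀ u ∈ ([c x] :: (wA ++ seg c j0 j1 :: (w2 ++ w1))).flatten,
      ∃ i, 0 ≤ i ∧ i < L ∧ c i = u := by
    intro u hu
    rw [hflat, List.mem_append, mem_seg, mem_seg] at hu
    rcases hu with ⟨i, i1, i2, i3⟩ | ⟨i, i1, i2, i3⟩
    · exact ⟨i, by omega, by omega, i3⟩
    · exact ⟨i, by omega, by omega, i3⟩
  have hst : PSt Gr lam K W ([c x] :: (wA ++ seg c j0 j1 :: (w2 ++ w1)))
      (Bs.map (toBand c v lam)) := by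
    refine pst_of hC hB _ ?_ ?_ hmemf ?_
    · rw [hflat, List.isChain_append]
      refine ⟨chain_seg (fun i h0 h1 => hC.adj i (by omega) (by omega)),
        chain_seg (fun i h0 h1 => hC.adj i (by omega) (by omega)), ?_⟩
      intro a ha b hb
      rw [last_seg c (by omega)] at ha
      rcases lt_or_ge 0 x with h0 | h0
      · rw [head_seg c (by omega)] at hb
        simp only [Option.mem_def, Option.some.injEq] at ha hb
        rw [← ha, ← hb]
        exact hC.last
      · rw [seg_nil c (by omega)] at hb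
        simp at hb
    · rw [hflat]
      have hp : (seg c x (L - 1) ++ seg c 0 (x - 1)).Perm (seg c 0 (L - 1)) := by
        have h2 := seg_append c (a := 0) (b := x - 1) (d := L - 1) (by omega) (by omega)
        rw [show x - 1 + 1 = x by ring] at h2
        rw [← h2]
        exact List.perm_append_comm
      rw [hp.nodup_iff]
      exact nodup_seg (fun i j h0 h1 h2 h3 h4 => hC.inj i j h0 (by omega) h2 (by omega) h4)
    · intro I hI
      rcases hcase I hI with h | h
      · simp [h]
      · rw [List.mem_append] at h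
        rcases h with h | h <;> simp [h]
  refine ⟨if lam = 2 then v x else c x, kp v lam x, wA, w2 ++ w1, ⟨hst, ?_, ?_, ?_, ?_, ?_, ?_⟩⟩
  · intro a ha
    rw [hflat] at ha
    rcases lt_or_ge 0 x with h0 | h0
    · rw [List.getLast?_append, last_seg c (a := 0) (b := x - 1) (by omega)] at ha
      simp only [Option.some_or, Option.mem_def, Option.some.injEq] at ha
      rw [← ha]
      have := hC.adj (x - 1) (by omega) (by omega)
      rwa [show x - 1 + 1 = x by ring] at this
    · have hx0 : x = 0 := by omega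
      rw [seg_nil c (a := 0) (b := x - 1) (by omega), List.append_nil,
        last_seg c (by omega)] at ha
      simp only [Option.mem_def, Option.some.injEq] at ha
      rw [← ha, hx0]
      exact hC.last
  · intro b hb
    rw [List.mem_map] at hb
    obtain ⟨e, he, rfl⟩ := hb
    obtain ⟨m1, m2, m3, m4⟩ := hB.mem e he
    have hiv1 : (min e.1.1 e.2.1, max e.1.1 e.2.1) ∈ Bs.flatMap ivs := by
      rw [List.mem_flatMap]
      exact ⟨e, he, by simp [ivs]⟩
    have hiv2 : (e.1.2, e.2.2) ∈ Bs.flatMap ivs := by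
      rw [List.mem_flatMap]
      exact ⟨e, he, by simp [ivs]⟩
    have g1 := hcase _ hiv1
    have g2 := hcase _ hiv2
    rw [← List.mem_append] at g1 g2
    refine ⟨?_, ?_⟩
    · rcases toBand_l1 (c := c) (v := v) (lam := lam) e m3 with h1 | h1
      · left
        rw [h1]
        exact g1
      · right
        rw [h1]
        exact g1
    · left
      rw [toBand_l2 e m4]
      exact g2
  · rcases lam_cases hC with hl | hl
    · left
      simp [kp, hl]
    · right
      refine ⟨by simp [kp, hl], ?_, ?_⟩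
      · rw [if_pos hl]
        intro hu
        obtain ⟨i, i1, i2, i3⟩ := hmemf _ hu
        exact kp_out hC hP (u := v x) (by simp [kp, hl]) i1 i2 i3.symm
      · rw [if_pos hl]
        rintro ⟨b, hb, hu⟩
        rw [List.mem_map] at hb
        obtain ⟨e, he, rfl⟩ := hb
        obtain ⟨m1, m2, m3, m4⟩ := hB.mem e he
        have hiv1 : (min e.1.1 e.2.1, max e.1.1 e.2.1) ∈ Bs.flatMap ivs := by
          rw [List.mem_flatMap]
          exact ⟨e, he, by simp [ivs]⟩
        have d := (hdis _ hiv1).1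
        unfold Dis at d
        simp only at d
        rw [toBand_k, toBand_k'] at hu
        have hvx : v x ∈ kp v lam ((x, j1) : Pt).1 := by simp [kp, hl]
        rcases hu with hu | hu
        · have := kp_inj hC m1 hP hu hvx
          simp only at this
          omega
        · have := kp_inj hC m2 hP hu hvx
          simp only at this
          omega
  · exact kp_len hC x
  · intro i hi
    rw [Finset.mem_image] at hi
    obtain ⟨p, hp, rfl⟩ := hi
    rw [Finset.mem_filter] at hp
    obtain ⟨hp, hp1, hp2, hp3⟩ := hp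
    refine ⟨c p.2, getElem_seg c hp2 hp3, ?_⟩
    have := link_chain hC hp
    rwa [hp1] at this
  · refine ⟨(j1 - j0).toNat, ?_, ?_⟩
    · rw [Finset.mem_image]
      refine ⟨(x, j1), ?_, rfl⟩
      rw [Finset.mem_filter]
      exact ⟨hP, rfl, hj, le_refl _⟩
    · rw [length_seg]
      omega

end Pool.Agent.CycMC
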